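import Mathlib

/-! Books of glued lines, palindromic paths and their normal form.
Plan: /team-store/h64_daaf23_w12.md. -/

set_option autoImplicit false

namespace Pool.Agent.P.MP_daaf23_co

variable {B : Type}

/-- the letters between the cuts `p` and `v` form a palindrome -/
def Pal (L : ℤ → B) (p v : ℤ) : Prop :=
  ∀ i, min p v ≤ i → i < max p v → L i = L (p + v - 1 - i)

/-- no long factor has a short period -/
def PF (k : ℕ) (L : ℤ → B) : Prop :=
  ∀ d : ℤ, 0 < d → ∀ a : ℤ, ∃ i, a ≤ i ∧ i < a + k * d ∧ L i ≠ L (i + d)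

/-- `y` is within distance `r` of `c` -/
def Nr (c r y : ℤ) : Prop := c - r ≤ y ∧ y ≤ c + r

/-- a list of junctions, each with the next line -/
abbrev Bk (B : Type) : Type := List (Set ℤ × (ℤ → B))

/-- the last line of a book -/
def lastL : (ℤ → B) → Bk B → (ℤ → B)
  | L, [] => L
  | _, j :: l => lastL j.2 l

theorem lastL_append (L : ℤ → B) (l l' : Bk B) : lastL L (l ++ l') = lastL (lastL L l) l' := by
  induction l generalizing L with
  | nil => rfl
  | cons j l ih => exact ih j.2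

/-- junctions are convex and consecutive lines agree on them -/
def Good (k : ℕ) : (ℤ → B) → Bk B → Prop
  | L, [] => PF k L
  | L, j :: l => PF k L ∧ (∀ p q r, p ∈ j.1 → q ∈ j.1 → p ≤ r → r ≤ q → r ∈ j.1) ∧
      (∀ p q i, p ∈ j.1 → q ∈ j.1 → p ≤ i → i < q → L i = j.2 i) ∧ Good k j.2 l

theorem Good.pf {k : ℕ} {L : ℤ → B} {l : Bk B} (h : Good k L l) : PF k L := by
  cases l with
  | nil => exact h
  | cons j l => exact h.1

theorem good_append {k : ℕ} {L : ℤ → B} {l l' : Bk B} :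
    Good k L (l ++ l') ↔ Good k L l ∧ Good k (lastL L l) l' := by
  induction l generalizing L with
  | nil => exact ⟨fun h => ⟨h.pf, h⟩, fun h => h.2⟩
  | cons j l ih =>
    constructor
    · rintro ⟨h1, h2, h3, h4⟩
      exact ⟨⟨h1, h2, h3, (ih.1 h4).1⟩, (ih.1 h4).2⟩
    · rintro ⟨⟨h1, h2, h3, h4⟩, h5⟩
      exact ⟨h1, h2, h3, ih.2 ⟨h4, h5⟩⟩

theorem Good.agree {k : ℕ} {L : ℤ → B} {l : Bk B} (h : Good k L l) {p q : ℤ}
    (hp : ∀ j ∈ l, p ∈ j.1) (hq : ∀ j ∈ l, q ∈ j.1) {i : ℤ} (h1 : p ≤ i) (h2 : i < q) :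
    L i = lastL L l i := by
  induction l generalizing L with
  | nil => rfl
  | cons j l ih =>
    rw [h.2.2.1 p q i (hp j (by simp)) (hq j (by simp)) h1 h2]
    exact ih h.2.2.2 (fun j' hj => hp j' (by simp [hj])) (fun j' hj => hq j' (by simp [hj]))

theorem Pal.symm {L : ℤ → B} {p v : ℤ} (h : Pal L p v) : Pal L v p := by
  intro i h1 h2
  rw [h i (by omega) (by omega)]
  congr 1
  omega

theorem Pal.congr {L L' : ℤ → B} {p v : ℤ} (h : Pal L p v)
    (he : ∀ i, min p v ≤ i → i < max p v → L i = L' i) : Pal L' p v := by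
  intro i h1 h2
  rw [← he i h1 h2, ← he _ (by omega) (by omega)]
  exact h i h1 h2

/-- two palindromes with the same right end -/
theorem saarela_right {L : ℤ → B} {u v : ℤ} (huv : u < v) (n : ℕ) :
    ∀ p, v ≤ p → p - v ≤ n → Pal L u p → Pal L v p → ∃ r, u ≤ r ∧ r ≤ v ∧ Pal L u r ∧ Pal L r v := by
  induction n with
  | zero =>
    intro p h1 h2 h3 _
    have e : p = v := by omega
    subst e
    exact ⟨p, by omega, le_rfl, h3, fun i h1 h2 => by omega⟩
  | succ n ih =>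
    intro p h1 h2 h3 h4
    have a1 : Pal L u (p - (v - u)) := by
      intro i b1 b2
      rw [h3 i (by omega) (by omega), h4 _ (by omega) (by omega),
        h3 (v + p - 1 - (u + p - 1 - i)) (by omega) (by omega)]
      congr 1
      omega
    have a2 : Pal L v (p - (v - u)) := by
      intro i b1 b2
      rw [h3 i (by omega) (by omega)]
      congr 1
      omega
    by_cases hc : v ≤ p - (v - u)
    · exact ih _ hc (by omega) a1 a2
    · exact ⟨p - (v - u), by omega, by omega, a1, a2.symm⟩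

theorem saarela_r {L : ℤ → B} {u v p : ℤ} (huv : u ≤ v) (hp : v ≤ p) (h1 : Pal L u p)
    (h2 : Pal L v p) : ∃ r, u ≤ r ∧ r ≤ v ∧ Pal L u r ∧ Pal L r v := by
  rcases huv.eq_or_lt with rfl | h
  · exact ⟨u, le_rfl, le_rfl, fun i _ _ => by omega, fun i _ _ => by omega⟩
  · exact saarela_right h (p - v).toNat p hp (by omega) h1 h2

theorem Pal.neg {L : ℤ → B} {p v : ℤ} (h : Pal L p v) : Pal (fun i => L (-1 - i)) (-p) (-v) := by
  intro i h1 h2
  show L _ = L _
  rw [h (-1 - i) (by omega) (by omega)]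
  congr 1
  omega

theorem saarela_l {L : ℤ → B} {u v p : ℤ} (huv : v ≤ u) (hp : p ≤ v) (h1 : Pal L u p)
    (h2 : Pal L v p) : ∃ r, v ≤ r ∧ r ≤ u ∧ Pal L u r ∧ Pal L r v := by
  obtain ⟨r, a1, a2, a3, a4⟩ := saarela_r (by omega) (by omega) h1.neg h2.neg
  refine ⟨-r, by omega, by omega, ?_, ?_⟩
  · simpa using a3.neg
  · simpa using a4.neg

/-- a path with at most `n` palindromic steps of total length `s` -/
inductive Pth : (ℤ → B) → Bk B → ℤ → ℤ → ℕ → ℕ → Prop
  | nil (L : ℤ → B) (p : ℤ) (n : ℕ) : Pth L [] p p n 0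
  | step (L : ℤ → B) (l : Bk B) (p v y : ℤ) (n s : ℕ) : Pal L p v → Pth L l v y n s →
      Pth L l p y (n + 1) (s + (p - v).natAbs)
  | pass (L : ℤ → B) (j : Set ℤ × (ℤ → B)) (l : Bk B) (p y : ℤ) (n s : ℕ) : p ∈ j.1 →
      Pth j.2 l p y n s → Pth L (j :: l) p y n s

theorem Pth.succ {L : ℤ → B} {l : Bk B} {p y : ℤ} {n s : ℕ} (h : Pth L l p y n s) :
    Pth L l p y (n + 1) s := by
  induction h with
  | nil L p n => exact .nil L p _
  | step L l p v y n s h1 _ ih => exact .step L l p v y _ s h1 ih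
  | pass L j l p y n s h1 _ ih => exact .pass L j l p y _ s h1 ih

theorem Pth.passAll {L : ℤ → B} {l0 l : Bk B} {p y : ℤ} {n s : ℕ} (hp : ∀ j ∈ l0, p ∈ j.1)
    (h : Pth (lastL L l0) l p y n s) : Pth L (l0 ++ l) p y n s := by
  induction l0 generalizing L with
  | nil => exact h
  | cons j l0 ih =>
    exact .pass L j _ p y n s (hp j (by simp)) (ih (fun j' hj => hp j' (by simp [hj])) h)

/-- a path with at most `n` palindromic steps -/
def Path (L : ℤ → B) (l : Bk B) (p y : ℤ) (n : ℕ) : Prop := ∃ s, Pth L l p y n s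

theorem Path.nil (L : ℤ → B) (p : ℤ) (n : ℕ) : Path L [] p p n := ⟨0, .nil L p n⟩

theorem Path.step {L : ℤ → B} {l : Bk B} {p v y : ℤ} {n : ℕ} (h1 : Pal L p v)
    (h : Path L l v y n) : Path L l p y (n + 1) := by
  obtain ⟨s, h⟩ := h
  exact ⟨_, .step L l p v y n s h1 h⟩

theorem Path.pass {L : ℤ → B} {j : Set ℤ × (ℤ → B)} {l : Bk B} {p y : ℤ} {n : ℕ} (h1 : p ∈ j.1)
    (h : Path j.2 l p y n) : Path L (j :: l) p y n := by
  obtain ⟨s, h⟩ := h
  exact ⟨_, .pass L j l p y n s h1 h⟩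

theorem Path.mono {L : ℤ → B} {l : Bk B} {p y : ℤ} {n m : ℕ} (h : Path L l p y n) (hn : n ≤ m) :
    Path L l p y m := by
  induction hn with
  | refl => exact h
  | step _ ih => obtain ⟨s, ih⟩ := ih; exact ⟨s, ih.succ⟩

theorem Path.passAll {L : ℤ → B} {l0 l : Bk B} {p y : ℤ} {n : ℕ} (hp : ∀ j ∈ l0, p ∈ j.1)
    (h : Path (lastL L l0) l p y n) : Path L (l0 ++ l) p y n := by
  obtain ⟨s, h⟩ := h
  exact ⟨s, h.passAll hp⟩

theorem Path.stay {L : ℤ → B} {l0 : Bk B} {p : ℤ} (hp : ∀ j ∈ l0, p ∈ j.1) : Path L l0 p p 0 := by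
  simpa using Path.passAll (L := L) hp (Path.nil _ p 0)

theorem Path.append {L : ℤ → B} {l l' : Bk B} {p q y : ℤ} {n m : ℕ} (h : Path L l p q n)
    (h' : Path (lastL L l) l' q y m) : Path L (l ++ l') p y (n + m) := by
  obtain ⟨s, h⟩ := h
  induction h with
  | nil L p n => exact Path.mono h' (by omega)
  | step L l p v y n s h1 _ ih => exact (Path.step h1 (ih h')).mono (by omega)
  | pass L j l p y n s h1 _ ih => exact Path.pass h1 (ih h')

/-- the turn `u, p, v` can be shortened inside `C` -/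
def Red (u : ℤ) (C : Set ℤ) (p v : ℤ) : Prop :=
  (u < p ∧ v < p ∧ max u v ∈ C) ∨ (p < u ∧ p < v ∧ min u v ∈ C)

/-- a normal path; `u` is the start of the last step and `C` lies in all junctions passed since -/
inductive NP : (ℤ → B) → Bk B → ℤ → Set ℤ → ℤ → ℤ → ℕ → Prop
  | nil (L : ℤ → B) (u : ℤ) (C : Set ℤ) (p : ℤ) (n : ℕ) : NP L [] u C p p n
  | step (L : ℤ → B) (l : Bk B) (u : ℤ) (C : Set ℤ) (p v y : ℤ) (n : ℕ) : Pal L p v → p ≠ v →
      ¬ Red u C p v → NP L l p Set.univ v y n → NP L l u C p y (n + 1)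
  | pass (L : ℤ → B) (j : Set ℤ × (ℤ → B)) (l : Bk B) (u : ℤ) (C : Set ℤ) (p y : ℤ) (n : ℕ) :
      p ∈ j.1 → NP j.2 l u (C ∩ j.1) p y n → NP L (j :: l) u C p y n

theorem NP.succ {L : ℤ → B} {l : Bk B} {u p y : ℤ} {C : Set ℤ} {n : ℕ} (h : NP L l u C p y n) :
    NP L l u C p y (n + 1) := by
  induction h with
  | nil L u C p n => exact .nil L u C p _
  | step L l u C p v y n h1 h2 h3 _ ih => exact .step L l u C p v y _ h1 h2 h3 ih
  | pass L j l u C p y n h1 _ ih => exact .pass L j l u C p y _ h1 ih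

theorem NP.path {L : ℤ → B} {l : Bk B} {u p y : ℤ} {C : Set ℤ} {n : ℕ} (h : NP L l u C p y n) :
    Path L l p y n := by
  induction h with
  | nil L u C p n => exact Path.nil L p n
  | step L l u C p v y n h1 _ _ _ ih => exact ih.step h1
  | pass L j l u C p y n h1 _ ih => exact ih.pass h1

theorem shorten {k : ℕ} {L0 : ℤ → B} {l0 l : Bk B} {u p v y : ℤ} {C : Set ℤ} {n s : ℕ}
    (hg : Good k L0 l0) (hu : Pal L0 u p) (hp : ∀ j ∈ l0, p ∈ j.1)
    (hC : ∀ r ∈ C, ∀ j ∈ l0, r ∈ j.1) (hv : Pal (lastL L0 l0) p v) (hr : Red u C p v)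
    (h : Pth (lastL L0 l0) l v y n s) :
    ∃ s', s' < s + (p - v).natAbs + (u - p).natAbs ∧ Pth L0 (l0 ++ l) u y (n + 1 + 1) s' := by
  rcases hr with ⟨a1, a2, a3⟩ | ⟨a1, a2, a3⟩
  · by_cases huv : u ≤ v
    · rw [max_eq_right huv] at a3
      have b1 : Pal L0 v p := hv.symm.congr fun i c1 c2 =>
        (hg.agree (hC v a3) hp (by omega) (by omega)).symm
      obtain ⟨r, c1, c2, c3, c4⟩ := saarela_r huv a2.le hu b1
      exact ⟨_, by omega, .step _ _ u r y _ _ c3 (.step _ _ r v y _ _ c4 (h.passAll (hC v a3)))⟩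
    · rw [max_eq_left (by omega)] at a3
      have b1 : Pal (lastL L0 l0) u p := hu.congr fun i c1 c2 =>
        hg.agree (hC u a3) hp (by omega) (by omega)
      obtain ⟨r, c1, c2, c3, c4⟩ := saarela_r (u := v) (v := u) (by omega) a1.le hv.symm b1
      exact ⟨_, by omega, Pth.passAll (hC u a3)
        (.step _ _ u r y _ _ c4.symm (.step _ _ r v y _ _ c3.symm h))⟩
  · by_cases huv : v ≤ u
    · rw [min_eq_right huv] at a3
      have b1 : Pal L0 v p := hv.symm.congr fun i c1 c2 =>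
        (hg.agree hp (hC v a3) (by omega) (by omega)).symm
      obtain ⟨r, c1, c2, c3, c4⟩ := saarela_l huv a2.le hu b1
      exact ⟨_, by omega, .step _ _ u r y _ _ c3 (.step _ _ r v y _ _ c4 (h.passAll (hC v a3)))⟩
    · rw [min_eq_left (by omega)] at a3
      have b1 : Pal (lastL L0 l0) u p := hu.congr fun i c1 c2 =>
        hg.agree hp (hC u a3) (by omega) (by omega)
      obtain ⟨r, c1, c2, c3, c4⟩ := saarela_l (u := v) (v := u) (by omega) a1.le hv.symm b1
      exact ⟨_, by omega, Pth.passAll (hC u a3)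
        (.step _ _ u r y _ _ c4.symm (.step _ _ r v y _ _ c3.symm h))⟩

theorem dicho {k : ℕ} {L : ℤ → B} {l : Bk B} {p y : ℤ} {n s : ℕ} (h : Pth L l p y n s) :
    ∀ (u : ℤ) (C : Set ℤ) (L0 : ℤ → B) (l0 : Bk B), lastL L0 l0 = L → Good k L0 (l0 ++ l) →
      Pal L0 u p → (∀ j ∈ l0, p ∈ j.1) → (∀ r ∈ C, ∀ j ∈ l0, r ∈ j.1) →
      NP L l u C p y n ∨ (∃ s', s' < s ∧ Pth L l p y n s') ∨
        (u ≠ p ∧ ∃ s', s' < s + (u - p).natAbs ∧ Pth L0 (l0 ++ l) u y (n + 1) s') := by
  induction h with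
  | nil L p n => intro u C L0 l0 _ _ _ _ _; exact Or.inl (.nil L u C p n)
  | step L l p v y n s h1 h2 ih =>
    intro u C L0 l0 e hg hu hp hC
    subst e
    by_cases hpv : p = v
    · subst hpv
      rcases ih u C L0 l0 rfl hg hu hp hC with h | ⟨s', a1, a2⟩ | ⟨a0, s', a1, a2⟩
      · exact Or.inl h.succ
      · exact Or.inr (Or.inl ⟨s', by omega, a2.succ⟩)
      · exact Or.inr (Or.inr ⟨a0, s', by omega, a2.succ⟩)
    by_cases hr : Red u C p v
    · refine Or.inr (Or.inr ⟨?_, shorten (good_append.1 hg).1 hu hp hC h1 hr h2⟩)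
      rcases hr with h | h <;> omega
    · rcases ih p Set.univ _ [] rfl (good_append.1 hg).2 h1 (by simp) (by simp) with
        h | ⟨s', a1, a2⟩ | ⟨_, s', a1, a2⟩
      · exact Or.inl (.step _ l u C p v y n h1 hpv hr h)
      · exact Or.inr (Or.inl ⟨_, by omega, .step _ l p v y n s' h1 a2⟩)
      · exact Or.inr (Or.inl ⟨s', a1, a2⟩)
  | pass L j l p y n s h1 h2 ih =>
    intro u C L0 l0 e hg hu hp hC
    rcases ih u (C ∩ j.1) L0 (l0 ++ [j]) (by rw [lastL_append]; rfl) (by simpa using hg) hu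
      (fun j' hj => by
        rcases List.mem_append.1 hj with h | h
        · exact hp j' h
        · rw [List.mem_singleton.1 h]; exact h1)
      (fun r hr j' hj => by
        rcases List.mem_append.1 hj with h | h
        · exact hC r hr.1 j' h
        · rw [List.mem_singleton.1 h]; exact hr.2) with h | ⟨s', a1, a2⟩ | ⟨a0, s', a1, a2⟩
    · exact Or.inl (.pass L j l u C p y n h1 h)
    · exact Or.inr (Or.inl ⟨s', a1, .pass L j l p y n s' h1 a2⟩)
    · exact Or.inr (Or.inr ⟨a0, s', a1, by simpa using a2⟩)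

/-- every path can be made normal -/
theorem Path.normal {k : ℕ} {L : ℤ → B} {l : Bk B} {p y : ℤ} {n : ℕ} (hg : Good k L l)
    (h : Path L l p y n) : NP L l p Set.univ p y n := by
  obtain ⟨s, h⟩ := h
  induction s using Nat.strong_induction_on with
  | _ s ih =>
    rcases dicho h p Set.univ L [] rfl hg (fun i _ _ => by omega) (by simp) (by simp) with
      h | ⟨s', a1, a2⟩ | ⟨a0, _⟩
    · exact h
    · exact ih s' a1 a2
    · exact absurd rfl a0

end Pool.Agent.P.MP_daaf23_co
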