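import Pool.Agent.P.MP_daaf23_co.Mid

/-! The counting argument. -/

set_option autoImplicit false

namespace Pool.Agent.P.MP_daaf23_co

open Finset

variable {B : Type}

/-- at most `N` integers have the property `R` -/
def Bd (R : ℤ → Prop) (N : ℕ) : Prop := ∀ S : Finset ℤ, (∀ y ∈ S, R y) → S.card ≤ N

theorem Bd.imp {R R' : ℤ → Prop} {N : ℕ} (h : Bd R N) (hi : ∀ y, R' y → R y) : Bd R' N :=
  fun S hS => h S fun y hy => hi y (hS y hy)

theorem Bd.le {R : ℤ → Prop} {N M : ℕ} (h : Bd R N) (hN : N ≤ M) : Bd R M :=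
  fun S hS => (h S hS).trans hN

theorem Bd.of_mem {R : ℤ → Prop} {N : ℕ} (h : ∀ y, R y → Bd R N) : Bd R N := by
  intro S hS
  rcases S.eq_empty_or_nonempty with rfl | ⟨y, hy⟩
  · simp
  · exact h y (hS y hy) S hS

theorem Bd.or {R R' : ℤ → Prop} {N M : ℕ} (h : Bd R N) (h' : Bd R' M) :
    Bd (fun y => R y ∨ R' y) (N + M) := by
  classical
  intro S hS
  have h1 := h (S.filter R) fun y hy => (mem_filter.1 hy).2
  have h2 := h' (S.filter fun y => ¬ R y) fun y hy =>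
    (hS y (mem_filter.1 hy).1).resolve_left (mem_filter.1 hy).2
  have h3 := card_filter_add_card_filter_not (s := S) R
  omega

theorem Bd.sum {ι : Type} (T : Finset ι) {R : ι → ℤ → Prop} {f : ι → ℕ}
    (h : ∀ c ∈ T, Bd (R c) (f c)) : Bd (fun y => ∃ c ∈ T, R c y) (∑ c ∈ T, f c) := by
  classical
  induction T using Finset.induction_on with
  | empty => exact Bd.of_mem fun y hy => by simp at hy
  | insert c T hc ih =>
    rw [sum_insert hc]
    refine ((h c (by simp)).or (ih fun c' hc' => h c' (by simp [hc']))).imp ?_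
    rintro y ⟨c', h1, h2⟩
    rcases mem_insert.1 h1 with rfl | h1
    · exact Or.inl h2
    · exact Or.inr ⟨c', h1, h2⟩

theorem Bd.comp {R : ℤ → Prop} {N : ℕ} (h : Bd R N) {f : ℤ → ℤ} (hf : Function.Injective f) :
    Bd (fun y => R (f y)) N := by
  intro S hS
  rw [← card_image_of_injective S hf]
  refine h _ fun y hy => ?_
  obtain ⟨z, hz, rfl⟩ := mem_image.1 hy
  exact hS z hz

theorem sum_two_pow (n : ℕ) : ∑ i ∈ range n, 2 ^ i ≤ 2 ^ n := by
  induction n with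
  | zero => simp
  | succ n ih => rw [sum_range_succ, pow_succ]; omega

theorem cell {δ x M : ℤ} (hδ : 0 < δ) (h1 : -(M * δ) ≤ x) (h2 : x ≤ M * δ) :
    ∃ c ∈ Icc (-M) M, c * δ ≤ x ∧ x < c * δ + δ := by
  have a1 := Int.mul_ediv_add_emod x δ
  have a2 := Int.emod_nonneg x hδ.ne'
  have a3 := Int.emod_lt_of_pos x hδ
  refine ⟨x / δ, mem_Icc.2 ⟨?_, ?_⟩, by rw [mul_comm]; omega, by rw [mul_comm]; omega⟩
  · rw [Int.le_ediv_iff_mul_le hδ]
    linarith
  · exact Int.ediv_le_of_le_mul hδ h2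

/-- the data of a run of long steps with a given code -/
def CodeC (k gc : ℕ) (δ : ℤ) (L0 : ℤ → B) (x : ℤ) (pre : Bk B) (η : ℤ) (g rest : Bk B) (β : ℤ)
    (s t : ℕ) (c : (ℤ × ℤ) × ℤ × ℤ) (y : ℤ) : Prop :=
  ∃ (g1 g2 r1 l2 : Bk B) (z0 z : ℤ), g = g1 ++ g2 ∧ rest = r1 ++ l2 ∧ g1.length = s ∧
    l2.length = t ∧ η + c.1.1 * δ ≤ z0 ∧ z0 < η + c.1.1 * δ + δ ∧ η + c.1.2 * δ ≤ z ∧
    z < η + c.1.2 * δ + δ ∧
    RA (lastL L0 (pre ++ g1)) z0 c.2.1 (lastL L0 (pre ++ g ++ r1)) z c.2.2 (2 * ((k + 1) * δ)) ∧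
    MidC (gc + 10) ((k + 1) * δ) δ L0 x pre g1 (lastL L0 (pre ++ g ++ r1)) l2 β (η + c.1.1 * δ)
      c.2.1 (c.2.1 * c.2.2) (z - c.2.1 * c.2.2 * z0) y

theorem codeC_bd {k gc : ℕ} {δ : ℤ} (hδ : 0 < δ) {L0 : ℤ → B} {x η β : ℤ} {pre g rest : Bk B}
    (hg : Good k L0 (pre ++ (g ++ rest))) {A : ℕ}
    (ih : ∀ pre η suf, Good k L0 (pre ++ suf) →
      Bd (Mid (gc + 10) ((k + 1) * δ) L0 x pre η suf β) (A * 2 ^ (pre.length + suf.length)))
    (s t : ℕ) (c : (ℤ × ℤ) × ℤ × ℤ) (h1 : Sg c.2.1) (h2 : Sg c.2.2) :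
    Bd (CodeC k gc δ L0 x pre η g rest β s t c) (A * 2 ^ (pre.length + 1) * 2 ^ s * 2 ^ t) := by
  refine Bd.of_mem ?_
  rintro - ⟨g1, g2, r1, l2, z0, z, rfl, rfl, rfl, rfl, a5, a6, a7, a8, a9, -⟩
  have hσ : Sg (c.2.1 * c.2.2) := by
    rcases h1 with h1 | h1 <;> rcases h2 with h2 | h2 <;> simp [Sg, h1, h2]
  have g0 : Good k L0 (pre ++ (g1 ++ g2) ++ r1 ++ l2) := by simpa using hg
  have g3 : Good k L0 (pre ++ g1) := by
    have : Good k L0 (pre ++ g1 ++ (g2 ++ r1 ++ l2)) := by simpa using hg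
    exact (good_append.1 this).1
  have g4 := (good_append.1 g0).2
  have g5 : PF k (lastL L0 (pre ++ g1)) :=
    (good_append.1 (show Good k L0 (pre ++ g1 ++ []) by simpa using g3)).2
  have := (ih (pre ++ g1 ++ [(lk (lastL L0 (pre ++ g1)) (pull (c.2.1 * c.2.2)
      (z - c.2.1 * c.2.2 * z0) (lastL L0 (pre ++ (g1 ++ g2) ++ r1))) (η + c.1.1 * δ) δ c.2.1,
      pull (c.2.1 * c.2.2) (z - c.2.1 * c.2.2 * z0) (lastL L0 (pre ++ (g1 ++ g2) ++ r1)))])
    (η + c.1.1 * δ) (pullB (c.2.1 * c.2.2) (z - c.2.1 * c.2.2 * z0) l2) (by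
      rw [List.append_assoc]
      exact good_append.2 ⟨g3, good_lk _ _ _ g5 (g4.pull hσ)⟩)).comp
    (f := fun y => c.2.1 * c.2.2 * (y - (z - c.2.1 * c.2.2 * z0))) (by
      intro y y' e
      simp only at e
      rcases hσ with hσ | hσ <;> rw [hσ] at e <;> omega)
  refine (this.imp ?_).le (le_of_eq ?_)
  · rintro y ⟨g1', g2', r1', l2', z0', z', b1, b2, b3, b4, b5, b6, b7, b8, b9, b10⟩
    obtain ⟨rfl, rfl⟩ := List.append_inj b1 b3.symm
    obtain ⟨rfl, rfl⟩ := List.append_inj' b2 b4.symm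
    rw [rigid g4.pf hδ h1 h2 a9 b9 a5 a6 b5 b6 a7 a8 b7 b8]
    exact b10
  · simp only [List.length_append, List.length_singleton, length_pullB, pow_add]
    ring

theorem mid_bd {k gc : ℕ} {δ : ℤ} (hδ : 0 < δ) (hgc : 2 ^ 21 * (k + 1) ^ 2 ≤ 2 ^ gc) {A : ℕ}
    {L0 : ℤ → B} {x : ℤ}
    (hF : ∀ (l : Bk B) (b : ℕ), Good k L0 l →
      Bd (Full (gc + 10) ((k + 1) * δ) L0 x l b) (A * 2 ^ b * 2 ^ l.length)) (b : ℕ) :
    ∀ pre η suf, Good k L0 (pre ++ suf) → Bd (Mid (gc + 10) ((k + 1) * δ) L0 x pre η suf b)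
      (2 * A * 2 ^ b * 2 ^ (pre.length + suf.length)) := by
  have hk : 0 ≤ k * δ := by positivity
  have hu : δ ≤ (k + 1) * δ := by linarith
  have hu0 : 0 < (k + 1) * δ := by omega
  induction b using Nat.strong_induction_on with
  | _ b ih =>
  intro pre η suf hg
  obtain ⟨g, rest, rfl, hm, ha⟩ := exists_group η (2 * ((k + 1) * δ)) suf
  have hE : Bd (fun y => rest = [] ∧ Full (gc + 10) ((k + 1) * δ) L0 x (pre ++ g) b y)
      (A * 2 ^ b * 2 ^ (pre.length + (g ++ rest).length)) := by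
    refine Bd.of_mem ?_
    rintro - ⟨rfl, -⟩
    exact ((hF (pre ++ g) b (by simpa using hg)).imp fun y hy => hy.2).le (by simp)
  have hW : ∃ N, 2 * N ≤ A * 2 ^ b * 2 ^ (pre.length + (g ++ rest).length) ∧
      Bd (fun y => ∃ ε, Sg ε ∧ MidW (gc + 10) ((k + 1) * δ) L0 x pre η g rest b ε y) N := by
    by_cases hb : 4 ≤ b
    · obtain ⟨b', rfl⟩ := Nat.exists_eq_add_of_le hb
      refine ⟨∑ _ε ∈ ({1, -1} : Finset ℤ),
        2 * A * 2 ^ b' * 2 ^ (pre.length + (g ++ rest).length + 1), le_of_eq ?_,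
        (Bd.sum (R := fun ε y => MidW (gc + 10) ((k + 1) * δ) L0 x pre η g rest
          ((4 + b' : ℕ) : ℤ) ε y) _ fun ε _ => ?_).imp ?_⟩
      · rw [sum_const, card_pair (by norm_num), smul_eq_mul, pow_add 2 4, pow_succ]
        ring
      · unfold MidW
        rw [show ((4 + b' : ℕ) : ℤ) - 4 = b' by push_cast; ring]
        refine (ih b' (by omega) _ _ _ ?_).le (le_of_eq ?_)
        · rw [List.append_assoc]
          rw [← List.append_assoc] at hg
          exact good_append.2 ⟨(good_append.1 hg).1, good_pin _ _ (good_append.1 hg).2⟩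
        · simp only [List.length_append, List.length_singleton]
          congr 2
          omega
      · rintro y ⟨ε, h1, h2⟩
        exact ⟨ε, by rcases h1 with rfl | rfl <;> simp, h2⟩
    · refine ⟨0, by simp, Bd.of_mem ?_⟩
      rintro y ⟨ε, _, h2⟩
      have := Mid.nonneg (by omega) hu0 h2
      omega
  have hC : ∃ N, 2 * N ≤ A * 2 ^ b * 2 ^ (pre.length + (g ++ rest).length) ∧
      Bd (fun y => ∃ s ∈ range (g.length + 1), ∃ t ∈ range (rest.length + 1),
        ∃ c ∈ (Icc (-(4 * (k + 1) : ℤ)) (4 * (k + 1)) ×ˢ Icc (-(641 * (k + 1) : ℤ))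
          (641 * (k + 1))) ×ˢ ({1, -1} : Finset ℤ) ×ˢ ({1, -1} : Finset ℤ),
        CodeC k gc δ L0 x pre η g rest (b - gc) s t c y) N := by
    by_cases hb : gc ≤ b
    · obtain ⟨b', rfl⟩ := Nat.exists_eq_add_of_le hb
      have hgc0 : 0 < gc := by
        by_contra h0
        have e : gc = 0 := by omega
        have : 1 ≤ (k + 1) ^ 2 := Nat.one_le_pow _ _ (by omega)
        rw [e] at hgc
        omega
      rw [show ((gc + b' : ℕ) : ℤ) - gc = b' by push_cast; ring]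
      refine ⟨_, ?_, Bd.sum _ fun s _ => Bd.sum _ fun t _ => Bd.sum _ fun c hc =>
        codeC_bd hδ hg (ih b' (by omega)) s t c ?_ ?_⟩
      · simp only [sum_const, smul_eq_mul, card_product, Int.card_Icc]
        rw [card_pair (by norm_num),
          show (4 * ((k : ℤ) + 1) + 1 - -(4 * (k + 1))).toNat = 8 * (k + 1) + 1 by omega,
          show (641 * ((k : ℤ) + 1) + 1 - -(641 * (k + 1))).toNat = 1282 * (k + 1) + 1 by omega]
        simp only [← mul_assoc, ← mul_sum, ← sum_mul]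
        have h1 := sum_two_pow (g.length + 1)
        have h2 := sum_two_pow (rest.length + 1)
        have h3 : 2 * (8 * (k + 1) + 1) * (1282 * (k + 1) + 1) * 2 * 2 * 2 * 8 ≤ 2 ^ gc := by
          refine le_trans ?_ hgc
          generalize hK : k + 1 = K
          have : 1 ≤ K := by omega
          nlinarith
        refine le_trans (Nat.mul_le_mul (Nat.mul_le_mul_left _ h1) h2) ?_
        have h4 := Nat.mul_le_mul_right
          (A * 2 ^ b' * 2 ^ pre.length * 2 ^ g.length * 2 ^ rest.length) h3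
        simp only [List.length_append, pow_add, pow_one]
        refine le_trans (le_of_eq ?_) (h4.trans (le_of_eq ?_)) <;> ring
      · have := (mem_product.1 (mem_product.1 hc).2).1
        simpa [Sg] using this
      · have := (mem_product.1 (mem_product.1 hc).2).2
        simpa [Sg] using this
    · refine ⟨0, by simp, Bd.of_mem ?_⟩
      rintro y ⟨s, _, t, _, c, _, g1, g2, r1, l2, z0, z, _, _, _, _, _, _, _, _, _, h2⟩
      have := Mid.nonneg (by omega) hu0 h2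
      omega
  obtain ⟨N1, w1, w2⟩ := hW
  obtain ⟨N2, c1, c2⟩ := hC
  refine ((hE.or (w2.or c2)).imp fun y hy => ?_).le (by rw [mul_assoc 2, mul_assoc 2]; omega)
  rcases mid_cases hδ hu hg hm ha hy with h | h |
    ⟨g1, g2, r1, l2, z0, z, ε, ε', a1, a2, a3, a4, a5, a6, a7, a8⟩
  · exact Or.inl h
  · exact Or.inr (Or.inl h)
  · unfold Nr at a5 a6
    obtain ⟨c0, b1, b2, b3⟩ := cell (x := z0 - η) (M := 4 * (k + 1)) hδ
      (by rw [mul_assoc]; omega) (by rw [mul_assoc]; omega)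
    obtain ⟨c1, b4, b5, b6⟩ := cell (x := z - η) (M := 641 * (k + 1)) hδ
      (by rw [mul_assoc]; omega) (by rw [mul_assoc]; omega)
    refine Or.inr (Or.inr ⟨g1.length, by rw [a1]; simp, l2.length, by rw [a2]; simp,
      ((c0, c1), ε, ε'), mem_product.2 ⟨mem_product.2 ⟨b1, b4⟩, mem_product.2 ⟨?_, ?_⟩⟩,
      g1, g2, r1, l2, z0, z, a1, a2, rfl, rfl, by dsimp only; omega, by dsimp only; omega,
      by dsimp only; omega, by dsimp only; omega, a7, a8 _ (by dsimp only; omega)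
        (by dsimp only; omega)⟩)
    · rcases a3 with rfl | rfl <;> simp
    · rcases a4 with rfl | rfl <;> simp

theorem Old.near {ρ y : ℤ} {l : Bk B} {ξ : ℤ} (hρ : 0 ≤ ρ) (h : Old ρ ξ l y) :
    Nr ξ (ρ * (2 * l.length + 1)) y := by
  induction l generalizing ξ with
  | nil => simpa [Old] using h
  | cons j l ih =>
    have e : ρ * (2 * ((j :: l).length : ℕ) + 1) = ρ * (2 * l.length + 1) + 2 * ρ := by
      simp only [List.length_cons]
      push_cast
      ring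
    rw [e]
    rcases h with ⟨_, h⟩ | ⟨ξ', _, a2, h⟩
    · have := ih h
      unfold Nr at *
      omega
    · have := ih h
      unfold Nr at *
      omega

theorem full_bd {k gc : ℕ} (hgc : 2 ^ 21 * (k + 1) ^ 2 ≤ 2 ^ gc) (j : ℕ) (L0 : ℤ → B) (x : ℤ)
    (l : Bk B) (b : ℕ) (hg : Good k L0 l) :
    Bd (Full (gc + 10) ((k + 1) * 32 ^ j) L0 x l b)
      (2 ^ j * (21 * (k + 1)) * 2 ^ b * 2 ^ l.length) := by
  induction j generalizing l b with
  | zero =>
    intro S hS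
    have h1 : S ⊆ Icc (x - (5 * (k + 1) * (2 * l.length + 1) : ℕ))
        (x + (5 * (k + 1) * (2 * l.length + 1) : ℕ)) := fun y hy => by
      have := (hS y hy).1.near (by positivity)
      rw [mem_Icc]
      push_cast
      simpa [Nr] using this
    have h2 := card_le_card h1
    rw [Int.card_Icc] at h2
    have h3 : l.length + 1 ≤ 2 ^ l.length := Nat.lt_two_pow_self
    have h4 : 1 ≤ 2 ^ b := Nat.one_le_two_pow
    have h5 : (k + 1) * (l.length + 1) ≤ (k + 1) * (2 ^ b * 2 ^ l.length) :=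
      Nat.mul_le_mul_left _ (h3.trans (Nat.le_mul_of_pos_left _ h4))
    have h6 : S.card ≤ 2 * (5 * (k + 1) * (2 * l.length + 1)) + 1 := by omega
    nlinarith
  | succ j ih =>
    have h1 := mid_bd (δ := 32 ^ j) (by positivity) hgc ih b [] x l hg
    refine (h1.imp fun y hy => Full.mid (by positivity) ?_).le (le_of_eq ?_)
    · rwa [show 32 * (((k : ℤ) + 1) * 32 ^ j) = (k + 1) * 32 ^ (j + 1) by ring]
    · simp only [List.length_nil, Nat.zero_add, pow_succ]
      ring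

/-- some point near the origin is not reached by `P` palindromic steps -/
theorem exists_far {k gc : ℕ} (hgc : 2 ^ 21 * (k + 1) ^ 2 ≤ 2 ^ gc) {L : ℤ → B} (hL : PF k L)
    (P j : ℕ) (hj : (gc + 10) * P + 8 ≤ 4 * j) :
    ∃ n : ℕ, n ≤ 5 * (k + 1) * 32 ^ j ∧ ¬ Path L [] 0 n P := by
  by_contra hc
  push Not at hc
  have h1 := full_bd hgc j L 0 [] ((gc + 10) * P + 5) hL
    (Icc 0 ((5 * (k + 1) * 32 ^ j : ℕ) : ℤ)) fun y hy => by
      obtain ⟨a1, a2⟩ := mem_Icc.1 hy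
      obtain ⟨n, rfl⟩ := Int.eq_ofNat_of_zero_le a1
      refine ⟨?_, P, 0, hc n (by exact_mod_cast a2), rfl, by push_cast; omega⟩
      push_cast at a2
      rw [mul_assoc] at a2
      simp only [Old, Nr]
      omega
  rw [Int.card_Icc] at h1
  have h2 : 2 ^ ((gc + 10) * P + 8) ≤ 2 ^ (4 * j) := Nat.pow_le_pow_right (by norm_num) hj
  have h3 : 32 ^ j = 2 ^ j * 2 ^ (4 * j) := by
    rw [← pow_add, show (32 : ℕ) = 2 ^ 5 by norm_num, ← pow_mul]
    congr 1
    ring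
  have h4 : 5 * (k + 1) * 32 ^ j + 1 ≤ 2 ^ j * (21 * (k + 1)) * 2 ^ ((gc + 10) * P + 5) := by
    simp only [List.length_nil, pow_zero, mul_one] at h1
    omega
  rw [h3] at h4
  rw [show (gc + 10) * P + 8 = (gc + 10) * P + 5 + 3 by ring, pow_add] at h2
  have h5 := Nat.mul_le_mul_left (2 ^ j * (k + 1)) h2
  nlinarith [Nat.zero_le (2 ^ j * (k + 1) * 2 ^ ((gc + 10) * P + 5))]

end Pool.Agent.P.MP_daaf23_co
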