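import Pool.Agent.P.MP_daaf23_co.Struct

/-! The next event of a normal path. -/

set_option autoImplicit false

namespace Pool.Agent.P.MP_daaf23_co

variable {B : Type}

/-- swings from `p` end at a point `z` after the junctions of `g` -/
def Land (η u ρ : ℤ) (L : ℤ → B) (g rest : Bk B) (p ε y : ℤ) (n m0 : ℕ) : Prop :=
  ∃ (r1 l2 : Bk B) (z ε' ξ' : ℤ) (m n2 : ℕ), rest = r1 ++ l2 ∧ Sg ε' ∧ m0 ≤ m ∧ m + n2 ≤ n ∧
    Path L (g ++ r1) p z m ∧ Path (lastL L (g ++ r1)) l2 z y n2 ∧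
    RA L p ε (lastL L (g ++ r1)) z ε' (2 * u) ∧ Nr ξ' (2 * ρ) z ∧ Nr η (4 * ρ + u) z ∧
    Old ρ ξ' l2 y

/-- the path leaves the small window by short steps -/
def EvW (η u ρ : ℤ) (L : ℤ → B) (g rest : Bk B) (p y : ℤ) (n : ℕ) : Prop :=
  ∃ (ε z ξ' : ℤ) (n1 n2 : ℕ), Sg ε ∧ 2 * u ≤ ε * (z - η) ∧ ε * (z - η) ≤ 4 * u ∧ n1 + n2 ≤ n ∧
    Path L g p z n1 ∧ Path (lastL L g) rest z y n2 ∧ Nr ξ' (2 * ρ) z ∧ Old ρ ξ' rest y

/-- the path leaves the small window by long steps -/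
def EvC (η u ρ : ℤ) (L : ℤ → B) (g rest : Bk B) (p y : ℤ) (n : ℕ) : Prop :=
  ∃ (g1 g2 : Bk B) (z ε : ℤ) (n1 n' : ℕ), g = g1 ++ g2 ∧ Sg ε ∧ Nr η (4 * u) z ∧ n1 + n' ≤ n ∧
    Path L g1 p z n1 ∧ Land η u ρ (lastL L g1) g2 rest z ε y n' 1

/-- the three events -/
def Ev (η u ρ : ℤ) (L : ℤ → B) (g rest : Bk B) (p y : ℤ) (n : ℕ) : Prop :=
  (rest = [] ∧ Nr η (4 * u) y) ∨ EvW η u ρ L g rest p y n ∨ EvC η u ρ L g rest p y n

theorem Ev.step {η u ρ : ℤ} {L : ℤ → B} {g rest : Bk B} {p v y : ℤ} {n : ℕ} (h1 : Pal L p v)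
    (h : Ev η u ρ L g rest v y n) : Ev η u ρ L g rest p y (n + 1) := by
  rcases h with h | ⟨ε, z, ξ', n1, n2, a1, a2, a3, a4, a5, a6⟩ |
    ⟨g1, g2, z, ε, n1, n', a1, a2, a3, a4, a5, a6⟩
  · exact Or.inl h
  · exact Or.inr (Or.inl ⟨ε, z, ξ', n1 + 1, n2, a1, a2, a3, by omega, a5.step h1, a6⟩)
  · exact Or.inr (Or.inr ⟨g1, g2, z, ε, n1 + 1, n', a1, a2, a3, by omega, a5.step h1, a6⟩)

theorem Ev.pass {η u ρ : ℤ} {L : ℤ → B} {j : Set ℤ × (ℤ → B)} {g rest : Bk B} {p y : ℤ} {n : ℕ}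
    (h1 : p ∈ j.1) (h : Ev η u ρ j.2 g rest p y n) : Ev η u ρ L (j :: g) rest p y n := by
  rcases h with h | ⟨ε, z, ξ', n1, n2, a1, a2, a3, a4, a5, a6⟩ |
    ⟨g1, g2, z, ε, n1, n', a1, a2, a3, a4, a5, a6⟩
  · exact Or.inl h
  · exact Or.inr (Or.inl ⟨ε, z, ξ', n1, n2, a1, a2, a3, a4, a5.pass h1, a6⟩)
  · exact Or.inr (Or.inr ⟨j :: g1, g2, z, ε, n1, n', by rw [a1]; rfl, a2, a3, a4, a5.pass h1, a6⟩)

theorem Land.step {η u ρ : ℤ} {L : ℤ → B} {g rest : Bk B} {p v ε y : ℤ} {n m0 : ℕ}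
    (hε : Sg ε) (h1 : Pal L p v) (hV : 2 * u ≤ ε * (v - p))
    (h : Land η u ρ L g rest v (-ε) y n m0) : Land η u ρ L g rest p ε y (n + 1) 1 := by
  obtain ⟨r1, l2, z, ε', ξ', m, n2, a1, a2, a3, a4, a5, a6, a7, a8⟩ := h
  exact ⟨r1, l2, z, ε', ξ', m + 1, n2, a1, a2, by omega, by omega, a5.step h1, a6,
    (RA.step hε h1 hV).trans a7, a8⟩

theorem Land.mono {η u ρ : ℤ} {L : ℤ → B} {g rest : Bk B} {p ε y : ℤ} {n m0 : ℕ}
    (h : Land η u ρ L g rest p ε y n m0) : Land η u ρ L g rest p ε y n 0 := by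
  obtain ⟨r1, l2, z, ε', ξ', m, n2, a1, a2, a3, a4⟩ := h
  exact ⟨r1, l2, z, ε', ξ', m, n2, a1, a2, by omega, a4⟩

theorem land_old {k : ℕ} {η u ρ ξ ε : ℤ} (hu : 0 < u) (hρ : 2 * u ≤ ρ) (hε : Sg ε) {L : ℤ → B}
    {l : Bk B} {a p y : ℤ} {C : Set ℤ} {n : ℕ} (h : NP L l a C p y n) (hg : Good k L l)
    (ho : Old ρ ξ l y) (hn : Nr ξ (2 * ρ + u) η) (h1 : 2 * ρ < ε * (p - ξ))
    (h2 : ε * (a - η) < ε * (p - η)) (h3 : Cov ξ ρ ε C p) : Land η u ρ L [] l p (-ε) y n 1 := by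
  obtain ⟨r1, l2, z, ε', m, n2, c1, c2, c3, c4, c5, c6, c7, c8, c9⟩ :=
    oldLand hρ (by omega) h ξ ε hε hg ho h1 (by rcases hε with rfl | rfl <;> omega) h3
  exact ⟨r1, l2, z, ε', ξ, m, n2, c1, c2, c3, c4, c5, c6, c7, c8, by unfold Nr at *; omega, c9⟩

theorem land_end {k : ℕ} {η u ρ ξ ε : ℤ} (hu : 0 < u) (hρ : 2 * u ≤ ρ) (hε : Sg ε) {L : ℤ → B}
    {l : Bk B} {a p y : ℤ} {C : Set ℤ} {n : ℕ} (h : NP L l a C p y n) (hg : Good k L l)
    (ho : Old ρ ξ l y) (hn : Nr ξ (2 * ρ + u) η) (h1 : 2 * u < ε * (p - η))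
    (h2 : ε * (a - η) < ε * (p - η)) (h3 : ρ < ε * (p - ξ) → Cov ξ ρ ε C p) :
    Land η u ρ L [] l p (-ε) y n 0 := by
  by_cases hf : 2 * ρ < ε * (p - ξ)
  · exact (land_old hu hρ hε h hg ho hn hf h2 (h3 (by omega))).mono
  · unfold Nr at hn
    exact ⟨[], l, p, -ε, ξ, 0, n, rfl, hε.neg, le_rfl, by omega, Path.nil _ _ _, h.path,
      fun _ _ _ => rfl, by unfold Nr; rcases hε with rfl | rfl <;> omega,
      by unfold Nr; rcases hε with rfl | rfl <;> omega, ho⟩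

/-- all junctions of the group can be passed at the start of the final run -/
theorem run_start {k : ℕ} {η u ρ ξ ε : ℤ} (hu : 0 < u) (hε : Sg ε) {L : ℤ → B}
    {g rest : Bk B} {p v y : ℤ} {n : ℕ} (h1 : Pal L p v)
    (h : NP L (g ++ rest) p Set.univ v y n) (hg : Good k L (g ++ rest))
    (hm : ∀ j ∈ g, ∃ q ∈ j.1, Nr η (2 * u) q) (ho : Old ρ ξ (g ++ rest) y)
    (hn : Nr ξ (2 * ρ + u) η) (a1 : 2 * u ≤ ε * (p - η)) (a2 : ε * (p - η) < ε * (v - η)) :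
    ∃ ξ', Path L g p p 0 ∧ Path (lastL L g) rest p y (n + 1) ∧
      RA L p (-ε) (lastL L g) p (-ε) (ε * (p - η) - 2 * u) ∧ Nr ξ (2 * ρ) p ∧
      Nr ξ' (2 * ρ) p ∧ Old ρ ξ' rest y := by
  obtain ⟨b1, b2⟩ := run hε h g rest rfl hg hm a1 a2 (cov_univ _ _ _ _)
  have e1 : ∀ j ∈ g, p ∈ j.1 := fun j hj => b1 j hj p a1 a2.le
  have e2 : ∀ j ∈ g, v ∈ j.1 := fun j hj => b1 j hj v (by omega) le_rfl
  have b3 : ε * (p - ξ) < ρ := by
    by_contra hc
    exact oldRun hε h ξ hg ho (by omega) (by rcases hε with rfl | rfl <;> omega)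
      (cov_univ _ _ _ _)
  have b4 : Nr ξ (2 * ρ) p := by
    unfold Nr at *
    rcases hε with rfl | rfl <;> omega
  obtain ⟨ξ', c1, c2⟩ := old_stay e1 ξ ho b4
  refine ⟨ξ', Path.stay e1, b2.step (h1.congr fun i d1 d2 => ?_), ?_, b4, c1, c2⟩
  · rcases hε with rfl | rfl
    · exact (good_append.1 hg).1.agree e1 e2 (by omega) (by omega)
    · exact (good_append.1 hg).1.agree e2 e1 (by omega) (by omega)
  · exact ra_of_agree (c := η) (r := 2 * u) hε (by omega) fun a b i d1 d2 d3 d4 d5 d6 =>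
      (good_append.1 hg).1.agree (fun j hj => b1 j hj a d1 (by omega))
        (fun j hj => b1 j hj b d3 (by omega)) d5 d6

theorem event_aux {k : ℕ} {η u ρ : ℤ} (hu : 0 < u) (hρ : 2 * u ≤ ρ) {L : ℤ → B} {l : Bk B}
    {a p y : ℤ} {C : Set ℤ} {n : ℕ} (h : NP L l a C p y n) : ∀ g rest ξ, l = g ++ rest →
      Good k L l → (∀ j ∈ g, ∃ q ∈ j.1, Nr η (2 * u) q) →
      (∀ j r, rest = j :: r → ∀ q ∈ j.1, ¬ Nr η (2 * u) q) → Old ρ ξ l y →
      Nr ξ (2 * ρ + u) η →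
      (∀ ε, Sg ε → 2 * u < ε * (p - η) → ε * (a - η) < ε * (p - η) ∧ Cov η (2 * u) ε C p) →
      (∀ ε, Sg ε → ρ < ε * (p - ξ) → Cov ξ ρ ε C p) →
      Ev η u ρ L g rest p y n ∨
        ∃ ε, Sg ε ∧ 4 * u < ε * (p - η) ∧ Land η u ρ L g rest p (-ε) y n 0 := by
  induction h with
  | nil L a C p n =>
    intro g rest ξ e hg hm ha ho hn i1 i2
    obtain ⟨rfl, rfl⟩ := List.append_eq_nil_iff.1 e.symm
    by_cases hp : Nr η (4 * u) p
    · exact Or.inl (Or.inl ⟨rfl, hp⟩)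
    · obtain ⟨ε, hε, hf⟩ : ∃ ε, Sg ε ∧ 4 * u < ε * (p - η) := by
        unfold Nr at hp
        by_cases h : η < p
        · exact ⟨1, Or.inl rfl, by omega⟩
        · exact ⟨-1, Or.inr rfl, by omega⟩
      exact Or.inr ⟨ε, hε, hf, land_end hu hρ hε (.nil L a C p n) hg ho hn (by omega)
        (i1 ε hε (by omega)).1 (i2 ε hε)⟩
  | step L l a C p v y n h1 h2 h3 h4 ih =>
    intro g rest ξ e hg hm ha ho hn i1 i2
    subst e
    have i3 : ∀ ε, Sg ε → 2 * u < ε * (v - η) →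
        ε * (p - η) < ε * (v - η) ∧ Cov η (2 * u) ε Set.univ v := by
      intro ε hε hv
      refine ⟨?_, cov_univ _ _ _ _⟩
      by_contra hc
      have b1 : ε * (v - η) < ε * (p - η) := by rcases hε with rfl | rfl <;> omega
      obtain ⟨b2, b3⟩ := i1 ε hε (by omega)
      have := turn hε h3 b3 b2 b1
      omega
    have IH := ih g rest ξ rfl hg hm ha ho hn i3 (fun ε _ _ => cov_univ _ _ _ _)
    by_cases hp : Nr η (4 * u) p
    · left
      rcases IH with IH | ⟨ε, hε, b1, b2⟩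
      · exact IH.step h1
      · unfold Nr at hp
        by_cases hw : 2 * u ≤ ε * (p - η)
        · obtain ⟨ξ', c1, c2, _, _, c5, c6⟩ := run_start hu hε h1 h4 hg hm ho hn hw
            (by rcases hε with rfl | rfl <;> omega)
          exact Or.inr (Or.inl ⟨ε, p, ξ', 0, n + 1, hε, hw,
            by rcases hε with rfl | rfl <;> omega, by omega, c1, c2, c5, c6⟩)
        · exact Or.inr (Or.inr ⟨[], g, p, ε, 0, n + 1, rfl, hε, hp, by omega, Path.nil _ _ _,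
            b2.step hε h1 (by rcases hε with rfl | rfl <;> omega)⟩)
    · obtain ⟨ε, hε, hf⟩ : ∃ ε, Sg ε ∧ 4 * u < ε * (p - η) := by
        unfold Nr at hp
        by_cases h : η < p
        · exact ⟨1, Or.inl rfl, by omega⟩
        · exact ⟨-1, Or.inr rfl, by omega⟩
      by_cases hv : ε * (p - η) < ε * (v - η)
      · obtain ⟨ξ', c1, c2, c3, c4, c5, c6⟩ := run_start hu hε h1 h4 hg hm ho hn (by omega) hv
        refine Or.inr ⟨ε, hε, hf, [], rest, p, -ε, ξ', 0, n + 1, rfl, hε.neg, le_rfl, by omega,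
          by simpa using c1, by simpa using c2, ?_, c5, by unfold Nr at *; omega, c6⟩
        rw [List.append_nil]
        exact fun i d1 d2 => c3 i d1 (by omega)
      · have b1 : ε * (v - η) < ε * (p - η) := by rcases hε with rfl | rfl <;> omega
        obtain ⟨b2, b3⟩ := i1 ε hε (by omega)
        have b4 := (turn hε h3 b3 b2 b1).2
        rcases IH with IH | ⟨ε2, hε2, c1, c2⟩
        · exact Or.inl (IH.step h1)
        · have e2 : ε2 = -ε := by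
            rcases hε with rfl | rfl <;> rcases hε2 with rfl | rfl <;> omega
          subst e2
          exact Or.inr ⟨ε, hε, hf, (c2.step hε.neg h1
            (by rcases hε with rfl | rfl <;> omega)).mono⟩
  | pass L j l a C p y n h1 h2 ih =>
    intro g rest ξ e hg hm ha ho hn i1 i2
    cases g with
    | nil =>
      have e' : rest = j :: l := e.symm
      subst e'
      have hp := ha j l rfl p h1
      obtain ⟨ε, hε, hf⟩ : ∃ ε, Sg ε ∧ 2 * u < ε * (p - η) := by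
        unfold Nr at hp
        by_cases h : η < p
        · exact ⟨1, Or.inl rfl, by omega⟩
        · exact ⟨-1, Or.inr rfl, by omega⟩
      have h3 : NP L (j :: l) a C p y n := .pass L j l a C p y n h1 h2
      by_cases hw : 4 * u < ε * (p - η)
      · exact Or.inr ⟨ε, hε, hw, land_end hu hρ hε h3 hg ho hn hf (i1 ε hε hf).1 (i2 ε hε)⟩
      · left
        by_cases hx : 2 * ρ < ε * (p - ξ)
        · exact Or.inr (Or.inr ⟨[], [], p, -ε, 0, n, rfl, hε.neg,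
            by unfold Nr; rcases hε with rfl | rfl <;> omega, by omega, Path.nil _ _ _,
            land_old hu hρ hε h3 hg ho hn hx (i1 ε hε hf).1 (i2 ε hε (by omega))⟩)
        · exact Or.inr (Or.inl ⟨ε, p, ξ, 0, n, hε, hf.le, by omega, by omega, Path.nil _ _ _,
            h3.path, by unfold Nr at *; rcases hε with rfl | rfl <;> omega, ho⟩)
    | cons j' g =>
      obtain ⟨rfl, e'⟩ := List.cons.inj e
      obtain ⟨q, b1, b2⟩ := hm j (by simp)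
      have i3 : ∀ ε, Sg ε → 2 * u < ε * (p - η) →
          ε * (a - η) < ε * (p - η) ∧ Cov η (2 * u) ε (C ∩ j.1) p := fun ε hε hf =>
        ⟨(i1 ε hε hf).1, (i1 ε hε hf).2.inter (cov_conv hε hg.2.1 h1 b1 b2)⟩
      have hm' : ∀ j' ∈ g, ∃ q ∈ j'.1, Nr η (2 * u) q := fun j' hj => hm j' (by simp [hj])
      have IH : Ev η u ρ j.2 g rest p y n ∨
          ∃ ε, Sg ε ∧ 4 * u < ε * (p - η) ∧ Land η u ρ j.2 g rest p (-ε) y n 0 := by
        rcases ho with ⟨⟨q', c1, c2⟩, c3⟩ | ⟨ξ', c1, _, c3⟩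
        · exact ih g rest ξ e' hg.2.2.2 hm' ha c3 hn i3 fun ε hε hf =>
            (i2 ε hε hf).inter (cov_conv hε hg.2.1 h1 c1 c2)
        · have d1 := (c1 q b1).2
          have d2 := (c1 p h1).2
          refine ih g rest ξ' e' hg.2.2.2 hm' ha c3 (by unfold Nr at *; omega) i3
            fun ε hε hf => ?_
          unfold Nr at d2
          rcases hε with rfl | rfl <;> omega
      rcases IH with IH | ⟨ε, hε, hf, r1, l2, z, ε', ξ', m, n2, c1, c2, c3, c4, c5, c6, c7, c8⟩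
      · exact Or.inl (IH.pass h1)
      · have b4 := cov_conv hε hg.2.1 h1 b1 b2
        refine Or.inr ⟨ε, hε, hf, r1, l2, z, ε', ξ', m, n2, c1, c2, c3, c4, c5.pass h1, c6,
          RA.trans ?_ c7, c8⟩
        exact ra_of_agree (c := η) (r := 2 * u) hε (by omega) fun a b i d1 d2 d3 d4 d5 d6 =>
          hg.2.2.1 a b i (b4 a d1 d2) (b4 b d3 d4) d5 d6

/-- the next event -/
theorem event {k : ℕ} {η u ρ ξ : ℤ} (hu : 0 < u) (hρ : 2 * u ≤ ρ) {L : ℤ → B} {g rest : Bk B}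
    {p y : ℤ} {n : ℕ} (h : Path L (g ++ rest) p y n) (hg : Good k L (g ++ rest))
    (hm : ∀ j ∈ g, ∃ q ∈ j.1, Nr η (2 * u) q)
    (ha : ∀ j r, rest = j :: r → ∀ q ∈ j.1, ¬ Nr η (2 * u) q) (ho : Old ρ ξ (g ++ rest) y)
    (hn : Nr ξ (2 * ρ + u) η) (hp : Nr η u p) : Ev η u ρ L g rest p y n := by
  unfold Nr at hp
  rcases event_aux hu hρ (h.normal hg) g rest ξ rfl hg hm ha ho hn
    (fun ε hε hf => by rcases hε with rfl | rfl <;> omega)
    (fun ε _ _ => cov_univ _ _ _ _) with h | ⟨ε, hε, hf, _⟩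
  · exact h
  · rcases hε with rfl | rfl <;> omega

theorem exists_group (η r : ℤ) (l : Bk B) : ∃ g rest, l = g ++ rest ∧
    (∀ j ∈ g, ∃ q ∈ j.1, Nr η r q) ∧ ∀ j t, rest = j :: t → ∀ q ∈ j.1, ¬ Nr η r q := by
  induction l with
  | nil => exact ⟨[], [], rfl, by simp, by simp⟩
  | cons j l ih =>
    by_cases h : ∃ q ∈ j.1, Nr η r q
    · obtain ⟨g, rest, a1, a2, a3⟩ := ih
      refine ⟨j :: g, rest, by rw [a1]; rfl, fun j' hj => ?_, a3⟩
      rcases List.mem_cons.1 hj with rfl | hj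
      · exact h
      · exact a2 j' hj
    · refine ⟨[], j :: l, rfl, by simp, fun j' t e q hq hn => h ⟨q, ?_, hn⟩⟩
      rw [(List.cons.inj e).1]
      exact hq

end Pool.Agent.P.MP_daaf23_co
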