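import Pool.Agent.P.MP_daaf23_co.FoldA

set_option autoImplicit false

namespace Pool.Agent.P.MP_daaf23_co.H84
open Pool.Agent.P.MP_daaf23_co.H98

variable {α : Type}

/-- the `l` letters from position `a` are the mirror image of the `l` letters from position `c` -/
def Band (W : ℕ → α) (a c l : ℕ) : Prop :=
  ∀ i j, a ≤ i → i < a + l → i + j + 1 = a + c + l → W i = W j

theorem Band.symm {W : ℕ → α} {a c l : ℕ} (h : Band W a c l) : Band W c a l := by
  intro i j h1 h2 h3
  exact (h j i (by omega) (by omega) (by omega)).symm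

/-- decomposition of the interval `[x, y)` into single letters and bands -/
inductive St (W : ℕ → α) : ℕ → ℕ → List (ℕ × ℕ) → Prop
  | nil (x : ℕ) : St W x x []
  | one (x : ℕ) : St W x (x + 1) [(x, 0)]
  | cat {x y z : ℕ} {L1 L2 : List (ℕ × ℕ)} : St W x y L1 → St W y z L2 → St W x z (L1 ++ L2)
  | band {a c l : ℕ} {L : List (ℕ × ℕ)} : Band W a c l → St W (a + l) c L →
      St W a (c + l) ((a, l) :: L)

theorem St.le {W : ℕ → α} {x y : ℕ} {L : List (ℕ × ℕ)} (h : St W x y L) : x ≤ y := by
  induction h with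
  | nil x => exact le_rfl
  | one x => omega
  | cat _ _ ih1 ih2 => omega
  | band _ _ ih => omega

/-- the two shapes used in the induction -/
def Sh (W : ℕ → α) (x y m : ℕ) : Prop :=
  (∃ L, St W x y L ∧ L.length + 2 ≤ 3 * m) ∨
    (∃ l c L, y = c + l ∧ Band W x c l ∧ St W (x + l) c L ∧ L.length + 2 ≤ 3 * m)

theorem Sh.st {W : ℕ → α} {x y m : ℕ} (h : Sh W x y m) :
    ∃ L, St W x y L ∧ L.length + 1 ≤ 3 * m := by
  rcases h with ⟨L, h1, h2⟩ | ⟨l, c, L, rfl, h1, h2, h3⟩
  · exact ⟨L, h1, by omega⟩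
  · exact ⟨_, St.band h1 h2, by simp only [List.length_cons]; omega⟩

theorem Sh.wrap {W : ℕ → α} {x r m : ℕ} (h : Sh W (x + 1) r m) (hw : W x = W r) :
    ∃ l c L, r + 1 = c + l ∧ Band W x c l ∧ St W (x + l) c L ∧ L.length + 2 ≤ 3 * m := by
  rcases h with ⟨L, h1, h2⟩ | ⟨l, c, L, rfl, h1, h2, h3⟩
  · refine ⟨1, r, L, rfl, ?_, h1, h2⟩
    intro i j h1 h2 h3
    have e1 : i = x := by omega
    have e2 : j = r := by omega
    rw [e1, e2, hw]
  · refine ⟨l + 1, c, L, by omega, ?_, ?_, h3⟩
    · intro i j h4 h5 h6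
      rcases h4.eq_or_lt with e1 | h4
      · have e2 : j = c + l := by omega
        rw [← e1, e2, hw]
      · exact h1 i j (by omega) (by omega) (by omega)
    · have e : x + (l + 1) = x + 1 + l := by omega
      rw [e]; exact h2

theorem seg_ne_nil_lt {W : ℕ → α} {x y : ℕ} {a : α} {X : List α} (h : a :: X = seg W x y) :
    x < y := by
  have := congrArg List.length h
  simp only [List.length_cons, seg_length] at this
  omega

theorem fold_sh {W : ℕ → α} (hW : ∀ t, W t ≠ W (t + 1)) {X : List α} {m : ℕ} (h : Fold X m) :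
    ∀ x y, x ≤ y → X = seg W x y → x = y ∨ Sh W x y m := by
  induction h with
  | nil m =>
    intro x y hxy hX
    have := congrArg List.length hX
    simp only [List.length_nil, seg_length] at this
    left; omega
  | @mark a X m _ ih =>
    intro x y _ hX
    have hlt := seg_ne_nil_lt hX
    rw [seg_cons W hlt] at hX
    simp only [List.cons.injEq] at hX
    right; left
    rcases ih (x + 1) y hlt hX.2 with e | hs
    · subst e
      exact ⟨_, St.one x, by simp only [List.length_cons, List.length_nil]; omega⟩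
    · obtain ⟨L, h1, h2⟩ := hs.st
      exact ⟨_, St.cat (St.one x) h1, by
        simp only [List.length_append, List.length_cons, List.length_nil]; omega⟩
  | @pair a B1 B2 m1 m2 _ _ ih1 ih2 =>
    intro x y _ hX
    have hlt := seg_ne_nil_lt hX
    rw [seg_cons W hlt] at hX
    simp only [List.cons.injEq] at hX
    obtain ⟨r, hr1, hr2, hr3, hB1, hB2⟩ := seg_split hX.2.symm
    have hw : W x = W r := by rw [hr3, hX.1]
    right
    rcases ih1 (x + 1) r hr1 hB1 with e | hs
    · exact absurd (e ▸ hw) (hW x)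
    obtain ⟨l, c, L, e1, hb, hst, hl⟩ := hs.wrap hw
    rcases ih2 (r + 1) y hr2 hB2 with e | hs2
    · right
      exact ⟨l, c, L, by omega, hb, hst, by omega⟩
    · left
      obtain ⟨L2, h1, h2⟩ := hs2.st
      have h0 := St.band hb hst
      rw [← e1] at h0
      exact ⟨_, St.cat h0 h1, by
        simp only [List.length_append, List.length_cons]; omega⟩

theorem fold_st {W : ℕ → α} (hW : ∀ t, W t ≠ W (t + 1)) {x y m : ℕ} (hxy : x ≤ y)
    (h : Fold (seg W x y) m) : ∃ L, St W x y L ∧ L.length ≤ 3 * m := by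
  rcases fold_sh hW h x y hxy rfl with e | hs
  · subst e
    exact ⟨[], St.nil x, by simp⟩
  · obtain ⟨L, h1, h2⟩ := hs.st
    exact ⟨L, h1, by omega⟩

end Pool.Agent.P.MP_daaf23_co.H84
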