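import Pool.Agent.P.MP_daaf23_co.FgA

set_option autoImplicit false

namespace Pool.Agent.P.MP_daaf23_co.H84
open Pool.Agent.P.MP_daaf23_co.H98

/-- a strictly increasing enumeration `e` of cuts with its lower adjoint `N` -/
structure Enum (e N : ℕ → ℕ) : Prop where
  mono : StrictMono e
  zero : e 0 = 0
  gc : ∀ n t, e n ≤ t ↔ n ≤ N t

theorem Enum.e_N_le {e N : ℕ → ℕ} (h : Enum e N) (t : ℕ) : e (N t) ≤ t := (h.gc _ _).2 le_rfl

theorem Enum.lt_e {e N : ℕ → ℕ} (h : Enum e N) {n t : ℕ} (hn : N t < n) : t < e n := by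
  by_contra hc
  have := (h.gc n t).1 (by omega)
  omega

theorem Enum.N_mono {e N : ℕ → ℕ} (h : Enum e N) {s t : ℕ} (hst : s ≤ t) : N s ≤ N t :=
  (h.gc _ _).1 ((h.e_N_le s).trans hst)

theorem Enum.N_e {e N : ℕ → ℕ} (h : Enum e N) (n : ℕ) : N (e n) = n := by
  apply le_antisymm
  · exact h.mono.le_iff_le.1 (h.e_N_le _)
  · exact (h.gc _ _).1 le_rfl

theorem Enum.N_le {e N : ℕ → ℕ} (h : Enum e N) {n t : ℕ} (ht : t ≤ e n) : N t ≤ n := by
  have := h.N_mono ht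
  rwa [h.N_e] at this

theorem Enum.N_lt {e N : ℕ → ℕ} (h : Enum e N) {n t : ℕ} (ht : t < e n) : N t < n := by
  by_contra hc
  have := (h.gc n t).2 (by omega)
  omega

theorem Enum.N_succ {e N : ℕ → ℕ} (h : Enum e N) (t : ℕ) : N (t + 1) ≤ N t + 1 :=
  h.N_le (h.lt_e (Nat.lt_succ_self _))

theorem Enum.N_zero {e N : ℕ → ℕ} (h : Enum e N) : N 0 = 0 := by
  have := h.N_e 0
  rwa [h.zero] at this

theorem Enum.comp {e N k C : ℕ → ℕ} (h : Enum e N) (h' : Enum k C) :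
    Enum (fun m => e (k m)) (fun t => C (N t)) :=
  ⟨h.mono.comp h'.mono, by simp only [h'.zero, h.zero], fun n t => by
    rw [h.gc, h'.gc]⟩

/-- the local rule deciding whether the cut with class `c` is kept -/
def rule {β : Type 1} [LinearOrder β] (a b c d e : β) : Prop :=
  (a = b ∧ b = c ∧ c ≠ d) ∨ (b ≠ c ∧ c = d ∧ d = e) ∨ (b < c ∧ d < c) ∨
    (b < c ∧ c = d ∧ e < d) ∨ (a < b ∧ b = c ∧ d < c)

theorem rule_symm {β : Type 1} [LinearOrder β] {a b c d e : β} (h : rule a b c d e) :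
    rule e d c b a := by
  unfold rule at *
  rcases h with ⟨h1, h2, h3⟩ | ⟨h1, h2, h3⟩ | ⟨h1, h2⟩ | ⟨h1, h2, h3⟩ | ⟨h1, h2, h3⟩
  · exact Or.inr (Or.inl ⟨h3.symm, h2.symm, h1.symm⟩)
  · exact Or.inl ⟨h3.symm, h2.symm, h1.symm⟩
  · exact Or.inr (Or.inr (Or.inl ⟨h2, h1⟩))
  · exact Or.inr (Or.inr (Or.inr (Or.inr ⟨h3, h2.symm, h1⟩)))
  · exact Or.inr (Or.inr (Or.inr (Or.inl ⟨h3, h2.symm, h1⟩)))

theorem rule3 {β : Type 1} [LinearOrder β] {a b c d e f g : β} (h1 : rule a b c d e)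
    (h2 : rule b c d e f) (h3 : rule c d e f g) :
    (c < d ∧ e < d) ∨ (c < d ∧ d = e) ∨ (c = d ∧ e < d) := by
  unfold rule at *
  rcases h2 with ⟨h4, h5, h6⟩ | ⟨h4, h5, h6⟩ | ⟨h4, h5⟩ | ⟨h4, h5, h6⟩ | ⟨h4, h5, h6⟩
  · exfalso
    rcases h1 with ⟨_, _, _⟩ | ⟨_, _, _⟩ | ⟨_, _⟩ | ⟨_, _, _⟩ | ⟨_, _, _⟩ <;> order
  · exfalso
    rcases h3 with ⟨_, _, _⟩ | ⟨_, _, _⟩ | ⟨_, _⟩ | ⟨_, _, _⟩ | ⟨_, _, _⟩ <;> order
  · exact Or.inl ⟨h4, h5⟩
  · exact Or.inr (Or.inl ⟨h4, h5⟩)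
  · exact Or.inr (Or.inr ⟨h5, h6⟩)

theorem rule5 {β : Type 1} [LinearOrder β] {a b c d e f g h i : β} (h1 : rule a b c d e)
    (h2 : rule b c d e f) (h3 : rule c d e f g) (h4 : rule d e f g h) (h5 : rule e f g h i) :
    False := by
  rcases rule3 h1 h2 h3 with ⟨_, _⟩ | ⟨_, _⟩ | ⟨_, _⟩ <;>
  rcases rule3 h2 h3 h4 with ⟨_, _⟩ | ⟨_, _⟩ | ⟨_, _⟩ <;>
  rcases rule3 h3 h4 h5 with ⟨_, _⟩ | ⟨_, _⟩ | ⟨_, _⟩ <;> order

variable {α T : Type}

/-- the class of an ordered pair of letters up to mirror image, as a point of a linear order -/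
noncomputable def cls (mu : T → T) (u v : T) : Cardinal.{0} :=
  min (embeddingToCardinal (u, v)) (embeddingToCardinal (mu v, mu u))

theorem cls_mirror {mu : T → T} (hinv : ∀ t, mu (mu t) = t) (u v : T) :
    cls mu (mu v) (mu u) = cls mu u v := by
  unfold cls
  rw [hinv, hinv, min_comm]

theorem cls_eq {mu : T → T} (hinv : ∀ t, mu (mu t) = t) {u v u' v' : T}
    (h : cls mu u v = cls mu u' v') : (u' = u ∧ v' = v) ∨ (u' = mu v ∧ v' = mu u) := by
  unfold cls at h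
  rcases min_choice (embeddingToCardinal (u, v)) (embeddingToCardinal (mu v, mu u)) with
    h1 | h1 <;>
  rcases min_choice (embeddingToCardinal (u', v')) (embeddingToCardinal (mu v', mu u')) with
    h2 | h2 <;>
  · rw [h1, h2] at h
    have h3 := embeddingToCardinal.injective h
    simp only [Prod.mk.injEq] at h3
    obtain ⟨h4, h5⟩ := h3
    first
      | exact Or.inl ⟨h4.symm, h5.symm⟩
      | exact Or.inr ⟨by rw [h5, hinv], by rw [h4, hinv]⟩
      | exact Or.inr ⟨h4.symm, h5.symm⟩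
      | exact Or.inl ⟨by rw [← hinv u', ← h5, hinv], by rw [← hinv v', ← h4, hinv]⟩

/-- one level of the parsing -/
structure Lv (T : Type) where
  mu : T → T
  X : ℕ → T
  e : ℕ → ℕ
  N : ℕ → ℕ

/-- class of the cut number `m + 1` -/
noncomputable def Lv.cc (v : Lv T) (m : ℕ) : Cardinal.{0} := cls v.mu (v.X m) (v.X (m + 1))

/-- the rule at the cut number `m + 3` -/
def Lv.ru (v : Lv T) (m : ℕ) : Prop :=
  rule (v.cc m) (v.cc (m + 1)) (v.cc (m + 2)) (v.cc (m + 3)) (v.cc (m + 4))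

/-- the kept cuts -/
def Lv.K (v : Lv T) (Y n : ℕ) : Prop := n = 0 ∨ Y ≤ v.e n ∨ ∃ m, n = m + 3 ∧ v.ru m

noncomputable def Lv.kap (v : Lv T) (Y : ℕ) : ℕ → ℕ := Nat.nth (v.K Y)

noncomputable def Lv.cnt (v : Lv T) (Y n : ℕ) : ℕ :=
  Nat.findGreatest (fun m => v.kap Y m ≤ n) n

/-- the next level -/
noncomputable def Lv.nxt (v : Lv T) (Y : ℕ) : Lv (List T) :=
  ⟨fun l => (l.map v.mu).reverse, fun m => seg v.X (v.kap Y m) (v.kap Y (m + 1)),
    fun m => v.e (v.kap Y m), fun t => v.cnt Y (v.N t)⟩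

theorem Lv.K_inf {v : Lv T} (h : Enum v.e v.N) (Y : ℕ) : (Set.ofPred (v.K Y)).Infinite := by
  apply Set.infinite_of_forall_exists_gt
  intro n
  refine ⟨max (n + 1) Y, Or.inr (Or.inl ?_), by omega⟩
  exact (le_max_right _ _).trans (h.mono.id_le _)

theorem Lv.K_kap {v : Lv T} (h : Enum v.e v.N) (Y m : ℕ) : v.K Y (v.kap Y m) :=
  Nat.nth_mem_of_infinite (Lv.K_inf h Y) m

theorem Lv.kap_of_K {v : Lv T} {Y n : ℕ} (hn : v.K Y n) : ∃ m, v.kap Y m = n := by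
  classical
  exact ⟨_, Nat.nth_count hn⟩

theorem Lv.kap_enum {v : Lv T} (h : Enum v.e v.N) (Y : ℕ) : Enum (v.kap Y) (v.cnt Y) := by
  have hm : StrictMono (v.kap Y) := Nat.nth_strictMono (Lv.K_inf h Y)
  have h0 : v.kap Y 0 = 0 := Nat.nth_zero_of_zero (Or.inl rfl)
  refine ⟨hm, h0, fun m n => ⟨fun hle => ?_, fun hle => ?_⟩⟩
  · exact Nat.le_findGreatest (P := fun m => v.kap Y m ≤ n) ((hm.id_le m).trans hle) hle
  · have := Nat.findGreatest_spec (P := fun m => v.kap Y m ≤ n) (Nat.zero_le n)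
      (by simp only [h0]; exact Nat.zero_le n)
    exact (hm.monotone hle).trans this

theorem Lv.cnt_of_not_K {v : Lv T} (h : Enum v.e v.N) {Y n : ℕ} (hn : ¬ v.K Y (n + 1)) :
    v.cnt Y (n + 1) ≤ v.cnt Y n := by
  have hk := Lv.kap_enum h Y
  by_contra hc
  have h1 : v.kap Y (v.cnt Y n + 1) ≤ n + 1 := (hk.gc _ _).2 (by omega)
  have h2 : n < v.kap Y (v.cnt Y n + 1) := hk.lt_e (Nat.lt_succ_self _)
  have h3 : v.kap Y (v.cnt Y n + 1) = n + 1 := by omega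
  exact hn (h3 ▸ Lv.K_kap h Y _)

theorem Lv.cnt_five {v : Lv T} (h : Enum v.e v.N) {Y x : ℕ} (hx : v.e (x + 5) < Y) :
    v.cnt Y (x + 5) ≤ v.cnt Y x + 4 := by
  have hk := Lv.kap_enum h Y
  have s1 := hk.N_succ x
  have s2 := hk.N_succ (x + 1)
  have s3 := hk.N_succ (x + 2)
  have s4 := hk.N_succ (x + 3)
  have s5 := hk.N_succ (x + 4)
  by_contra hc
  have key : ∀ i, i < 5 → ∃ m, x + i + 1 = m + 3 ∧ v.ru m := by
    intro i hi
    have hK : v.K Y (x + i + 1) := by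
      by_contra hn
      have := Lv.cnt_of_not_K h hn
      interval_cases i <;> simp only [Nat.add_assoc, Nat.reduceAdd, Nat.add_zero] at * <;> omega
    rcases hK with h0 | h0 | h0
    · omega
    · have := h.mono.monotone (show x + i + 1 ≤ x + 5 by omega)
      omega
    · exact h0
  obtain ⟨m, e0, r0⟩ := key 0 (by omega)
  obtain ⟨m1, e1, r1⟩ := key 1 (by omega)
  obtain ⟨m2, e2, r2⟩ := key 2 (by omega)
  obtain ⟨m3, e3, r3⟩ := key 3 (by omega)
  obtain ⟨m4, e4, r4⟩ := key 4 (by omega)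
  obtain rfl : m1 = m + 1 := by omega
  obtain rfl : m2 = m + 2 := by omega
  obtain rfl : m3 = m + 3 := by omega
  obtain rfl : m4 = m + 4 := by omega
  exact rule5 r0 r1 r2 r3 r4

theorem Lv.shrink {v : Lv T} (h : Enum v.e v.N) {Y : ℕ} (d : ℕ) :
    ∀ x, v.e (x + d) ≤ Y → 5 * v.cnt Y (x + d) ≤ 5 * v.cnt Y x + 4 * d + 5 := by
  have hk := Lv.kap_enum h Y
  induction d using Nat.strong_induction_on with
  | _ d ih =>
    intro x hx
    by_cases hd : d ≤ 5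
    · have : ∀ d, v.cnt Y (x + d) ≤ v.cnt Y x + d := by
        intro d
        induction d with
        | zero => simp
        | succ d ih => have := hk.N_succ (x + d); rw [← Nat.add_assoc]; omega
      have := this d
      omega
    · have e1 : x + d = x + 5 + (d - 5) := by omega
      have h1 := ih (d - 5) (by omega) (x + 5) (e1 ▸ hx)
      have h2 := Lv.cnt_five h (Y := Y) (x := x)
        (lt_of_lt_of_le (h.mono (show x + 5 < x + d by omega)) hx)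
      rw [← e1] at h1
      omega

theorem Lv.shrink' {v : Lv T} (h : Enum v.e v.N) {Y x y : ℕ} (hxy : x ≤ y) (hy : v.e y ≤ Y) :
    5 * v.cnt Y y + 4 * x ≤ 5 * v.cnt Y x + 4 * y + 5 := by
  obtain ⟨d, rfl⟩ := Nat.exists_eq_add_of_le hxy
  have := Lv.shrink h d x hy
  omega

end Pool.Agent.P.MP_daaf23_co.H84
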