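import Pool.Agent.P.MP_daaf23_co.FgB

set_option autoImplicit false

namespace Pool.Agent.P.MP_daaf23_co.H84
open Pool.Agent.P.MP_daaf23_co.H98

variable {α T : Type}

/-- cut number `n` lies well inside the arm `[a, a + l)` -/
def Deep (N : ℕ → ℕ) (a l n : ℕ) : Prop := N a + 17 < n ∧ n + 17 ≤ N (a + l)

/-- deep cuts of a band are mirrored -/
def Mir (e N : ℕ → ℕ) (a c l s : ℕ) : Prop :=
  (∀ n, Deep N a l n → n ≤ s) ∧ ∀ n n', Deep N a l n → n + n' = s → e n + e n' = a + c + l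

structure Good (W : ℕ → α) (Y : ℕ) (v : Lv T) : Prop where
  inv : ∀ t, v.mu (v.mu t) = t
  en : Enum v.e v.N
  hY : v.e (v.N Y) = Y
  sl : ∀ a c l, Band W a c l → a + l ≤ Y → c + l ≤ Y → ∃ s, Mir v.e v.N a c l s ∧
    ∀ n n', Deep v.N a l n → Deep v.N a l (n + 1) → n + n' + 1 = s → v.X n = v.mu (v.X n')
  val : ∃ val : T → List α, ∀ n, val (v.X n) = seg W (v.e n) (v.e (n + 1))

/-- counting cuts on the two arms of a band -/
theorem Mir.count {e N : ℕ → ℕ} (h : Enum e N) {a c l s : ℕ} (hm : Mir e N a c l s)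
    {x y x' y' : ℕ} (hx : a ≤ x) (hxy : x ≤ y) (hy : y ≤ a + l) (hx' : x' + y = a + c + l)
    (hy' : y' + x = a + c + l) : N y + N x' ≤ N x + N y' + 35 := by
  have m1 := h.N_mono hx
  have m2 := h.N_mono hy
  have m3 : N x' ≤ N y' := h.N_mono (by omega)
  by_cases hc : N y ≤ N x + 35
  · omega
  have d1 : Deep N a l (N x + 18) := ⟨by omega, by omega⟩
  have d2 : Deep N a l (N y - 17) := ⟨by omega, by omega⟩
  have l1 := hm.1 _ d1
  have l2 := hm.1 _ d2
  have e1 := hm.2 _ (s - (N x + 18)) d1 (by omega)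
  have e2 := hm.2 _ (s - (N y - 17)) d2 (by omega)
  have f1 : x < e (N x + 18) := h.lt_e (by omega)
  have f2 : e (N y - 17) ≤ y := (h.gc _ _).2 (by omega)
  have g1 : s - (N x + 18) ≤ N y' := (h.gc _ _).1 (by omega)
  have g2 : N x' ≤ s - (N y - 17) := h.N_le (by omega)
  omega

theorem seg_getElem (W : ℕ → T) {p q i : ℕ} (h : i < (seg W p q).length) :
    (seg W p q)[i] = W (p + i) := by
  simp only [seg, List.getElem_map, List.Ico, List.getElem_range', one_mul]

theorem good_zero (W : ℕ → α) (Y : ℕ) : Good W Y (⟨id, W, id, id⟩ : Lv α) := by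
  refine ⟨fun _ => rfl, ⟨strictMono_id, rfl, fun _ _ => Iff.rfl⟩, rfl, ?_, ⟨fun t => [t], ?_⟩⟩
  · intro a c l hb _ _
    refine ⟨a + c + l, ⟨?_, ?_⟩, ?_⟩
    · intro n hn
      simp only [Deep, id] at hn
      omega
    · intro n n' _ hs
      exact hs
    · intro n n' hn _ hs
      simp only [Deep, id] at hn
      exact hb n n' (by omega) (by omega) hs
  · intro n
    simp only [id]
    rw [seg_cons W (Nat.lt_succ_self n), seg_self]

theorem flatten_seg {W : ℕ → α} {X : ℕ → T} {e : ℕ → ℕ} (he : StrictMono e) {val : T → List α}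
    (hv : ∀ n, val (X n) = seg W (e n) (e (n + 1))) {p q : ℕ} (hpq : p ≤ q) :
    ((seg X p q).map val).flatten = seg W (e p) (e q) := by
  induction q, hpq using Nat.le_induction with
  | base => simp [seg_self]
  | succ q hpq ih =>
    rw [seg_snoc X hpq, List.map_append, List.flatten_append, ih]
    simp only [List.map_cons, List.map_nil, List.flatten_cons, List.flatten_nil, List.append_nil]
    rw [hv, seg_append W (he.monotone hpq) (he.monotone (Nat.le_succ q))]

theorem Good.cc_mirror {W : ℕ → α} {Y : ℕ} {v : Lv T} (h : Good W Y v) {a l s : ℕ}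
    (hX : ∀ n n', Deep v.N a l n → Deep v.N a l (n + 1) → n + n' + 1 = s →
      v.X n = v.mu (v.X n'))
    {m m' : ℕ} (h1 : v.N a + 17 < m) (h2 : m + 2 + 17 ≤ v.N (a + l)) (hs : m + m' + 2 = s) :
    v.cc m = v.cc m' := by
  unfold Lv.cc
  rw [hX m (m' + 1) ⟨h1, by omega⟩ ⟨by omega, by omega⟩ (by omega),
    hX (m + 1) m' ⟨by omega, by omega⟩ ⟨by omega, by omega⟩ (by omega), cls_mirror h.inv]

theorem Good.K_mirror {W : ℕ → α} {Y : ℕ} {v : Lv T} (h : Good W Y v) {a c l s : ℕ}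
    (ha : a + l ≤ Y) (hc : c + l ≤ Y) (hm : Mir v.e v.N a c l s)
    (hX : ∀ n n', Deep v.N a l n → Deep v.N a l (n + 1) → n + n' + 1 = s →
      v.X n = v.mu (v.X n'))
    {n n' : ℕ} (h1 : v.N a + 20 < n) (h2 : n + 20 ≤ v.N (a + l)) (hs : n + n' = s) :
    v.K Y n ↔ v.K Y n' := by
  have l1 := hm.1 (n + 3) ⟨by omega, by omega⟩
  obtain ⟨m, rfl⟩ : ∃ m, n = m + 3 := ⟨n - 3, by omega⟩
  obtain ⟨m', rfl⟩ : ∃ m, n' = m + 3 := ⟨n' - 3, by omega⟩
  have e1 := hm.2 (m + 3) (m' + 3) ⟨by omega, by omega⟩ hs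
  have f1 : a < v.e (m + 3) := h.en.lt_e (by omega)
  have f2 : v.e (m + 3) < v.e (v.N (a + l)) := h.en.mono (by omega)
  have f3 := h.en.e_N_le (a + l)
  have c0 := h.cc_mirror hX (m := m) (m' := m' + 4) (by omega) (by omega) (by omega)
  have c1 := h.cc_mirror hX (m := m + 1) (m' := m' + 3) (by omega) (by omega) (by omega)
  have c2 := h.cc_mirror hX (m := m + 2) (m' := m' + 2) (by omega) (by omega) (by omega)
  have c3 := h.cc_mirror hX (m := m + 3) (m' := m' + 1) (by omega) (by omega) (by omega)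
  have c4 := h.cc_mirror hX (m := m + 4) (m' := m') (by omega) (by omega) (by omega)
  have hr : v.ru m ↔ v.ru m' := by
    unfold Lv.ru
    rw [c0, c1, c2, c3, c4]
    exact ⟨rule_symm, rule_symm⟩
  constructor
  · rintro (h0 | h0 | ⟨k, hk, h0⟩)
    · omega
    · omega
    · obtain rfl : k = m := by omega
      exact Or.inr (Or.inr ⟨m', rfl, hr.1 h0⟩)
  · rintro (h0 | h0 | ⟨k, hk, h0⟩)
    · omega
    · omega
    · obtain rfl : k = m' := by omega
      exact Or.inr (Or.inr ⟨m, rfl, hr.2 h0⟩)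

theorem Good.deep_down {W : ℕ → α} {Y : ℕ} {v : Lv T} (h : Good W Y v) {a l m : ℕ}
    (ha : a + l ≤ Y) (hm : Deep (v.nxt Y).N a l m) :
    v.N a + 20 < v.kap Y m ∧ v.kap Y m + 20 ≤ v.N (a + l) := by
  have hk := Lv.kap_enum h.en Y
  obtain ⟨h1, h2⟩ := hm
  change v.cnt Y (v.N a) + 17 < m at h1
  change m + 17 ≤ v.cnt Y (v.N (a + l)) at h2
  have f1 : v.N a < v.kap Y m := hk.lt_e (by omega)
  have f2 : v.kap Y m ≤ v.N (a + l) := (hk.gc _ _).2 (by omega)
  have f3 : v.e (v.N (a + l)) ≤ Y := (h.en.e_N_le _).trans ha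
  have s1 := Lv.shrink' h.en (Y := Y) f1.le ((h.en.mono.monotone f2).trans f3)
  have s2 := Lv.shrink' h.en (Y := Y) f2 f3
  rw [hk.N_e] at s1 s2
  omega

theorem Good.nxt {W : ℕ → α} {Y : ℕ} {v : Lv T} (h : Good W Y v) : Good W Y (v.nxt Y) := by
  have hk := Lv.kap_enum h.en Y
  refine ⟨?_, h.en.comp hk, ?_, ?_, ?_⟩
  · intro t
    change ((t.map v.mu).reverse.map v.mu).reverse = t
    rw [List.map_reverse, List.reverse_reverse, List.map_map]
    have : v.mu ∘ v.mu = id := funext h.inv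
    rw [this, List.map_id]
  · change v.e (v.kap Y (v.cnt Y (v.N Y))) = Y
    obtain ⟨m, hm⟩ := Lv.kap_of_K (v := v) (Y := Y) (n := v.N Y) (Or.inr (Or.inl h.hY.ge))
    rw [← hm, hk.N_e, hm, h.hY]
  · intro a c l hb ha hc
    obtain ⟨s, hm, hX⟩ := h.sl a c l hb ha hc
    by_cases hd : Deep (v.nxt Y).N a l ((v.nxt Y).N a + 18)
    swap
    · have hno : ∀ n, ¬ Deep (v.nxt Y).N a l n := fun n hn =>
        hd ⟨by omega, by have := hn.1; have := hn.2; omega⟩
      exact ⟨0, ⟨fun n hn => absurd hn (hno n), fun n _ hn => absurd hn (hno n)⟩,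
        fun n _ hn => absurd hn (hno n)⟩
    set m0 := (v.nxt Y).N a + 18 with hm0
    have d0 := h.deep_down ha hd
    have l0 := hm.1 (v.kap Y m0) ⟨by omega, by omega⟩
    obtain ⟨j0, hj0⟩ := Lv.kap_of_K ((h.K_mirror ha hc hm hX (n' := s - v.kap Y m0) d0.1 d0.2
      (by omega)).1 (Lv.K_kap h.en Y m0))
    have key : ∀ t, Deep (v.nxt Y).N a l (m0 + t) →
        ∃ j, j + t = j0 ∧ v.kap Y j + v.kap Y (m0 + t) = s := by
      intro t
      induction t with
      | zero => intro _; exact ⟨j0, rfl, by rw [Nat.add_zero]; omega⟩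
      | succ t ih =>
        intro hd1
        have hd0 : Deep (v.nxt Y).N a l (m0 + t) := ⟨by omega, by have := hd1.2; omega⟩
        obtain ⟨j, hj1, hj2⟩ := ih hd0
        have e0 := h.deep_down ha hd0
        have e1 := h.deep_down ha hd1
        have lt1 : v.kap Y (m0 + t) < v.kap Y (m0 + (t + 1)) := hk.mono (by omega)
        have l1 := hm.1 (v.kap Y (m0 + (t + 1))) ⟨by omega, by omega⟩
        obtain ⟨j', hj'⟩ := Lv.kap_of_K ((h.K_mirror ha hc hm hX
          (n' := s - v.kap Y (m0 + (t + 1))) e1.1 e1.2 (by omega)).1 (Lv.K_kap h.en Y _))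
        have lt2 : j' < j := hk.mono.lt_iff_lt.1 (by omega)
        obtain ⟨i, rfl⟩ : ∃ i, j = i + 1 := ⟨j - 1, by omega⟩
        refine ⟨i, by omega, ?_⟩
        have le1 : v.kap Y j' ≤ v.kap Y i := hk.mono.monotone (by omega)
        have lt3 : v.kap Y i < v.kap Y (i + 1) := hk.mono (by omega)
        by_contra hne
        obtain ⟨k, hk1⟩ := Lv.kap_of_K ((h.K_mirror ha hc hm hX (n := s - v.kap Y i)
          (n' := v.kap Y i) (by omega) (by omega) (by omega)).2 (Lv.K_kap h.en Y _))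
        have a1 : m0 + t < k := hk.mono.lt_iff_lt.1 (by omega)
        have a2 : k < m0 + (t + 1) := hk.mono.lt_iff_lt.1 (by omega)
        omega
    have key' : ∀ n, Deep (v.nxt Y).N a l n →
        ∃ j, j + n = m0 + j0 ∧ v.kap Y j + v.kap Y n = s := by
      intro n hn
      obtain ⟨t, rfl⟩ : ∃ t, n = m0 + t := ⟨n - m0, by have := hn.1; omega⟩
      obtain ⟨j, h1, h2⟩ := key t hn
      exact ⟨j, by omega, h2⟩
    refine ⟨m0 + j0, ⟨?_, ?_⟩, ?_⟩
    · intro n hn
      obtain ⟨j, h1, _⟩ := key' n hn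
      omega
    · intro n n' hn hs
      obtain ⟨j, h1, h2⟩ := key' n hn
      obtain rfl : j = n' := by omega
      have e0 := h.deep_down ha hn
      exact hm.2 _ _ ⟨by omega, by omega⟩ (by omega)
    · intro n n' hn hn1 hs
      obtain ⟨j, h1, h2⟩ := key' n hn
      obtain ⟨j', h3, h4⟩ := key' (n + 1) hn1
      obtain rfl : j = n' + 1 := by omega
      obtain rfl : j' = n' := by omega
      have e0 := h.deep_down ha hn
      have e1 := h.deep_down ha hn1
      have lt1 : v.kap Y n < v.kap Y (n + 1) := hk.mono (by omega)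
      change seg v.X (v.kap Y n) (v.kap Y (n + 1)) =
        ((seg v.X (v.kap Y j') (v.kap Y (j' + 1))).map v.mu).reverse
      apply List.ext_getElem
      · simp only [List.length_reverse, List.length_map, seg_length]; omega
      · intro i hi1 hi2
        rw [seg_getElem, List.getElem_reverse, List.getElem_map, seg_getElem]
        simp only [seg_length] at hi1
        apply hX _ _ ⟨by omega, by omega⟩ ⟨by omega, by omega⟩
        simp only [List.length_map, seg_length]
        omega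
  · obtain ⟨val, hv⟩ := h.val
    exact ⟨fun l => (l.map val).flatten, fun n =>
      flatten_seg h.en.mono hv (hk.mono.monotone (Nat.le_succ n))⟩

end Pool.Agent.P.MP_daaf23_co.H84
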