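import Pool.Agent.P.MP_daaf23_co.FgC

set_option autoImplicit false

namespace Pool.Agent.P.MP_daaf23_co.H84
open Pool.Agent.P.MP_daaf23_co.H98

variable {α T : Type}

theorem inj_of_mono {β : Type 1} [LinearOrder β] (g : ℕ → β) {x y : ℕ}
    (h1 : ∀ i, x ≤ i → i < y → g i ≤ g (i + 1))
    (h2 : ∀ j, x ≤ j → j + 2 ≤ y → ¬ (g j = g (j + 1) ∧ g (j + 1) = g (j + 2))) :
    ∀ i j, x ≤ i → i ≤ j → j ≤ y → g i = g j → j ≤ i + 1 := by
  have hm : ∀ a b, x ≤ a → a ≤ b → b ≤ y → g a ≤ g b := by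
    intro a b ha hab
    induction b, hab using Nat.le_induction with
    | base => intro _; exact le_rfl
    | succ b hab ih => intro hb; exact (ih (by omega)).trans (h1 b (by omega) (by omega))
  intro i j hi hij hj he
  by_contra hc
  have a1 := h1 i hi (by omega)
  have a2 := h1 (i + 1) (by omega) (by omega)
  have a3 := hm (i + 2) j (by omega) (by omega) hj
  have a4 : g (i + 1 + 1) = g (i + 2) := rfl
  exact h2 i hi (by omega) ⟨by order, by order⟩

theorem uni {β : Type 1} [LinearOrder β] (f : ℕ → β) {lo hi B : ℕ} (hlo : 2 ≤ lo)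
    (hn : ∀ m, lo ≤ m + 2 → m + 2 ≤ hi →
      ¬ rule (f m) (f (m + 1)) (f (m + 2)) (f (m + 3)) (f (m + 4)))
    (hinj : ∀ x y, x ≤ y → y ≤ hi →
      (∀ i j, x ≤ i → i ≤ j → j ≤ y → f i = f j → j ≤ i + 1) → y ≤ x + B) :
    (∀ i, lo ≤ i → i < hi → f i = f (i + 1)) ∨ hi ≤ lo + 2 * B := by
  classical
  by_cases htr : ∃ j, lo ≤ j ∧ j + 2 ≤ hi ∧ f j = f (j + 1) ∧ f (j + 1) = f (j + 2)
  · left
    obtain ⟨j, hj1, hj2, hj3, hj4⟩ := htr
    have fwd : ∀ i, j ≤ i → i + 1 ≤ hi → f i = f (i + 1) ∧ f (i + 1) = f (i + 2) := by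
      intro i hi
      induction i, hi using Nat.le_induction with
      | base => intro _; exact ⟨hj3, hj4⟩
      | succ i hi ih =>
        intro h
        obtain ⟨e1, e2⟩ := ih (by omega)
        refine ⟨e2, ?_⟩
        by_contra hc
        exact hn i (by omega) (by omega) (Or.inl ⟨e1, e2, hc⟩)
    have bwd : ∀ t i, i + t = j → lo ≤ i + 1 → f i = f (i + 1) ∧ f (i + 1) = f (i + 2) := by
      intro t
      induction t with
      | zero => intro i hi _; obtain rfl : i = j := hi; exact ⟨hj3, hj4⟩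
      | succ t ih =>
        intro i hi h
        obtain ⟨e1, e2⟩ := ih (i + 1) (by omega) (by omega)
        refine ⟨?_, e1⟩
        by_contra hc
        obtain ⟨m, rfl⟩ : ∃ m, i = m + 1 := ⟨i - 1, by omega⟩
        exact hn m (by omega) (by omega) (Or.inr (Or.inl ⟨hc, e1, e2⟩))
    intro i h1 h2
    rcases le_total j i with h | h
    · exact (fwd i h (by omega)).1
    · exact (bwd (j - i) i (by omega) (by omega)).1
  have hnt : ∀ j, lo ≤ j → j + 2 ≤ hi → ¬ (f j = f (j + 1) ∧ f (j + 1) = f (j + 2)) :=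
    fun j h1 h2 h3 => htr ⟨j, h1, h2, h3⟩
  right
  by_cases hlh : hi ≤ lo
  · omega
  have hex : ∃ i, lo ≤ i ∧ (hi ≤ i ∨ f i < f (i + 1)) := ⟨hi, by omega, Or.inl le_rfl⟩
  have h0 := Nat.find_spec hex
  have hle : Nat.find hex ≤ hi := Nat.find_min' hex ⟨by omega, Or.inl le_rfl⟩
  have hmin : ∀ i, lo ≤ i → i < Nat.find hex → f (i + 1) ≤ f i := by
    intro i h1 h2
    by_contra hc
    exact Nat.find_min hex h2 ⟨h1, Or.inr (not_le.1 hc)⟩
  generalize Nat.find hex = i0 at h0 hle hmin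
  have b1 : i0 ≤ lo + B := by
    apply hinj lo i0 h0.1 hle
    exact inj_of_mono (β := βᵒᵈ) (fun i => OrderDual.toDual (f i)) hmin
      (fun j h1 h2 => hnt j h1 (by omega))
  have b2 : hi ≤ i0 + B := by
    apply hinj i0 hi hle le_rfl
    refine inj_of_mono f ?_ (fun j h1 h2 => hnt j (by omega) h2)
    have hQ : ∀ i, i0 ≤ i → i < hi → f i < f (i + 1) ∨
        ∃ k, i = k + 1 ∧ lo ≤ k ∧ f k < f (k + 1) ∧ f (k + 1) = f (k + 2) := by
      intro i h1
      induction i, h1 using Nat.le_induction with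
      | base =>
        intro h
        rcases h0.2 with h2 | h2
        · omega
        · exact Or.inl h2
      | succ i h1 ih =>
        intro h
        rcases ih (by omega) with h2 | ⟨k, rfl, h2, h3, h4⟩
        · obtain ⟨m, rfl⟩ : ∃ m, i = m + 1 := ⟨i - 1, by omega⟩
          rcases lt_trichotomy (f (m + 2)) (f (m + 3)) with h5 | h5 | h5
          · exact Or.inl h5
          · exact Or.inr ⟨m + 1, rfl, by omega, h2, h5⟩
          · exact absurd (Or.inr (Or.inr (Or.inl ⟨h2, h5⟩))) (hn m (by omega) (by omega))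
        · rcases lt_trichotomy (f (k + 2)) (f (k + 3)) with h5 | h5 | h5
          · exact Or.inl h5
          · exact absurd ⟨h4, h5⟩ (hnt (k + 1) (by omega) (by omega))
          · exact absurd (Or.inr (Or.inr (Or.inr (Or.inr ⟨h3, h4, h5⟩))))
              (hn k (by omega) (by omega))
    intro i h1 h2
    rcases hQ i h1 h2 with h3 | ⟨k, rfl, _, _, h3⟩
    · exact h3.le
    · exact h3.le
  omega

theorem Good.st_count {W : ℕ → α} {Y : ℕ} {v : Lv T} (h : Good W Y v) {x y : ℕ}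
    (hinj : ∀ i j, x ≤ i → i ≤ j → j ≤ y → v.cc i = v.cc j → j ≤ i + 1)
    {p q : ℕ} {L : List (ℕ × ℕ)} (hs : St W p q L) :
    q ≤ Y → x ≤ v.N p → v.N q ≤ y + 1 → v.N q ≤ v.N p + 107 * L.length := by
  induction hs with
  | nil x => intro _ _ _; simp
  | one x =>
    intro _ _ _
    have := h.en.N_succ x
    simp only [List.length_cons, List.length_nil]
    omega
  | cat h1 h2 ih1 ih2 =>
    intro a1 a2 a3
    have m1 := h.en.N_mono h1.le
    have m2 := h.en.N_mono h2.le
    have := ih1 (h2.le.trans a1) a2 (by omega)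
    have := ih2 a1 (by omega) a3
    simp only [List.length_append]
    omega
  | @band a c l L hb hs ih =>
    intro a1 a2 a3
    have hle := hs.le
    have m1 : v.N a ≤ v.N (a + l) := h.en.N_mono (by omega)
    have m2 : v.N c ≤ v.N (c + l) := h.en.N_mono (by omega)
    have i1 := ih (by omega) (by omega) (by omega)
    obtain ⟨s', hm', -⟩ := h.sl c a l hb.symm a1 (by omega)
    have c1 := hm'.count h.en (x := c) (y := c + l) (x' := a) (y' := a + l) le_rfl (by omega)
      le_rfl (by omega) (by omega)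
    have c2 : v.N (a + l) ≤ v.N a + 36 := by
      by_contra hc
      obtain ⟨s, hm, hX⟩ := h.sl a c l hb (by omega) a1
      have l1 := hm.1 (v.N a + 20) ⟨by omega, by omega⟩
      have e1 := h.cc_mirror hX (m := v.N a + 18) (m' := s - (v.N a + 20)) (by omega) (by omega)
        (by omega)
      have e2 := hm.2 (v.N a + 19) (s - (v.N a + 20) + 1) ⟨by omega, by omega⟩ (by omega)
      have f1 : a < v.e (v.N a + 19) := h.en.lt_e (by omega)
      have f2 : v.e (v.N a + 19) ≤ a + l := (h.en.gc _ _).2 (by omega)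
      have g1 : s - (v.N a + 20) + 1 ≤ v.N (c + l) := (h.en.gc _ _).1 (by omega)
      have g2 : v.N (a + l) ≤ s - (v.N a + 20) + 1 := h.en.N_le (by omega)
      have := hinj _ _ (by omega) (by omega) (by omega) e1
      omega
    simp only [List.length_cons]
    omega

/-- every factor of the first `Y` letters has a decomposition with at most `V` items -/
def HS (W : ℕ → α) (Y V : ℕ) : Prop :=
  ∀ p q, p ≤ q → q ≤ Y → ∃ L, St W p q L ∧ L.length ≤ V

theorem Good.mono_le {W : ℕ → α} {Y V : ℕ} {v : Lv T} (h : Good W Y v) (hS : HS W Y V)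
    {x y : ℕ} (hxy : x ≤ y) (hy : v.e (y + 1) ≤ Y)
    (hinj : ∀ i j, x ≤ i → i ≤ j → j ≤ y → v.cc i = v.cc j → j ≤ i + 1) :
    y ≤ x + 107 * V := by
  obtain ⟨L, h1, h2⟩ := hS (v.e (x + 1)) (v.e (y + 1)) (h.en.mono.monotone (by omega)) hy
  have := h.st_count hinj h1 hy (by rw [h.en.N_e]; omega) (by rw [h.en.N_e])
  rw [h.en.N_e, h.en.N_e] at this
  have : 107 * L.length ≤ 107 * V := by omega
  omega

theorem Good.plateau {W : ℕ → α} {Y : ℕ} {v : Lv T} (h : Good W Y v) {i : ℕ}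
    (h1 : v.cc i = v.cc (i + 1)) (h2 : v.cc (i + 1) = v.cc (i + 2)) :
    v.X (i + 3) = v.X (i + 1) := by
  have e1 := cls_eq h.inv h1
  have e2 := cls_eq h.inv (h1.trans h2)
  have hi := h.inv
  simp only [Nat.add_assoc, Nat.reduceAdd] at e1 e2
  generalize v.X i = a at *
  generalize v.X (i + 1) = b at *
  generalize v.X (i + 2) = c at *
  generalize v.X (i + 3) = d at *
  rcases e1 with ⟨a1, a2⟩ | ⟨a1, a2⟩ <;> rcases e2 with ⟨b1, b2⟩ | ⟨b1, b2⟩
  · exact b2
  · rw [b2, ← a1, ← b1, a2]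
  · exact b2
  · have : v.mu a = v.mu b := a2.symm.trans b1
    rw [b2, this, ← a1]

/-- a block is periodic with period two after a bounded number of letters -/
theorem Good.blk {W : ℕ → α} {Y V : ℕ} {v : Lv T} (h : Good W Y v) (hS : HS W Y V) {m : ℕ}
    (hm : v.e (v.kap Y (m + 1)) ≤ Y) {i : ℕ} (h1 : v.kap Y m + (214 * V + 4) ≤ i)
    (h2 : i + 2 < v.kap Y (m + 1)) : v.X (i + 2) = v.X i := by
  have hk := Lv.kap_enum h.en Y
  have := uni v.cc (lo := v.kap Y m + 2) (hi := v.kap Y (m + 1) - 2) (B := 107 * V) (by omega)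
    (fun k a1 a2 hr => by
      obtain ⟨j, hj⟩ := Lv.kap_of_K (v := v) (Y := Y) (n := k + 3) (Or.inr (Or.inr ⟨k, rfl, hr⟩))
      have b1 : m < j := hk.mono.lt_iff_lt.1 (by omega)
      have b2 : j < m + 1 := hk.mono.lt_iff_lt.1 (by omega)
      omega)
    (fun x y a1 a2 a3 => h.mono_le hS a1 ((h.en.mono.monotone (by omega)).trans hm) a3)
  rcases this with h3 | h3
  · obtain ⟨k, rfl⟩ : ∃ k, i = k + 1 := ⟨i - 1, by omega⟩
    exact h.plateau (h3 k (by omega) (by omega)) (h3 (k + 1) (by omega) (by omega))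
  · omega

end Pool.Agent.P.MP_daaf23_co.H84
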