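import Pool.Agent.P.MP_daaf23_co.FgD

set_option autoImplicit false

namespace Pool.Agent.P.MP_daaf23_co.H84
open Pool.Agent.P.MP_daaf23_co.H98

variable {α : Type}

/-- sums of `k` elements of `G` -/
def sums (G : Finset ℤ) : ℕ → Finset ℤ
  | 0 => {0}
  | k + 1 => Finset.image₂ (· + ·) (sums G k) G

theorem sums_card (G : Finset ℤ) (k : ℕ) : (sums G k).card ≤ G.card ^ k := by
  induction k with
  | zero => simp [sums]
  | succ k ih =>
    refine (Finset.card_image₂_le _ _ _).trans ?_
    rw [pow_succ]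
    exact Nat.mul_le_mul_right _ ih

theorem sums_add {G : Finset ℤ} {k k' : ℕ} {z z' : ℤ} (h : z ∈ sums G k) (h' : z' ∈ sums G k') :
    z + z' ∈ sums G (k + k') := by
  induction k' generalizing z' with
  | zero =>
    simp only [sums, Finset.mem_singleton] at h'
    simpa [h'] using h
  | succ k' ih =>
    obtain ⟨a, ha, b, hb, rfl⟩ := Finset.mem_image₂.1 h'
    exact Finset.mem_image₂.2 ⟨z + a, ih ha, b, hb, add_assoc _ _ _⟩

theorem sums_neg {G : Finset ℤ} (hG : ∀ g ∈ G, -g ∈ G) {k : ℕ} {z : ℤ} (h : z ∈ sums G k) :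
    -z ∈ sums G k := by
  induction k generalizing z with
  | zero =>
    simp only [sums, Finset.mem_singleton] at h ⊢
    simp [h]
  | succ k ih =>
    obtain ⟨a, ha, b, hb, rfl⟩ := Finset.mem_image₂.1 h
    exact Finset.mem_image₂.2 ⟨-a, ih ha, -b, hG b hb, by ring⟩

theorem sums_one {G : Finset ℤ} {z : ℤ} (h : z ∈ G) : z ∈ sums G 1 :=
  Finset.mem_image₂.2 ⟨0, by simp [sums], z, h, zero_add _⟩

theorem sums_mono {G : Finset ℤ} (h0 : (0 : ℤ) ∈ G) {k k' : ℕ} (hk : k ≤ k') {z : ℤ}
    (h : z ∈ sums G k) : z ∈ sums G k' := by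
  induction k', hk using Nat.le_induction with
  | base => exact h
  | succ k' _ ih => exact Finset.mem_image₂.2 ⟨z, ih, 0, h0, add_zero _⟩

theorem sums_zero (G : Finset ℤ) : (0 : ℤ) ∈ sums G 0 := by simp [sums]

attribute [irreducible] sums

theorem sub_e {e N e' N' : ℕ → ℕ} (hlo : Enum e' N') (_hhi : Enum e N)
    (hsub : ∀ n, ∃ k, e' k = e n) (n : ℕ) : e' (N' (e n)) = e n := by
  obtain ⟨k, hk⟩ := hsub n
  rw [← hk, hlo.N_e]

theorem sub_count {e N e' N' : ℕ → ℕ} (hlo : Enum e' N') (hhi : Enum e N)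
    (hsub : ∀ n, ∃ k, e' k = e n) {t t' : ℕ} (ht : t ≤ t') : N t' + N' t ≤ N t + N' t' := by
  have hF : StrictMono fun n => N' (e n) := by
    intro a b hab
    apply hlo.mono.lt_iff_lt.1
    rw [sub_e hlo hhi hsub, sub_e hlo hhi hsub]
    exact hhi.mono hab
  have m1 := hhi.N_mono ht
  have m2 := hlo.N_mono ht
  rcases m1.eq_or_lt with h | h
  · omega
  have a1 : N' t < N' (e (N t + 1)) := by
    apply hlo.N_lt
    rw [sub_e hlo hhi hsub]
    exact hhi.lt_e (Nat.lt_succ_self _)
  have a2 : N' (e (N t')) ≤ N' t' := hlo.N_mono (hhi.e_N_le _)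
  have a3 := hF.add_le_nat (N t' - (N t + 1)) (N t + 1)
  have a4 : N t' - (N t + 1) + (N t + 1) = N t' := by omega
  simp only [a4] at a3
  omega

/-- offset of a position from the previous cut of the upper level -/
def off (e N N' : ℕ → ℕ) (t : ℕ) : ℤ := (N' t : ℤ) - (N' (e (N t)) : ℤ)

theorem chain {W : ℕ → α} {Y y : ℕ} {e N e' N' : ℕ → ℕ} (hlo : Enum e' N') (hhi : Enum e N)
    (hsub : ∀ n, ∃ k, e' k = e n)
    (mlo : ∀ a c l, Band W a c l → a + l ≤ Y → c + l ≤ Y → ∃ s, Mir e' N' a c l s)
    (mhi : ∀ a c l, Band W a c l → a + l ≤ Y → c + l ≤ Y → ∃ s, Mir e N a c l s)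
    (hy : y ≤ Y) {G : Finset ℤ} (h0 : ∀ z : ℤ, -70 ≤ z → z ≤ 70 → z ∈ G)
    (hneg : ∀ g ∈ G, -g ∈ G)
    (hsz : ∀ n, n < N y → (N' (e (n + 1)) : ℤ) - (N' (e n) : ℤ) ∈ G)
    {p q : ℕ} {L : List (ℕ × ℕ)} (hs : St W p q L) : q ≤ y →
    (∀ it ∈ L, N' (it.1 + it.2) < N' it.1 + 35 ∨ N it.1 + 35 ≤ N (it.1 + it.2)) →
    ∀ k, off e N N' p ∈ sums G k → off e N N' q ∈ sums G (k + 142 * L.length) := by
  have hz : (0 : ℤ) ∈ G := h0 0 (by omega) (by omega)
  have sumF : ∀ d n n', n ≤ n' → n' ≤ N y → n' ≤ n + d →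
      (N' (e n') : ℤ) - (N' (e n) : ℤ) ∈ sums G d := by
    intro d n n' h1
    induction n', h1 using Nat.le_induction generalizing d with
    | base =>
      intro _ _
      rw [sub_self]
      exact sums_mono hz (Nat.zero_le d) (sums_zero G)
    | succ n' h1 ih =>
      intro h2 h3
      obtain ⟨d', rfl⟩ : ∃ d', d = d' + 1 := ⟨d - 1, by omega⟩
      have := sums_add (ih d' (by omega) (by omega)) (sums_one (hsz n' (by omega)))
      rwa [sub_add_sub_cancel'] at this
  have short : ∀ t t' k, t ≤ t' → t' ≤ y → N' t' ≤ N' t + 70 → off e N N' t ∈ sums G k →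
      off e N N' t' ∈ sums G (k + 71) := by
    intro t t' k h1 h2 h3 h4
    have a1 := sub_count hlo hhi hsub h1
    have a2 := hlo.N_mono h1
    have b1 := sums_neg hneg (sumF 70 (N t) (N t') (hhi.N_mono h1) (hhi.N_mono h2) (by omega))
    have b2 := sums_one (h0 ((N' t' : ℤ) - (N' t : ℤ)) (by omega) (by omega))
    have := sums_add h4 (sums_add b2 b1)
    convert this using 1
    unfold off
    ring
  induction hs with
  | nil x => intro _ _ k hk; simpa using hk
  | one x =>
    intro h1 _ k hk
    have := short x (x + 1) k (by omega) h1 (by have := hlo.N_succ x; omega) hk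
    exact sums_mono hz (by simp only [List.length_cons, List.length_nil]; omega) this
  | cat h1 h2 ih1 ih2 =>
    intro a1 a2 k hk
    have := ih2 a1 (fun it hit => a2 it (List.mem_append_right _ hit)) _
      (ih1 (h2.le.trans a1) (fun it hit => a2 it (List.mem_append_left _ hit)) k hk)
    exact sums_mono hz (by simp only [List.length_append]; omega) this
  | @band a c l L hb hs ih =>
    intro a1 a2 k hk
    have hle := hs.le
    obtain ⟨s1, m1⟩ := mlo a c l hb (by omega) (by omega)
    obtain ⟨s2, m2⟩ := mlo c a l hb.symm (by omega) (by omega)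
    rcases a2 (a, l) List.mem_cons_self with hsh | hlg
    · simp only at hsh
      have c1 := m2.count hlo (x := c) (y := c + l) (x' := a) (y' := a + l) le_rfl (by omega)
        le_rfl (by omega) (by omega)
      have b1 := short a (a + l) k (by omega) (by omega) (by omega) hk
      have b2 := ih (by omega) (fun it hit => a2 it (List.mem_cons_of_mem _ hit)) _ b1
      have b3 := short c (c + l) _ (by omega) a1 (by omega) b2
      exact sums_mono hz (by simp only [List.length_cons]; omega) b3
    · simp only at hlg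
      obtain ⟨s3, m3⟩ := mhi a c l hb (by omega) (by omega)
      obtain ⟨s4, m4⟩ := mhi c a l hb.symm (by omega) (by omega)
      have d1 : Deep N a l (N a + 18) := ⟨by omega, by omega⟩
      have l1 := m3.1 _ d1
      have e1 := m3.2 _ (s3 - (N a + 18)) d1 (by omega)
      generalize s3 - (N a + 18) = n' at e1
      have f1 : a < e (N a + 18) := hhi.lt_e (by omega)
      have f2 : e (N a + 18) ≤ a + l := (hhi.gc _ _).2 (by omega)
      have c1 := m1.count hlo (x := a) (y := e (N a + 18)) (x' := e n') (y' := c + l) le_rfl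
        (by omega) (by omega) (by omega) (by omega)
      have c2 := m2.count hlo (x := e n') (y := c + l) (x' := a) (y' := e (N a + 18))
        (by omega) (by omega) (by omega) (by omega) (by omega)
      have c3 := m4.count hhi (x := e n') (y := c + l) (x' := a) (y' := e (N a + 18))
        (by omega) (by omega) (by omega) (by omega) (by omega)
      rw [hhi.N_e, hhi.N_e] at c3
      have g1 : n' ≤ N (c + l) := (hhi.gc _ _).1 (by omega)
      have g2 : N (a + l) ≤ N y := hhi.N_mono (by omega)
      have b1 := sumF 18 (N a) (N a + 18) (by omega) (by omega) le_rfl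
      have b2 := sums_neg hneg (sumF 53 n' (N (c + l)) g1 (hhi.N_mono a1) (by omega))
      have b3 := sums_one (h0 ((N' (c + l) : ℤ) - (N' (e n') : ℤ) - (N' (e (N a + 18)) : ℤ) +
        (N' a : ℤ)) (by omega) (by omega))
      have := sums_add (sums_neg hneg hk) (sums_add b1 (sums_add b2 b3))
      refine sums_mono hz (k := k + (18 + (53 + 1)))
        (by simp only [List.length_cons]; omega) ?_
      convert this using 1
      unfold off
      ring

theorem avoid (B : Finset ℤ) (z : ℤ) :
    ∃ t : ℕ, t ≤ B.card ∧ ∀ j : ℕ, j < 6 → z + 6 * t + j ∉ B := by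
  by_contra hc
  push Not at hc
  choose! f hf using hc
  have := Finset.card_le_card_of_injOn (s := Finset.range (B.card + 1)) (t := B)
    (fun t => z + 6 * t + f t)
    (fun t ht => (hf t (by have := Finset.mem_range.1 ht; omega)).2)
    (fun t ht t' ht' he => by
      have h1 := (hf t (by have := Finset.mem_range.1 ht; omega)).1
      have h2 := (hf t' (by have := Finset.mem_range.1 ht'; omega)).1
      simp only at he
      omega)
  rw [Finset.card_range] at this
  omega

end Pool.Agent.P.MP_daaf23_co.H84
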