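import Pool.Agent.P.MP_daaf23_co.FgE

set_option autoImplicit false

namespace Pool.Agent.P.MP_daaf23_co.H84
open Pool.Agent.P.MP_daaf23_co.H98

variable {α : Type}

/-- letters of level `h` -/
def LT (α : Type) : ℕ → Type
  | 0 => α
  | h + 1 => List (LT α h)

/-- the parsing of `W` up to the horizon `Y` -/
noncomputable def tw (W : ℕ → α) (Y : ℕ) : (h : ℕ) → Lv (LT α h)
  | 0 => (⟨id, W, id, id⟩ : Lv α)
  | h + 1 => (tw W Y h).nxt Y

theorem good_tw (W : ℕ → α) (Y : ℕ) (h : ℕ) : Good W Y (tw W Y h) := by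
  induction h with
  | zero => exact good_zero W Y
  | succ h ih => exact ih.nxt

theorem tw_sub (W : ℕ → α) (Y : ℕ) {h' h : ℕ} (hh : h' ≤ h) (n : ℕ) :
    ∃ k, (tw W Y h').e k = (tw W Y h).e n := by
  induction h, hh using Nat.le_induction generalizing n with
  | base => exact ⟨n, rfl⟩
  | succ h _ ih => exact ih ((tw W Y h).kap Y n)

theorem tw_shrink (W : ℕ → α) (Y h : ℕ) {x y : ℕ} (hxy : x ≤ y) (hy : y ≤ Y) :
    5 * (tw W Y (h + 1)).N y + 4 * (tw W Y h).N x ≤
      5 * (tw W Y (h + 1)).N x + 4 * (tw W Y h).N y + 5 :=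
  Lv.shrink' (good_tw W Y h).en ((good_tw W Y h).en.N_mono hxy)
    (((good_tw W Y h).en.e_N_le y).trans hy)

theorem tw_grow (W : ℕ → α) (Y h : ℕ) {x y : ℕ} (hxy : x ≤ y) (hy : y ≤ Y) (d : ℕ) :
    ∀ j, (tw W Y (h + d)).N x + 6 + j ≤ (tw W Y (h + d)).N y →
      (tw W Y h).N x + 6 + j + d ≤ (tw W Y h).N y := by
  induction d with
  | zero => intro j hj; exact hj
  | succ d ih =>
    intro j hj
    have h1 := tw_shrink W Y (h + d) hxy hy
    have h2 : (tw W Y (h + (d + 1))).N = (tw W Y (h + d + 1)).N := rfl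
    rw [h2] at hj
    have := ih (j + 1) (by omega)
    omega

theorem per_red {T : Type} {X : ℕ → T} {u v : ℕ}
    (h : ∀ i, u ≤ i → i + 2 < v → X (i + 2) = X i) (n : ℕ) :
    n < v → ∃ i, i ≤ n ∧ (n < u + 2 → i = n) ∧ (u ≤ n → u ≤ i) ∧ i < u + 2 ∧ X n = X i := by
  induction n using Nat.strong_induction_on with
  | _ n ih =>
    intro hn
    by_cases hc : n < u + 2
    · exact ⟨n, le_rfl, fun _ => rfl, id, hc, rfl⟩
    · obtain ⟨k, rfl⟩ : ∃ k, n = k + 2 := ⟨n - 2, by omega⟩
      obtain ⟨i, h1, _, h3, h4, h5⟩ := ih k (by omega) (by omega)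
      exact ⟨i, by omega, fun h => absurd h hc, fun _ => h3 (by omega), h4,
        (h k (by omega) hn).trans h5⟩

theorem tw_types {W : ℕ → α} {Y V : ℕ} (hS : HS W Y V) {H : ℕ} (hy : (tw W Y H).e 6 ≤ Y)
    (d : ℕ) : ∀ h, h + d = H → ∃ S : Finset (LT α h), S.card ≤ 6 * (214 * V + 6) ^ d ∧
      ∀ n, n < (tw W Y h).N ((tw W Y H).e 6) → (tw W Y h).X n ∈ S := by
  classical
  induction d with
  | zero =>
    intro h hh
    obtain rfl : h = H := hh
    refine ⟨(Finset.range 6).image (tw W Y h).X, ?_, ?_⟩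
    · exact Finset.card_image_le.trans (by simp)
    · intro n hn
      rw [(good_tw W Y h).en.N_e] at hn
      exact Finset.mem_image_of_mem _ (Finset.mem_range.2 hn)
  | succ d ih =>
    intro h hh
    obtain ⟨S, hS1, hS2⟩ := ih (h + 1) (by omega)
    have hg := good_tw W Y h
    have hk := Lv.kap_enum hg.en Y
    refine ⟨Finset.biUnion (α := List (LT α h)) S
      (fun l => (l.take (214 * V + 6)).toFinset), ?_, ?_⟩
    · refine (Finset.card_biUnion_le_card_mul _ _ (214 * V + 6) ?_).trans ?_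
      · intro l _
        exact (List.toFinset_card_le _).trans (List.length_take_le _ _)
      · rw [pow_succ, ← Nat.mul_assoc]
        exact Nat.mul_le_mul_right _ hS1
    · intro n hn
      obtain ⟨M, hM⟩ := tw_sub W Y (show h + 1 ≤ H by omega) 6
      have hM' : (tw W Y h).e ((tw W Y h).kap Y M) = (tw W Y H).e 6 := hM
      rw [← hM', hg.en.N_e] at hn
      rw [← hM, (good_tw W Y (h + 1)).en.N_e] at hS2
      set m := (tw W Y h).cnt Y n with hm
      have a1 : (tw W Y h).kap Y m ≤ n := hk.e_N_le n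
      have a2 : n < (tw W Y h).kap Y (m + 1) := hk.lt_e (Nat.lt_succ_self _)
      have a3 : m < M := hk.N_lt hn
      have a4 : (tw W Y h).e ((tw W Y h).kap Y (m + 1)) ≤ Y :=
        (hg.en.mono.monotone (hk.mono.monotone a3)).trans (hM' ▸ hy)
      obtain ⟨i, b1, b2, b3, b4, b5⟩ := per_red (fun i h1 h2 => hg.blk hS a4 h1 h2) n a2
      have b6 : (tw W Y h).kap Y m ≤ i := by
        by_cases hc : n < (tw W Y h).kap Y m + (214 * V + 4) + 2
        · rw [b2 hc]; exact a1
        · have := b3 (by omega); omega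
      refine Finset.mem_biUnion.2 ⟨_, hS2 m a3, ?_⟩
      rw [List.mem_toFinset, b5]
      change _ ∈ List.take _ (seg (tw W Y h).X ((tw W Y h).kap Y m) ((tw W Y h).kap Y (m + 1)))
      rw [List.mem_take_iff_getElem]
      refine ⟨i - (tw W Y h).kap Y m, by rw [seg_length]; omega, ?_⟩
      rw [seg_getElem]
      congr 1
      omega

theorem tw_size (W : ℕ → α) (Y : ℕ) {h' h : ℕ} (hh : h' ≤ h) :
    ∃ f : LT α h → ℕ, ∀ n, (tw W Y h').N ((tw W Y h).e (n + 1)) =
      (tw W Y h').N ((tw W Y h).e n) + f ((tw W Y h).X n) := by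
  induction h, hh using Nat.le_induction with
  | base =>
    refine ⟨fun _ => 1, fun n => ?_⟩
    rw [(good_tw W Y h').en.N_e, (good_tw W Y h').en.N_e]
  | succ h _ ih =>
    obtain ⟨f, hf⟩ := ih
    have tel : ∀ p q, p ≤ q → (tw W Y h').N ((tw W Y h).e q) =
        (tw W Y h').N ((tw W Y h).e p) + ((seg (tw W Y h).X p q).map f).sum := by
      intro p q hpq
      induction q, hpq using Nat.le_induction with
      | base => simp [seg_self]
      | succ q hpq ih =>
        rw [seg_snoc _ hpq, List.map_append, List.sum_append, hf, ih]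
        simp only [List.map_cons, List.map_nil, List.sum_cons, List.sum_nil]
        omega
    exact ⟨fun l : List (LT α h) => (l.map f).sum, fun n =>
      tel _ _ ((Lv.kap_enum (good_tw W Y h).en Y).mono.monotone (Nat.le_succ n))⟩

/-- depths of the levels used -/
def dep (V : ℕ) : ℕ → ℕ
  | 0 => 0
  | k + 1 => dep V k + 36 * (141 + 12 * (214 * V + 6) ^ dep V k) ^ (142 * V)

theorem dep_mono (V : ℕ) : Monotone (dep V) :=
  monotone_nat_of_le_succ fun _ => Nat.le_add_right _ _

theorem tw_step {W : ℕ → α} {Y V : ℕ} (hS : HS W Y V) {H : ℕ} (hy : (tw W Y H).e 6 ≤ Y)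
    {lo hi d : ℕ} (h1 : hi + d = H)
    (h2 : lo + 36 * (141 + 12 * (214 * V + 6) ^ d) ^ (142 * V) = hi) {n : ℕ}
    (hn : (tw W Y hi).e (n + 6) ≤ (tw W Y H).e 6) :
    ∃ n', (tw W Y hi).e n ≤ (tw W Y lo).e n' ∧ (tw W Y lo).e (n' + 6) ≤ (tw W Y hi).e (n + 6) ∧
      ∀ q, (tw W Y lo).e n' ≤ q → q < (tw W Y lo).e (n' + 6) → ∀ L, St W 0 q L → L.length ≤ V →
        ∃ it ∈ L, (tw W Y lo).N it.1 + 35 ≤ (tw W Y lo).N (it.1 + it.2) ∧
          (tw W Y hi).N (it.1 + it.2) < (tw W Y hi).N it.1 + 35 := by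
  classical
  have glo := good_tw W Y lo
  have ghi := good_tw W Y hi
  have hsub := tw_sub W Y (show lo ≤ hi by omega)
  obtain ⟨S, hS1, hS2⟩ := tw_types hS hy d hi h1
  obtain ⟨f, hf⟩ := tw_size W Y (show lo ≤ hi by omega)
  set G : Finset ℤ := Finset.Icc (-70) 70 ∪ (S.image fun t => (f t : ℤ)) ∪
    (S.image fun t => -(f t : ℤ)) with hG
  have hGc : G.card ≤ 141 + 12 * (214 * V + 6) ^ d := by
    have c1 : (Finset.Icc (-70 : ℤ) 70).card = 141 := by simp
    have c2 : (S.image fun t => (f t : ℤ)).card ≤ S.card := Finset.card_image_le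
    have c3 : (S.image fun t => -(f t : ℤ)).card ≤ S.card := Finset.card_image_le
    have c4 := Finset.card_union_le (Finset.Icc (-70 : ℤ) 70) (S.image fun t => (f t : ℤ))
    have c5 := Finset.card_union_le (Finset.Icc (-70 : ℤ) 70 ∪ (S.image fun t => (f t : ℤ)))
      (S.image fun t => -(f t : ℤ))
    rw [hG]
    omega
  have g0 : ∀ z : ℤ, -70 ≤ z → z ≤ 70 → z ∈ G := fun z a b =>
    Finset.mem_union_left _ (Finset.mem_union_left _ (Finset.mem_Icc.2 ⟨a, b⟩))
  have gneg : ∀ g ∈ G, -g ∈ G := by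
    intro g hg
    rcases Finset.mem_union.1 hg with hg | hg
    · rcases Finset.mem_union.1 hg with hg | hg
      · have := Finset.mem_Icc.1 hg
        exact g0 _ (by omega) (by omega)
      · obtain ⟨t, ht, rfl⟩ := Finset.mem_image.1 hg
        exact Finset.mem_union_right _ (Finset.mem_image.2 ⟨t, ht, rfl⟩)
    · obtain ⟨t, ht, rfl⟩ := Finset.mem_image.1 hg
      exact Finset.mem_union_left _ (Finset.mem_union_right _
        (Finset.mem_image.2 ⟨t, ht, by simp⟩))
  have gsz : ∀ n, n < (tw W Y hi).N ((tw W Y H).e 6) →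
      ((tw W Y lo).N ((tw W Y hi).e (n + 1)) : ℤ) - ((tw W Y lo).N ((tw W Y hi).e n) : ℤ) ∈ G := by
    intro n hn
    refine Finset.mem_union_left _ (Finset.mem_union_right _
      (Finset.mem_image.2 ⟨_, hS2 n hn, ?_⟩))
    rw [hf]
    push_cast
    ring
  set R := sums G (142 * V) with hR
  have hRc : R.card ≤ (141 + 12 * (214 * V + 6) ^ d) ^ (142 * V) :=
    (sums_card G _).trans (Nat.pow_le_pow_left hGc _)
  set B : Finset ℤ := (Finset.range 6).biUnion fun i =>
    R.image fun r => r + ((tw W Y lo).N ((tw W Y hi).e (n + i)) : ℤ) with hB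
  have hBc : B.card ≤ 6 * R.card := by
    have := Finset.card_biUnion_le_card_mul (Finset.range 6) (fun i =>
      R.image fun r => r + ((tw W Y lo).N ((tw W Y hi).e (n + i)) : ℤ)) R.card
      (fun _ _ => Finset.card_image_le)
    rwa [Finset.card_range] at this
  obtain ⟨t, ht1, ht2⟩ := avoid B ((tw W Y lo).N ((tw W Y hi).e n))
  have hgr := tw_grow W Y lo (ghi.en.mono.monotone (Nat.le_add_right n 6)) (hn.trans hy)
    (36 * (141 + 12 * (214 * V + 6) ^ d) ^ (142 * V)) 0
    (by rw [h2, ghi.en.N_e, ghi.en.N_e])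
  have k1 : (tw W Y hi).e n ≤ (tw W Y lo).e ((tw W Y lo).N ((tw W Y hi).e n) + 6 * t) := by
    conv_lhs => rw [← sub_e glo.en ghi.en hsub n]
    exact glo.en.mono.monotone (Nat.le_add_right _ _)
  have k2 : (tw W Y lo).e ((tw W Y lo).N ((tw W Y hi).e n) + 6 * t + 6) ≤
      (tw W Y hi).e (n + 6) := (glo.en.gc _ _).2 (by omega)
  refine ⟨_, k1, k2, ?_⟩
  intro q q1 q2 L hL hV
  by_contra hc
  push Not at hc
  have hch := chain glo.en ghi.en hsub
    (fun a c l hb a1 a2 => (glo.sl a c l hb a1 a2).imp fun _ h => h.1)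
    (fun a c l hb a1 a2 => (ghi.sl a c l hb a1 a2).imp fun _ h => h.1) hy g0 gneg gsz hL
    (by omega) (fun it hit => by
      by_cases hl : (tw W Y lo).N it.1 + 35 ≤ (tw W Y lo).N (it.1 + it.2)
      · exact Or.inr (hc it hit hl)
      · exact Or.inl (by omega)) 0 (by
      unfold off
      rw [ghi.en.N_zero, ghi.en.zero, sub_self]
      exact sums_zero G)
  have hr : off (tw W Y hi).e (tw W Y hi).N (tw W Y lo).N q ∈ R :=
    sums_mono (g0 0 (by omega) (by omega)) (by omega) hch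
  have r1 : n ≤ (tw W Y hi).N q := (ghi.en.gc _ _).1 (by omega)
  have r2 : (tw W Y hi).N q < n + 6 := ghi.en.N_lt (by omega)
  have r3 := (glo.en.gc _ _).1 q1
  have r4 := glo.en.N_lt q2
  refine ht2 ((tw W Y lo).N q - ((tw W Y lo).N ((tw W Y hi).e n) + 6 * t)) (by omega) ?_
  refine Finset.mem_biUnion.2 ⟨(tw W Y hi).N q - n, Finset.mem_range.2 (by omega),
    Finset.mem_image.2 ⟨_, hr, ?_⟩⟩
  have e1 : n + ((tw W Y hi).N q - n) = (tw W Y hi).N q := by omega
  rw [e1]
  unfold off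
  omega

theorem tw_top {W : ℕ → α} {Y V : ℕ} (hS : HS W Y V) : Y < (tw W Y (dep V (V + 1))).e 6 := by
  classical
  by_contra hy
  push Not at hy
  generalize hH : dep V (V + 1) = H at hy
  have key : ∀ k, k ≤ V + 1 → ∃ n, (tw W Y (H - dep V k)).e (n + 6) ≤ (tw W Y H).e 6 ∧
      ∀ q, (tw W Y (H - dep V k)).e n ≤ q → q < (tw W Y (H - dep V k)).e (n + 6) →
        ∀ L, St W 0 q L → L.length ≤ V → ∀ i, i < k → ∃ it ∈ L,
          (tw W Y (H - dep V (i + 1))).N it.1 + 35 ≤
            (tw W Y (H - dep V (i + 1))).N (it.1 + it.2) ∧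
          (tw W Y (H - dep V i)).N (it.1 + it.2) < (tw W Y (H - dep V i)).N it.1 + 35 := by
    intro k
    induction k with
    | zero => intro _; exact ⟨0, le_rfl, fun _ _ _ _ _ _ i hi => absurd hi (Nat.not_lt_zero i)⟩
    | succ k ih =>
      intro hk
      obtain ⟨n, hn1, hn2⟩ := ih (by omega)
      have m1 : dep V (k + 1) ≤ H := hH ▸ dep_mono V hk
      have m2 : dep V (k + 1) =
        dep V k + 36 * (141 + 12 * (214 * V + 6) ^ dep V k) ^ (142 * V) := rfl
      obtain ⟨n', a1, a2, a3⟩ := tw_step hS hy (lo := H - dep V (k + 1)) (hi := H - dep V k)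
        (d := dep V k) (by omega) (by omega) hn1
      refine ⟨n', a2.trans hn1, fun q q1 q2 L hL hV i hi => ?_⟩
      rcases (Nat.lt_succ_iff.1 hi).eq_or_lt with rfl | hi
      · exact a3 q q1 q2 L hL hV
      · exact hn2 q (a1.trans q1) (lt_of_lt_of_le q2 a2) L hL hV i hi
  obtain ⟨n, hn1, hn2⟩ := key (V + 1) le_rfl
  have hlt := (good_tw W Y (H - dep V (V + 1))).en.mono (show n < n + 6 by omega)
  obtain ⟨L, hL, hV⟩ := hS 0 _ (Nat.zero_le _) (hlt.le.trans (hn1.trans hy))
  choose! it hit using hn2 _ le_rfl hlt L hL hV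
  have inj : ∀ i j, i < j → j < V + 1 → it i ≠ it j := by
    intro i j hij hj he
    obtain ⟨_, a1, _⟩ := hit i (by omega)
    obtain ⟨_, _, a2⟩ := hit j hj
    rw [← he] at a2
    have m1 : dep V (i + 1) ≤ dep V j := dep_mono V hij
    have := sub_count (good_tw W Y (H - dep V j)).en (good_tw W Y (H - dep V (i + 1))).en
      (tw_sub W Y (by omega)) (Nat.le_add_right (it i).1 (it i).2)
    omega
  have := Finset.card_le_card_of_injOn (s := Finset.range (V + 1)) (t := L.toFinset) it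
    (fun i hi => List.mem_toFinset.2 (hit i (Finset.mem_range.1 hi)).1)
    (fun i hi j hj he => by
      rcases lt_trichotomy i j with h | h | h
      · exact absurd he (inj i j h (Finset.mem_range.1 hj))
      · exact h
      · exact absurd he.symm (inj j i h (Finset.mem_range.1 hi)))
  have := List.toFinset_card_le L
  rw [Finset.card_range] at *
  omega

end Pool.Agent.P.MP_daaf23_co.H84
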