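import Mathlib

set_option autoImplicit false

namespace Pool.Agent.P.MP_daaf23_co.H84

/-- expressions built from the empty word and letters by concatenation and powers -/
inductive Expr (A : Type) : Type
  | empty : Expr A
  | letter (a : A) : Expr A
  | cat (x y : Expr A) : Expr A
  | pow (x : Expr A) (k : ℕ) : Expr A

/-- the word denoted by an expression -/
def Expr.val {A : Type} : Expr A → List A
  | .empty => []
  | .letter a => [a]
  | .cat x y => x.val ++ y.val
  | .pow x k => (List.replicate k x.val).flatten

/-- the number of nodes of an expression; a power is one node whatever its exponent -/
def Expr.size {A : Type} : Expr A → ℕ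
  | .empty => 1
  | .letter _ => 1
  | .cat x y => x.size + y.size + 1
  | .pow x _ => x.size + 1

end Pool.Agent.P.MP_daaf23_co.H84
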