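import Pool.Agent.P.MP_daaf23_co.FgF
import Pool.Agent.P.MP_daaf23_co.FgX

set_option autoImplicit false

namespace Pool.Agent.P.MP_daaf23_co.H84
open Pool.Agent.P.MP_daaf23_co.H98

variable {α T : Type}

/-- `z` is the value of an expression of size at most `B` -/
def Gen (B : ℕ) (z : List α) : Prop := ∃ E : Expr α, E.size ≤ B ∧ E.val = z

theorem Gen.mono {a b : ℕ} {z : List α} (h : Gen a z) (hab : a ≤ b) : Gen b z := by
  obtain ⟨E, h1, h2⟩ := h
  exact ⟨E, h1.trans hab, h2⟩

theorem Gen.nil : Gen 1 ([] : List α) := ⟨.empty, le_rfl, rfl⟩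

theorem Gen.single (a : α) : Gen 1 [a] := ⟨.letter a, le_rfl, rfl⟩

theorem Gen.app {a b : ℕ} {u v : List α} (h : Gen a u) (h' : Gen b v) :
    Gen (a + b + 1) (u ++ v) := by
  obtain ⟨E, h1, rfl⟩ := h
  obtain ⟨F, h2, rfl⟩ := h'
  exact ⟨.cat E F, by simp only [Expr.size]; omega, rfl⟩

theorem Gen.pow {a : ℕ} {u : List α} (h : Gen a u) (k : ℕ) :
    Gen (a + 1) (List.replicate k u).flatten := by
  obtain ⟨E, h1, rfl⟩ := h
  exact ⟨.pow E k, by simp only [Expr.size]; omega, rfl⟩

theorem Gen.filterMap {B : ℕ} {z : List (Option α)} (h : Gen B z) : Gen B (z.filterMap id) := by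
  obtain ⟨E, h1, rfl⟩ := h
  refine Gen.mono ?_ h1
  clear h1
  induction E with
  | empty => exact Gen.nil
  | letter a =>
    cases a with
    | none => exact Gen.nil
    | some a => exact Gen.single a
  | cat x y ih1 ih2 =>
    simp only [Expr.val, Expr.size, List.filterMap_append]
    exact ih1.app ih2
  | pow x k ih =>
    simp only [Expr.val, Expr.size, List.filterMap_flatten, List.map_replicate]
    exact ih.pow k

theorem gen_seg {W : ℕ → α} {Y b : ℕ} {e : ℕ → ℕ} (he : StrictMono e)
    (hb : ∀ n, e (n + 1) ≤ Y → Gen b (seg W (e n) (e (n + 1)))) {p q : ℕ} (hpq : p ≤ q) :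
    ∀ d, q ≤ p + d → e q ≤ Y → Gen (d * (b + 1) + 1) (seg W (e p) (e q)) := by
  induction q, hpq using Nat.le_induction with
  | base =>
    intro d _ _
    rw [seg_self]
    exact Gen.nil.mono (by omega)
  | succ q hpq ih =>
    intro d h1 h2
    obtain ⟨d', rfl⟩ : ∃ d', d = d' + 1 := ⟨d - 1, by omega⟩
    have m1 := he.monotone (Nat.le_succ q)
    rw [← seg_append W (he.monotone hpq) m1]
    refine ((ih d' (by omega) (m1.trans h2)).app (hb q h2)).mono ?_
    rw [Nat.add_mul d' 1]
    omega

theorem Good.gen_nxt {W : ℕ → α} {Y V b : ℕ} {v : Lv T} (h : Good W Y v) (hS : HS W Y V)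
    (hb : ∀ n, v.e (n + 1) ≤ Y → Gen b (seg W (v.e n) (v.e (n + 1)))) (m : ℕ)
    (hm : v.e (v.kap Y (m + 1)) ≤ Y) :
    Gen ((214 * V + 7) * (b + 1) + 6) (seg W (v.e (v.kap Y m)) (v.e (v.kap Y (m + 1)))) := by
  have hk := Lv.kap_enum h.en Y
  have hper := fun i h1 h2 => h.blk hS hm (i := i) h1 h2
  have huv : v.kap Y m ≤ v.kap Y (m + 1) := hk.mono.monotone (Nat.le_succ m)
  generalize v.kap Y m = u at *
  generalize v.kap Y (m + 1) = u' at *
  generalize hC : 214 * V + 4 = C at *
  have hC' : 214 * V + 7 = C + 3 := by omega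
  rw [hC']
  have hm' := h.en.mono.monotone
  by_cases hc : u' ≤ u + (C + 1)
  · refine (gen_seg h.en.mono hb huv (C + 1) hc hm).mono ?_
    have : (C + 1) * (b + 1) ≤ (C + 3) * (b + 1) := Nat.mul_le_mul_right _ (by omega)
    omega
  obtain ⟨val, hv⟩ := h.val
  have hX : ∀ k r, u + C + 2 * k + r < u' → v.X (u + C + 2 * k + r) = v.X (u + C + r) := by
    intro k r
    induction k with
    | zero => intro _; rfl
    | succ k ih =>
      intro hk
      rw [← ih (by omega), ← hper (u + C + 2 * k + r) (by omega) (by omega)]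
      congr 1
      omega
  have hrep : ∀ k, u + C + 2 * k ≤ u' → seg W (v.e (u + C)) (v.e (u + C + 2 * k)) =
      (List.replicate k (seg W (v.e (u + C)) (v.e (u + C + 2)))).flatten := by
    intro k
    induction k with
    | zero => intro _; simp [seg_self]
    | succ k ih =>
      intro hk
      rw [List.replicate_succ', List.flatten_append, ← ih (by omega)]
      simp only [List.flatten_cons, List.flatten_nil, List.append_nil]
      have e1 : seg W (v.e (u + C)) (v.e (u + C + 2)) =
          val (v.X (u + C + 0)) ++ val (v.X (u + C + 1)) := by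
        rw [hv, hv]
        exact (seg_append W (hm' (by omega)) (hm' (by omega))).symm
      rw [e1, ← hX k 0 (by omega), ← hX k 1 (by omega), hv, hv,
        seg_append W (hm' (by omega)) (hm' (by omega))]
      exact (seg_append W (hm' (by omega)) (hm' (by omega))).symm
  obtain ⟨k, hk1, hk2⟩ : ∃ k, u + C + 2 * k ≤ u' ∧ u' ≤ u + C + 2 * k + 1 :=
    ⟨(u' - (u + C)) / 2, by omega, by omega⟩
  have g1 := gen_seg h.en.mono hb (Nat.le_add_right u C) C le_rfl ((hm' (by omega)).trans hm)
  have g2 := (gen_seg h.en.mono hb (Nat.le_add_right (u + C) 2) 2 le_rfl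
    ((hm' (by omega)).trans hm)).pow k
  have g3 := gen_seg h.en.mono hb hk1 1 hk2 hm
  rw [← hrep k hk1] at g2
  have := (g1.app g2).app g3
  rw [seg_append W (hm' (by omega)) (hm' (by omega)),
    seg_append W (hm' (by omega)) (hm' (by omega))] at this
  refine this.mono ?_
  rw [Nat.add_mul C 3]
  omega

/-- bound for the size of the blocks of level `h` -/
def bd (V : ℕ) : ℕ → ℕ
  | 0 => 1
  | h + 1 => (214 * V + 7) * (bd V h + 1) + 6

theorem tw_gen {W : ℕ → α} {Y V : ℕ} (hS : HS W Y V) (h : ℕ) : ∀ n, (tw W Y h).e (n + 1) ≤ Y →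
    Gen (bd V h) (seg W ((tw W Y h).e n) ((tw W Y h).e (n + 1))) := by
  induction h with
  | zero =>
    intro n _
    change Gen 1 (seg W n (n + 1))
    rw [seg_cons W (Nat.lt_succ_self n), seg_self]
    exact Gen.single _
  | succ h ih => exact fun n hn => (good_tw W Y h).gen_nxt hS ih n hn

/-- the finite structure theorem for reduced words -/
theorem fin_thm (U : ℕ) : ∃ B, ∀ (α : Type) (W : ℕ → α) (Y : ℕ), (∀ t, W t ≠ W (t + 1)) →
    (∀ p q, p ≤ q → q ≤ Y → Fold (seg W p q) U) → Gen B (seg W 0 Y) := by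
  refine ⟨5 * (bd (3 * U) (dep (3 * U) (3 * U + 1)) + 1) + 1, fun α W Y hW hF => ?_⟩
  have hS : HS W Y (3 * U) := fun p q h1 h2 => fold_st hW h1 (hF p q h1 h2)
  have hg := good_tw W Y (dep (3 * U) (3 * U + 1))
  have h1 := hg.en.N_lt (tw_top hS)
  have := gen_seg hg.en.mono (tw_gen hS _) (Nat.zero_le ((tw W Y _).N Y)) 5 (by omega) hg.hY.le
  rwa [hg.en.zero, hg.hY] at this

theorem getElem?_pow {u : List α} {k j : ℕ} {a : α}
    (h : (List.replicate k u).flatten[j]? = some a) : u[j % u.length]? = some a := by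
  induction k generalizing j with
  | zero => simp at h
  | succ k ih =>
    rw [List.replicate_succ, List.flatten_cons] at h
    by_cases hj : j < u.length
    · rw [List.getElem?_append_left hj] at h
      rwa [Nat.mod_eq_of_lt hj]
    · rw [List.getElem?_append_right (by omega)] at h
      rw [Nat.mod_eq_sub_mod (by omega)]
      exact ih h

/-- ultimately periodic -/
def UP (w : ℕ → α) : Prop := ∃ p N, 0 < p ∧ ∀ m, N ≤ m → w (m + p) = w m

theorem aper (n : ℕ) : ∀ w : ℕ → α, ¬ UP w → ∃ N, ∀ E : Expr α, E.size ≤ n →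
    ∀ i, ¬ ∀ t, t < N → E.val[i + t]? = some (w t) := by
  induction n with
  | zero =>
    intro w _
    refine ⟨0, fun E hE => ?_⟩
    cases E <;> simp [Expr.size] at hE
  | succ n ih =>
    intro w hw
    obtain ⟨N1, h1⟩ := ih w hw
    obtain ⟨N2, h2⟩ := ih (fun t => w (N1 + t)) (by
      rintro ⟨p, N, hp, h⟩
      refine hw ⟨p, N1 + N, hp, fun m hm => ?_⟩
      have := h (m - N1) (by omega)
      simp only at this
      rwa [show N1 + (m - N1 + p) = m + p by omega, show N1 + (m - N1) = m by omega] at this)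
    have hM : ∀ D, ∃ M, ∀ d, 1 ≤ d → d ≤ D → ∃ t, t + d < M ∧ w (t + d) ≠ w t := by
      intro D
      induction D with
      | zero => exact ⟨0, fun d _ _ => by omega⟩
      | succ D ih =>
        obtain ⟨M, hM⟩ := ih
        obtain ⟨t, ht⟩ : ∃ t, w (t + (D + 1)) ≠ w t := by
          by_contra hc
          push Not at hc
          exact hw ⟨D + 1, 0, by omega, fun m _ => hc m⟩
        refine ⟨M + t + D + 2, fun d a1 a2 => ?_⟩
        rcases a2.eq_or_lt with rfl | a2
        · exact ⟨t, by omega, ht⟩
        · obtain ⟨t', b1, b2⟩ := hM d a1 (by omega)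
          exact ⟨t', by omega, b2⟩
    obtain ⟨M, hM⟩ := hM (N1 + N2)
    refine ⟨N1 + N2 + M + 2, fun E hE i hocc => ?_⟩
    cases E with
    | empty => simpa [Expr.val] using hocc 0 (by omega)
    | letter a => simpa [Expr.val] using hocc 1 (by omega)
    | cat x y =>
      simp only [Expr.size] at hE
      simp only [Expr.val] at hocc
      by_cases hc : i + N1 ≤ x.val.length
      · refine h1 x (by omega) i fun t ht => ?_
        rw [← hocc t (by omega), List.getElem?_append_left (by omega)]
      · refine h2 y (by omega) (i + N1 - x.val.length) fun t ht => ?_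
        rw [← hocc (N1 + t) (by omega), List.getElem?_append_right (by omega)]
        congr 1
        omega
    | pow x k =>
      simp only [Expr.size] at hE
      simp only [Expr.val] at hocc
      have ho := fun t ht => getElem?_pow (hocc t ht)
      have hpos : 0 < x.val.length := by
        have := ho 0 (by omega)
        rcases hx : x.val with _ | ⟨a, l⟩
        · rw [hx] at this; simp at this
        · simp
      have hr := Nat.mod_lt i hpos
      by_cases hc : x.val.length ≤ N1 + N2
      · obtain ⟨t, b1, b2⟩ := hM _ hpos hc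
        have e1 := ho (t + x.val.length) (by omega)
        rw [← Nat.add_assoc, Nat.add_mod_right, ho t (by omega)] at e1
        exact b2 (Option.some.inj e1).symm
      by_cases hc' : i % x.val.length + N1 ≤ x.val.length
      · refine h1 x (by omega) (i % x.val.length) fun t ht => ?_
        rw [← ho t (by omega), ← Nat.mod_add_mod, Nat.mod_eq_of_lt (a := _ + t) (by omega)]
      · refine h2 x (by omega) (i % x.val.length + N1 - x.val.length) fun t ht => ?_
        rw [← ho (N1 + t) (by omega), ← Nat.mod_add_mod, Nat.mod_eq_sub_mod (a := _ + (N1 + t))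
          (by omega), Nat.mod_eq_of_lt (a := _ - _) (by omega)]
        congr 1
        omega

end Pool.Agent.P.MP_daaf23_co.H84
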