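import Pool.Agent.P.MP_daaf23_co.FgG

set_option autoImplicit false

namespace Pool.Agent.P.MP_daaf23_co.H84
open Pool.Agent.P.MP_daaf23_co.H98

variable {α : Type}

theorem fold_reverse {X : List α} {m : ℕ} (h : Fold X m) : Fold X.reverse m := by
  induction h with
  | nil m => exact Fold.nil m
  | mark a _ ih => simpa using ih.app (Fold.single a)
  | pair a _ _ ih1 ih2 =>
    have := ih2.app (ih1.wrap a)
    rw [Nat.add_comm] at this
    simpa using this

theorem fold_cancel_rev {X Z : List α} {m : ℕ} (h : Fold (X.reverse ++ (X ++ Z)) m) :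
    Fold Z m := by
  induction X with
  | nil => simpa using h
  | cons a X ih =>
    apply ih
    apply Fold.cancel (a := a)
    simpa using h

/-- image of a letter of the free group in the free product of groups of order two -/
def ph : α × Bool → List (Option α)
  | (a, true) => [none, some a]
  | (a, false) => [some a, none]

def Ph (L : List (α × Bool)) : List (Option α) := (L.map ph).flatten

theorem Ph_append (L L' : List (α × Bool)) : Ph (L ++ L') = Ph L ++ Ph L' := by simp [Ph]

theorem Ph_cons (x : α × Bool) (L : List (α × Bool)) : Ph (x :: L) = ph x ++ Ph L := by simp [Ph]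

theorem step_fold {L1 L2 : List (α × Bool)} (h : FreeGroup.Red.Step L1 L2) (m : ℕ) :
    Fold (Ph L1) m ↔ Fold (Ph L2) m := by
  cases h with
  | @not u v x b =>
    have key : ∀ c d : Option α, Fold (Ph u ++ c :: d :: d :: c :: Ph v) m ↔
        Fold (Ph u ++ Ph v) m := by
      intro c d
      constructor
      · intro h
        apply Fold.cancel (a := c)
        have := Fold.cancel (a := d) (u := Ph u ++ [c]) (v := c :: Ph v) (by simpa using h)
        simpa using this
      · intro h
        have := Fold.uncancel d (u := Ph u ++ [c]) (v := c :: Ph v)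
          (by simpa using Fold.uncancel c h)
        simpa using this
    cases b
    · simpa [Ph_append, Ph_cons, ph] using key (some x) none
    · simpa [Ph_append, Ph_cons, ph] using key none (some x)

theorem red_fold {L1 L2 : List (α × Bool)} (h : FreeGroup.Red L1 L2) (m : ℕ) :
    Fold (Ph L1) m ↔ Fold (Ph L2) m := by
  induction h with
  | refl => exact Iff.rfl
  | tail _ h ih => exact ih.trans (step_fold h m)

theorem mk_fold {L1 L2 : List (α × Bool)} (h : FreeGroup.mk L1 = FreeGroup.mk L2) {m : ℕ}
    (hf : Fold (Ph L1) m) : Fold (Ph L2) m := by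
  obtain ⟨L3, h1, h2⟩ := FreeGroup.Red.exact.1 h
  exact (red_fold h2 m).2 ((red_fold h1 m).1 hf)

theorem pal_fold {x : List (α × Bool)} (h : x.Palindrome) :
    Fold (Ph x ++ [none]) 1 ∧ Fold (none :: Ph x) 1 := by
  have h0 : Fold ([none, none] : List (Option α)) 0 := Fold.wrap none (Fold.nil 0)
  induction h with
  | nil => exact ⟨Fold.single _, Fold.single _⟩
  | singleton x =>
    obtain ⟨a, b⟩ := x
    cases b
    · exact ⟨(Fold.single (some a)).app h0, (Fold.single (some a)).wrap none⟩
    · exact ⟨(Fold.single (some a)).wrap none, h0.app (Fold.single (some a))⟩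
  | cons_concat x _ ih =>
    obtain ⟨a, b⟩ := x
    cases b
    · exact ⟨by simpa [Ph_append, Ph_cons, ph, Ph] using (ih.2.wrap (some a)).app h0,
        by simpa [Ph_append, Ph_cons, ph, Ph] using (ih.2.wrap (some a)).wrap none⟩
    · exact ⟨by simpa [Ph_append, Ph_cons, ph, Ph] using (ih.1.wrap (some a)).wrap none,
        by simpa [Ph_append, Ph_cons, ph, Ph] using h0.app (ih.1.wrap (some a))⟩

theorem pals_fold {L : List (List (α × Bool))} (h : ∀ x ∈ L, x.Palindrome) :
    Fold (Ph L.flatten) (2 * L.length) := by
  induction L with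
  | nil => exact Fold.nil _
  | cons x L ih =>
    rw [List.flatten_cons, Ph_append]
    have := (pal_fold (h x List.mem_cons_self)).2.drop1.app
      (ih fun y hy => h y (List.mem_cons_of_mem _ hy))
    refine this.mono ?_
    simp only [List.length_cons]
    omega

theorem prod_mk (L : List (List (α × Bool))) :
    (L.map FreeGroup.mk).prod = FreeGroup.mk L.flatten := by
  induction L with
  | nil => rfl
  | cons x L ih => rw [List.map_cons, List.prod_cons, ih, List.flatten_cons, FreeGroup.mul_mk]

theorem prod_of (l : List α) :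
    (l.map FreeGroup.of).prod = FreeGroup.mk (l.map fun a => (a, true)) := by
  induction l with
  | nil => rfl
  | cons x L ih => rw [List.map_cons, List.prod_cons, ih]; rfl

/-- the word with a marker before each letter -/
def pad (w : ℕ → α) (t : ℕ) : Option α := if t % 2 = 0 then none else some (w (t / 2))

theorem pad_ne (w : ℕ → α) (t : ℕ) : pad w t ≠ pad w (t + 1) := by
  unfold pad
  split_ifs with h1 h2 h2
  · omega
  · simp
  · simp
  · omega

theorem seg_pad (w : ℕ → α) {p q : ℕ} (hpq : p ≤ q) :
    seg (pad w) (2 * p) (2 * q) = Ph ((seg w p q).map fun a => (a, true)) := by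
  induction q, hpq using Nat.le_induction with
  | base => simp [seg_self, Ph]
  | succ q hpq ih =>
    have e1 : pad w (2 * q) = none := by simp [pad]
    have e2 : pad w (2 * q + 1) = some (w q) := by
      have : (2 * q + 1) / 2 = q := by omega
      simp [pad, this]
    rw [show 2 * (q + 1) = 2 * q + 1 + 1 by omega, seg_snoc _ (by omega), seg_snoc _ (by omega),
      ih, seg_snoc w hpq, List.map_append, Ph_append, e1, e2]
    simp [Ph, ph]

theorem filterMap_Ph (l : List α) : (Ph (l.map fun a => (a, true))).filterMap id = l := by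
  induction l with
  | nil => rfl
  | cons a l ih => simpa [Ph_cons, ph] using ih

theorem seg_zero (w : ℕ → α) (n : ℕ) : seg w 0 n = (List.range n).map w := by
  simp [seg, List.Ico.zero_bot]

theorem pad_fold {w : ℕ → α} {m : ℕ} (h : ∀ n, Fold (seg (pad w) 0 (2 * n)) m) {p q : ℕ}
    (hpq : p ≤ q) : Fold (seg (pad w) p q) (2 * m + 2) := by
  have h1 : ∀ t, Fold (seg (pad w) 0 t) (m + 1) := by
    intro t
    rcases Nat.even_or_odd' t with ⟨n, rfl | rfl⟩
    · exact (h n).mono (Nat.le_succ m)
    · rw [seg_snoc _ (Nat.zero_le _)]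
      exact (h n).app (Fold.single _)
  have := (fold_reverse (h1 p)).app (h1 q)
  rw [← seg_append _ (Nat.zero_le p) hpq] at this
  exact (fold_cancel_rev this).mono (by omega)

theorem main_thm (P : ℕ) : ∃ B : ℕ, ∀ (A : Type) (w : ℕ → A),
    (∀ n, ∃ L : List (List (A × Bool)), L.length ≤ P ∧ (∀ x ∈ L, x.Palindrome) ∧
      (L.map FreeGroup.mk).prod = (((List.range n).map w).map FreeGroup.of).prod) →
    ∃ E F : Expr A, E.size ≤ B ∧ F.size ≤ B ∧ F.val ≠ [] ∧
      ∀ k, E.val ++ (List.replicate k F.val).flatten =
        (List.range (E.val.length + k * F.val.length)).map w := by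
  obtain ⟨B, hB⟩ := fin_thm (2 * (2 * P) + 2)
  refine ⟨B, fun A w hw => ?_⟩
  have h1 : ∀ n, Fold (seg (pad w) 0 (2 * n)) (2 * P) := by
    intro n
    obtain ⟨L, a1, a2, a3⟩ := hw n
    rw [prod_mk, prod_of, ← seg_zero] at a3
    have := seg_pad w (Nat.zero_le n)
    rw [Nat.mul_zero] at this
    rw [this]
    exact (mk_fold a3 (pals_fold a2)).mono (by omega)
  have h2 : ∀ a b, Gen B (seg w a (a + b)) := by
    intro a b
    have e : ∀ p q, seg (fun t => pad w (t + 2 * a)) p q = seg (pad w) (p + 2 * a) (q + 2 * a) :=
      fun p q => seg_shift fun _ _ _ => rfl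
    have := hB _ (fun t => pad w (t + 2 * a)) (2 * b)
      (fun t => by simpa [Nat.add_right_comm] using pad_ne w (t + 2 * a))
      (fun p q hpq _ => by rw [e]; exact pad_fold h1 (by omega))
    rw [e, Nat.zero_add, show 2 * b + 2 * a = 2 * (a + b) by omega,
      seg_pad w (Nat.le_add_right a b)] at this
    have := this.filterMap
    rwa [filterMap_Ph] at this
  have h3 : UP w := by
    by_contra hc
    obtain ⟨N, hN⟩ := aper B w hc
    obtain ⟨E, a1, a2⟩ := h2 0 N
    refine hN E a1 0 fun t ht => ?_
    rw [a2, List.getElem?_eq_getElem (by rw [seg_length]; omega), seg_getElem]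
    simp
  obtain ⟨p, N, hp, hper⟩ := h3
  obtain ⟨E, a1, a2⟩ := h2 0 N
  obtain ⟨F, b1, b2⟩ := h2 N p
  have l1 : E.val.length = N := by rw [a2, seg_length]; omega
  have l2 : F.val.length = p := by rw [b2, seg_length]; omega
  refine ⟨E, F, a1, b1, fun h => by rw [h] at l2; simp at l2; omega, fun k => ?_⟩
  rw [l1, l2, ← seg_zero, a2, b2, Nat.zero_add]
  have hk : ∀ k x, N ≤ x → w (x + k * p) = w x := by
    intro k
    induction k with
    | zero => intro x _; simp
    | succ k ih =>
      intro x hx
      rw [Nat.succ_mul, ← Nat.add_assoc, hper _ (by omega), ih x hx]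
  induction k with
  | zero => simp
  | succ k ih =>
    rw [List.replicate_succ', List.flatten_append, ← List.append_assoc, ih]
    simp only [List.flatten_cons, List.flatten_nil, List.append_nil]
    rw [seg_shift (W := w) (W' := w) (p := N) (q := N + p) (d := k * p)
      (fun x hx _ => (hk k x hx).symm), seg_append w (Nat.zero_le _) (by omega)]
    congr 1
    rw [Nat.succ_mul]
    omega

end Pool.Agent.P.MP_daaf23_co.H84
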