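import Pool.Agent.P.MP_daaf23_co.FgH

set_option autoImplicit false

namespace Pool.Agent.P.MP_daaf23_co.H84

/-- the monoid statement (Q1) as a corollary; not handed in, the statement is in the literature -/
theorem monoid_case :
    ∀ k : ℕ, ∀ w : ℕ → Fin k,
      (¬ ∃ p N : ℕ, 0 < p ∧ ∀ m, N ≤ m → w (m + p) = w m) →
      ∀ P : ℕ, ∃ n : ℕ, ∀ L : List (List (Fin k)),
        (∀ x ∈ L, List.Palindrome x) →
        L.flatten = (List.range n).map w →
        P < L.length := by
  intro k w hw P
  by_contra hc
  push Not at hc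
  obtain ⟨B, hB⟩ := main_thm P
  obtain ⟨E, F, -, -, hF, hEF⟩ := hB (Fin k) w fun n => by
    obtain ⟨L, h1, h2, h3⟩ := hc n
    refine ⟨L.map (List.map fun a => (a, true)), by simpa using h3, ?_, ?_⟩
    · intro x hx
      obtain ⟨y, hy, rfl⟩ := List.mem_map.1 hx
      exact (h1 y hy).map _
    · rw [prod_mk, prod_of, ← h2, List.map_flatten]
  have hp : 0 < F.val.length := List.length_pos_of_ne_nil hF
  have key : ∀ j, F.val[j % F.val.length]? = some (w (E.val.length + j)) := by
    intro j
    apply getElem?_pow (k := j + 1)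
    have h1 := congrArg (fun l => l[E.val.length + j]?) (hEF (j + 1))
    rw [List.getElem?_append_right (by omega), Nat.add_sub_cancel_left] at h1
    rw [h1, List.getElem?_map, List.getElem?_range (by nlinarith)]
    rfl
  refine hw ⟨F.val.length, E.val.length, hp, fun m hm => ?_⟩
  obtain ⟨j, rfl⟩ := Nat.exists_eq_add_of_le hm
  have h1 := key (j + F.val.length)
  rw [Nat.add_mod_right, key j] at h1
  rw [Nat.add_assoc]
  exact (Option.some.inj h1).symm

end Pool.Agent.P.MP_daaf23_co.H84
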