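import Mathlib

set_option autoImplicit false

namespace Pool.Agent.P.MP_daaf23_co.H98

variable {α : Type*}

/-- folding of a word with at most `m` unmatched letters -/
inductive Fold : List α → ℕ → Prop
  | nil (m : ℕ) : Fold [] m
  | mark (a : α) {X : List α} {m : ℕ} : Fold X m → Fold (a :: X) (m + 1)
  | pair (a : α) {B1 B2 : List α} {m1 m2 : ℕ} :
      Fold B1 m1 → Fold B2 m2 → Fold (a :: (B1 ++ a :: B2)) (m1 + m2)

theorem Fold.add_right {X : List α} {m : ℕ} (h : Fold X m) (k : ℕ) : Fold X (m + k) := by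
  induction h with
  | nil m => exact Fold.nil _
  | mark a _ ih =>
    have := Fold.mark a ih
    rwa [Nat.add_right_comm] at this
  | pair a h1 _ _ ih2 =>
    have := Fold.pair a h1 ih2
    rwa [← Nat.add_assoc] at this

theorem Fold.mono {X : List α} {m n : ℕ} (h : Fold X m) (hmn : m ≤ n) : Fold X n := by
  obtain ⟨k, rfl⟩ := Nat.exists_eq_add_of_le hmn
  exact h.add_right k

theorem Fold.app {u v : List α} {m n : ℕ} (h : Fold u m) (hv : Fold v n) :
    Fold (u ++ v) (m + n) := by
  induction h with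
  | nil m => exact hv.mono (Nat.le_add_left _ _)
  | mark a _ ih =>
    have := Fold.mark a ih
    rwa [Nat.add_right_comm] at this
  | pair a h1 _ _ ih2 =>
    have := Fold.pair a h1 ih2
    simpa [Nat.add_assoc] using this

theorem Fold.single (a : α) : Fold [a] 1 := Fold.mark a (Fold.nil 0)

theorem Fold.wrap (a : α) {u : List α} {m : ℕ} (h : Fold u m) : Fold (a :: (u ++ [a])) m :=
  Fold.pair a h (Fold.nil 0)

theorem Fold.cons_cases {a : α} {X : List α} {m : ℕ} (h : Fold (a :: X) m) :
    (∃ m', m = m' + 1 ∧ Fold X m') ∨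
      ∃ B1 B2 m1 m2, X = B1 ++ a :: B2 ∧ m = m1 + m2 ∧ Fold B1 m1 ∧ Fold B2 m2 := by
  cases h with
  | mark _ h => exact Or.inl ⟨_, rfl, h⟩
  | pair _ h1 h2 => exact Or.inr ⟨_, _, _, _, rfl, rfl, h1, h2⟩

theorem Fold.rot1 {a : α} {X : List α} {m : ℕ} (h : Fold (a :: X) m) : Fold (X ++ [a]) m := by
  rcases h.cons_cases with ⟨m', rfl, h'⟩ | ⟨B1, B2, m1, m2, rfl, rfl, h1, h2⟩
  · exact h'.app (Fold.single a)
  · have := h1.app (h2.wrap a)
    simpa using this

theorem Fold.rot {u v : List α} {m : ℕ} (h : Fold (u ++ v) m) : Fold (v ++ u) m := by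
  induction u generalizing v with
  | nil => simpa using h
  | cons a u ih =>
    have h1 : Fold ((u ++ v) ++ [a]) m := Fold.rot1 h
    rw [List.append_assoc] at h1
    have := ih h1
    simpa using this

theorem Fold.ins {u v z : List α} {m n : ℕ} (h : Fold (u ++ v) m) (hz : Fold z n) :
    Fold (u ++ z ++ v) (m + n) := by
  have h1 := (h.rot).app hz
  rw [List.append_assoc] at h1
  exact h1.rot

theorem Fold.drop1 {a : α} {X : List α} {m : ℕ} (h : Fold (a :: X) m) : Fold X (m + 1) := by
  rcases h.cons_cases with ⟨m', rfl, h'⟩ | ⟨B1, B2, m1, m2, rfl, rfl, h1, h2⟩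
  · exact h'.mono (by omega)
  · exact h1.app (Fold.mark a h2)

theorem Fold.cancel0 {a : α} {X : List α} {m : ℕ} (h : Fold (a :: a :: X) m) : Fold X m := by
  rcases h.cons_cases with ⟨m', rfl, h'⟩ | ⟨B1, B2, m1, m2, hX, rfl, h1, h2⟩
  · exact h'.drop1
  · cases B1 with
    | nil =>
      simp only [List.nil_append, List.cons.injEq, true_and] at hX
      subst hX
      exact h2.mono (by omega)
    | cons c B1 =>
      simp only [List.cons_append, List.cons.injEq] at hX
      obtain ⟨rfl, rfl⟩ := hX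
      have := (h1.rot1).app h2
      simpa using this

theorem Fold.cancel {a : α} {u v : List α} {m : ℕ} (h : Fold (u ++ a :: a :: v) m) :
    Fold (u ++ v) m := by
  have h1 := h.rot
  have h2 : Fold (v ++ u) m := Fold.cancel0 (by simpa using h1)
  exact h2.rot

theorem Fold.uncancel (a : α) {u v : List α} {m : ℕ} (h : Fold (u ++ v) m) :
    Fold (u ++ a :: a :: v) m := by
  have h0 : Fold [a, a] 0 := Fold.wrap a (Fold.nil 0)
  have := h.ins h0
  simpa using this

theorem Fold.unwrap {a : α} {u : List α} {m : ℕ} (h : Fold (a :: (u ++ [a])) m) : Fold u m := by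
  have h1 : Fold ((a :: u) ++ [a]) m := by simpa using h
  have h2 := h1.rot
  exact Fold.cancel0 (by simpa using h2)

/-- the factor of `W` on the positions `p ≤ x < q` -/
def seg (W : ℕ → α) (p q : ℕ) : List α := (List.Ico p q).map W

theorem seg_append (W : ℕ → α) {p q r : ℕ} (h1 : p ≤ q) (h2 : q ≤ r) :
    seg W p q ++ seg W q r = seg W p r := by
  unfold seg
  rw [← List.map_append, List.Ico.append_consecutive h1 h2]

theorem seg_cons (W : ℕ → α) {p q : ℕ} (h : p < q) : seg W p q = W p :: seg W (p + 1) q := by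
  unfold seg
  rw [List.Ico.eq_cons h, List.map_cons]

theorem seg_snoc (W : ℕ → α) {p q : ℕ} (h : p ≤ q) : seg W p (q + 1) = seg W p q ++ [W q] := by
  unfold seg
  rw [List.Ico.succ_top h, List.map_append]
  rfl

theorem seg_self (W : ℕ → α) (p : ℕ) : seg W p p = [] := by
  simp [seg]

theorem seg_length (W : ℕ → α) (p q : ℕ) : (seg W p q).length = q - p := by
  simp [seg]

theorem seg_congr {W W' : ℕ → α} {p q : ℕ} (h : ∀ x, p ≤ x → x < q → W' x = W x) :
    seg W' p q = seg W p q := by
  unfold seg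
  apply List.map_congr_left
  intro x hx
  rw [List.Ico.mem] at hx
  exact h x hx.1 hx.2

theorem seg_shift {W W' : ℕ → α} {p q d : ℕ} (h : ∀ x, p ≤ x → x < q → W' x = W (x + d)) :
    seg W' p q = seg W (p + d) (q + d) := by
  apply List.ext_getElem
  · simp only [seg_length]; omega
  · intro i h1 h2
    simp only [seg_length] at h1
    simp only [seg, List.getElem_map, List.Ico, List.getElem_range', one_mul]
    rw [h _ (by omega) (by omega)]
    congr 1
    omega

theorem seg_split {W : ℕ → α} {p q : ℕ} {B1 B2 : List α} {a : α}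
    (h : seg W p q = B1 ++ a :: B2) :
    ∃ r, p ≤ r ∧ r < q ∧ W r = a ∧ B1 = seg W p r ∧ B2 = seg W (r + 1) q := by
  have hl := congrArg List.length h
  simp only [seg_length, List.length_append, List.length_cons] at hl
  refine ⟨p + B1.length, by omega, by omega, ?_⟩
  rw [← seg_append W (show p ≤ p + B1.length by omega) (show p + B1.length ≤ q by omega),
    seg_cons W (show p + B1.length < q by omega)] at h
  have := List.append_inj h (by simp [seg_length])
  obtain ⟨h1, h2⟩ := this
  simp only [List.cons.injEq] at h2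
  exact ⟨h2.1, h1.symm, h2.2.symm⟩

/-- total weight of the junctions strictly between `a` and `b` -/
def jc (J : ℕ → ℕ) (a b : ℕ) : ℕ := ∑ x ∈ Finset.Ioo a b, J x

theorem jc_split (J : ℕ → ℕ) {a m b : ℕ} (h1 : a < m) (h2 : m < b) :
    jc J a b = jc J a m + J m + jc J m b := by
  unfold jc
  have e1 : Finset.Ioo a b = Finset.Ioo a m ∪ insert m (Finset.Ioo m b) := by
    ext x; simp only [Finset.mem_Ioo, Finset.mem_union, Finset.mem_insert]; omega
  rw [e1, Finset.sum_union, Finset.sum_insert (by simp), add_assoc]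
  rw [Finset.disjoint_left]
  intro x hx hx'
  simp only [Finset.mem_Ioo, Finset.mem_insert] at hx hx'
  omega

theorem jc_mono (J : ℕ → ℕ) {a b a' b' : ℕ} (h1 : a ≤ a') (h2 : b' ≤ b) :
    jc J a' b' ≤ jc J a b :=
  Finset.sum_le_sum_of_subset (Finset.Ioo_subset_Ioo h1 h2)

theorem jc_self (J : ℕ → ℕ) (a : ℕ) : jc J a a = 0 := by simp [jc]

theorem jc_succ (J : ℕ → ℕ) (a : ℕ) : jc J a (a + 1) = 0 := by
  have : Finset.Ioo a (a + 1) = ∅ := by
    ext x; simp only [Finset.mem_Ioo, Finset.notMem_empty, iff_false]; omega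
  simp [jc, this]

theorem jc_super (J : ℕ → ℕ) {a m b : ℕ} (h1 : a ≤ m) (h2 : m ≤ b) :
    jc J a m + jc J m b ≤ jc J a b := by
  rcases h1.eq_or_lt with rfl | h1
  · simp [jc_self]
  rcases h2.eq_or_lt with rfl | h2
  · simp [jc_self]
  rw [jc_split J h1 h2]
  omega

theorem jc_congr {J J' : ℕ → ℕ} {a b : ℕ} (h : ∀ x, a < x → x < b → J' x = J x) :
    jc J' a b = jc J a b := by
  unfold jc
  apply Finset.sum_congr rfl
  intro x hx
  rw [Finset.mem_Ioo] at hx
  exact h x hx.1 hx.2

theorem jc_shift {J J' : ℕ → ℕ} {a b d : ℕ} (h : ∀ x, a < x → x < b → J' x = J (x + d)) :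
    jc J' a b = jc J (a + d) (b + d) := by
  unfold jc
  rw [← Finset.map_add_right_Ioo, Finset.sum_map]
  apply Finset.sum_congr rfl
  intro x hx
  rw [Finset.mem_Ioo] at hx
  exact h x hx.1 hx.2

theorem jc_eq_zero {J : ℕ → ℕ} {a b : ℕ} :
    jc J a b = 0 ↔ ∀ x, a < x → x < b → J x = 0 := by
  unfold jc
  rw [Finset.sum_eq_zero_iff]
  simp [Finset.mem_Ioo]

/-- the factor on `[p, q)` folds with `b` marks and the rest of `[0, y)` with `P - b` marks -/
def Cl (W : ℕ → α) (y P p q b : ℕ) : Prop :=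
  b ≤ P ∧ Fold (seg W p q) b ∧ Fold (seg W 0 p ++ seg W q y) (P - b)

theorem Cl.inward {W : ℕ → α} {y P p r b : ℕ} (h1 : p + 1 ≤ r) (h2 : r + 1 ≤ y)
    (h3 : W p = W r) (h : Cl W y P p (r + 1) b) : Cl W y P (p + 1) r b := by
  obtain ⟨hb, hin, hout⟩ := h
  refine ⟨hb, ?_, ?_⟩
  · rw [seg_cons W (by omega), seg_snoc W h1, ← h3] at hin
    exact hin.unwrap
  · rw [seg_snoc W (Nat.zero_le p), seg_cons W (show r < y by omega), ← h3]
    have := hout.uncancel (W p)
    simpa using this

theorem Cl.outward {W : ℕ → α} {y P p r b : ℕ} (h1 : p + 1 ≤ r) (h2 : r + 1 ≤ y)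
    (h3 : W p = W r) (h : Cl W y P (p + 1) r b) : Cl W y P p (r + 1) b := by
  obtain ⟨hb, hin, hout⟩ := h
  refine ⟨hb, ?_, ?_⟩
  · rw [seg_cons W (by omega), seg_snoc W h1, ← h3]
    exact hin.wrap _
  · rw [seg_snoc W (Nat.zero_le p), seg_cons W (show r < y by omega), ← h3] at hout
    exact Fold.cancel (a := W p) (by simpa using hout)

/-- the letters on `[e, p)` are mirrored by `x ↦ c - 1 - x` -/
def Mir (W : ℕ → α) (e p c : ℕ) : Prop := ∀ x z, e ≤ x → x < p → x + z + 1 = c → W x = W z

theorem Cl.extend {W : ℕ → α} {y P p q b : ℕ} (hpq : p ≤ q) (h : Cl W y P p q b) :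
    ∀ i e e', e + i = p → e' = q + i → e' ≤ y → Mir W e p (p + q) → Cl W y P e e' b := by
  intro i
  induction i with
  | zero =>
    intro e e' h1 h2 _ _
    simp only [add_zero] at h1 h2
    subst h1 h2
    exact h
  | succ i ih =>
    intro e e' h1 h2 h3 hm
    have := ih (e + 1) (q + i) (by omega) rfl (by omega)
      (fun x z hx hx' hz => hm x z (by omega) hx' hz)
    rw [show e' = q + i + 1 by omega]
    exact Cl.outward (by omega) (by omega) (hm e (q + i) le_rfl (by omega) (by omega)) this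

/-- a valid band: mirror arms `[e, p)` and `[q, e')` around a closed core `[p, q)` -/
def Band (W : ℕ → α) (y P e p q e' : ℕ) : Prop :=
  e ≤ p ∧ p ≤ q ∧ e' ≤ y ∧ e + e' = p + q ∧ Mir W e p (p + q) ∧ ∃ b, Cl W y P p q b

theorem Band.inner {W : ℕ → α} {y P e p q e' z z' : ℕ} (h : Band W y P e p q e')
    (h1 : e ≤ z) (h2 : z ≤ p) (h3 : z + z' = p + q) : Band W y P z p q z' := by
  obtain ⟨a1, a2, a3, a4, a5, a6⟩ := h
  exact ⟨h2, a2, by omega, h3, fun x t hx hx' ht => a5 x t (by omega) hx' ht, a6⟩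

theorem Band.outer {W : ℕ → α} {y P e p q e' z z' : ℕ} (h : Band W y P e p q e')
    (h1 : e ≤ z) (h2 : z ≤ p) (h3 : z + z' = p + q) : Band W y P e z z' e' := by
  obtain ⟨a1, a2, a3, a4, a5, b, a6⟩ := h
  refine ⟨h1, by omega, a3, by omega, fun x t hx hx' ht => a5 x t hx (by omega) (by omega), b, ?_⟩
  exact a6.extend a2 (p - z) z z' (by omega) (by omega) (by omega)
    (fun x t hx hx' ht => a5 x t (by omega) hx' ht)

theorem Cl.split {W : ℕ → α} {y P p r q b b1 b2 : ℕ} (h1 : p ≤ r) (h2 : r ≤ q) (h3 : q ≤ y)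
    (h : Cl W y P p q b) (hb : b = b1 + b2) (f1 : Fold (seg W p r) b1)
    (f2 : Fold (seg W r q) b2) : Cl W y P p r b1 ∧ Cl W y P r q b2 := by
  obtain ⟨hbP, _, hout⟩ := h
  refine ⟨⟨by omega, f1, ?_⟩, ⟨by omega, f2, ?_⟩⟩
  · have := hout.ins f2
    rw [List.append_assoc, seg_append W h2 h3] at this
    exact this.mono (by omega)
  · have := hout.ins f1
    rw [seg_append W (Nat.zero_le p) h1] at this
    exact this.mono (by omega)

/-- adjacent letters differ -/
def Red (W : ℕ → α) : Prop := ∀ x, W x ≠ W (x + 1)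

theorem lemH {W : ℕ → α} (hred : Red W) (J : ℕ → ℕ) (y P B : ℕ)
    (hB : ∀ e p q e', Band W y P e p q e' → p ≤ e + B * (1 + jc J e p + jc J q e')) :
    ∀ n p q b e e', q - p = n → p < q → e ≤ p → e' ≤ y → e + e' = p + q → Mir W e p (p + q) →
      Cl W y P p q b → 1 ≤ b ∧ e' + 2 * B ≤ e + 4 * (b * B) + b + 2 * (B * jc J e e') := by
  intro n
  induction n using Nat.strong_induction_on with
  | _ n ih =>
  intro p q b e e' hn hpq hep hy hc hm hcl
  have hband := hB e p q e' ⟨hep, hpq.le, hy, hc, hm, b, hcl⟩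
  have hsplit : ∀ r b1 b2, p < r → r < q → b = b1 + b2 → Fold (seg W p r) b1 →
      Fold (seg W r q) b2 →
      1 ≤ b ∧ e' + 2 * B ≤ e + 4 * (b * B) + b + 2 * (B * jc J e e') := by
    intro r b1 b2 h1 h2 hb f1 f2
    obtain ⟨c1, c2⟩ := hcl.split h1.le h2.le (by omega) hb f1 f2
    have i1 := ih (r - p) (by omega) p r b1 p r rfl h1 le_rfl (by omega) rfl
      (fun x z hx hx' _ => by omega) c1
    have i2 := ih (q - r) (by omega) r q b2 r q rfl h2 le_rfl (by omega) rfl
      (fun x z hx hx' _ => by omega) c2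
    have s1 := jc_super J hep (show p ≤ e' by omega)
    have s2 := jc_super J h1.le (show r ≤ e' by omega)
    have s3 := jc_super J h2.le (show q ≤ e' by omega)
    have s4 : B * (jc J e p + jc J p r + jc J r q + jc J q e') ≤ B * jc J e e' :=
      Nat.mul_le_mul_left _ (by omega)
    subst hb
    simp only [mul_add, add_mul, mul_one] at *
    omega
  have hin := hcl.2.1
  rw [seg_cons W hpq] at hin
  rcases hin.cons_cases with ⟨m', rfl, h'⟩ | ⟨B1, B2, m1, m2, hX, rfl, h1, h2⟩
  · rcases (show p + 1 = q ∨ p + 1 < q by omega) with h | h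
    · have s1 := jc_super J hep (show p ≤ e' by omega)
      have s3 := jc_mono J hpq.le (le_refl e')
      have s4 : B * (jc J e p + jc J q e') ≤ B * jc J e e' :=
        Nat.mul_le_mul_left _ (by omega)
      simp only [mul_add, add_mul, mul_one, one_mul] at *
      omega
    · refine hsplit (p + 1) 1 m' (by omega) h (by omega) ?_ h'
      rw [seg_snoc W le_rfl, seg_self]
      exact Fold.single _
  · obtain ⟨r, r1, r2, r3, rfl, rfl⟩ := seg_split hX
    rcases (show r + 1 = q ∨ r + 1 < q by omega) with h | h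
    · subst h
      have hne : p + 1 < r := by
        rcases r1.eq_or_lt with h | h
        · exact absurd (h ▸ r3).symm (hred p)
        · exact h
      have c1 := hcl.inward r1 (by omega) r3.symm
      refine ih (r - (p + 1)) (by omega) (p + 1) r _ e e' rfl hne (by omega) hy (by omega) ?_ c1
      intro x z hx hx' hz
      rcases (show x = p ∨ x < p by omega) with h | h
      · subst h
        rw [show z = r by omega]
        exact r3.symm
      · exact hm x z hx h (by omega)
    · refine hsplit (r + 1) m1 m2 (by omega) h rfl ?_ h2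
      rw [seg_cons W (by omega), seg_snoc W r1, r3]
      exact h1.wrap _

end Pool.Agent.P.MP_daaf23_co.H98
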