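import Pool.Agent.P.MP_daaf23_co.FoldA

set_option autoImplicit false

namespace Pool.Agent.P.MP_daaf23_co.H98

variable {α : Type*}

/-- `(W', J', y')` arises from `(W, J, y)` by deleting the block `[e1, e1 + D)` -/
structure Pull (W W' : ℕ → α) (J J' : ℕ → ℕ) (y y' e1 D : ℕ) : Prop where
  hy : y' + D = y
  he : e1 ≤ y'
  wl : ∀ x, x < e1 → W' x = W x
  wr : ∀ x, e1 ≤ x → x < y' → W' x = W (x + D)
  jl : ∀ x, x < e1 → J' x = J x
  jr : ∀ x, e1 < x → x < y' → J' x = J (x + D)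
  jm : e1 < y' → J' e1 = 1

section pull

variable {W W' : ℕ → α} {J J' : ℕ → ℕ} {y y' e1 D : ℕ}

theorem Pull.segl (h : Pull W W' J J' y y' e1 D) {p q : ℕ} (hq : q ≤ e1) :
    seg W' p q = seg W p q :=
  seg_congr fun x _ hx => h.wl x (by omega)

theorem Pull.segr (h : Pull W W' J J' y y' e1 D) {p q : ℕ} (hp : e1 ≤ p) (hq : q ≤ y') :
    seg W' p q = seg W (p + D) (q + D) :=
  seg_shift fun x hx hx' => h.wr x (by omega) (by omega)

theorem Pull.segm (h : Pull W W' J J' y y' e1 D) {p q : ℕ} (hp : p ≤ e1) (hq : e1 ≤ q)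
    (hq' : q ≤ y') : seg W' p q = seg W p e1 ++ seg W (e1 + D) (q + D) := by
  rw [← seg_append W' hp hq, h.segl le_rfl, h.segr le_rfl hq']

theorem Pull.jcl (h : Pull W W' J J' y y' e1 D) {p q : ℕ} (hq : q ≤ e1) :
    jc J' p q = jc J p q :=
  jc_congr fun x _ hx => h.jl x (by omega)

theorem Pull.jcr (h : Pull W W' J J' y y' e1 D) {p q : ℕ} (hp : e1 ≤ p) (hq : q ≤ y') :
    jc J' p q = jc J (p + D) (q + D) :=
  jc_shift fun x hx hx' => h.jr x (by omega) (by omega)

theorem Pull.jc_total (h : Pull W W' J J' y y' e1 D) :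
    jc J' 0 y' + jc J e1 (e1 + D) ≤ jc J 0 y + 1 := by
  have he := h.he
  have hy := h.hy
  have s1 := jc_super J (Nat.zero_le e1) (show e1 ≤ y by omega)
  have s2 := jc_super J (show e1 ≤ e1 + D by omega) (show e1 + D ≤ y by omega)
  have l1 := h.jcl (p := 0) (le_refl e1)
  have l2 := h.jcr (le_refl e1) (le_refl y')
  rw [hy] at l2
  rcases he.eq_or_lt with h1 | h1
  · subst h1; omega
  rcases (Nat.zero_le e1).eq_or_lt with h0 | h0
  · subst h0; omega
  have := jc_split J' h0 h1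
  have := h.jm h1
  omega

variable {P b : ℕ}

theorem Pull.band_left (h : Pull W W' J J' y y' e1 D) (hc : Cl W y P e1 (e1 + D) b)
    {e p q e' : ℕ} (hb : Band W' y' (P - b) e p q e') (h1 : e' ≤ e1) : Band W y P e p q e' := by
  obtain ⟨a1, a2, a3, a4, a5, b', c1, c2, c3⟩ := hb
  have he := h.he
  have hy := h.hy
  have hbP := hc.1
  refine ⟨a1, a2, by omega, a4, ?_, b', by omega, ?_, ?_⟩
  · intro x z hx hx' hz
    rw [← h.wl x (by omega), ← h.wl z (by omega)]
    exact a5 x z hx hx' hz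
  · rwa [h.segl (by omega)] at c2
  · rw [h.segl (by omega), h.segm (show q ≤ e1 by omega) he le_rfl, hy,
      ← List.append_assoc] at c3
    have := c3.ins hc.2.1
    rw [List.append_assoc, List.append_assoc, seg_append W (by omega) (by omega),
      seg_append W (by omega) (by omega)] at this
    exact this.mono (by omega)

theorem Pull.band_mid (h : Pull W W' J J' y y' e1 D) (hc : Cl W y P e1 (e1 + D) b)
    {e p q e' : ℕ} (hb : Band W' y' (P - b) e p q e') (h1 : p ≤ e1) (h2 : e1 ≤ q) :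
    Band W y P e p (q + D) (e' + D) := by
  obtain ⟨a1, a2, a3, a4, a5, b', c1, c2, c3⟩ := hb
  have he := h.he
  have hy := h.hy
  have hbP := hc.1
  refine ⟨a1, by omega, by omega, by omega, ?_, b' + b, by omega, ?_, ?_⟩
  · intro x z hx hx' hz
    obtain ⟨z', rfl⟩ : ∃ z', z = z' + D := ⟨z - D, by omega⟩
    rw [← h.wl x (by omega), ← h.wr z' (by omega) (by omega)]
    exact a5 x z' hx hx' (by omega)
  · rw [h.segm h1 h2 (by omega)] at c2
    have := c2.ins hc.2.1
    rwa [seg_append W (by omega) (by omega), seg_append W (by omega) (by omega)] at this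
  · rw [h.segl h1, h.segr h2 le_rfl, hy] at c3
    exact c3.mono (by omega)

theorem Pull.band_right (h : Pull W W' J J' y y' e1 D) (hc : Cl W y P e1 (e1 + D) b)
    {e p q e' : ℕ} (hb : Band W' y' (P - b) e p q e') (h1 : e1 ≤ e) :
    Band W y P (e + D) (p + D) (q + D) (e' + D) := by
  obtain ⟨a1, a2, a3, a4, a5, b', c1, c2, c3⟩ := hb
  have he := h.he
  have hy := h.hy
  have hbP := hc.1
  refine ⟨by omega, by omega, by omega, by omega, ?_, b', by omega, ?_, ?_⟩
  · intro x z hx hx' hz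
    obtain ⟨z', rfl⟩ : ∃ z', z = z' + D := ⟨z - D, by omega⟩
    obtain ⟨x', rfl⟩ : ∃ x', x = x' + D := ⟨x - D, by omega⟩
    rw [← h.wr x' (by omega) (by omega), ← h.wr z' (by omega) (by omega)]
    exact a5 x' z' (by omega) (by omega) (by omega)
  · rwa [h.segr (by omega) (by omega)] at c2
  · rw [h.segm (Nat.zero_le _) (show e1 ≤ p by omega) (by omega), h.segr (by omega) le_rfl, hy,
      List.append_assoc] at c3
    have := c3.ins hc.2.1
    rw [seg_append W (by omega) (by omega), ← List.append_assoc,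
      seg_append W (by omega) (by omega)] at this
    exact this.mono (by omega)

end pull

/-- the invariants carried by a target `y` with budget `P` -/
structure Good (W : ℕ → α) (J : ℕ → ℕ) (ι s y P : ℕ) : Prop where
  fold : Fold (seg W 0 y) P
  i1 : ∀ e p q e', Band W y P e p q e' → p ≤ e + 2 ^ (s + 1) * (1 + jc J e p + jc J q e')
  i2 : ∀ e p q e', Band W y P e p q e' → e + 2 ^ s ≤ p →
    ι ≤ e ∨ (e < ι ∧ ι < p) ∨ (q < ι ∧ ι < e')

theorem Pull.good {W W' : ℕ → α} {J J' : ℕ → ℕ} {y y' e1 D P b ι ι' s : ℕ}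
    (h : Pull W W' J J' y y' e1 D) (hc : Cl W y P e1 (e1 + D) b) (hg : Good W J ι s y P)
    (hmin : ∀ e p q e', Band W y P e p q e' → e + 2 ^ s ≤ p → e1 < p)
    (hι : ι' = e1 ∨ y' = e1) : Good W' J' ι' s y' (P - b) := by
  have he := h.he
  have hy := h.hy
  have hl : ∀ e p q e', Band W' y' (P - b) e p q e' → e' ≤ e1 →
      p ≤ e + 2 ^ (s + 1) * (1 + jc J' e p + jc J' q e') := by
    intro e p q e' hb h1
    have := hg.i1 _ _ _ _ (h.band_left hc hb h1)
    obtain ⟨a1, a2, a3, a4, -⟩ := hb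
    rwa [h.jcl (by omega), h.jcl h1]
  have hm : ∀ e p q e', Band W' y' (P - b) e p q e' → p ≤ e1 → e1 ≤ q →
      p ≤ e + 2 ^ (s + 1) * (1 + jc J' e p + jc J' q e') := by
    intro e p q e' hb h1 h2
    have := hg.i1 _ _ _ _ (h.band_mid hc hb h1 h2)
    obtain ⟨a1, a2, a3, a4, -⟩ := hb
    rwa [h.jcl h1, h.jcr h2 a3]
  have hr : ∀ e p q e', Band W' y' (P - b) e p q e' → e1 ≤ e →
      p ≤ e + 2 ^ (s + 1) * (1 + jc J' e p + jc J' q e') := by
    intro e p q e' hb h1
    have := hg.i1 _ _ _ _ (h.band_right hc hb h1)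
    obtain ⟨a1, a2, a3, a4, -⟩ := hb
    rw [h.jcr h1 (by omega), h.jcr (by omega) a3]
    omega
  refine ⟨?_, ?_, ?_⟩
  · rw [h.segm (Nat.zero_le _) he le_rfl, hy]
    exact hc.2.2
  · intro e p q e' hb
    have hb' := hb
    obtain ⟨a1, a2, a3, a4, -⟩ := hb'
    rcases (show e' ≤ e1 ∨ e1 ≤ e ∨ (p ≤ e1 ∧ e1 ≤ q) ∨ (e < e1 ∧ e1 < p) ∨ (q < e1 ∧ e1 < e')
      by omega) with h1 | h1 | h1 | h1 | h1
    · exact hl _ _ _ _ hb h1
    · exact hr _ _ _ _ hb h1
    · exact hm _ _ _ _ hb h1.1 h1.2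
    · obtain ⟨z, hz⟩ : ∃ z, e1 + z = p + q := ⟨p + q - e1, by omega⟩
      have o1 := hm _ _ _ _ (hb.outer h1.1.le h1.2.le hz) le_rfl (by omega)
      have o2 := hr _ _ _ _ (hb.inner h1.1.le h1.2.le hz) le_rfl
      have s1 := jc_split J' h1.1 h1.2
      have s2 := jc_super J' (show q ≤ z by omega) (show z ≤ e' by omega)
      have s3 := h.jm (by omega)
      have s4 : 2 ^ (s + 1) * ((1 + jc J' e e1 + jc J' z e') + (1 + jc J' e1 p + jc J' q z)) ≤
          2 ^ (s + 1) * (1 + jc J' e p + jc J' q e') := Nat.mul_le_mul_left _ (by omega)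
      rw [mul_add] at s4
      omega
    · obtain ⟨z, hz⟩ : ∃ z, z + e1 = p + q := ⟨p + q - e1, by omega⟩
      have o1 := hm _ _ _ _ (hb.outer (show e ≤ z by omega) (by omega) hz) (by omega) le_rfl
      have o2 := hl _ _ _ _ (hb.inner (show e ≤ z by omega) (by omega) hz) le_rfl
      have s1 := jc_split J' h1.1 h1.2
      have s2 := jc_super J' (show e ≤ z by omega) (show z ≤ p by omega)
      have s3 := h.jm (by omega)
      have s4 : 2 ^ (s + 1) * ((1 + jc J' e z + jc J' e1 e') + (1 + jc J' z p + jc J' q e1)) ≤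
          2 ^ (s + 1) * (1 + jc J' e p + jc J' q e') := Nat.mul_le_mul_left _ (by omega)
      rw [mul_add] at s4
      omega
  · intro e p q e' hb hlong
    have hb' := hb
    obtain ⟨a1, a2, a3, a4, -⟩ := hb'
    have n1 : ¬ e' ≤ e1 := fun h1 => by
      have := hmin _ _ _ _ (h.band_left hc hb h1) hlong
      omega
    have n2 : ¬ (p ≤ e1 ∧ e1 ≤ q) := fun h1 => by
      have := hmin _ _ _ _ (h.band_mid hc hb h1.1 h1.2) hlong
      omega
    omega

theorem Band.maxext {W : ℕ → α} {y P p q : ℕ} :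
    ∀ e e', Band W y P e p q e' → ∃ e1 e1', e1 ≤ e ∧ Band W y P e1 p q e1' ∧
      (e1 = 0 ∨ W (e1 - 1) ≠ W e1' ∨ e1' = y) := by
  intro e
  induction e with
  | zero => intro e' h; exact ⟨0, e', le_rfl, h, Or.inl rfl⟩
  | succ e ih =>
    intro e' h
    by_cases h1 : W e ≠ W e' ∨ e' = y
    · exact ⟨e + 1, e', le_rfl, h, Or.inr (by simpa using h1)⟩
    · push Not at h1
      obtain ⟨a1, a2, a3, a4, a5, a6⟩ := h
      have : Band W y P e p q (e' + 1) := by
        refine ⟨by omega, a2, by omega, by omega, ?_, a6⟩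
        intro x z hx hx' hz
        rcases hx.eq_or_lt with rfl | hx
        · rw [show z = e' by omega]; exact h1.1
        · exact a5 x z hx hx' hz
      obtain ⟨e1, e1', b1, b2, b3⟩ := ih _ this
      exact ⟨e1, e1', by omega, b2, b3⟩

theorem jc_pigeon (J : ℕ → ℕ) (c x h : ℕ) : ∀ m,
    (∀ i, i < m → jc J (c - (x + h * i + h)) (c - (x + h * i)) ≠ 0) →
      m ≤ jc J (c - (x + h * m)) (c - x) := by
  intro m
  induction m with
  | zero => intro _; exact Nat.zero_le _
  | succ m ih =>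
    intro hm
    have h1 := ih fun i hi => hm i (by omega)
    have h2 := hm m (by omega)
    have h3 := jc_super J (show c - (x + h * m + h) ≤ c - (x + h * m) by omega)
      (show c - (x + h * m) ≤ c - x by omega)
    rw [show x + h * (m + 1) = x + h * m + h by ring]
    omega

/-- mesh of the grid -/
def hh (s a : ℕ) : ℕ := max 1 (2 ^ s / (a + 1))

theorem hh_pos (s a : ℕ) : 0 < hh s a := by
  unfold hh; omega

theorem hh_big (s a : ℕ) (ha : 1 ≤ a) : 2 ^ s ≤ 4 * a * hh s a := by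
  have h1 : 2 ^ s < (a + 1) * (2 ^ s / (a + 1) + 1) := Nat.lt_mul_div_succ _ (by omega)
  have h2 : 2 ^ s / (a + 1) + 1 ≤ 2 * hh s a := by unfold hh; omega
  have h3 : (a + 1) * (2 ^ s / (a + 1) + 1) ≤ (2 * a) * (2 * hh s a) :=
    Nat.mul_le_mul (by omega) h2
  nlinarith

/-- the cell `[x0, x0 + h)` is mirrored about `c` onto a junction free cell -/
def Adm (W : ℕ → α) (J : ℕ → ℕ) (h x0 c : ℕ) : Prop :=
  2 * (x0 + h) ≤ c ∧ Mir W x0 (x0 + h) c ∧ jc J (c - (x0 + h)) (c - x0) = 0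

theorem exists_cell (J : ℕ → ℕ) {s a e p c e' : ℕ} (h1 : e + 2 ^ s ≤ p) (h2 : 2 * p ≤ c)
    (h3 : e + e' = c) (ha : jc J e e' + 2 ≤ a) :
    ∃ x0, hh s a ∣ x0 ∧ e ≤ x0 ∧ x0 + hh s a ≤ p ∧ jc J (c - (x0 + hh s a)) (c - x0) = 0 := by
  have hp : 0 < 2 ^ s := by positivity
  by_cases h0 : hh s a = 1
  · refine ⟨e, by simp [h0], le_rfl, by omega, ?_⟩
    rw [h0, show c - e = c - (e + 1) + 1 by omega]
    exact jc_succ _ _
  · have hd : hh s a = 2 ^ s / (a + 1) := by unfold hh at h0 ⊢; omega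
    have hle : (a + 1) * hh s a ≤ 2 ^ s := by rw [hd]; exact Nat.mul_div_le _ _
    set h := hh s a with hh_def
    have hpos : 0 < h := hh_pos s a
    set j := jc J e e' with hj
    have hx1 : e < h * (e / h + 1) := Nat.lt_mul_div_succ e hpos
    have hx2 : h * (e / h + 1) ≤ e + h := by
      have := Nat.mul_div_le e h
      rw [mul_add]; omega
    have hx3 : h * (j + 1) + 2 * h ≤ 2 ^ s := by nlinarith
    by_contra hcon
    push Not at hcon
    have := jc_pigeon J c (h * (e / h + 1)) h (j + 1) (by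
      intro i hi
      have hi' : h * i ≤ h * j := Nat.mul_le_mul_left _ (by omega)
      rw [mul_add] at hx3
      exact hcon _ ⟨e / h + 1 + i, by ring⟩ (by omega) (by omega))
    have h4 := jc_mono J (show e ≤ c - (h * (e / h + 1) + h * (j + 1)) by omega)
      (show c - h * (e / h + 1) ≤ e' by omega)
    omega

/-- short periods on junction free windows -/
def PF (κ : ℕ) (W : ℕ → α) (J : ℕ → ℕ) : Prop :=
  ∀ a len d, 1 ≤ d → jc J a (a + len + d) = 0 →
    (∀ x, a ≤ x → x < a + len → W x = W (x + d)) → len < κ * d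

theorem Adm.sep {κ : ℕ} {W : ℕ → α} {J : ℕ → ℕ} (hκ : 1 ≤ κ) (hpf : PF κ W J) {h x0 c c' : ℕ}
    (h1 : Adm W J h x0 c) (h2 : Adm W J h x0 c') (hc : c < c') : h ≤ κ * (c' - c) := by
  obtain ⟨a1, a2, a3⟩ := h1
  obtain ⟨b1, b2, b3⟩ := h2
  by_cases hd : h ≤ c' - c
  · exact hd.trans (Nat.le_mul_of_pos_left _ hκ)
  · refine (hpf (c - (x0 + h)) h (c' - c) (by omega) ?_ ?_).le
    · rw [jc_eq_zero] at a3 b3 ⊢
      intro x hx hx'
      by_cases hx2 : x < c - x0
      · exact a3 x hx hx2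
      · exact b3 x (by omega) (by omega)
    · intro z hz hz'
      rw [← a2 (c - 1 - z) z (by omega) (by omega) (by omega)]
      exact b2 (c - 1 - z) _ (by omega) (by omega) (by omega)

theorem card_sep {S : Finset ℕ} {lo L κ h M : ℕ} (hpos : 0 < h)
    (hS : ∀ x ∈ S, lo ≤ x ∧ x ≤ lo + L)
    (hsep : ∀ x ∈ S, ∀ x' ∈ S, x < x' → h ≤ κ * (x' - x)) (hM : κ * L ≤ M * h) :
    S.card ≤ M + 1 := by
  have key : ∀ x ∈ S, ∀ x' ∈ S, x < x' → κ * (x - lo) / h < κ * (x' - lo) / h := by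
    intro x hx x' hx' hlt
    have h1 := hsep x hx x' hx' hlt
    have h2 := (hS x hx).1
    have h3 : κ * (x' - lo) = κ * (x - lo) + κ * (x' - x) := by
      rw [← mul_add]; congr 1; omega
    have h4 : (κ * (x - lo) + h) / h ≤ κ * (x' - lo) / h := Nat.div_le_div_right (by omega)
    rw [Nat.add_div_right _ hpos] at h4
    omega
  rw [← Finset.card_range (M + 1)]
  apply Finset.card_le_card_of_injOn (fun x => κ * (x - lo) / h)
  · intro x hx
    simp only [Finset.coe_range, Set.mem_Iio]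
    have h1 := hS x hx
    have h2 : κ * (x - lo) ≤ κ * L := Nat.mul_le_mul_left _ (by omega)
    have h3 : κ * (x - lo) / h ≤ M * h / h := Nat.div_le_div_right (by omega)
    rw [Nat.mul_div_cancel _ hpos] at h3
    omega
  · intro x hx x' hx' hxx
    rcases lt_trichotomy x x' with h1 | h1 | h1
    · have := key x hx x' hx' h1
      simp only at hxx
      omega
    · exact h1
    · have := key x' hx' x hx h1
      simp only at hxx
      omega

end Pool.Agent.P.MP_daaf23_co.H98
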