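import Pool.Agent.P.MP_daaf23_co.FoldB

set_option autoImplicit false

namespace Pool.Agent.P.MP_daaf23_co.H98

variable {α : Type*}

open Classical in
/-- the left end of the maximal mirror extension about `c` starting from `x0` -/
noncomputable def eD (W : ℕ → α) (x0 c : ℕ) : ℕ :=
  Nat.findGreatest (fun z => z = 0 ∨ W (z - 1) ≠ W (c - z)) x0

theorem eD_le (W : ℕ → α) (x0 c : ℕ) : eD W x0 c ≤ x0 := by
  classical
  unfold eD
  exact Nat.findGreatest_le _

theorem eD_spec (W : ℕ → α) (x0 c : ℕ) :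
    eD W x0 c = 0 ∨ W (eD W x0 c - 1) ≠ W (c - eD W x0 c) := by
  classical
  unfold eD
  exact Nat.findGreatest_spec (P := fun z => z = 0 ∨ W (z - 1) ≠ W (c - z))
    (Nat.zero_le x0) (Or.inl rfl)

theorem eD_eq {W : ℕ → α} {x0 c e : ℕ} (h1 : e ≤ x0) (h2 : e = 0 ∨ W (e - 1) ≠ W (c - e))
    (h3 : ∀ z, e < z → z ≤ x0 → W (z - 1) = W (c - z)) : eD W x0 c = e := by
  classical
  unfold eD
  rw [Nat.findGreatest_eq_iff]
  refine ⟨h1, fun _ => h2, ?_⟩
  intro z hz hz'
  push Not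
  exact ⟨by omega, h3 z hz hz'⟩

/-- the word after deleting `[e, e + D)` -/
def WD (W : ℕ → α) (e D : ℕ) : ℕ → α := fun x => if x < e then W x else W (x + D)

/-- the junctions after deleting `[e, e + D)` -/
def JD (J : ℕ → ℕ) (e D : ℕ) : ℕ → ℕ :=
  fun x => if x < e then J x else if x = e then 1 else J (x + D)

theorem WD_red {W : ℕ → α} (hred : Red W) {e D : ℕ} (h : e = 0 ∨ W (e - 1) ≠ W (e + D)) :
    Red (WD W e D) := by
  intro x
  unfold WD
  by_cases h1 : x + 1 < e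
  · rw [if_pos (by omega), if_pos h1]; exact hred x
  by_cases h2 : x < e
  · rw [if_pos h2, if_neg h1]
    obtain rfl : e = x + 1 := by omega
    simpa using h
  · rw [if_neg h2, if_neg h1, show x + 1 + D = x + D + 1 by omega]
    exact hred _

theorem WD_pull (W : ℕ → α) (J : ℕ → ℕ) {y y' e D : ℕ} (h1 : y' + D = y) (h2 : e ≤ y') :
    Pull W (WD W e D) J (JD J e D) y y' e D where
  hy := h1
  he := h2
  wl := fun x hx => by simp [WD, hx]
  wr := fun x hx _ => by simp [WD, not_lt.mpr hx]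
  jl := fun x hx => by simp [JD, hx]
  jr := fun x hx _ => by simp [JD, not_lt.mpr hx.le, hx.ne']
  jm := fun _ => by simp [JD]

theorem WD_pf {κ : ℕ} {W : ℕ → α} {J : ℕ → ℕ} (h : PF κ W J) (e D : ℕ) :
    PF κ (WD W e D) (JD J e D) := by
  intro a len d hd hj hper
  have hp := WD_pull W J (y := a + len + d + e + D) (y' := a + len + d + e) (e := e) (D := D)
    rfl (by omega)
  have h0 : ¬ (a < e ∧ e < a + len + d) := by
    intro he
    have := jc_eq_zero.1 hj e he.1 he.2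
    simp [JD] at this
  rcases (show e ≤ a ∨ a + len + d ≤ e by omega) with h1 | h1
  · rw [hp.jcr h1 (by omega), show a + len + d + D = a + D + len + d by omega] at hj
    refine h (a + D) len d hd hj ?_
    intro x hx hx'
    obtain ⟨x', rfl⟩ : ∃ x', x = x' + D := ⟨x - D, by omega⟩
    have := hper x' (by omega) (by omega)
    rw [hp.wr _ (by omega) (by omega), hp.wr _ (by omega) (by omega)] at this
    rw [this]
    congr 1
    omega
  · rw [hp.jcl h1] at hj
    refine h a len d hd hj ?_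
    intro x hx hx'
    have := hper x hx hx'
    rwa [hp.wl _ (by omega), hp.wl _ (by omega)] at this

/-- the word after a move -/
noncomputable def nW (W : ℕ → α) (ty : Bool) (x0 c : ℕ) : ℕ → α :=
  if ty then WD W (eD W x0 c) (c - 2 * eD W x0 c) else W

/-- the junctions after a move -/
noncomputable def nJ (W : ℕ → α) (J : ℕ → ℕ) (ty : Bool) (x0 c : ℕ) : ℕ → ℕ :=
  if ty then JD J (eD W x0 c) (c - 2 * eD W x0 c) else J

/-- the cursor after a move -/
noncomputable def nI (W : ℕ → α) (ty : Bool) (x0 c : ℕ) : ℕ := if ty then eD W x0 c else x0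

/-- the old target in terms of the new one -/
noncomputable def oldY (W : ℕ → α) (ty : Bool) (x0 c y' : ℕ) : ℕ :=
  if ty then y' + (c - 2 * eD W x0 c) else c - y'

theorem nW_red {W : ℕ → α} (hred : Red W) (ty : Bool) {x0 c : ℕ} (h : 2 * x0 ≤ c) :
    Red (nW W ty x0 c) := by
  unfold nW
  cases ty
  · simpa using hred
  · simp only [if_true]
    apply WD_red hred
    have := eD_le W x0 c
    rw [show eD W x0 c + (c - 2 * eD W x0 c) = c - eD W x0 c by omega]
    exact eD_spec W x0 c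

theorem nW_pf {κ : ℕ} {W : ℕ → α} {J : ℕ → ℕ} (h : PF κ W J) (ty : Bool) (x0 c : ℕ) :
    PF κ (nW W ty x0 c) (nJ W J ty x0 c) := by
  unfold nW nJ
  cases ty
  · simpa using h
  · simp only [if_true]
    exact WD_pf h _ _

/-- the potential -/
noncomputable def Phi (γ : ℝ) (J : ℕ → ℕ) (ι s y P : ℕ) : ℝ :=
  γ * P + 13 * (jc J 0 y : ℝ) - ((y : ℝ) + (min ι y : ℕ)) / 2 ^ s

theorem phi_arith {t C0 a b j1 j j' g D y y' m e1 P : ℝ} (ht : 0 < t) (hC : 0 ≤ C0)
    (hb : 1 ≤ b) (ha : a ≤ (g + D) / t + 1 + j1 + b) (hD : D ≤ (9 * b + 4 * j1) * t)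
    (hm : m + g ≤ e1 + D) (hy : y = y' + D) (hj : j' + j1 ≤ j + 1) :
    (42 + C0) * (P - b) + 13 * j' - (y' + e1) / t + a + C0 ≤
      (42 + C0) * P + 13 * j - (y + m) / t := by
  have h1 : D / t ≤ 9 * b + 4 * j1 := by rwa [div_le_iff₀ ht]
  have h2 : (y + m) / t + (g + D) / t ≤ (y' + e1) / t + 3 * (D / t) := by
    rw [← add_div, ← mul_div_assoc, ← add_div]
    apply div_le_div_of_nonneg_right _ ht.le
    linarith
  have h3 : C0 ≤ C0 * b := by nlinarith
  nlinarith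

theorem move {W : ℕ → α} (hred : Red W) {J : ℕ → ℕ} {ι s y P : ℕ} (hg : Good W J ι s y P)
    (hex : ∃ p, ∃ e q e', Band W y P e p q e' ∧ e + 2 ^ s ≤ p) {C0 : ℝ} (hC : 0 ≤ C0) :
    ∃ a b ty x0 c y', 1 ≤ b ∧ b ≤ a ∧ b ≤ P ∧ hh s a ∣ x0 ∧ x0 ≤ ι + a * 2 ^ s ∧
      ι ≤ x0 + a * 2 ^ s ∧ c ≤ 2 * x0 + a * 2 ^ s ∧ Adm W J (hh s a) x0 c ∧ y' ≤ y ∧
      y = oldY W ty x0 c y' ∧
      Good (nW W ty x0 c) (nJ W J ty x0 c) (nI W ty x0 c) s y' (P - b) ∧
      Phi (42 + C0) (nJ W J ty x0 c) (nI W ty x0 c) s y' (P - b) + a + C0 ≤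
        Phi (42 + C0) J ι s y P := by
  classical
  obtain ⟨e0, q, e0', hb0, hl0⟩ := Nat.find_spec hex
  have hmin0 : ∀ e p q e', Band W y P e p q e' → e + 2 ^ s ≤ p → Nat.find hex ≤ p :=
    fun e p q e' h1 h2 => Nat.find_min' hex ⟨e, q, e', h1, h2⟩
  generalize Nat.find hex = p at hb0 hl0 hmin0
  obtain ⟨e1, e1', hle, hb, hty⟩ := Band.maxext _ _ hb0
  have hpos : 0 < 2 ^ s := by positivity
  have hlong : e1 + 2 ^ s ≤ p := by omega
  have hmin : ∀ e p q e', Band W y P e p q e' → e + 2 ^ s ≤ p → e1 < p := by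
    intro e p' q e' h1 h2
    have := hmin0 _ _ _ _ h1 h2
    omega
  have hi2 := hg.i2 _ _ _ _ hb hlong
  obtain ⟨a1, a2, a3, a4, a5, b, hcl⟩ := hb
  have hpq : p < q := by
    rcases a2.eq_or_lt with h | h
    · exfalso
      subst h
      obtain ⟨x, rfl⟩ : ∃ x, p = x + 1 := ⟨p - 1, by omega⟩
      exact hred x (a5 x (x + 1) (by omega) (by omega) (by omega))
    · exact h
  obtain ⟨hb1, hH⟩ := lemH hred J y P _ hg.i1 _ p q b e1 e1' rfl hpq a1 a3 a4 a5 hcl
  obtain ⟨D, rfl⟩ : ∃ D, e1' = e1 + D := ⟨e1' - e1, by omega⟩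
  have hcl1 : Cl W y P e1 (e1 + D) b :=
    hcl.extend a2 (p - e1) _ _ (by omega) (by omega) a3 a5
  set j1 := jc J e1 (e1 + D) with hj1
  have hD : D ≤ (9 * b + 4 * j1) * 2 ^ s := by
    have : b ≤ b * 2 ^ s := Nat.le_mul_of_pos_right _ hpos
    rw [pow_succ] at hH
    nlinarith
  obtain ⟨u, hu1, hu2⟩ : ∃ u : ℕ, e1 - ι + D < 2 ^ s * (u + 1) ∧
      (u : ℝ) ≤ ((e1 - ι + D : ℕ) : ℝ) / ((2 ^ s : ℕ) : ℝ) :=
    ⟨(e1 - ι + D) / 2 ^ s, Nat.lt_mul_div_succ _ hpos, Nat.cast_div_le⟩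
  obtain ⟨a, ha⟩ : ∃ a, a = u + 1 + j1 + b := ⟨_, rfl⟩
  have ha1 : e1 - ι + D ≤ a * 2 ^ s := by
    have h2 : 2 ^ s * (u + 1) ≤ 2 ^ s * a := Nat.mul_le_mul_left _ (by omega)
    rw [mul_comm a]
    omega
  obtain ⟨x0, x1, x2, x3, x4⟩ := exists_cell J (a := a) hlong (show 2 * p ≤ p + q by omega) a4
    (by omega)
  have hhp := hh_pos s a
  have hadm : Adm W J (hh s a) x0 (p + q) :=
    ⟨by omega, fun x z hx hx' hz => a5 x z (by omega) (by omega) hz, x4⟩
  obtain ⟨y', hy'⟩ : ∃ y', y' + D = y := ⟨y - D, by omega⟩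
  have hphi : ∀ (W' : ℕ → α) (J' : ℕ → ℕ) (ι' : ℕ), Pull W W' J J' y y' e1 D →
      min ι' y' = e1 →
      Phi (42 + C0) J' ι' s y' (P - b) + a + C0 ≤ Phi (42 + C0) J ι s y P := by
    intro W' J' ι' hp hι
    unfold Phi
    rw [hι, Nat.cast_sub hcl.1]
    refine phi_arith (j1 := j1) (g := ((e1 - ι : ℕ) : ℝ)) (D := D) (by positivity) hC
      (by exact_mod_cast hb1) ?_ (by exact_mod_cast hD) ?_ (by exact_mod_cast hy'.symm)
      (by exact_mod_cast hp.jc_total)
    · rw [ha]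
      push_cast at hu2 ⊢
      linarith
    · have : min ι y + (e1 - ι) ≤ e1 + D := by omega
      exact_mod_cast this
  by_cases hty' : e1 = 0 ∨ W (e1 - 1) ≠ W (e1 + D)
  · have he : eD W x0 (p + q) = e1 := by
      refine eD_eq x2 ?_ ?_
      · rwa [show p + q - e1 = e1 + D by omega]
      · intro z hz hz'
        exact a5 _ _ (by omega) (by omega) (by omega)
    have hD' : p + q - 2 * e1 = D := by omega
    have hp := WD_pull W J hy' (show e1 ≤ y' by omega)
    refine ⟨a, b, true, x0, p + q, y', hb1, by omega, hcl.1, x1, by omega, by omega, by omega,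
      hadm, by omega, ?_, ?_, ?_⟩
    · simp only [oldY, if_true, he, hD', hy']
    · simp only [nW, nJ, nI, if_true, he, hD']
      exact hp.good hcl1 hg hmin (Or.inl rfl)
    · simp only [nJ, nI, if_true, he, hD']
      exact hphi _ _ _ hp (by omega)
  · have hy : e1 + D = y := by tauto
    obtain rfl : y' = e1 := by omega
    have hp : Pull W W J J y y' y' D :=
      ⟨hy, le_rfl, fun _ _ => rfl, fun _ _ _ => by omega, fun _ _ => rfl,
        fun _ _ _ => by omega, fun _ => by omega⟩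
    refine ⟨a, b, false, x0, p + q, y', hb1, by omega, hcl.1, x1, by omega, by omega, by omega,
      hadm, by omega, ?_, ?_, ?_⟩
    · simp only [oldY, Bool.false_eq_true, if_false]
      omega
    · simp only [nW, nJ, nI, Bool.false_eq_true, if_false]
      exact hp.good hcl1 hg hmin (Or.inr rfl)
    · simp only [nJ, nI, Bool.false_eq_true, if_false]
      exact hphi _ _ _ hp (by omega)

end Pool.Agent.P.MP_daaf23_co.H98
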