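import Pool.Agent.P.MP_daaf23_co.FoldC

set_option autoImplicit false

namespace Pool.Agent.P.MP_daaf23_co.H98

variable {α : Type*}

theorem sum_cover {β : Type*} (T : Finset ℕ) (f : ℕ → ℝ) (I : Finset β) (S : β → Finset ℕ)
    (ψ : β → ℕ → ℕ) (g : β → ℕ → ℝ) (hg : ∀ i y, 0 ≤ g i y)
    (h : ∀ y ∈ T, ∃ i ∈ I, ∃ y' ∈ S i, y = ψ i y' ∧ f y ≤ g i y') :
    ∑ y ∈ T, f y ≤ ∑ i ∈ I, ∑ y' ∈ S i, g i y' := by
  have hn : ∀ y i y', 0 ≤ (if y = ψ i y' then g i y' else 0) := by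
    intro y i y'
    split_ifs
    · exact hg _ _
    · exact le_rfl
  calc ∑ y ∈ T, f y ≤ ∑ y ∈ T, ∑ i ∈ I, ∑ y' ∈ S i, (if y = ψ i y' then g i y' else 0) := by
        apply Finset.sum_le_sum
        intro y hy
        obtain ⟨i, hi, y', hy', h1, h2⟩ := h y hy
        refine le_trans ?_ (Finset.single_le_sum
          (f := fun i => ∑ y' ∈ S i, (if y = ψ i y' then g i y' else 0))
          (fun i _ => Finset.sum_nonneg fun y' _ => hn y i y') hi)
        refine le_trans ?_ (Finset.single_le_sum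
          (f := fun y' => (if y = ψ i y' then g i y' else 0)) (fun y' _ => hn y i y') hy')
        simp only [if_pos h1]
        exact h2
    _ = ∑ i ∈ I, ∑ y' ∈ S i, ∑ y ∈ T, (if y = ψ i y' then g i y' else 0) := by
        rw [Finset.sum_comm]
        apply Finset.sum_congr rfl
        intro i _
        rw [Finset.sum_comm]
    _ ≤ _ := by
        apply Finset.sum_le_sum
        intro i _
        apply Finset.sum_le_sum
        intro y' _
        rw [Finset.sum_ite_eq']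
        split_ifs
        · exact le_rfl
        · exact hg _ _

open Classical in
/-- the possible moves of size `a` -/
noncomputable def Idx (W : ℕ → α) (J : ℕ → ℕ) (ι s P a : ℕ) :
    Finset (ℕ × Bool × (Σ _ : ℕ, ℕ)) :=
  Finset.Icc 1 (min a P) ×ˢ (Finset.univ ×ˢ
    ((Finset.Icc (ι - a * 2 ^ s) (ι + a * 2 ^ s)).filter (fun x0 => hh s a ∣ x0)).sigma
      fun x0 => (Finset.Icc (2 * x0) (2 * x0 + a * 2 ^ s)).filter (Adm W J (hh s a) x0))

theorem mem_Idx {W : ℕ → α} {J : ℕ → ℕ} {ι s P a b : ℕ} {ty : Bool} {x0 c : ℕ} :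
    (b, ty, (⟨x0, c⟩ : Σ _ : ℕ, ℕ)) ∈ Idx W J ι s P a ↔
      (1 ≤ b ∧ b ≤ min a P) ∧ ((ι - a * 2 ^ s ≤ x0 ∧ x0 ≤ ι + a * 2 ^ s) ∧ hh s a ∣ x0) ∧
        (2 * x0 ≤ c ∧ c ≤ 2 * x0 + a * 2 ^ s) ∧ Adm W J (hh s a) x0 c := by
  simp only [Idx, Finset.mem_product, Finset.mem_Icc, Finset.mem_univ, true_and,
    Finset.mem_sigma, Finset.mem_filter]

theorem card_Idx {κ : ℕ} (hκ : 1 ≤ κ) {W : ℕ → α} {J : ℕ → ℕ} (hpf : PF κ W J) (ι s P a : ℕ) :
    (Idx W J ι s P a).card ≤ 90 * κ * a ^ 5 := by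
  classical
  rcases Nat.eq_zero_or_pos a with rfl | ha
  · simp [Idx]
  have hp := hh_pos s a
  have hb := hh_big s a ha
  have h1 : ((Finset.Icc (ι - a * 2 ^ s) (ι + a * 2 ^ s)).filter
      (fun x0 => hh s a ∣ x0)).card ≤ 8 * a ^ 2 + 1 := by
    apply card_sep (lo := ι - a * 2 ^ s) (L := 2 * (a * 2 ^ s)) (κ := 1) hp
    · intro x hx
      simp only [Finset.mem_filter, Finset.mem_Icc] at hx
      omega
    · intro x hx x' hx' hlt
      simp only [Finset.mem_filter, Finset.mem_Icc] at hx hx'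
      rw [one_mul]
      exact Nat.le_of_dvd (by omega) (Nat.dvd_sub hx'.2 hx.2)
    · have := Nat.mul_le_mul_left a hb
      nlinarith
  have h2 : ∀ x0, ((Finset.Icc (2 * x0) (2 * x0 + a * 2 ^ s)).filter
      (Adm W J (hh s a) x0)).card ≤ 4 * κ * a ^ 2 + 1 := by
    intro x0
    apply card_sep (lo := 2 * x0) (L := a * 2 ^ s) (κ := κ) hp
    · intro x hx
      simp only [Finset.mem_filter, Finset.mem_Icc] at hx
      omega
    · intro x hx x' hx' hlt
      simp only [Finset.mem_filter, Finset.mem_Icc] at hx hx'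
      exact Adm.sep hκ hpf hx.2 hx'.2 hlt
    · have := Nat.mul_le_mul_left (κ * a) hb
      nlinarith
  have h3 : (((Finset.Icc (ι - a * 2 ^ s) (ι + a * 2 ^ s)).filter
      (fun x0 => hh s a ∣ x0)).sigma
      fun x0 => (Finset.Icc (2 * x0) (2 * x0 + a * 2 ^ s)).filter (Adm W J (hh s a) x0)).card ≤
      (9 * a ^ 2) * (5 * κ * a ^ 2) := by
    rw [Finset.card_sigma]
    refine (Finset.sum_le_card_nsmul _ _ _ fun x _ => h2 x).trans ?_
    rw [smul_eq_mul]
    have : 1 ≤ a ^ 2 := Nat.one_le_pow _ _ ha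
    have : 1 ≤ κ * a ^ 2 := Nat.mul_pos hκ this
    exact Nat.mul_le_mul (by omega) (by nlinarith)
  unfold Idx
  rw [Finset.card_product, Finset.card_product, Nat.card_Icc, Finset.card_univ, Fintype.card_bool]
  calc _ ≤ a * (2 * ((9 * a ^ 2) * (5 * κ * a ^ 2))) :=
        Nat.mul_le_mul (by omega) (Nat.mul_le_mul_left _ h3)
    _ = _ := by ring

theorem geo_sum (n : ℕ) : ∑ a ∈ Finset.range n, (2 / 3 : ℝ) ^ a = 3 - 3 * (2 / 3) ^ n := by
  induction n with
  | zero => simp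
  | succ n ih => rw [Finset.sum_range_succ, ih]; ring

theorem term_bound (a : ℕ) : (a : ℝ) ^ 5 * Real.exp (-a) ≤ 3840 * (2 / 3) ^ a := by
  have h1 := Real.pow_div_factorial_le_exp ((a : ℝ) / 2) (by positivity) 5
  have h2 : Real.exp (-(1 / 2)) ≤ 2 / 3 := by
    rw [Real.exp_neg, inv_le_comm₀ (Real.exp_pos _) (by norm_num)]
    have := Real.add_one_le_exp (1 / 2 : ℝ)
    linarith
  have h3 : Real.exp (-((a : ℝ) / 2)) ≤ (2 / 3) ^ a := by
    rw [show -((a : ℝ) / 2) = a * (-(1 / 2)) by ring, Real.exp_nat_mul]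
    exact pow_le_pow_left₀ (Real.exp_pos _).le h2 a
  have h4 : (a : ℝ) ^ 5 ≤ 3840 * Real.exp ((a : ℝ) / 2) := by
    norm_num [Nat.factorial] at h1
    rw [div_le_iff₀ (by norm_num), div_pow] at h1
    linarith
  have h5 : Real.exp ((a : ℝ) / 2) * Real.exp (-a) = Real.exp (-((a : ℝ) / 2)) := by
    rw [← Real.exp_add]; congr 1; ring
  calc (a : ℝ) ^ 5 * Real.exp (-a) ≤ 3840 * Real.exp ((a : ℝ) / 2) * Real.exp (-a) :=
        mul_le_mul_of_nonneg_right h4 (Real.exp_pos _).le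
    _ = 3840 * Real.exp (-((a : ℝ) / 2)) := by rw [mul_assoc, h5]
    _ ≤ _ := by linarith

theorem series_bound {κ : ℕ} (hκ : 1 ≤ κ) (n : ℕ) :
    ∑ a ∈ Finset.range n, ((90 * κ * a ^ 5 : ℕ) : ℝ) *
      Real.exp (-((a : ℝ) + Real.log (4000000 * κ))) ≤ 1 / 3 := by
  have hk : (0 : ℝ) < κ := by exact_mod_cast hκ
  have h1 : ∀ a : ℕ, ((90 * κ * a ^ 5 : ℕ) : ℝ) *
      Real.exp (-((a : ℝ) + Real.log (4000000 * κ))) ≤ 1 / 9 * (2 / 3) ^ a := by
    intro a
    rw [neg_add, Real.exp_add, Real.exp_neg (Real.log _), Real.exp_log (by positivity)]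
    have := term_bound a
    have e : ((90 * κ * a ^ 5 : ℕ) : ℝ) * (Real.exp (-a) * (4000000 * (κ : ℝ))⁻¹) =
        90 / 4000000 * ((a : ℝ) ^ 5 * Real.exp (-a)) := by
      push_cast
      field_simp
    rw [e]
    have : (0 : ℝ) < (2 / 3) ^ a := by positivity
    linarith
  refine (Finset.sum_le_sum fun a _ => h1 a).trans ?_
  rw [← Finset.mul_sum, geo_sum]
  have : (0 : ℝ) < (2 / 3) ^ n := by positivity
  linarith

theorem logk_nonneg {κ : ℕ} (hκ : 1 ≤ κ) : 0 ≤ Real.log (4000000 * κ) := by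
  have hk : (1 : ℝ) ≤ κ := by exact_mod_cast hκ
  exact Real.log_nonneg (by linarith)

theorem step_move {κ : ℕ} (hκ : 1 ≤ κ) {P s : ℕ} {M : ℝ} (hM : 0 ≤ M)
    (ih : ∀ P' < P, ∀ (W : ℕ → α) (J : ℕ → ℕ) (ι : ℕ) (T : Finset ℕ), Red W → PF κ W J →
      (∀ y ∈ T, Good W J ι s y P') →
      ∑ y ∈ T, Real.exp (-Phi (42 + Real.log (4000000 * κ)) J ι s y P') ≤ M)
    (W : ℕ → α) (J : ℕ → ℕ) (ι : ℕ) (T : Finset ℕ) (hred : Red W) (hpf : PF κ W J)
    (hT : ∀ y ∈ T, Good W J ι s y P ∧ ∃ p, ∃ e q e', Band W y P e p q e' ∧ e + 2 ^ s ≤ p) :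
    ∑ y ∈ T, Real.exp (-Phi (42 + Real.log (4000000 * κ)) J ι s y P) ≤ 1 / 3 * M := by
  classical
  set C0 := Real.log (4000000 * κ) with hC0
  have hmv := fun y (hy : y ∈ T) => move hred (hT y hy).1 (hT y hy).2 (logk_nonneg hκ)
  choose! fa hfa using hmv
  refine (sum_cover T _ ((Finset.range (T.sup fa + 1)).sigma fun a => Idx W J ι s P a)
    (fun i => (Finset.range (T.sup id + 1)).filter fun y' =>
      Good (nW W i.2.2.1 i.2.2.2.1 i.2.2.2.2) (nJ W J i.2.2.1 i.2.2.2.1 i.2.2.2.2)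
        (nI W i.2.2.1 i.2.2.2.1 i.2.2.2.2) s y' (P - i.2.1))
    (fun i y' => oldY W i.2.2.1 i.2.2.2.1 i.2.2.2.2 y')
    (fun i y' => Real.exp (-((i.1 : ℝ) + C0)) *
      Real.exp (-Phi (42 + C0) (nJ W J i.2.2.1 i.2.2.2.1 i.2.2.2.2)
        (nI W i.2.2.1 i.2.2.2.1 i.2.2.2.2) s y' (P - i.2.1)))
    (fun i y => by positivity) ?_).trans ?_
  · intro y hy
    obtain ⟨b, ty, x0, c, y', h1, h2, h3, h4, h5, h6, h7, h8, h9, h10, h11, h12⟩ := hfa y hy
    have s1 : fa y ≤ T.sup fa := Finset.le_sup hy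
    have s2 : y ≤ T.sup id := Finset.le_sup (f := id) hy
    have s3 := h8.1
    refine ⟨⟨fa y, (b, ty, ⟨x0, c⟩)⟩, ?_, y', ?_, h10, ?_⟩
    · rw [Finset.mem_sigma]
      refine ⟨Finset.mem_range.2 (by simp only; omega), mem_Idx.2 ?_⟩
      simp only
      exact ⟨⟨h1, by omega⟩, ⟨⟨by omega, h5⟩, h4⟩, ⟨by omega, h7⟩, h8⟩
    · rw [Finset.mem_filter]
      exact ⟨Finset.mem_range.2 (by omega), h11⟩
    · rw [← Real.exp_add, Real.exp_le_exp]
      simp only
      linarith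
  · rw [Finset.sum_sigma]
    refine le_trans ?_ (mul_le_mul_of_nonneg_right (series_bound hκ (T.sup fa + 1)) hM)
    rw [Finset.sum_mul]
    apply Finset.sum_le_sum
    intro a _
    refine (Finset.sum_le_card_nsmul _ _ (Real.exp (-((a : ℝ) + C0)) * M) ?_).trans ?_
    · rintro ⟨b, ty, x0, c⟩ hi
      rw [mem_Idx] at hi
      simp only
      rw [← Finset.mul_sum]
      apply mul_le_mul_of_nonneg_left _ (Real.exp_pos _).le
      apply ih (P - b) (by omega) (nW W ty x0 c) _ _ _ (nW_red hred ty hi.2.2.1.1)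
        (nW_pf hpf ty x0 c)
      intro y hy
      exact (Finset.mem_filter.1 hy).2
    · rw [nsmul_eq_mul, mul_assoc]
      apply mul_le_mul_of_nonneg_right _ (by positivity)
      exact_mod_cast card_Idx hκ hpf ι s P a

theorem main_bound {κ : ℕ} (hκ : 1 ≤ κ) : ∀ (P s : ℕ) (W : ℕ → α) (J : ℕ → ℕ) (ι : ℕ)
    (T : Finset ℕ), Red W → PF κ W J → (∀ y ∈ T, Good W J ι s y P) →
    ∑ y ∈ T, Real.exp (-Phi (42 + Real.log (4000000 * κ)) J ι s y P) ≤ 2 * (3 / 2) ^ s := by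
  classical
  intro P
  induction P using Nat.strong_induction_on with
  | _ P ihP =>
  have hC := logk_nonneg hκ
  have hdrop : ∀ s, (∀ (W : ℕ → α) (J : ℕ → ℕ) (ι : ℕ) (T : Finset ℕ), Red W → PF κ W J →
      (∀ y ∈ T, Good W J ι s y P ∧ ∀ e p q e', Band W y P e p q e' → p < e + 2 ^ s) →
      ∑ y ∈ T, Real.exp (-Phi (42 + Real.log (4000000 * κ)) J ι s y P) ≤
        2 / 3 * (2 * (3 / 2) ^ s)) →
      ∀ (W : ℕ → α) (J : ℕ → ℕ) (ι : ℕ) (T : Finset ℕ), Red W → PF κ W J →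
      (∀ y ∈ T, Good W J ι s y P) →
      ∑ y ∈ T, Real.exp (-Phi (42 + Real.log (4000000 * κ)) J ι s y P) ≤ 2 * (3 / 2) ^ s := by
    intro s hs W J ι T hred hpf hT
    rw [← Finset.sum_filter_add_sum_filter_not T
      (fun y => ∃ p, ∃ e q e', Band W y P e p q e' ∧ e + 2 ^ s ≤ p)]
    have h1 := step_move hκ (M := 2 * (3 / 2) ^ s) (by positivity)
      (fun P' hP' => ihP P' hP' s) W J ι
      (T.filter fun y => ∃ p, ∃ e q e', Band W y P e p q e' ∧ e + 2 ^ s ≤ p) hred hpf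
      (fun y hy => ⟨hT y (Finset.mem_filter.1 hy).1, (Finset.mem_filter.1 hy).2⟩)
    have h2 := hs W J ι
      (T.filter fun y => ¬ ∃ p, ∃ e q e', Band W y P e p q e' ∧ e + 2 ^ s ≤ p) hred hpf
      (fun y hy => ⟨hT y (Finset.mem_filter.1 hy).1, fun e p q e' hb => by
        by_contra hcon
        exact (Finset.mem_filter.1 hy).2 ⟨p, e, q, e', hb, by omega⟩⟩)
    linarith
  intro s
  induction s with
  | zero =>
    apply hdrop
    intro W J ι T hred _ hT
    have hy : ∀ y ∈ T, y ≤ P := by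
      intro y hy
      rcases Nat.eq_zero_or_pos y with h0 | h0
      · omega
      have := lemH hred J y P 0 (fun e p q e' hb => by
        have := (hT y hy).2 e p q e' hb
        omega) _ 0 y P 0 y rfl h0 le_rfl le_rfl rfl (fun x z _ hx => by omega)
        ⟨le_rfl, (hT y hy).1.fold, by simpa [seg_self] using Fold.nil _⟩
      omega
    have hcard : T.card ≤ P + 1 := by
      rw [← Finset.card_range (P + 1)]
      exact Finset.card_le_card fun y h => Finset.mem_range.2 (Nat.lt_succ_of_le (hy y h))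
    refine (Finset.sum_le_card_nsmul _ _ (Real.exp (-(P : ℝ))) ?_).trans ?_
    · intro y h
      rw [Real.exp_le_exp, neg_le_neg_iff]
      unfold Phi
      have a1 : (y : ℝ) ≤ P := by exact_mod_cast hy y h
      have a2 : ((min ι y : ℕ) : ℝ) ≤ y := by exact_mod_cast min_le_right _ _
      have a3 : (0 : ℝ) ≤ jc J 0 y := Nat.cast_nonneg _
      have a4 : (0 : ℝ) ≤ P := Nat.cast_nonneg _
      have a5 := mul_nonneg hC a4
      rw [pow_zero, div_one]
      nlinarith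
    · rw [nsmul_eq_mul]
      have a1 : (T.card : ℝ) ≤ P + 1 := by exact_mod_cast hcard
      have a2 := Real.add_one_le_exp (P : ℝ)
      have a3 : Real.exp P * Real.exp (-(P : ℝ)) = 1 := by rw [← Real.exp_add]; simp
      have a4 := mul_le_mul_of_nonneg_right (a1.trans a2) (Real.exp_pos (-(P : ℝ))).le
      rw [pow_zero]
      linarith
  | succ s ihs =>
    apply hdrop
    intro W J ι T hred hpf hT
    have h1 := ihs W J 0 T hred hpf (fun y hy => ⟨(hT y hy).1.fold, fun e p q e' hb => by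
      have h2 := (hT y hy).2 e p q e' hb
      have h3 : 2 ^ (s + 1) * 1 ≤ 2 ^ (s + 1) * (1 + jc J e p + jc J q e') :=
        Nat.mul_le_mul_left _ (by omega)
      omega, fun e p q e' _ _ => Or.inl (Nat.zero_le _)⟩)
    refine le_trans (Finset.sum_le_sum ?_) (h1.trans (le_of_eq (by ring)))
    intro y _
    rw [Real.exp_le_exp, neg_le_neg_iff]
    unfold Phi
    have a2 : ((min ι y : ℕ) : ℝ) ≤ y := by exact_mod_cast min_le_right _ _
    have a3 : ((y : ℝ) + (min ι y : ℕ)) / 2 ^ (s + 1) ≤ ((y : ℝ) + (min 0 y : ℕ)) / 2 ^ s := by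
      rw [div_le_div_iff₀ (by positivity) (by positivity), Nat.zero_min, pow_succ,
        Nat.cast_zero, add_zero]
      have : (0 : ℝ) < 2 ^ s := by positivity
      nlinarith
    linarith

end Pool.Agent.P.MP_daaf23_co.H98
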