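import Pool.Agent.P.MP_daaf23_co.FoldD

set_option autoImplicit false

namespace Pool.Agent.P.MP_daaf23_co.H98

variable {A : Type*}

/-- the infinite word with a separator before every letter -/
def pad (w : ℕ → A) : ℕ → Option A := fun i => if i % 2 = 0 then none else some (w (i / 2))

/-- the finite word with a separator before every letter -/
def padL (x : List A) : List (Option A) := x.flatMap fun a => [none, some a]

theorem pad_red (w : ℕ → A) : Red (pad w) := by
  intro x
  unfold pad
  by_cases h : x % 2 = 0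
  · rw [if_pos h, if_neg (by omega)]; simp
  · rw [if_neg h, if_pos (by omega)]; simp

theorem seg_pad (w : ℕ → A) (n : ℕ) : seg (pad w) 0 (2 * n) = padL ((List.range n).map w) := by
  induction n with
  | zero => simp [seg_self, padL]
  | succ n ih =>
    rw [show 2 * (n + 1) = 2 * n + 1 + 1 by ring, seg_snoc _ (Nat.zero_le _),
      seg_snoc _ (Nat.zero_le _), ih, List.range_succ]
    have h1 : pad w (2 * n) = none := by simp [pad]
    have h2 : pad w (2 * n + 1) = some (w n) := by
      unfold pad
      rw [if_neg (by omega), show (2 * n + 1) / 2 = n by omega]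
    simp [padL, h1, h2]

theorem fold_pal {x : List A} (h : List.Palindrome x) : Fold (padL x) 2 := by
  have : Fold (padL x ++ [none]) 1 := by
    induction h with
    | nil => exact Fold.single _
    | singleton a => exact Fold.wrap none (Fold.single (some a))
    | cons_concat a _ ih =>
      have := Fold.wrap none (Fold.wrap (some a) ih)
      simpa [padL] using this
  exact Fold.drop1 (a := none) this.rot

theorem fold_flatten (L : List (List A)) (h : ∀ x ∈ L, List.Palindrome x) :
    Fold (padL L.flatten) (2 * L.length) := by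
  induction L with
  | nil => exact Fold.nil _
  | cons x L ih =>
    have := (fold_pal (h x (by simp))).app (ih fun z hz => h z (by simp [hz]))
    rw [List.length_cons, show 2 * (L.length + 1) = 2 + 2 * L.length by ring]
    simpa [padL] using this

theorem seg_power (w : ℕ → A) (d : ℕ) : ∀ m j0, (∀ j, j0 ≤ j → j < j0 + m * d → w j = w (j + d)) →
    seg w j0 (j0 + m * d) = (List.replicate m (seg w j0 (j0 + d))).flatten := by
  intro m
  induction m with
  | zero => intro j0 _; simp [seg_self]
  | succ m ih =>
    intro j0 h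
    have e : j0 + (m + 1) * d = j0 + d + m * d := by ring
    rw [e] at h ⊢
    have h1 := ih (j0 + d) fun j hj hj' => h j (by omega) hj'
    have h2 : seg w j0 (j0 + d) = seg w (j0 + d) (j0 + d + d) :=
      seg_shift fun j hj hj' => h j hj (by omega)
    rw [← seg_append w (show j0 ≤ j0 + d by omega) (by omega), h1, ← h2, List.replicate_succ,
      List.flatten_cons]

theorem pad_pf (w : ℕ → A) {k N : ℕ} (hk : 1 ≤ k)
    (h : ∀ x : List A, x ≠ [] → ¬ (List.replicate k x).flatten <:+: (List.range N).map w) :
    PF k (pad w) (fun x => if x < 2 * N then 0 else 1) := by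
  intro a len d hd hj hper
  by_contra hcon
  have h1 : d ≤ k * d := Nat.le_mul_of_pos_left _ hk
  have h2 : a + len + d - 1 < 2 * N := by
    have := jc_eq_zero.1 hj (a + len + d - 1) (by omega) (by omega)
    by_contra h3
    simp [h3] at this
  have h3 : d % 2 = 0 := by
    have := hper a le_rfl (by omega)
    unfold pad at this
    by_cases ha : a % 2 = 0
    · rw [if_pos ha] at this
      by_contra hd2
      rw [if_neg (by omega)] at this
      simp at this
    · rw [if_neg ha] at this
      by_contra hd2
      rw [if_pos (by omega)] at this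
      simp at this
  obtain ⟨δ, rfl⟩ : ∃ δ, d = 2 * δ := ⟨d / 2, by omega⟩
  have h4 : k * (2 * δ) = 2 * (k * δ) := by ring
  have h5 := seg_power w δ k (a / 2) (by
    intro j hj hj'
    have := hper (2 * j + 1) (by omega) (by omega)
    unfold pad at this
    rw [if_neg (by omega), if_neg (by omega), show (2 * j + 1) / 2 = j by omega,
      show (2 * j + 1 + 2 * δ) / 2 = j + δ by omega] at this
    exact Option.some.inj this)
  refine h (seg w (a / 2) (a / 2 + δ)) ?_ ?_
  · intro h0
    have := congrArg List.length h0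
    rw [seg_length, List.length_nil] at this
    omega
  · rw [← h5]
    refine ⟨seg w 0 (a / 2), seg w (a / 2 + k * δ) N, ?_⟩
    rw [seg_append w (by omega) (by omega), seg_append w (by omega) (by omega), seg,
      List.Ico.zero_bot]

theorem count_bound (w : ℕ → A) {k N : ℕ} (hk : 1 ≤ k)
    (h : ∀ x : List A, x ≠ [] → ¬ (List.replicate k x).flatten <:+: (List.range N).map w)
    (P : ℕ) (T : Finset ℕ)
    (hT : ∀ n ∈ T, n ≤ N ∧ ∃ L : List (List A), (∀ x ∈ L, List.Palindrome x) ∧
      L.flatten = (List.range n).map w ∧ L.length ≤ P) :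
    (T.card : ℝ) ≤ 2 * (3 / 2) ^ (Nat.log 2 N) *
      Real.exp ((42 + Real.log (4000000 * k)) * (2 * P)) := by
  have hN : N < 2 ^ (Nat.log 2 N + 1) := Nat.lt_pow_succ_log_self (by norm_num) N
  have hm := main_bound hk (2 * P) (Nat.log 2 N) (pad w) (fun x => if x < 2 * N then 0 else 1) 0
    (T.image fun n => 2 * n) (pad_red w) (pad_pf w hk h) (by
      intro y hy
      obtain ⟨n, hn, rfl⟩ := Finset.mem_image.1 hy
      obtain ⟨hnN, L, l1, l2, l3⟩ := hT n hn
      refine ⟨?_, ?_, fun _ _ _ _ _ _ => Or.inl (Nat.zero_le _)⟩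
      · rw [seg_pad, ← l2]
        exact (fold_flatten L l1).mono (by omega)
      · intro e p q e' hb
        obtain ⟨a1, a2, a3, a4, -⟩ := hb
        refine le_trans ?_ (Nat.add_le_add_left (Nat.le_mul_of_pos_right _ (by omega)) e)
        omega)
  have hc : (T.image fun n => 2 * n).card = T.card :=
    Finset.card_image_of_injective _ fun a b hab => by simpa using hab
  have hlow := Finset.card_nsmul_le_sum (T.image fun n => 2 * n)
    (fun y => Real.exp (-Phi (42 + Real.log (4000000 * k)) (fun x => if x < 2 * N then 0 else 1)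
      0 (Nat.log 2 N) y (2 * P)))
    (Real.exp (-((42 + Real.log (4000000 * k)) * (2 * P)))) (by
      intro y hy
      obtain ⟨n, hn, rfl⟩ := Finset.mem_image.1 hy
      have hnN := (hT n hn).1
      rw [Real.exp_le_exp, neg_le_neg_iff]
      unfold Phi
      have h0 : jc (fun x => if x < 2 * N then 0 else 1) 0 (2 * n) = 0 :=
        jc_eq_zero.2 fun x _ hx => if_pos (by omega)
      rw [h0]
      have : (0 : ℝ) ≤ (((2 * n : ℕ) : ℝ) + (min 0 (2 * n) : ℕ)) / 2 ^ Nat.log 2 N := by positivity
      push_cast at this ⊢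
      linarith)
  rw [hc, nsmul_eq_mul, Real.exp_neg, ← div_eq_mul_inv] at hlow
  rw [← div_le_iff₀ (Real.exp_pos _)]
  exact hlow.trans hm

theorem final_bound (w : ℕ → A) {k N : ℕ} (hk : 2 ≤ k) (hN : 1 ≤ N)
    (h : ∀ x : List A, x ≠ [] → ¬ (List.replicate k x).flatten <:+: (List.range N).map w) :
    (Set.ncard {n : ℕ | n ≤ N ∧ ∃ L : List (List A), (∀ x ∈ L, List.Palindrome x) ∧
        L.flatten = (List.range n).map w ∧
        (L.length : ℝ) ≤ Real.log N / (2520 * Real.log k)} : ℝ) ≤ 2 * (N : ℝ) ^ (2 / 3 : ℝ) := by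
  set S := {n : ℕ | n ≤ N ∧ ∃ L : List (List A), (∀ x ∈ L, List.Palindrome x) ∧
        L.flatten = (List.range n).map w ∧
        (L.length : ℝ) ≤ Real.log N / (2520 * Real.log k)} with hS
  have hfin : S.Finite := (Set.finite_le_nat N).subset fun n hn => hn.1
  have hN1 : (1 : ℝ) ≤ N := by exact_mod_cast hN
  have hk2 : (2 : ℝ) ≤ k := by exact_mod_cast hk
  have hl2 : Real.log 2 ≤ Real.log k := Real.log_le_log (by norm_num) hk2
  have hl3 := Real.log_two_gt_d9
  have hlk : 0 < Real.log k := by linarith
  have hlN : 0 ≤ Real.log N := Real.log_nonneg hN1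
  have hb := count_bound w (by omega) h ⌊Real.log N / (2520 * Real.log k)⌋₊ hfin.toFinset (by
    intro n hn
    rw [Set.Finite.mem_toFinset] at hn
    obtain ⟨h1, L, l1, l2, l3⟩ := hn
    exact ⟨h1, L, l1, l2, Nat.le_floor l3⟩)
  rw [Set.ncard_eq_toFinset_card _ hfin]
  refine hb.trans ?_
  have hP : (⌊Real.log N / (2520 * Real.log k)⌋₊ : ℝ) ≤ Real.log N / (2520 * Real.log k) :=
    Nat.floor_le (by positivity)
  have hγ : 42 + Real.log (4000000 * k) ≤ 84 * Real.log k := by
    rw [Real.log_mul (by norm_num) (by linarith)]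
    have : Real.log 4000000 ≤ 22 * Real.log 2 := by
      have : Real.log 4000000 ≤ Real.log (2 ^ 22) := Real.log_le_log (by norm_num) (by norm_num)
      rw [Real.log_pow] at this
      exact_mod_cast this
    linarith
  have h1 : (42 + Real.log (4000000 * k)) * (2 * (⌊Real.log N / (2520 * Real.log k)⌋₊ : ℝ)) ≤
      Real.log N * (1 / 15) := by
    calc _ ≤ (84 * Real.log k) * (2 * (Real.log N / (2520 * Real.log k))) :=
          mul_le_mul hγ (by linarith) (by positivity) (by positivity)
      _ = _ := by field_simp; ring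
  have h2 : ((3 / 2 : ℝ)) ^ (Nat.log 2 N) ≤ Real.exp (Real.log N * (3 / 5)) := by
    have a1 : ((2 : ℝ)) ^ (Nat.log 2 N) ≤ N := by
      exact_mod_cast Nat.pow_log_le_self 2 (show N ≠ 0 by omega)
    have a2 : (Nat.log 2 N : ℝ) * Real.log 2 ≤ Real.log N := by
      rw [← Real.log_pow]
      exact Real.log_le_log (by positivity) a1
    have a3 : 5 * Real.log (3 / 2) ≤ 3 * Real.log 2 := by
      have : Real.log ((3 / 2) ^ 5) ≤ Real.log (2 ^ 3) :=
        Real.log_le_log (by norm_num) (by norm_num)
      rw [Real.log_pow, Real.log_pow] at this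
      exact_mod_cast this
    rw [← Real.exp_log (show (0 : ℝ) < (3 / 2) ^ (Nat.log 2 N) by positivity), Real.log_pow,
      Real.exp_le_exp]
    have a4 : (0 : ℝ) ≤ Nat.log 2 N := Nat.cast_nonneg _
    nlinarith
  rw [Real.rpow_def_of_pos (by linarith), mul_assoc]
  apply mul_le_mul_of_nonneg_left _ (by norm_num)
  calc _ ≤ Real.exp (Real.log N * (3 / 5)) * Real.exp (Real.log N * (1 / 15)) :=
        mul_le_mul h2 (Real.exp_le_exp.2 h1) (Real.exp_pos _).le (Real.exp_pos _).le
    _ = _ := by rw [← Real.exp_add]; congr 1; ring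

end Pool.Agent.P.MP_daaf23_co.H98
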