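import Pool.Agent.P.MP_daaf23_co.FoldE

set_option autoImplicit false

namespace Pool.Agent.P.MP_daaf23_co.H98

variable {A : Type*}

/-- image of a word in generators and inverses in the free product of groups of order two -/
def padG (x : List (A × Bool)) : List (Option A) :=
  x.flatMap fun a => if a.2 then [none, some a.1] else [some a.1, none]

theorem padG_append (x z : List (A × Bool)) : padG (x ++ z) = padG x ++ padG z := by
  simp [padG]

theorem fold_step {x z : List (A × Bool)} (h : FreeGroup.Red.Step x z) (m : ℕ) :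
    Fold (padG x) m ↔ Fold (padG z) m := by
  cases h with
  | @not L1 L2 a b =>
    rw [padG_append, padG_append]
    cases b
    · have e : padG L1 ++ padG ((a, false) :: (a, !false) :: L2) =
          (padG L1 ++ [some a]) ++ none :: none :: (some a :: padG L2) := by simp [padG]
      rw [e]
      constructor
      · intro h
        exact Fold.cancel (a := some a) (by simpa using h.cancel)
      · intro h
        exact Fold.uncancel none (by simpa using h.uncancel (some a))
    · have e : padG L1 ++ padG ((a, true) :: (a, !true) :: L2) =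
          (padG L1 ++ [none]) ++ some a :: some a :: (none :: padG L2) := by simp [padG]
      rw [e]
      constructor
      · intro h
        exact Fold.cancel (a := none) (by simpa using h.cancel)
      · intro h
        exact Fold.uncancel (some a) (by simpa using h.uncancel none)

theorem fold_mk {x z : List (A × Bool)} (h : FreeGroup.mk x = FreeGroup.mk z) (m : ℕ) :
    Fold (padG x) m ↔ Fold (padG z) m := by
  have h1 : Relation.EqvGen FreeGroup.Red.Step x z := Quot.eqvGen_exact h
  clear h
  induction h1 with
  | rel _ _ h => exact fold_step h m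
  | refl => exact Iff.rfl
  | symm _ _ _ ih => exact ih.symm
  | trans _ _ _ _ _ ih1 ih2 => exact ih1.trans ih2

theorem fold_palG {x : List (A × Bool)} (h : List.Palindrome x) : Fold (padG x) 2 := by
  have : Fold (padG x ++ [none]) 1 := by
    induction h with
    | nil => exact Fold.single _
    | singleton a =>
      obtain ⟨a, b⟩ := a
      cases b
      · exact Fold.uncancel (u := [some a]) (v := []) none (Fold.single (some a))
      · exact Fold.wrap none (Fold.single (some a))
    | @cons_concat a l _ ih =>
      obtain ⟨a, b⟩ := a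
      cases b
      · have h1 := Fold.wrap (some a) ih.rot
        have h2 := Fold.uncancel (u := some a :: (([none] ++ padG l) ++ [some a])) (v := []) none
          (by simpa using h1)
        simpa [padG] using h2
      · have := Fold.wrap none (Fold.wrap (some a) ih)
        simpa [padG] using this
  exact Fold.drop1 (a := none) this.rot

theorem fold_flattenG (L : List (List (A × Bool))) (h : ∀ x ∈ L, List.Palindrome x) :
    Fold (padG L.flatten) (2 * L.length) := by
  induction L with
  | nil => exact Fold.nil _
  | cons x L ih =>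
    have := (fold_palG (h x (by simp))).app (ih fun z hz => h z (by simp [hz]))
    rw [List.length_cons, show 2 * (L.length + 1) = 2 + 2 * L.length by ring,
      List.flatten_cons, padG_append]
    exact this

theorem prod_mk (L : List (List (A × Bool))) :
    (L.map FreeGroup.mk).prod = FreeGroup.mk L.flatten := by
  induction L with
  | nil => rfl
  | cons x L ih => rw [List.map_cons, List.prod_cons, ih, FreeGroup.mul_mk, List.flatten_cons]

theorem prod_of (x : List A) :
    (x.map FreeGroup.of).prod = FreeGroup.mk (x.map fun a => (a, true)) := by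
  induction x with
  | nil => rfl
  | cons a x ih => rw [List.map_cons, List.prod_cons, ih]; rfl

theorem padG_pos (x : List A) : padG (x.map fun a => (a, true)) = padL x := by
  induction x with
  | nil => rfl
  | cons a x ih => simpa [padG, padL] using ih

theorem fold_free (w : ℕ → A) (n : ℕ) (L : List (List (A × Bool)))
    (h : ∀ x ∈ L, List.Palindrome x)
    (h2 : (L.map FreeGroup.mk).prod = ((List.range n).map fun i => FreeGroup.of (w i)).prod) :
    Fold (padL ((List.range n).map w)) (2 * L.length) := by
  have e : ((List.range n).map fun i => FreeGroup.of (w i)) =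
      ((List.range n).map w).map FreeGroup.of := by simp
  rw [e, prod_mk, prod_of] at h2
  rw [← padG_pos]
  exact (fold_mk h2 _).1 (fold_flattenG L h)

theorem count_boundG (w : ℕ → A) {k N : ℕ} (hk : 1 ≤ k)
    (h : ∀ x : List A, x ≠ [] → ¬ (List.replicate k x).flatten <:+: (List.range N).map w)
    (P : ℕ) (T : Finset ℕ)
    (hT : ∀ n ∈ T, n ≤ N ∧ Fold (padL ((List.range n).map w)) (2 * P)) :
    (T.card : ℝ) ≤ 2 * (3 / 2) ^ (Nat.log 2 N) *
      Real.exp ((42 + Real.log (4000000 * k)) * (2 * P)) := by
  have hN : N < 2 ^ (Nat.log 2 N + 1) := Nat.lt_pow_succ_log_self (by norm_num) N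
  have hm := main_bound hk (2 * P) (Nat.log 2 N) (pad w) (fun x => if x < 2 * N then 0 else 1) 0
    (T.image fun n => 2 * n) (pad_red w) (pad_pf w hk h) (by
      intro y hy
      obtain ⟨n, hn, rfl⟩ := Finset.mem_image.1 hy
      obtain ⟨hnN, l1⟩ := hT n hn
      refine ⟨?_, ?_, fun _ _ _ _ _ _ => Or.inl (Nat.zero_le _)⟩
      · rwa [seg_pad]
      · intro e p q e' hb
        obtain ⟨a1, a2, a3, a4, -⟩ := hb
        refine le_trans ?_ (Nat.add_le_add_left (Nat.le_mul_of_pos_right _ (by omega)) e)
        omega)
  have hc : (T.image fun n => 2 * n).card = T.card :=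
    Finset.card_image_of_injective _ fun a b hab => by simpa using hab
  have hlow := Finset.card_nsmul_le_sum (T.image fun n => 2 * n)
    (fun y => Real.exp (-Phi (42 + Real.log (4000000 * k)) (fun x => if x < 2 * N then 0 else 1)
      0 (Nat.log 2 N) y (2 * P)))
    (Real.exp (-((42 + Real.log (4000000 * k)) * (2 * P)))) (by
      intro y hy
      obtain ⟨n, hn, rfl⟩ := Finset.mem_image.1 hy
      have hnN := (hT n hn).1
      rw [Real.exp_le_exp, neg_le_neg_iff]
      unfold Phi
      have h0 : jc (fun x => if x < 2 * N then 0 else 1) 0 (2 * n) = 0 :=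
        jc_eq_zero.2 fun x _ hx => if_pos (by omega)
      rw [h0]
      have : (0 : ℝ) ≤ (((2 * n : ℕ) : ℝ) + (min 0 (2 * n) : ℕ)) / 2 ^ Nat.log 2 N := by positivity
      push_cast at this ⊢
      linarith)
  rw [hc, nsmul_eq_mul, Real.exp_neg, ← div_eq_mul_inv] at hlow
  rw [← div_le_iff₀ (Real.exp_pos _)]
  exact hlow.trans hm

theorem final_boundG (w : ℕ → A) {k N : ℕ} (hk : 2 ≤ k) (hN : 1 ≤ N)
    (h : ∀ x : List A, x ≠ [] → ¬ (List.replicate k x).flatten <:+: (List.range N).map w) :
    (Set.ncard {n : ℕ | n ≤ N ∧ ∃ L : List (List (A × Bool)), (∀ x ∈ L, List.Palindrome x) ∧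
        (L.map FreeGroup.mk).prod = ((List.range n).map fun i => FreeGroup.of (w i)).prod ∧
        (L.length : ℝ) ≤ Real.log N / (2520 * Real.log k)} : ℝ) ≤ 2 * (N : ℝ) ^ (2 / 3 : ℝ) := by
  set S := {n : ℕ | n ≤ N ∧ ∃ L : List (List (A × Bool)), (∀ x ∈ L, List.Palindrome x) ∧
        (L.map FreeGroup.mk).prod = ((List.range n).map fun i => FreeGroup.of (w i)).prod ∧
        (L.length : ℝ) ≤ Real.log N / (2520 * Real.log k)} with hS
  have hfin : S.Finite := (Set.finite_le_nat N).subset fun n hn => hn.1
  have hN1 : (1 : ℝ) ≤ N := by exact_mod_cast hN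
  have hk2 : (2 : ℝ) ≤ k := by exact_mod_cast hk
  have hl2 : Real.log 2 ≤ Real.log k := Real.log_le_log (by norm_num) hk2
  have hl3 := Real.log_two_gt_d9
  have hlk : 0 < Real.log k := by linarith
  have hlN : 0 ≤ Real.log N := Real.log_nonneg hN1
  have hb := count_boundG w (by omega) h ⌊Real.log N / (2520 * Real.log k)⌋₊ hfin.toFinset (by
    intro n hn
    rw [Set.Finite.mem_toFinset] at hn
    obtain ⟨h1, L, l1, l2, l3⟩ := hn
    exact ⟨h1, (fold_free w n L l1 l2).mono (Nat.mul_le_mul_left 2 (Nat.le_floor l3))⟩)
  rw [Set.ncard_eq_toFinset_card _ hfin]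
  refine hb.trans ?_
  have hP : (⌊Real.log N / (2520 * Real.log k)⌋₊ : ℝ) ≤ Real.log N / (2520 * Real.log k) :=
    Nat.floor_le (by positivity)
  have hγ : 42 + Real.log (4000000 * k) ≤ 84 * Real.log k := by
    rw [Real.log_mul (by norm_num) (by linarith)]
    have : Real.log 4000000 ≤ 22 * Real.log 2 := by
      have : Real.log 4000000 ≤ Real.log (2 ^ 22) := Real.log_le_log (by norm_num) (by norm_num)
      rw [Real.log_pow] at this
      exact_mod_cast this
    linarith
  have h1 : (42 + Real.log (4000000 * k)) * (2 * (⌊Real.log N / (2520 * Real.log k)⌋₊ : ℝ)) ≤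
      Real.log N * (1 / 15) := by
    calc _ ≤ (84 * Real.log k) * (2 * (Real.log N / (2520 * Real.log k))) :=
          mul_le_mul hγ (by linarith) (by positivity) (by positivity)
      _ = _ := by field_simp; ring
  have h2 : ((3 / 2 : ℝ)) ^ (Nat.log 2 N) ≤ Real.exp (Real.log N * (3 / 5)) := by
    have a1 : ((2 : ℝ)) ^ (Nat.log 2 N) ≤ N := by
      exact_mod_cast Nat.pow_log_le_self 2 (show N ≠ 0 by omega)
    have a2 : (Nat.log 2 N : ℝ) * Real.log 2 ≤ Real.log N := by
      rw [← Real.log_pow]
      exact Real.log_le_log (by positivity) a1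
    have a3 : 5 * Real.log (3 / 2) ≤ 3 * Real.log 2 := by
      have : Real.log ((3 / 2) ^ 5) ≤ Real.log (2 ^ 3) :=
        Real.log_le_log (by norm_num) (by norm_num)
      rw [Real.log_pow, Real.log_pow] at this
      exact_mod_cast this
    rw [← Real.exp_log (show (0 : ℝ) < (3 / 2) ^ (Nat.log 2 N) by positivity), Real.log_pow,
      Real.exp_le_exp]
    have a4 : (0 : ℝ) ≤ Nat.log 2 N := Nat.cast_nonneg _
    nlinarith
  rw [Real.rpow_def_of_pos (by linarith), mul_assoc]
  apply mul_le_mul_of_nonneg_left _ (by norm_num)
  calc _ ≤ Real.exp (Real.log N * (3 / 5)) * Real.exp (Real.log N * (1 / 15)) :=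
        mul_le_mul h2 (Real.exp_le_exp.2 h1) (Real.exp_pos _).le (Real.exp_pos _).le
    _ = _ := by rw [← Real.exp_add]; congr 1; ring

end Pool.Agent.P.MP_daaf23_co.H98
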