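import Pool.Agent.P.MP_daaf23_co.Pot

/-! States of the counting argument and the effect of the three events. -/

set_option autoImplicit false

namespace Pool.Agent.P.MP_daaf23_co

variable {B : Type}

/-- end points at the level `u` with budget `β` -/
def Full (a : ℕ) (u : ℤ) (L0 : ℤ → B) (x : ℤ) (l : Bk B) (β y : ℤ) : Prop :=
  Old (5 * u) x l y ∧ ∃ P n : ℕ, Path L0 l x y P ∧ Fc u {x} l n ∧ (a * P + 5 : ℤ) ≤ β + 5 * n

/-- the part `pre` of the book is at the level `u`, the part `suf` at the level `32 u` -/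
def Mid (a : ℕ) (u : ℤ) (L0 : ℤ → B) (x : ℤ) (pre : Bk B) (η : ℤ) (suf : Bk B) (β y : ℤ) : Prop :=
  (∀ l y', Old (5 * u) η l y' → Old (5 * u) x (pre ++ l) y') ∧
  ∃ (p ξ ζ : ℤ) (P1 P2 w n e : ℕ), Path L0 pre x p P1 ∧ Nr η u p ∧
    Path (lastL L0 pre) suf p y P2 ∧ Nr ξ (2 * (160 * u) + u) η ∧ Old (160 * u) ξ suf y ∧
    (∀ l m, Fc u (Set.Icc (η - u) (η + u)) l m → Fc u {x} (pre ++ l) (w + m)) ∧
    Fc (32 * u) {ζ} suf n ∧ 1 ≤ e ∧ Nr ζ (3 * u * e) η ∧
    (a * P1 + a * P2 + 5 + e : ℤ) ≤ β + 5 * w + 5 * n + 1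

theorem Fc.zero (D : ℤ) (S : Set ℤ) (l : Bk B) : Fc D S l 0 := by
  simpa using Fc.skip (D := D) (g := l) (l := []) (S := S) (n := 0) rfl

theorem Mid.nonneg {a : ℕ} {u : ℤ} (ha : 5 ≤ a) (hu : 0 < u) {L0 : ℤ → B} {x η β y : ℤ}
    {pre suf : Bk B} (h : Mid a u L0 x pre η suf β y) : 0 ≤ β := by
  obtain ⟨_, p, ξ, ζ, P1, P2, w, n, e, a1, _, a3, _, _, a6, a7, a8, _, a10⟩ := h
  have b1 : w ≤ P1 := Fc.le hu a1 (by simpa using a6 [] 0 rfl)
  have b2 : n - 1 ≤ P2 := Fc.le (by omega) a3 (a7.drop {p})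
  have b3 : (5 : ℤ) * P1 ≤ a * P1 := mul_le_mul_of_nonneg_right (by omega) (by omega)
  have b4 : (5 : ℤ) * P2 ≤ a * P2 := mul_le_mul_of_nonneg_right (by omega) (by omega)
  omega

theorem Full.mid {a : ℕ} {u : ℤ} (hu : 0 < u) {L0 : ℤ → B} {x β y : ℤ} {l : Bk B}
    (h : Full a (32 * u) L0 x l β y) : Mid a u L0 x [] x l β y := by
  obtain ⟨h1, P, n, h2, h3, h4⟩ := h
  refine ⟨fun _ _ h => h, x, x, x, 0, P, 0, n, 1, Path.nil _ _ _, by unfold Nr; omega, h2,
    by unfold Nr; omega, ?_, fun l m h => ?_, h3, le_rfl, by unfold Nr; push_cast; omega,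
    by push_cast; omega⟩
  · rwa [show 5 * (32 * u) = 160 * u by ring] at h1
  · rw [Nat.zero_add]
    exact h.mono (Set.singleton_subset_iff.2 ⟨by omega, by omega⟩)

theorem old_meet {u η y : ℤ} (hu : 0 < u) {g l : Bk B} (hm : ∀ j ∈ g, ∃ q ∈ j.1, Nr η (2 * u) q)
    (h : Old (5 * u) η l y) : Old (5 * u) η (g ++ l) y := by
  induction g with
  | nil => exact h
  | cons j g ih =>
    obtain ⟨q, b1, b2⟩ := hm j (by simp)
    exact Or.inl ⟨⟨q, b1, by unfold Nr at *; omega⟩, ih fun j' hj => hm j' (by simp [hj])⟩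

/-- the junction that replaces a run of long steps -/
def lk (L L' : ℤ → B) (c δ ε : ℤ) : Set ℤ :=
  {p | c ≤ p ∧ p ≤ c + δ ∧ ∀ i, min p (if ε = 1 then c + δ else c) ≤ i →
    i < max p (if ε = 1 then c + δ else c) → L i = L' i}

theorem good_lk {k : ℕ} {L L' : ℤ → B} {l : Bk B} (c δ ε : ℤ) (h : PF k L) (h' : Good k L' l) :
    Good k L ((lk L L' c δ ε, L') :: l) := by
  refine ⟨h, ?_, ?_, h'⟩
  · rintro p q r ⟨a1, a2, a3⟩ ⟨b1, b2, b3⟩ c1 c2
    refine ⟨by omega, by omega, fun i d1 d2 => ?_⟩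
    by_cases e : i < (if ε = 1 then c + δ else c)
    · exact a3 i (by omega) (by omega)
    · exact b3 i (by omega) (by omega)
  · rintro p q i ⟨a1, a2, a3⟩ ⟨b1, b2, b3⟩ c1 c2
    by_cases e : i < (if ε = 1 then c + δ else c)
    · exact a3 i (by omega) (by omega)
    · exact b3 i (by omega) (by omega)

theorem good_pin {k : ℕ} {L : ℤ → B} {l : Bk B} (c d : ℤ) (h : Good k L l) :
    Good k L ((Set.Icc c d, L) :: l) :=
  ⟨h.pf, fun _ _ _ a b c d => ⟨a.1.trans c, d.trans b.2⟩, fun _ _ _ _ _ _ _ => rfl, h⟩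

/-- the state after a walk -/
def MidW (a : ℕ) (u : ℤ) (L0 : ℤ → B) (x : ℤ) (pre : Bk B) (η : ℤ) (g rest : Bk B)
    (β ε y : ℤ) : Prop :=
  Mid a u L0 x (pre ++ g ++ [(Set.Icc (η + ε * (3 * u) - u) (η + ε * (3 * u) + u),
    lastL L0 (pre ++ g))]) (η + ε * (3 * u)) rest (β - 4) y

/-- the state after a run of long steps -/
def MidC (a : ℕ) (u δ : ℤ) (L0 : ℤ → B) (x : ℤ) (pre g1 : Bk B) (L' : ℤ → B) (l2 : Bk B)
    (β c ε σ t y : ℤ) : Prop :=
  Mid a u L0 x (pre ++ g1 ++ [(lk (lastL L0 (pre ++ g1)) (pull σ t L') c δ ε, pull σ t L')]) c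
    (pullB σ t l2) β (σ * (y - t))

theorem mid_cases {k gc : ℕ} {u δ : ℤ} (hδ : 0 < δ) (hu : δ ≤ u) {L0 : ℤ → B} {x η β y : ℤ}
    {pre g rest : Bk B} (hg : Good k L0 (pre ++ (g ++ rest)))
    (hm : ∀ j ∈ g, ∃ q ∈ j.1, Nr η (2 * u) q)
    (ha : ∀ j r, rest = j :: r → ∀ q ∈ j.1, ¬ Nr η (2 * u) q)
    (h : Mid (gc + 10) u L0 x pre η (g ++ rest) β y) :
    (rest = [] ∧ Full (gc + 10) u L0 x (pre ++ g) β y) ∨
    (∃ ε, Sg ε ∧ MidW (gc + 10) u L0 x pre η g rest β ε y) ∨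
    ∃ (g1 g2 r1 l2 : Bk B) (z0 z ε ε' : ℤ), g = g1 ++ g2 ∧ rest = r1 ++ l2 ∧ Sg ε ∧ Sg ε' ∧
      Nr η (4 * u) z0 ∧ Nr η (641 * u) z ∧
      RA (lastL L0 (pre ++ g1)) z0 ε (lastL L0 (pre ++ g ++ r1)) z ε' (2 * u) ∧
      ∀ c, c ≤ z0 → z0 < c + δ → MidC (gc + 10) u δ L0 x pre g1 (lastL L0 (pre ++ g ++ r1)) l2
        (β - gc) c ε (ε * ε') (z - ε * ε' * z0) y := by
  have hu0 : 0 < u := by omega
  obtain ⟨h0, p, ξ, ζ, P1, P2, w, n, e, a1, a2, a3, a4, a5, a6, a7, a8, a9, a10⟩ := h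
  rcases event hu0 (by omega) a3 (good_append.1 hg).2 hm ha a5 a4 a2 with
    ⟨rfl, b2⟩ | ⟨ε, z, ξ', n1, n2, b1, b2, b3, b4, b5, b6, b7, b8⟩ |
    ⟨g1, g2, z0, ε, n1, n', b1, b2, b3, b4, b5, r1, l2, z, ε', ξ', m, n2, c1, c2, c3, c4, c5, c6,
      c7, c8, c9, c10⟩
  · obtain ⟨ζ', e', n', d1, d2, _, d4⟩ := Fc.group hu0 hm ζ e n a7 a8 a9
    have d5 : n' = 0 := d1
    rw [List.append_nil] at a3
    refine Or.inl ⟨rfl, ?_, P1 + P2, w + 0, a1.append a3, a6 g 0 (Fc.zero _ _ _), ?_⟩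
    · have : Old (5 * u) η (g ++ []) y := old_meet hu0 hm (by simp only [Old]; unfold Nr at *; omega)
      simpa using h0 _ _ this
    · push_cast at a10 ⊢
      rw [mul_add]
      omega
  · obtain ⟨ζ', e', n', d1, d2, d3, d4⟩ := Fc.group hu0 hm ζ e n a7 a8 a9
    have f1 : z ∈ Set.Icc (η + ε * (3 * u) - u) (η + ε * (3 * u) + u) := by
      rcases b1 with rfl | rfl <;> constructor <;> omega
    refine Or.inr (Or.inl ⟨ε, b1, fun l y' hy => ?_, z, ξ', ζ', P1 + n1, n2, w + 1, n', e' + 1,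
      ?_, f1, ?_, ?_, b8, fun l m hl => ?_, d1, by omega, ?_, ?_⟩)
    · rw [List.append_assoc, List.append_assoc]
      refine h0 _ _ (old_meet hu0 hm (Or.inr ⟨η + ε * (3 * u), fun q hq => ?_, ?_, hy⟩))
      · obtain ⟨q1, q2⟩ := hq
        unfold Nr
        rcases b1 with rfl | rfl <;> omega
      · unfold Nr
        rcases b1 with rfl | rfl <;> omega
    · exact (a1.append b5).append (m := 0) (Path.stay (by simpa using f1))
    · rw [lastL_append, lastL_append]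
      exact b6
    · unfold Nr at *
      rcases b1 with rfl | rfl <;> omega
    · rw [List.append_assoc, List.append_assoc, Nat.add_assoc, Nat.add_comm 1 m]
      refine a6 _ _ (Fc.skip (Or.inr (Or.inr ⟨m, rfl, fun p hp q hq => ?_, hl⟩)))
      obtain ⟨p1, p2⟩ := hp
      obtain ⟨q1, q2⟩ := hq
      rcases b1 with rfl | rfl <;> omega
    · unfold Nr at *
      push_cast
      rw [mul_add]
      rcases b1 with rfl | rfl <;> omega
    · have f2 : ((gc : ℤ) + 10) * n1 + (gc + 10) * n2 ≤ (gc + 10) * P2 := by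
        rw [← mul_add]
        exact mul_le_mul_of_nonneg_left (by omega) (by omega)
      push_cast at a10 ⊢
      rw [mul_add]
      omega
  · subst b1 c1
    have hσ : Sg (ε * ε') := by
      rcases b2 with rfl | rfl <;> rcases c2 with rfl | rfl <;> simp [Sg]
    have e1 : lastL (lastL (lastL L0 pre) g1) (g2 ++ r1) = lastL L0 (pre ++ (g1 ++ g2) ++ r1) := by
      simp only [lastL_append]
    rw [e1] at c6 c7
    rw [← lastL_append] at c7
    refine Or.inr (Or.inr ⟨g1, g2, r1, l2, z0, z, ε, ε', rfl, rfl, b2, c2, b3,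
      by unfold Nr at *; omega, c7, fun c f1 f2 => ?_⟩)
    have hm1 : ∀ j ∈ g1, ∃ q ∈ j.1, Nr η (2 * u) q := fun j hj => hm j (by simp [hj])
    obtain ⟨ζ', e', n'', d1, d2, _, d4⟩ := Fc.group (rest := g2 ++ r1 ++ l2) hu0 hm1 ζ e n
      (by simpa using a7) a8 a9
    have d5 := (Fc.path (by omega) c5 (d1.drop {z0})).pull (t := z - ε * ε' * z0) hσ
    have e2 : ε * ε' * (z - (z - ε * ε' * z0)) = z0 := by
      rcases b2 with rfl | rfl <;> rcases c2 with rfl | rfl <;> omega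
    have f3 : z0 ∈ lk (lastL L0 (pre ++ g1))
        (pull (ε * ε') (z - ε * ε' * z0) (lastL L0 (pre ++ (g1 ++ g2) ++ r1))) c δ ε := by
      refine ⟨f1, f2.le, fun i i1 i2 => c7.agree b2 c2 (by omega) ?_ ?_⟩
      · rcases b2 with rfl | rfl
        · simp only [if_true] at i1
          omega
        · rw [if_neg (by norm_num)] at i1
          omega
      · rcases b2 with rfl | rfl
        · simp only [if_true] at i2
          omega
        · rw [if_neg (by norm_num)] at i2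
          omega
    refine ⟨fun l y' hy => ?_, z0, ε * ε' * (ξ' - (z - ε * ε' * z0)), z0, P1 + n1, n2, w,
      n'' - 1 - m, 1, ?_, by unfold Nr; omega, ?_, ?_, c10.pull hσ, fun l m hl => ?_,
      d5.mono ?_, le_rfl, by unfold Nr; push_cast; omega, ?_⟩
    · rw [List.append_assoc, List.append_assoc]
      refine h0 _ _ (old_meet hu0 hm1 (Or.inr ⟨c, fun q hq => ?_, ?_, hy⟩))
      · obtain ⟨q1, q2, _⟩ := hq
        unfold Nr at *
        omega
      · unfold Nr at *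
        omega
    · exact (a1.append b5).append (m := 0) (Path.stay (by simpa using f3))
    · have := c6.pull (t := z - ε * ε' * z0) hσ
      rw [e2] at this
      rw [lastL_append]
      exact this
    · unfold Nr at *
      rcases b2 with rfl | rfl <;> rcases c2 with rfl | rfl <;> omega
    · rw [List.append_assoc, List.append_assoc]
      refine a6 _ _ (Fc.skip (Or.inr (Or.inl (hl.mono fun q hq => ?_))))
      obtain ⟨q1, q2, _⟩ := hq
      constructor <;> omega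
    · rintro _ rfl
      show _ = z
      ring
    · have f4 : ((gc : ℤ) + 10) * n1 + (gc + 10) * n2 + (gc + 10) * m ≤ (gc + 10) * P2 := by
        rw [← mul_add, ← mul_add]
        exact mul_le_mul_of_nonneg_left (by omega) (by omega)
      have f5 : (gc : ℤ) * 1 ≤ gc * m := mul_le_mul_of_nonneg_left (by omega) (by omega)
      have f6 : ((gc : ℤ) + 10) * m = gc * m + 10 * m := by ring
      have f7 : (n'' : ℤ) ≤ ((n'' - 1 - m : ℕ) : ℤ) + 1 + m := by omega
      generalize n'' - 1 - m = n3 at *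
      push_cast at a10 ⊢
      rw [mul_add]
      omega

end Pool.Agent.P.MP_daaf23_co
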