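import Pool.Agent.P.MP_daaf23_co.Event

/-! Forced pairs of junctions, change of coordinates and rigidity. -/

set_option autoImplicit false

namespace Pool.Agent.P.MP_daaf23_co

variable {B : Type}

/-- there are `n` pairs of constraints, disjoint in time, each pair at distance at least `D` -/
def Fc (D : ℤ) : Set ℤ → Bk B → ℕ → Prop
  | _, [], n => n = 0
  | S, j :: l, n => Fc D S l n ∨ Fc D j.1 l n ∨
      ∃ n', n = n' + 1 ∧ (∀ p ∈ S, ∀ q ∈ j.1, p + D ≤ q ∨ q + D ≤ p) ∧ Fc D j.1 l n'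

theorem Fc.mono {D : ℤ} {l : Bk B} {S S' : Set ℤ} {n : ℕ} (h : Fc D S l n) (hS : S' ⊆ S) :
    Fc D S' l n := by
  induction l with
  | nil => exact h
  | cons j l ih =>
    rcases h with h | h | ⟨n', a1, a2, a3⟩
    · exact Or.inl (ih h)
    · exact Or.inr (Or.inl h)
    · exact Or.inr (Or.inr ⟨n', a1, fun p hp => a2 p (hS hp), a3⟩)

theorem Fc.drop {D : ℤ} {l : Bk B} {S : Set ℤ} {n : ℕ} (h : Fc D S l n) (S' : Set ℤ) :
    Fc D S' l (n - 1) := by
  induction l generalizing S S' with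
  | nil =>
    have e : n = 0 := h
    show n - 1 = 0
    omega
  | cons j l ih =>
    rcases h with h | h | ⟨n', a1, _, a3⟩
    · exact Or.inl (ih h S')
    · exact Or.inl (ih h S')
    · subst a1
      exact Or.inr (Or.inl a3)

theorem Fc.sub {D : ℤ} {l : Bk B} {S : Set ℤ} {n : ℕ} (h : Fc D S l n) (m : ℕ) :
    Fc D S l (n - m) := by
  induction m with
  | zero => exact h
  | succ m ih => exact ih.drop S

theorem Fc.skip {D : ℤ} {g l : Bk B} {S : Set ℤ} {n : ℕ} (h : Fc D S l n) :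
    Fc D S (g ++ l) n := by
  induction g with
  | nil => exact h
  | cons j g ih => exact Or.inl ih

theorem Fc.path {D : ℤ} (hD : 0 < D) {L : ℤ → B} {l l2 : Bk B} {p z : ℤ} {m : ℕ}
    (h : Path L l p z m) {n : ℕ} (hf : Fc D {p} (l ++ l2) n) : Fc D {z} l2 (n - m) := by
  obtain ⟨s, h⟩ := h
  induction h generalizing n with
  | nil L p m => exact hf.sub m
  | step L l p v y m s _ _ ih =>
    have := ih (hf.drop {v})
    rwa [show n - 1 - m = n - (m + 1) by omega] at this
  | pass L j l p y m s h1 _ ih =>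
    rcases hf with hf | hf | ⟨n', _, a2, _⟩
    · exact ih hf
    · exact ih (hf.mono (Set.singleton_subset_iff.2 h1))
    · have := a2 p rfl p h1
      omega

theorem Fc.le {D : ℤ} (hD : 0 < D) {L : ℤ → B} {l : Bk B} {p z : ℤ} {m n : ℕ}
    (h : Path L l p z m) (hf : Fc D {p} l n) : n ≤ m := by
  have h1 : n - m = 0 := Fc.path hD (l2 := []) h (by simpa using hf)
  omega

theorem Fc.group {u η : ℤ} (hu : 0 < u) {g rest : Bk B}
    (hm : ∀ j ∈ g, ∃ q ∈ j.1, Nr η (2 * u) q) : ∀ (ζ : ℤ) (e n : ℕ),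
    Fc (32 * u) {ζ} (g ++ rest) n → 1 ≤ e → Nr ζ (3 * u * e) η →
    ∃ (ζ' : ℤ) (e' n' : ℕ), Fc (32 * u) {ζ'} rest n' ∧ 1 ≤ e' ∧ Nr ζ' (3 * u * e') η ∧
      5 * n + e' ≤ 5 * n' + e := by
  induction g with
  | nil => intro ζ e n h1 h2 h3; exact ⟨ζ, e, n, h1, h2, h3, le_rfl⟩
  | cons j g ih =>
    intro ζ e n h1 h2 h3
    have hm' : ∀ j' ∈ g, ∃ q ∈ j'.1, Nr η (2 * u) q := fun j' hj => hm j' (by simp [hj])
    obtain ⟨q, b1, b2⟩ := hm j (by simp)
    have b3 : Nr q (3 * u * (1 : ℕ)) η := by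
      unfold Nr at *
      push_cast
      omega
    rcases h1 with h1 | h1 | ⟨n', a1, a2, a3⟩
    · exact ih hm' ζ e n h1 h2 h3
    · obtain ⟨ζ', e', n', c1, c2, c3, c4⟩ :=
        ih hm' q 1 n (h1.mono (Set.singleton_subset_iff.2 b1)) le_rfl b3
      exact ⟨ζ', e', n', c1, c2, c3, by omega⟩
    · obtain ⟨ζ', e', n'', c1, c2, c3, c4⟩ :=
        ih hm' q 1 n' (a3.mono (Set.singleton_subset_iff.2 b1)) le_rfl b3
      have d1 := a2 ζ rfl q b1
      have d2 : 6 ≤ e := by
        by_contra hc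
        have d3 : (e : ℤ) ≤ 5 := by omega
        have d4 : 3 * u * e ≤ 3 * u * 5 := mul_le_mul_of_nonneg_left d3 (by omega)
        unfold Nr at *
        omega
      exact ⟨ζ', e', n'', c1, c2, c3, by omega⟩

/-- a line in new coordinates -/
def pull (σ t : ℤ) (L : ℤ → B) : ℤ → B := fun i => L (σ * i + t + (σ - 1) / 2)

/-- a book in new coordinates -/
def pullB (σ t : ℤ) (l : Bk B) : Bk B := l.map fun j => ({p | σ * p + t ∈ j.1}, pull σ t j.2)

theorem length_pullB (σ t : ℤ) (l : Bk B) : (pullB σ t l).length = l.length := by simp [pullB]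

theorem Pal.pull {σ t : ℤ} (hσ : Sg σ) {L : ℤ → B} {p v : ℤ} (h : Pal L (σ * p + t) (σ * v + t)) :
    Pal (pull σ t L) p v := by
  intro i a b
  show L _ = L _
  rcases hσ with rfl | rfl
  · rw [h _ (by omega) (by omega)]
    congr 1
    omega
  · rw [h _ (by omega) (by omega)]
    congr 1
    omega

theorem Path.pull {σ t : ℤ} (hσ : Sg σ) {L : ℤ → B} {l : Bk B} {p y : ℤ} {n : ℕ}
    (h : Path L l p y n) : Path (pull σ t L) (pullB σ t l) (σ * (p - t)) (σ * (y - t)) n := by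
  have e : ∀ x, σ * (σ * (x - t)) + t = x := fun x => by rcases hσ with rfl | rfl <;> omega
  obtain ⟨s, h⟩ := h
  induction h with
  | nil L p n => exact Path.nil _ _ _
  | step L l p v y n s h1 _ ih => exact ih.step (Pal.pull hσ (by rw [e, e]; exact h1))
  | pass L j l p y n s h1 _ ih =>
    exact Path.pass (j := ({p | σ * p + t ∈ j.1}, MP_daaf23_co.pull σ t j.2))
      (by show σ * (σ * (p - t)) + t ∈ j.1; rw [e]; exact h1) ih

theorem PF.pull {k : ℕ} {σ t : ℤ} (hσ : Sg σ) {L : ℤ → B} (h : PF k L) : PF k (pull σ t L) := by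
  intro d hd a
  rcases hσ with rfl | rfl
  · obtain ⟨i, a1, a2, a3⟩ := h d hd (a + t)
    refine ⟨i - t, by omega, by omega, fun e => a3 ?_⟩
    have e1 : L (1 * (i - t) + t + (1 - 1) / 2) = L (1 * (i - t + d) + t + (1 - 1) / 2) := e
    rw [show 1 * (i - t) + t + (1 - 1) / 2 = i by omega,
      show 1 * (i - t + d) + t + (1 - 1) / 2 = i + d by omega] at e1
    exact e1
  · obtain ⟨i, a1, a2, a3⟩ := h d hd (t - a - k * d - d)
    refine ⟨t - 1 - i - d, by omega, by omega, fun e => a3 ?_⟩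
    have e1 : L (-1 * (t - 1 - i - d) + t + (-1 - 1) / 2) =
      L (-1 * (t - 1 - i - d + d) + t + (-1 - 1) / 2) := e
    rw [show -1 * (t - 1 - i - d) + t + (-1 - 1) / 2 = i + d by omega,
      show -1 * (t - 1 - i - d + d) + t + (-1 - 1) / 2 = i by omega] at e1
    exact e1.symm

theorem Good.pull {k : ℕ} {σ t : ℤ} (hσ : Sg σ) {L : ℤ → B} {l : Bk B} (h : Good k L l) :
    Good k (pull σ t L) (pullB σ t l) := by
  induction l generalizing L with
  | nil => exact PF.pull hσ h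
  | cons j l ih =>
    obtain ⟨h1, h2, h3, h4⟩ := h
    refine ⟨h1.pull hσ, fun p q r a b c d => ?_, fun p q i a b c d => ?_, ih h4⟩
    · rcases hσ with rfl | rfl
      · exact h2 _ _ _ a b (by omega) (by omega)
      · exact h2 _ _ _ b a (by omega) (by omega)
    · rcases hσ with rfl | rfl
      · exact h3 _ _ _ a b (by omega) (by omega)
      · exact h3 _ _ _ b a (by omega) (by omega)

theorem Old.pull {ρ σ t y : ℤ} (hσ : Sg σ) {l : Bk B} {ξ : ℤ} (h : Old ρ ξ l y) :
    Old ρ (σ * (ξ - t)) (pullB σ t l) (σ * (y - t)) := by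
  induction l generalizing ξ with
  | nil =>
    simp only [Old, Nr, pullB, List.map_nil] at *
    rcases hσ with rfl | rfl <;> omega
  | cons j l ih =>
    rcases h with ⟨⟨q, a1, a2⟩, a3⟩ | ⟨ξ', a1, a2, a3⟩
    · refine Or.inl ⟨⟨σ * (q - t), ?_, ?_⟩, ih a3⟩
      · show σ * (σ * (q - t)) + t ∈ j.1
        rw [show σ * (σ * (q - t)) + t = q by rcases hσ with rfl | rfl <;> omega]
        exact a1
      · unfold Nr at *
        rcases hσ with rfl | rfl <;> omega
    · refine Or.inr ⟨σ * (ξ' - t), fun q hq => ?_, ?_, ih a3⟩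
      · have := a1 _ hq
        unfold Nr at *
        rcases hσ with rfl | rfl <;> omega
      · unfold Nr at *
        rcases hσ with rfl | rfl <;> omega

theorem Fc.pull {D σ t : ℤ} (hσ : Sg σ) {l : Bk B} {S : Set ℤ} {n : ℕ} (h : Fc D S l n) :
    Fc D {p | σ * p + t ∈ S} (pullB σ t l) n := by
  induction l generalizing S n with
  | nil => exact h
  | cons j l ih =>
    rcases h with h | h | ⟨n', a1, a2, a3⟩
    · exact Or.inl (ih h)
    · exact Or.inr (Or.inl (ih h))
    · refine Or.inr (Or.inr ⟨n', a1, fun p hp q hq => ?_, ih a3⟩)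
      have := a2 _ hp _ hq
      rcases hσ with rfl | rfl <;> omega

theorem RA.agree {L L' : ℤ → B} {p ε z ε' V : ℤ} (hε : Sg ε) (hε' : Sg ε')
    (h : RA L p ε L' z ε' V) (hV : 0 ≤ V) {i : ℤ} (h1 : min p (p + ε * V) ≤ i)
    (h2 : i < max p (p + ε * V)) :
    L i = pull (ε * ε') (z - ε * ε' * p) L' i := by
  unfold pull
  rcases hε with rfl | rfl
  · have := h (i - p) (by omega) (by omega)
    rw [show p + 1 * (i - p) + (1 - 1) / 2 = i by omega] at this
    rw [this]
    congr 1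
    rcases hε' with rfl | rfl <;> omega
  · have := h (p - 1 - i) (by omega) (by omega)
    rw [show p + -1 * (p - 1 - i) + (-1 - 1) / 2 = i by omega] at this
    rw [this]
    congr 1
    rcases hε' with rfl | rfl <;> omega

theorem rigid_aux {k : ℕ} {L L' : ℤ → B} (hL : PF k L') {σ t t' a b : ℤ} (hσ : Sg σ)
    (h1 : ∀ i, a ≤ i → i < b → L i = pull σ t L' i)
    (h2 : ∀ i, a ≤ i → i < b → L i = pull σ t' L' i) (ht : t < t')
    (hd : k * (t' - t) ≤ b - a) : False := by
  unfold pull at h1 h2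
  rcases hσ with rfl | rfl
  · obtain ⟨i, a1, a2, a3⟩ := hL (t' - t) (by omega) (a + t)
    apply a3
    have e1 := h1 (i - t) (by omega) (by omega)
    have e2 := h2 (i - t) (by omega) (by omega)
    rw [show 1 * (i - t) + t + (1 - 1) / 2 = i by omega] at e1
    rw [show 1 * (i - t) + t' + (1 - 1) / 2 = i + (t' - t) by omega] at e2
    rw [← e1, e2]
  · obtain ⟨i, a1, a2, a3⟩ := hL (t' - t) (by omega) (t - b)
    apply a3
    have e1 := h1 (t - 1 - i) (by omega) (by omega)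
    have e2 := h2 (t - 1 - i) (by omega) (by omega)
    rw [show -1 * (t - 1 - i) + t + (-1 - 1) / 2 = i by omega] at e1
    rw [show -1 * (t - 1 - i) + t' + (-1 - 1) / 2 = i + (t' - t) by omega] at e2
    rw [← e1, e2]

/-- an isometry that is valid on a long ray is determined by rough data -/
theorem rigid {k : ℕ} {L L' : ℤ → B} (hL : PF k L') {δ ε ε' c c' p z p' z' : ℤ} (hδ : 0 < δ)
    (hε : Sg ε) (hε' : Sg ε') (h : RA L p ε L' z ε' (2 * ((k + 1) * δ)))
    (h' : RA L p' ε L' z' ε' (2 * ((k + 1) * δ))) (a1 : c ≤ p) (a2 : p < c + δ) (a3 : c ≤ p')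
    (a4 : p' < c + δ) (b1 : c' ≤ z) (b2 : z < c' + δ) (b3 : c' ≤ z') (b4 : z' < c' + δ) :
    z - ε * ε' * p = z' - ε * ε' * p' := by
  have hσ : Sg (ε * ε') := by
    rcases hε with rfl | rfl <;> rcases hε' with rfl | rfl <;> simp [Sg]
  have hk : 0 ≤ k * δ := by positivity
  have e0 : (k + 1) * δ = k * δ + δ := by ring
  obtain ⟨a, h1, h2⟩ : ∃ a, (∀ i, a ≤ i → i < a + 2 * (k * δ) →
      L i = pull (ε * ε') (z - ε * ε' * p) L' i) ∧ ∀ i, a ≤ i → i < a + 2 * (k * δ) →
      L i = pull (ε * ε') (z' - ε * ε' * p') L' i := by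
    rcases hε with rfl | rfl
    · exact ⟨c + δ, fun i d1 d2 => h.agree (Or.inl rfl) hε' (by omega) (by omega) (by omega),
        fun i d1 d2 => h'.agree (Or.inl rfl) hε' (by omega) (by omega) (by omega)⟩
    · exact ⟨c - 2 * (k * δ), fun i d1 d2 => h.agree (Or.inr rfl) hε' (by omega) (by omega) (by omega),
        fun i d1 d2 => h'.agree (Or.inr rfl) hε' (by omega) (by omega) (by omega)⟩
  have hd : ∀ d : ℤ, d ≤ 2 * δ → k * d ≤ a + 2 * (k * δ) - a := fun d hd => by
    have := mul_le_mul_of_nonneg_left hd (Int.natCast_nonneg k)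
    linarith
  have hb : z' - ε * ε' * p' - (z - ε * ε' * p) ≤ 2 * δ ∧
      z - ε * ε' * p - (z' - ε * ε' * p') ≤ 2 * δ := by
    rcases hε with rfl | rfl <;> rcases hε' with rfl | rfl <;> omega
  rcases lt_trichotomy (z - ε * ε' * p) (z' - ε * ε' * p') with hl | hl | hl
  · exact (rigid_aux hL hσ h1 h2 hl (hd _ hb.1)).elim
  · exact hl
  · exact (rigid_aux hL hσ h2 h1 hl (hd _ hb.2)).elim

end Pool.Agent.P.MP_daaf23_co
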