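import Pool.Agent.P.MP_daaf23_co.Basic

/-! The shape of a normal path with respect to a small window inside a large window. -/

set_option autoImplicit false

namespace Pool.Agent.P.MP_daaf23_co

variable {B : Type}

/-- every junction meets the window of radius `ρ` or moves the window -/
def Old (ρ : ℤ) : ℤ → Bk B → ℤ → Prop
  | ξ, [], y => Nr ξ ρ y
  | ξ, j :: l, y => ((∃ q ∈ j.1, Nr ξ ρ q) ∧ Old ρ ξ l y) ∨
      ∃ ξ', (∀ q ∈ j.1, Nr ξ ρ q ∧ Nr ξ' ρ q) ∧ Nr ξ (2 * ρ) ξ' ∧ Old ρ ξ' l y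

/-- a direction -/
def Sg (ε : ℤ) : Prop := ε = 1 ∨ ε = -1

theorem Sg.neg {ε : ℤ} (h : Sg ε) : Sg (-ε) := by
  rcases h with rfl | rfl
  · exact Or.inr rfl
  · exact Or.inl rfl

/-- the same `V` letters are read from `p` in direction `ε` and from `z` in direction `ε'` -/
def RA (L : ℤ → B) (p ε : ℤ) (L' : ℤ → B) (z ε' V : ℤ) : Prop :=
  ∀ i, 0 ≤ i → i < V → L (p + ε * i + (ε - 1) / 2) = L' (z + ε' * i + (ε' - 1) / 2)

theorem RA.trans {L L' L'' : ℤ → B} {p ε z ε' w ε'' V : ℤ} (h : RA L p ε L' z ε' V)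
    (h' : RA L' z ε' L'' w ε'' V) : RA L p ε L'' w ε'' V :=
  fun i a b => (h i a b).trans (h' i a b)

theorem RA.step {L : ℤ → B} {p v ε V : ℤ} (hε : Sg ε) (h : Pal L p v) (hV : V ≤ ε * (v - p)) :
    RA L p ε L v (-ε) V := by
  intro i a b
  rcases hε with rfl | rfl
  · rw [h _ (by omega) (by omega)]
    congr 1
    omega
  · rw [h _ (by omega) (by omega)]
    congr 1
    omega

/-- `C` contains the segment from the border of the window to `p` on the side `ε` -/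
def Cov (c r ε : ℤ) (C : Set ℤ) (p : ℤ) : Prop :=
  ∀ x, r ≤ ε * (x - c) → ε * (x - c) ≤ ε * (p - c) → x ∈ C

theorem cov_univ (c r ε p : ℤ) : Cov c r ε Set.univ p := fun _ _ _ => Set.mem_univ _

theorem cov_conv {c r ε p q : ℤ} {J : Set ℤ} (hε : Sg ε)
    (hJ : ∀ p q r, p ∈ J → q ∈ J → p ≤ r → r ≤ q → r ∈ J) (hp : p ∈ J) (hq : q ∈ J)
    (hn : Nr c r q) : Cov c r ε J p := by
  intro x h1 h2
  unfold Nr at hn
  rcases hε with rfl | rfl
  · exact hJ q p x hq hp (by omega) (by omega)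
  · exact hJ p q x hp hq (by omega) (by omega)

theorem Cov.inter {c r ε p : ℤ} {C J : Set ℤ} (h : Cov c r ε C p) (h' : Cov c r ε J p) :
    Cov c r ε (C ∩ J) p := fun x a b => ⟨h x a b, h' x a b⟩

theorem Cov.mono {c r ε p p' : ℤ} {C : Set ℤ} (h : Cov c r ε C p)
    (hp : ε * (p' - c) ≤ ε * (p - c)) : Cov c r ε C p' := fun x a b => h x a (b.trans hp)

/-- a turn at a point beyond the border starts and ends inside the border -/
theorem turn {c r ε u p v : ℤ} {C : Set ℤ} (hε : Sg ε) (h : ¬ Red u C p v) (hc : Cov c r ε C p)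
    (hu : ε * (u - c) < ε * (p - c)) (hv : ε * (v - c) < ε * (p - c)) :
    ε * (u - c) < r ∧ ε * (v - c) < r := by
  by_contra hn
  apply h
  rcases hε with rfl | rfl
  · exact Or.inl ⟨by omega, by omega, hc _ (by omega) (by omega)⟩
  · exact Or.inr ⟨by omega, by omega, hc _ (by omega) (by omega)⟩

theorem ra_of_agree {L L' : ℤ → B} {c r ε p V : ℤ} (hε : Sg ε) (hV : r + V ≤ ε * (p - c))
    (h : ∀ a b i, r ≤ ε * (a - c) → ε * (a - c) ≤ ε * (p - c) → r ≤ ε * (b - c) →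
      ε * (b - c) ≤ ε * (p - c) → a ≤ i → i < b → L i = L' i) : RA L p (-ε) L' p (-ε) V := by
  intro i a b
  rcases hε with rfl | rfl
  · exact h (c + r) p _ (by omega) (by omega) (by omega) (by omega) (by omega) (by omega)
  · exact h p (c - r) _ (by omega) (by omega) (by omega) (by omega) (by omega) (by omega)

/-- a normal path cannot run away from the large window -/
theorem oldRun {k : ℕ} {ρ ε : ℤ} (hε : Sg ε) {L : ℤ → B} {l : Bk B} {u p y : ℤ} {C : Set ℤ}
    {n : ℕ} (h : NP L l u C p y n) : ∀ ξ, Good k L l → Old ρ ξ l y → ρ ≤ ε * (u - ξ) →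
      ε * (u - ξ) < ε * (p - ξ) → Cov ξ ρ ε C p → False := by
  induction h with
  | nil L u C p n =>
    intro ξ _ ho h1 h2 _
    simp only [Old, Nr] at ho
    rcases hε with rfl | rfl <;> omega
  | step L l u C p v y n h1 h2 h3 _ ih =>
    intro ξ hg ho a1 a2 a3
    by_cases hv : ε * (v - ξ) < ε * (p - ξ)
    · have := turn hε h3 a3 a2 hv
      omega
    · exact ih ξ hg ho (by omega) (by rcases hε with rfl | rfl <;> omega) (cov_univ _ _ _ _)
  | pass L j l u C p y n h1 _ ih =>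
    intro ξ hg ho a1 a2 a3
    rcases ho with ⟨⟨q, b1, b2⟩, b3⟩ | ⟨ξ', b1, _⟩
    · exact ih ξ hg.2.2.2 b3 a1 a2 (a3.inter (cov_conv hε hg.2.1 h1 b1 b2))
    · have := (b1 p h1).1
      unfold Nr at this
      rcases hε with rfl | rfl <;> omega

/-- from a far point a normal path swings back to the large window -/
theorem oldLand {k : ℕ} {ρ V : ℤ} (hV : V ≤ ρ) (hρ : 0 ≤ ρ) {L : ℤ → B} {l : Bk B} {u p y : ℤ}
    {C : Set ℤ} {n : ℕ} (h : NP L l u C p y n) : ∀ ξ ε, Sg ε → Good k L l → Old ρ ξ l y →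
      2 * ρ < ε * (p - ξ) → ε * (u - ξ) < ε * (p - ξ) → Cov ξ ρ ε C p →
      ∃ r1 l2 z ε' m n2, l = r1 ++ l2 ∧ Sg ε' ∧ 1 ≤ m ∧ m + n2 ≤ n ∧ Path L r1 p z m ∧
        Path (lastL L r1) l2 z y n2 ∧ RA L p (-ε) (lastL L r1) z ε' V ∧ Nr ξ (2 * ρ) z ∧
        Old ρ ξ l2 y := by
  induction h with
  | nil L u C p n =>
    intro ξ ε hε _ ho h1 h2 _
    simp only [Old, Nr] at ho
    rcases hε with rfl | rfl <;> omega
  | step L l u C p v y n h1 h2 h3 h4 ih =>
    intro ξ ε hε hg ho a1 a2 a3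
    by_cases hv : ε * (v - ξ) < ε * (p - ξ)
    · have b1 := (turn hε h3 a3 a2 hv).2
      have b2 : RA L p (-ε) L v (- -ε) V :=
        RA.step hε.neg h1 (by rcases hε with rfl | rfl <;> omega)
      by_cases hn : Nr ξ (2 * ρ) v
      · exact ⟨[], l, v, - -ε, 1, n, rfl, hε.neg.neg, le_rfl, by omega, (Path.nil L v 0).step h1,
          h4.path, b2, hn, ho⟩
      · unfold Nr at hn
        obtain ⟨r1, l2, z, ε', m, n2, c1, c2, c3, c4, c5, c6, c7, c8, c9⟩ :=
          ih ξ (-ε) hε.neg hg ho (by rcases hε with rfl | rfl <;> omega)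
            (by rcases hε with rfl | rfl <;> omega) (cov_univ _ _ _ _)
        exact ⟨r1, l2, z, ε', m + 1, n2, c1, c2, by omega, by omega, c5.step h1, c6, b2.trans c7,
          c8, c9⟩
    · exact (oldRun hε h4 ξ hg ho (by omega) (by rcases hε with rfl | rfl <;> omega)
        (cov_univ _ _ _ _)).elim
  | pass L j l u C p y n h1 _ ih =>
    intro ξ ε hε hg ho a1 a2 a3
    rcases ho with ⟨⟨q, b1, b2⟩, b3⟩ | ⟨ξ', b1, _⟩
    · have b4 := cov_conv hε hg.2.1 h1 b1 b2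
      obtain ⟨r1, l2, z, ε', m, n2, c1, c2, c3, c4, c5, c6, c7, c8, c9⟩ :=
        ih ξ ε hε hg.2.2.2 b3 a1 a2 (a3.inter b4)
      refine ⟨j :: r1, l2, z, ε', m, n2, by rw [c1]; rfl, c2, c3, c4, c5.pass h1, c6,
        RA.trans ?_ c7, c8, c9⟩
      exact ra_of_agree (c := ξ) (r := ρ) hε (by omega) fun a b i d1 d2 d3 d4 d5 d6 =>
        hg.2.2.1 a b i (b4 a d1 d2) (b4 b d3 d4) d5 d6
    · have := (b1 p h1).1
      unfold Nr at this
      rcases hε with rfl | rfl <;> omega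

/-- the final run away from the small window -/
theorem run {k : ℕ} {c r ε : ℤ} (hε : Sg ε) {L : ℤ → B} {l : Bk B} {u p y : ℤ} {C : Set ℤ}
    {n : ℕ} (h : NP L l u C p y n) : ∀ g rest, l = g ++ rest → Good k L l →
      (∀ j ∈ g, ∃ q ∈ j.1, Nr c r q) → r ≤ ε * (u - c) → ε * (u - c) < ε * (p - c) →
      Cov c r ε C p → (∀ j ∈ g, Cov c r ε j.1 p) ∧ Path (lastL L g) rest p y n := by
  induction h with
  | nil L u C p n =>
    intro g rest e _ _ _ _ _
    obtain ⟨rfl, rfl⟩ := List.append_eq_nil_iff.1 e.symm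
    exact ⟨by simp, Path.nil _ _ _⟩
  | step L l u C p v y n h1 h2 h3 h4 ih =>
    intro g rest e hg hm a1 a2 a3
    have hv : ε * (p - c) < ε * (v - c) := by
      by_contra hv
      have := turn hε h3 a3 a2 (by rcases hε with rfl | rfl <;> omega)
      omega
    obtain ⟨b1, b2⟩ := ih g rest e hg hm (by omega) hv (cov_univ _ _ _ _)
    refine ⟨fun j hj => (b1 j hj).mono hv.le, b2.step (h1.congr fun i d1 d2 => ?_)⟩
    subst e
    have e1 : ∀ j ∈ g, p ∈ j.1 := fun j hj => b1 j hj p (by omega) hv.le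
    have e2 : ∀ j ∈ g, v ∈ j.1 := fun j hj => b1 j hj v (by omega) le_rfl
    rcases hε with rfl | rfl
    · exact (good_append.1 hg).1.agree e1 e2 (by omega) (by omega)
    · exact (good_append.1 hg).1.agree e2 e1 (by omega) (by omega)
  | pass L j l u C p y n h1 h2 ih =>
    intro g rest e hg hm a1 a2 a3
    cases g with
    | nil =>
      have e' : rest = j :: l := e.symm
      subst e'
      exact ⟨by simp, h2.path.pass h1⟩
    | cons j' g =>
      obtain ⟨rfl, e'⟩ := List.cons.inj e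
      obtain ⟨q, b1, b2⟩ := hm j (by simp)
      have b4 := cov_conv hε hg.2.1 h1 b1 b2
      obtain ⟨c1, c2⟩ := ih g rest e' hg.2.2.2 (fun j' hj => hm j' (by simp [hj])) a1 a2
        (a3.inter b4)
      refine ⟨fun j' hj => ?_, c2⟩
      rcases List.mem_cons.1 hj with rfl | hj
      · exact b4
      · exact c1 j' hj

theorem old_stay {ρ p y : ℤ} {g rest : Bk B} (hp : ∀ j ∈ g, p ∈ j.1) :
    ∀ ξ, Old ρ ξ (g ++ rest) y → Nr ξ (2 * ρ) p → ∃ ξ', Nr ξ' (2 * ρ) p ∧ Old ρ ξ' rest y := by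
  induction g with
  | nil => intro ξ h1 h2; exact ⟨ξ, h2, h1⟩
  | cons j g ih =>
    intro ξ h1 h2
    have hp' : ∀ j' ∈ g, p ∈ j'.1 := fun j' hj => hp j' (by simp [hj])
    rcases h1 with ⟨_, b3⟩ | ⟨ξ', b1, _, b3⟩
    · exact ih hp' ξ b3 h2
    · have := (b1 p (hp j (by simp))).2
      exact ih hp' ξ' b3 (by unfold Nr at *; omega)

end Pool.Agent.P.MP_daaf23_co
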