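import Mathlib

/-! Periods, palindromes and towers (nested progressions) of positions of a bi-infinite word. -/

namespace Pool.Agent.P.MP_daaf23_co.Tow

variable {α : Type*}

/-- The factor on positions `l ≤ i < r` has period `d`. -/
def Per (U : ℤ → α) (d l r : ℤ) : Prop := ∀ i, l ≤ i → i + d < r → U i = U (i + d)

/-- `d` is the least period of the factor on `[l, r)`. -/
def MinPer (U : ℤ → α) (d l r : ℤ) : Prop :=
  0 < d ∧ Per U d l r ∧ ∀ e, 0 < e → e < d → ¬ Per U e l r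

/-- The factor on `[x, y)` is a palindrome. -/
def Pal (U : ℤ → α) (x y : ℤ) : Prop := ∀ i, x ≤ i → i < y → U i = U (x + y - 1 - i)

/-- `d` is the least period of the whole word. -/
def GMin (V : ℤ → α) (d : ℤ) : Prop :=
  0 < d ∧ (∀ i, V i = V (i + d)) ∧ ∀ e, 0 < e → e < d → ¬ ∀ i, V i = V (i + e)

/-- The periodic extension of the factor on `[l, l + d)`. -/
def ext (U : ℤ → α) (d l : ℤ) : ℤ → α := fun i => U (l + (i - l) % d)

variable {U V : ℤ → α}

theorem Per.mono {d l r l' r' : ℤ} (h : Per U d l r) (hl : l ≤ l') (hr : r' ≤ r) :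
    Per U d l' r' := fun i h1 h2 => h i (by omega) (by omega)

theorem Per.nat {d l r : ℤ} (h : Per U d l r) (hd : 0 < d) (i : ℤ) (hi : l ≤ i) (n : ℕ) :
    i + n * d < r → U i = U (i + n * d) := by
  induction n with
  | zero => intro _; simp
  | succ n ih =>
    intro hn
    have e : i + ((n + 1 : ℕ) : ℤ) * d = i + n * d + d := by push_cast; ring
    have h0 : 0 ≤ (n : ℤ) * d := by positivity
    rw [e] at hn ⊢
    rw [ih (by omega)]
    exact h _ (by omega) hn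

theorem Per.int {d l r : ℤ} (h : Per U d l r) (hd : 0 < d) {i j : ℤ} (t : ℤ) (hj : j = i + t * d)
    (h1 : l ≤ i) (h2 : i < r) (h3 : l ≤ j) (h4 : j < r) : U i = U j := by
  rcases le_total 0 t with ht | ht
  · obtain ⟨n, rfl⟩ := Int.eq_ofNat_of_zero_le ht
    subst hj
    exact h.nat hd i h1 n h4
  · obtain ⟨n, hn⟩ := Int.eq_ofNat_of_zero_le (a := -t) (by omega)
    have e : i = j + n * d := by rw [← hn, hj]; ring
    rw [e] at h2 ⊢
    exact (h.nat hd j h3 n h2).symm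

theorem exists_shift {d : ℤ} (hd : 0 < d) (p i : ℤ) : ∃ t : ℤ, p ≤ i + t * d ∧ i + t * d < p + d := by
  refine ⟨-((i - p) / d), ?_, ?_⟩
  · have := Int.emod_add_ediv_mul (i - p) d
    have := Int.emod_nonneg (i - p) hd.ne'
    linarith
  · have := Int.emod_add_ediv_mul (i - p) d
    have := Int.emod_lt_of_pos (i - p) hd
    linarith

/-- A period of a long enough part of a periodic factor is a period of the factor. -/
theorem Per.spread {d e l r l' r' : ℤ} (h : Per U d l r) (hd : 0 < d) (he : 0 ≤ e)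
    (h' : Per U e l' r') (hl : l ≤ l') (hr : r' ≤ r) (hlen : d + e ≤ r' - l') : Per U e l r := by
  intro i h1 h2
  obtain ⟨t, t1, t2⟩ := exists_shift hd l' i
  rw [h.int hd t rfl h1 (by omega) (by omega) (by omega), h' _ t1 (by omega)]
  exact (h.int hd t (by ring) (by omega) h2 (by omega) (by omega)).symm

theorem MinPer.fw {d e l r l' r' : ℤ} (h : MinPer U d l r) (he : 0 < e)
    (h' : Per U e l' r') (hl : l ≤ l') (hr : r' ≤ r) (hlen : d + e ≤ r' - l') : d ≤ e := by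
  by_contra hc
  exact h.2.2 e he (by omega) (h.2.1.spread h.1 he.le h' hl hr hlen)

theorem MinPer.sub {d l r l' r' : ℤ} (h : MinPer U d l r) (hl : l ≤ l') (hr : r' ≤ r)
    (hlen : 2 * d ≤ r' - l') : MinPer U d l' r' :=
  ⟨h.1, h.2.1.mono hl hr, fun e he hed hp => by
    have := h.fw he hp hl hr (by omega); omega⟩

theorem MinPer.sup {d l r l' r' : ℤ} (h : MinPer U d l r) (hp : Per U d l' r') (hl : l' ≤ l)
    (hr : r ≤ r') : MinPer U d l' r' :=
  ⟨h.1, hp, fun e he hed hq => h.2.2 e he hed (hq.mono hl hr)⟩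

theorem exists_minPer {d l r : ℤ} (hd : 0 < d) (h : Per U d l r) :
    ∃ e, e ≤ d ∧ MinPer U e l r := by
  obtain ⟨e, ⟨he, hp⟩, hmin⟩ := Int.exists_least_of_bdd (P := fun e => 0 < e ∧ Per U e l r)
    ⟨0, fun z hz => hz.1.le⟩ ⟨d, hd, h⟩
  exact ⟨e, hmin d ⟨hd, h⟩, he, hp, fun f hf hfe hq => by have := hmin f ⟨hf, hq⟩; omega⟩

theorem Per.congr {d l r : ℤ} (h : Per U d l r) (hd : 0 ≤ d)
    (e : ∀ i, l ≤ i → i < r → V i = U i) : Per V d l r := fun i h1 h2 => by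
  rw [e i h1 (by omega), e (i + d) (by omega) h2]; exact h i h1 h2

theorem MinPer.congr {d l r : ℤ} (h : MinPer U d l r)
    (e : ∀ i, l ≤ i → i < r → V i = U i) : MinPer V d l r :=
  ⟨h.1, h.2.1.congr h.1.le e, fun f hf hfd hq =>
    h.2.2 f hf hfd (hq.congr hf.le fun i a b => (e i a b).symm)⟩

theorem ext_per {d l : ℤ} (i : ℤ) : ext U d l i = ext U d l (i + d) := by
  unfold ext
  have : i + d - l = i - l + d := by ring
  rw [this, Int.add_emod_right]

theorem ext_eq {d l r : ℤ} (h : Per U d l r) (hd : 0 < d) (i : ℤ) (h1 : l ≤ i) (h2 : i < r) :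
    ext U d l i = U i := by
  unfold ext
  have a := Int.emod_add_ediv_mul (i - l) d
  have b := Int.emod_nonneg (i - l) hd.ne'
  have c : 0 ≤ (i - l) / d := Int.ediv_nonneg (by omega) hd.le
  have c' : 0 ≤ (i - l) / d * d := by positivity
  exact h.int hd ((i - l) / d) (by linarith) (by omega) (by omega) h1 h2

theorem gper_int {d : ℤ} (h : ∀ i, V i = V (i + d)) (i t : ℤ) : V i = V (i + t * d) := by
  induction t using Int.induction_on with
  | zero => simp
  | succ n ih => rw [ih, h]; congr 1; ring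
  | pred n ih =>
    rw [ih, h (i + (-(n : ℤ) - 1) * d)]; congr 1; ring

theorem GMin.per {d : ℤ} (h : GMin V d) (l r : ℤ) : Per V d l r := fun i _ _ => h.2.1 i

theorem GMin.glob {d e l r : ℤ} (h : GMin V d) (he : 0 ≤ e) (hp : Per V e l r)
    (hlen : d + e ≤ r - l) (i : ℤ) : V i = V (i + e) :=
  (h.per (min l i) (max r (i + e + 1))).spread h.1 he hp (min_le_left _ _) (le_max_left _ _) hlen i
    (min_le_right _ _) (by omega)

theorem GMin.fw {d e l r : ℤ} (h : GMin V d) (he : 0 < e) (hp : Per V e l r)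
    (hlen : d + e ≤ r - l) : d ≤ e := by
  by_contra hc
  exact h.2.2 e he (by omega) (h.glob he.le hp hlen)

theorem GMin.minPer {d l r : ℤ} (h : GMin V d) (hlen : 2 * d ≤ r - l) : MinPer V d l r :=
  ⟨h.1, h.per l r, fun e he hed hp => by have := h.fw he hp (by omega); omega⟩

theorem MinPer.gmin {d l r : ℤ} (h : MinPer U d l r) : GMin (ext U d l) d :=
  ⟨h.1, fun i => ext_per i, fun e he hed hq => h.2.2 e he hed fun i h1 h2 => by
    rw [← ext_eq h.2.1 h.1 i h1 (by omega), ← ext_eq h.2.1 h.1 (i + e) (by omega) h2]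
    exact hq i⟩

theorem GMin.dvd {d e : ℤ} (h : GMin V d) (he : ∀ i, V i = V (i + e)) : ∃ t, e = t * d := by
  have a := Int.emod_add_ediv_mul e d
  have b := Int.emod_nonneg e h.1.ne'
  have c := Int.emod_lt_of_pos e h.1
  by_cases h0 : e % d = 0
  · exact ⟨e / d, by linarith⟩
  · exfalso
    refine h.2.2 (e % d) (by omega) c fun i => ?_
    rw [he i, gper_int h.2.1 (i + e % d) (e / d)]
    congr 1; linarith

theorem extR {d l r b : ℤ} (h : Per U d l r) (hb : r ≤ b) :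
    ∃ r', r ≤ r' ∧ r' ≤ b ∧ Per U d l r' ∧ (r' = b ∨ U (r' - d) ≠ U r') := by
  obtain ⟨r', ⟨h1, h2⟩, hmax⟩ := Int.exists_greatest_of_bdd (P := fun z => z ≤ b ∧ Per U d l z)
    ⟨b, fun z hz => hz.1⟩ ⟨r, hb, h⟩
  have h3 := hmax r ⟨hb, h⟩
  refine ⟨r', h3, h1, h2, ?_⟩
  by_contra hc
  push Not at hc
  have : r' + 1 ≤ r' := hmax (r' + 1) ⟨by omega, fun i a c => by
    by_cases e : i + d < r'
    · exact h2 i a e
    · have : i = r' - d := by omega
      subst this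
      rw [hc.2]; congr 1; ring⟩
  omega

theorem extL {d l r a : ℤ} (h : Per U d l r) (ha : a ≤ l) :
    ∃ l', l' ≤ l ∧ a ≤ l' ∧ Per U d l' r ∧ (l' = a ∨ U (l' - 1) ≠ U (l' - 1 + d)) := by
  obtain ⟨l', ⟨h1, h2⟩, hmin⟩ := Int.exists_least_of_bdd (P := fun z => a ≤ z ∧ Per U d z r)
    ⟨a, fun z hz => hz.1⟩ ⟨l, ha, h⟩
  have h3 := hmin l ⟨ha, h⟩
  refine ⟨l', h3, h1, h2, ?_⟩
  by_contra hc
  push Not at hc
  have : l' ≤ l' - 1 := hmin (l' - 1) ⟨by omega, fun i a c => by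
    by_cases e : l' ≤ i
    · exact h2 i e c
    · have : i = l' - 1 := by omega
      subst this
      exact hc.2⟩
  omega

theorem Pal.sub {x y x' y' : ℤ} (h : Pal U x y) (hx : x ≤ x') (hs : x' + y' = x + y) :
    Pal U x' y' := fun i a b => by
  rw [h i (by omega) (by omega), hs]

/-- Towers: a point, or the points deep inside a run that are congruent to points of a tower of
the run with smaller periods. -/
inductive Tw (U : ℤ → α) (κ : ℕ) : ℕ → Set ℤ → ℤ → ℤ → ℤ → Prop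
  | pt {m : ℕ} {S : Set ℤ} {D a b : ℤ} (z : ℤ) : a ≤ z → z ≤ b → (∀ x ∈ S, x = z) →
      Tw U κ m S D a b
  | lev {m : ℕ} {S S0 : Set ℤ} {D a b : ℤ} (d l r : ℤ) : Tw U κ m S0 d l r → MinPer U d l r →
      10 * d ≤ r - l → d < D → a ≤ l → r ≤ b →
      (∀ x ∈ S, l + κ * d ≤ x ∧ x + κ * d ≤ r ∧ ∃ t, x + t * d ∈ S0) → Tw U κ (m + 1) S D a b

variable {κ : ℕ}

theorem Tw.mono {m : ℕ} {S S' : Set ℤ} {D a b D' a' b' : ℤ} (h : Tw U κ m S D a b)
    (hS : S' ⊆ S) (hD : D ≤ D') (ha : a' ≤ a) (hb : b ≤ b') : Tw U κ m S' D' a' b' := by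
  cases h with
  | pt z h1 h2 h3 => exact .pt z (by omega) (by omega) fun x hx => h3 x (hS hx)
  | lev d l r h0 h1 h2 h3 h4 h5 h6 =>
    exact .lev d l r h0 h1 h2 (by omega) (by omega) (by omega) fun x hx => h6 x (hS hx)

theorem Tw.retop {m : ℕ} {S : Set ℤ} {D a b D' : ℤ} (h : Tw U κ m S D a b)
    (hD : b - a < 10 * D') : Tw U κ m S D' a b := by
  cases h with
  | pt z h1 h2 h3 => exact .pt z h1 h2 h3
  | lev d l r h0 h1 h2 h3 h4 h5 h6 => exact .lev d l r h0 h1 h2 (by omega) h4 h5 h6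

theorem Tw.succ {m : ℕ} {S : Set ℤ} {D a b : ℤ} (h : Tw U κ m S D a b) :
    Tw U κ (m + 1) S D a b := by
  induction h with
  | pt z h1 h2 h3 => exact .pt z h1 h2 h3
  | lev d l r _ h1 h2 h3 h4 h5 h6 ih => exact .lev d l r ih h1 h2 h3 h4 h5 h6

theorem Tw.le {m m' : ℕ} {S : Set ℤ} {D a b : ℤ} (h : Tw U κ m S D a b) (hm : m ≤ m') :
    Tw U κ m' S D a b := by
  induction hm with
  | refl => exact h
  | step _ ih => exact ih.succ

theorem Tw.margin {κ' m : ℕ} {S : Set ℤ} {D a b : ℤ} (h : Tw U κ m S D a b) (hk : κ' ≤ κ) :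
    Tw U κ' m S D a b := by
  induction h with
  | pt z h1 h2 h3 => exact .pt z h1 h2 h3
  | lev d l r _ h1 h2 h3 h4 h5 h6 ih =>
    refine .lev d l r ih h1 h2 h3 h4 h5 fun x hx => ?_
    obtain ⟨a1, a2, a3⟩ := h6 x hx
    have : (κ' : ℤ) * d ≤ κ * d := mul_le_mul_of_nonneg_right (by exact_mod_cast hk) h1.1.le
    exact ⟨by omega, by omega, a3⟩

theorem Tw.mem {m : ℕ} {S : Set ℤ} {D a b x : ℤ} (h : Tw U κ m S D a b) (hx : x ∈ S) :
    a ≤ x ∧ x ≤ b := by
  cases h with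
  | pt z h1 h2 h3 => rw [h3 x hx]; exact ⟨h1, h2⟩
  | lev d l r h0 h1 h2 h3 h4 h5 h6 =>
    obtain ⟨a1, a2, -⟩ := h6 x hx
    have : 0 ≤ (κ : ℤ) * d := mul_nonneg (by positivity) h1.1.le
    omega

theorem Per.shift {d l r s : ℤ} (h : Per U d l r) (hd : 0 ≤ d)
    (e : ∀ i, l ≤ i → i < r → V (i + s) = U i) : Per V d (l + s) (r + s) := fun i h1 h2 => by
  have a := e (i - s) (by omega) (by omega)
  have b := e (i - s + d) (by omega) (by omega)
  have c := h (i - s) (by omega) (by omega)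
  rw [show i - s + s = i by ring] at a
  rw [show i - s + d + s = i + d by ring] at b
  rw [a, b, c]

theorem MinPer.shift {d l r s : ℤ} (h : MinPer U d l r)
    (e : ∀ i, l ≤ i → i < r → V (i + s) = U i) : MinPer V d (l + s) (r + s) :=
  ⟨h.1, h.2.1.shift h.1.le e, fun f hf hfd hq => h.2.2 f hf hfd fun i a b => by
    rw [← e i a (by omega), ← e (i + f) (by omega) b, hq (i + s) (by omega) (by omega)]
    congr 1; ring⟩

theorem Per.refl {d l r c : ℤ} (h : Per U d l r) (hd : 0 ≤ d)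
    (e : ∀ i, l ≤ i → i < r → V (c - 1 - i) = U i) : Per V d (c - r) (c - l) := fun i h1 h2 => by
  have a := e (c - 1 - i) (by omega) (by omega)
  have b := e (c - 1 - i - d) (by omega) (by omega)
  have c' := h (c - 1 - i - d) (by omega) (by omega)
  rw [show c - 1 - (c - 1 - i) = i by ring] at a
  rw [show c - 1 - (c - 1 - i - d) = i + d by ring] at b
  rw [show c - 1 - i - d + d = c - 1 - i by ring] at c'
  rw [a, b, c']

theorem MinPer.refl {d l r c : ℤ} (h : MinPer U d l r)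
    (e : ∀ i, l ≤ i → i < r → V (c - 1 - i) = U i) : MinPer V d (c - r) (c - l) :=
  ⟨h.1, h.2.1.refl h.1.le e, fun f hf hfd hq => h.2.2 f hf hfd fun i a b => by
    rw [← e i a (by omega), ← e (i + f) (by omega) b, hq (c - 1 - (i + f)) (by omega) (by omega)]
    congr 1; ring⟩

theorem Tw.shift {m : ℕ} {S : Set ℤ} {D a b s : ℤ} (h : Tw U κ m S D a b)
    (e : ∀ i, a ≤ i → i < b → V (i + s) = U i) :
    Tw V κ m {y | y - s ∈ S} D (a + s) (b + s) := by
  induction h with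
  | pt z h1 h2 h3 =>
    exact .pt (z + s) (by omega) (by omega) fun x hx => by have := h3 _ hx; omega
  | lev d l r _ h1 h2 h3 h4 h5 h6 ih =>
    refine .lev d (l + s) (r + s) (ih fun i a b => e i (by omega) (by omega))
      (h1.shift fun i a b => e i (by omega) (by omega)) (by omega) h3 (by omega) (by omega)
      fun x hx => ?_
    obtain ⟨a1, a2, t, a3⟩ := h6 _ hx
    refine ⟨by omega, by omega, t, ?_⟩
    rw [Set.mem_ofPred_eq, show x + t * d - s = x - s + t * d by ring]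
    exact a3

theorem Tw.congr {m : ℕ} {S : Set ℤ} {D a b : ℤ} (h : Tw U κ m S D a b)
    (e : ∀ i, a ≤ i → i < b → V i = U i) : Tw V κ m S D a b := by
  simpa using h.shift (V := V) (s := 0) (by simpa using e)

theorem Tw.refl {m : ℕ} {S : Set ℤ} {D a b c : ℤ} (h : Tw U κ m S D a b)
    (e : ∀ i, a ≤ i → i < b → V (c - 1 - i) = U i) :
    Tw V κ m {y | c - y ∈ S} D (c - b) (c - a) := by
  induction h with
  | pt z h1 h2 h3 =>
    exact .pt (c - z) (by omega) (by omega) fun x hx => by have := h3 _ hx; omega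
  | lev d l r _ h1 h2 h3 h4 h5 h6 ih =>
    refine .lev d (c - r) (c - l) (ih fun i a b => e i (by omega) (by omega))
      (h1.refl fun i a b => e i (by omega) (by omega)) (by omega) h3 (by omega) (by omega)
      fun x hx => ?_
    obtain ⟨a1, a2, t, a3⟩ := h6 _ hx
    refine ⟨by omega, by omega, -t, ?_⟩
    rw [Set.mem_ofPred_eq, show c - (x + -t * d) = c - x + t * d by ring]
    exact a3

/-- A tower inside a run with smaller periods has a short support. -/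
theorem Tw.tight {m : ℕ} {S : Set ℤ} {d l r : ℤ} (h : Tw U κ m S d l r) (hp : MinPer U d l r)
    (hk : 1 ≤ κ) : ∃ l0 r0, l ≤ l0 ∧ r0 ≤ r ∧ r0 - l0 ≤ 2 * d ∧ Tw U κ m S d l0 r0 ∧
      ∀ x ∈ S, x ≤ l0 + d ∧ r0 - d ≤ x := by
  have hd := hp.1
  cases h with
  | pt z h1 h2 h3 =>
    exact ⟨z, z, h1, h2, by omega, .pt z le_rfl le_rfl h3, fun x hx => by
      have := h3 x hx; omega⟩
  | lev d0 l0 r0 h0 h1 h2 h3 h4 h5 h6 =>
    have hlen : r0 - l0 < d + d0 := by
      by_contra hc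
      have := hp.fw h1.1 h1.2.1 h4 h5 (by omega)
      omega
    refine ⟨l0, r0, h4, h5, by omega, .lev d0 l0 r0 h0 h1 h2 h3 le_rfl le_rfl h6, fun x hx => ?_⟩
    obtain ⟨a1, a2, -⟩ := h6 x hx
    have : 1 * d0 ≤ (κ : ℤ) * d0 := mul_le_mul_of_nonneg_right (by exact_mod_cast hk) h1.1.le
    omega

theorem Tw.trans_run {m : ℕ} {S : Set ℤ} {D d l r l0 r0 : ℤ} (h : Tw U κ m S D l0 r0)
    (hp : Per U d l r) (hd : 0 < d) (s : ℤ) (h1 : l ≤ l0) (h2 : r0 ≤ r) (h3 : l ≤ l0 + s * d)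
    (h4 : r0 + s * d ≤ r) : Tw U κ m {y | y - s * d ∈ S} D (l0 + s * d) (r0 + s * d) :=
  h.shift fun i a b => (hp.int hd s rfl (by omega) (by omega) (by omega) (by omega)).symm

/-- Two different points of a tower lie deep in one run. -/
theorem Tw.two {m : ℕ} {S : Set ℤ} {D a b x y : ℤ} (h : Tw U κ m S D a b) (hx : x ∈ S)
    (hy : y ∈ S) (hxy : x ≠ y) : ∃ d l r, MinPer U d l r ∧ a ≤ l ∧ r ≤ b ∧
      ∀ z ∈ S, l + κ * d ≤ z ∧ z + κ * d ≤ r := by
  cases h with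
  | pt z h1 h2 h3 => exact absurd ((h3 x hx).trans (h3 y hy).symm) hxy
  | lev d l r h0 h1 h2 h3 h4 h5 h6 =>
    exact ⟨d, l, r, h1, h4, h5, fun z hz => ⟨(h6 z hz).1, (h6 z hz).2.1⟩⟩

/-- Towers with any bound on the periods. -/
def TW (U : ℤ → α) (κ m : ℕ) (a b : ℤ) (S : Set ℤ) : Prop := ∃ D, Tw U κ m S D a b

theorem TW.mono {m : ℕ} {S : Set ℤ} {a b a' b' : ℤ} (h : TW U κ m a b S) (ha : a' ≤ a)
    (hb : b ≤ b') : TW U κ m a' b' S := by
  obtain ⟨D, h⟩ := h
  exact ⟨D, h.mono subset_rfl le_rfl ha hb⟩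

/-- `S` is covered by at most `n` sets of the family `T`. -/
def Cov (T : Set ℤ → Prop) (n : ℕ) (S : Set ℤ) : Prop :=
  ∃ L : List (Set ℤ), L.length ≤ n ∧ (∀ X ∈ L, T X) ∧ ∀ x ∈ S, ∃ X ∈ L, x ∈ X

variable {T T' : Set ℤ → Prop}

theorem Cov.mono {n n' : ℕ} {S S' : Set ℤ} (h : Cov T n S) (hT : ∀ X, T X → T' X) (hn : n ≤ n')
    (hS : S' ⊆ S) : Cov T' n' S' := by
  obtain ⟨L, h1, h2, h3⟩ := h
  exact ⟨L, h1.trans hn, fun X hX => hT X (h2 X hX), fun x hx => h3 x (hS hx)⟩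

theorem Cov.sub {n : ℕ} {S S' : Set ℤ} (h : Cov T n S) (hS : S' ⊆ S) : Cov T n S' :=
  h.mono (fun _ a => a) le_rfl hS

theorem Cov.single {S X : Set ℤ} (h : T X) (hS : S ⊆ X) : Cov T 1 S :=
  ⟨[X], by simp, by simpa using h, fun x hx => ⟨X, by simp, hS hx⟩⟩

theorem Cov.of_nonempty {n : ℕ} {S : Set ℤ} (h : ∀ x ∈ S, Cov T n S) : Cov T n S := by
  by_cases e : ∃ x, x ∈ S
  · obtain ⟨x, hx⟩ := e
    exact h x hx
  · exact ⟨[], by simp, by simp, fun x hx => absurd ⟨x, hx⟩ e⟩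

theorem Cov.union {n1 n2 : ℕ} {S S1 S2 : Set ℤ} (h1 : Cov T n1 S1) (h2 : Cov T n2 S2)
    (hS : ∀ x ∈ S, x ∈ S1 ∨ x ∈ S2) : Cov T (n1 + n2) S := by
  obtain ⟨L1, a1, a2, a3⟩ := h1
  obtain ⟨L2, b1, b2, b3⟩ := h2
  refine ⟨L1 ++ L2, by simp; omega, fun X hX => ?_, fun x hx => ?_⟩
  · rcases List.mem_append.1 hX with h | h
    exacts [a2 X h, b2 X h]
  · rcases hS x hx with h | h
    · obtain ⟨X, c1, c2⟩ := a3 x h
      exact ⟨X, List.mem_append_left _ c1, c2⟩
    · obtain ⟨X, c1, c2⟩ := b3 x h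
      exact ⟨X, List.mem_append_right _ c1, c2⟩

theorem Cov.list {ι : Type*} {k : ℕ} (L : List ι) (F : ι → Set ℤ) (h : ∀ i ∈ L, Cov T k (F i)) :
    Cov T (L.length * k) {y | ∃ i ∈ L, y ∈ F i} := by
  induction L with
  | nil => exact ⟨[], by simp, by simp, by simp⟩
  | cons a L ih =>
    have := (h a (by simp)).union (ih fun i hi => h i (by simp [hi]))
      (S := {y | ∃ i ∈ a :: L, y ∈ F i}) (fun x hx => by simpa using hx)
    exact this.mono (fun _ a => a) (by simp [Nat.succ_mul]; omega) subset_rfl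

theorem Cov.finset {ι : Type*} {k : ℕ} (s : Finset ι) (F : ι → Set ℤ)
    (h : ∀ i ∈ s, Cov T k (F i)) : Cov T (s.card * k) {y | ∃ i ∈ s, y ∈ F i} := by
  have := Cov.list s.toList F fun i hi => h i (by simpa using hi)
  simpa using this

theorem Cov.bind {n k : ℕ} {S : Set ℤ} (h : Cov T n S) (R : ℤ → ℤ → Prop)
    (hR : ∀ X, T X → Cov T' k {y | ∃ x ∈ X, R x y}) : Cov T' (n * k) {y | ∃ x ∈ S, R x y} := by
  obtain ⟨L, h1, h2, h3⟩ := h
  refine (Cov.list L (fun X => {y | ∃ x ∈ X, R x y}) fun X hX => hR X (h2 X hX)).mono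
    (fun _ a => a) (Nat.mul_le_mul_right _ h1) ?_
  rintro y ⟨x, hx, hy⟩
  obtain ⟨X, c1, c2⟩ := h3 x hx
  exact ⟨X, c1, x, c2, hy⟩

theorem Cov.map {n : ℕ} {S : Set ℤ} (h : Cov T n S) (f : ℤ → ℤ)
    (hf : ∀ X, T X → T' {y | f y ∈ X}) : Cov T' n {y | f y ∈ S} := by
  have := h.bind (T' := T') (k := 1) (fun x y => f y = x) fun X hX =>
    Cov.single (hf X hX) (by rintro y ⟨x, hx, rfl⟩; exact hx)
  exact this.mono (fun _ a => a) (by omega) fun y hy => ⟨f y, hy, rfl⟩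

end Pool.Agent.P.MP_daaf23_co.Tow
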