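import Pool.Agent.P.MP_daaf23_co.TwA

/-! Cutting, mirroring and translating towers. -/

namespace Pool.Agent.P.MP_daaf23_co.Tow

variable {α : Type*} {U V : ℤ → α} {κ : ℕ} {T : Set ℤ → Prop}

theorem kd_ge {d : ℤ} {j : ℕ} (hk : j ≤ κ) (hd : 0 < d) : (j : ℤ) * d ≤ κ * d :=
  mul_le_mul_of_nonneg_right (by exact_mod_cast hk) hd.le

theorem orbit_deep {m : ℕ} {S0 : Set ℤ} {d l r l0 r0 l' r' : ℤ} (hk : 5 ≤ κ)
    (hp : MinPer U d l r) (h0 : Tw U κ m S0 d l0 r0) (h1 : l ≤ l0) (h2 : r0 ≤ r)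
    (h3 : r0 - l0 ≤ 2 * d) (h4 : l ≤ l') (h5 : r' ≤ r) :
    Cov (TW U κ (m + 1) l' r') 1 {x | l' + κ * d ≤ x ∧ x + κ * d ≤ r' ∧ ∃ t, x + t * d ∈ S0} := by
  refine Cov.of_nonempty fun x hx => ?_
  obtain ⟨a1, a2, -⟩ := hx
  have hd := hp.1
  have hkd := kd_ge hk hd
  push_cast at hkd
  obtain ⟨s, s1, s2⟩ := exists_shift hd l' l0
  have h6 := (h0.trans_run hp.2.1 hd s h1 h2 (by omega) (by omega)).mono subset_rfl le_rfl s1
    (show r0 + s * d ≤ r' by omega)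
  refine Cov.single ⟨d + 1, .lev d l' r' h6 (hp.sub h4 h5 (by omega)) (by omega) (by omega)
    le_rfl le_rfl fun y hy => ?_⟩ subset_rfl
  obtain ⟨b1, b2, t, b3⟩ := hy
  refine ⟨b1, b2, t + s, ?_⟩
  rw [Set.mem_ofPred_eq, show y + (t + s) * d - s * d = y + t * d by ring]
  exact b3

theorem lt_of_mul {s t d : ℤ} (hd : 0 < d) (h : s * d < t * d) : s < t :=
  lt_of_mul_lt_mul_right h hd.le

theorem Tw.cutL (hk : 5 ≤ κ) (m : ℕ) : ∀ (S : Set ℤ) (D a b a' : ℤ), Tw U κ m S D a b →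
    Cov (TW U κ m a' b) ((κ + 2) * (m + 1)) {x | x ∈ S ∧ a' ≤ x} := by
  have hpt : ∀ (m : ℕ) (S : Set ℤ) (b a' z : ℤ), z ≤ b → (∀ x ∈ S, x = z) →
      Cov (TW U κ m a' b) ((κ + 2) * (m + 1)) {x | x ∈ S ∧ a' ≤ x} := by
    intro m S b a' z h2 h3
    refine Cov.of_nonempty fun x hx => ?_
    have hz := h3 x hx.1
    have ha := hx.2
    refine (Cov.single (X := S) ⟨0, .pt z (by omega) h2 h3⟩ fun y hy => hy.1).mono
      (fun _ a => a) ?_ subset_rfl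
    exact Nat.succ_le_of_lt (by positivity)
  induction m with
  | zero =>
    intro S D a b a' h
    cases h with
    | pt z h1 h2 h3 => exact hpt 0 S b a' z h2 h3
  | succ m ih =>
    intro S D a b a' h
    cases h with
    | pt z h1 h2 h3 => exact hpt _ S b a' z h2 h3
    | @lev _ _ S0 _ _ _ d l r h0 h1 h2 h3 h4 h5 h6 =>
      have hd := h1.1
      have hkd := kd_ge hk hd
      push_cast at hkd
      by_cases hl : a' ≤ l
      · refine (Cov.single (X := S) ⟨D, .lev d l r h0 h1 h2 h3 hl h5 h6⟩ fun y hy => hy.1).mono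
          (fun _ a => a) ?_ subset_rfl
        exact Nat.succ_le_of_lt (by positivity)
      obtain ⟨l0, r0, c1, c2, c3, c4, c5⟩ := h0.tight h1 (by omega)
      obtain ⟨s1, e1, e2⟩ := exists_shift hd (a' - d) l0
      have tr : ∀ s x, x ∈ S → x - s * d ∈ S0 →
          Tw U κ m {y | y - s * d ∈ S0} d (l0 + s * d) (r0 + s * d) ∧ r0 + s * d ≤ r := by
        intro s x hx hs
        obtain ⟨a1, a2, -⟩ := h6 x hx
        obtain ⟨a3, a4⟩ := c5 _ hs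
        exact ⟨c4.trans_run h1.2.1 hd s c1 c2 (by omega) (by omega), by omega⟩
      have A := (orbit_deep hk h1 c4 c1 c2 c3 (show l ≤ a' by omega) le_rfl).mono
        (T' := TW U κ (m + 1) a' b) (fun X hX => hX.mono le_rfl h5) le_rfl subset_rfl
      have B : Cov (TW U κ (m + 1) a' b) ((Finset.Icc (s1 + 1) (s1 + κ)).card * 1)
          {y | ∃ s ∈ Finset.Icc (s1 + 1) (s1 + κ), y ∈ {x | x ∈ S ∧ x - s * d ∈ S0}} := by
        refine Cov.finset _ _ fun s hs => Cov.of_nonempty fun x hx => ?_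
        obtain ⟨t1, t2⟩ := tr s x hx.1 hx.2
        have : (s1 + 1) * d ≤ s * d :=
          mul_le_mul_of_nonneg_right (Finset.mem_Icc.1 hs).1 hd.le
        exact Cov.single ⟨d, t1.succ.mono subset_rfl le_rfl (by linarith) (by omega)⟩
          fun y hy => hy.2
      have C : Cov (TW U κ (m + 1) a' b) ((κ + 2) * (m + 1))
          {x | x ∈ S ∧ x - s1 * d ∈ S0 ∧ a' ≤ x} := by
        refine Cov.of_nonempty fun x hx => ?_
        obtain ⟨t1, t2⟩ := tr s1 x hx.1 hx.2.1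
        refine (ih _ _ _ _ a' t1).mono (fun X hX => ?_) le_rfl fun y hy => ⟨hy.2.1, hy.2.2⟩
        obtain ⟨D', hX⟩ := hX
        exact ⟨D', hX.succ.mono subset_rfl le_rfl le_rfl (by omega)⟩
      have hc : (Finset.Icc (s1 + 1) (s1 + κ)).card = κ := by simp
      rw [hc] at B
      refine ((A.union B (S := _) fun x hx => hx).union C (S := {x | x ∈ S ∧ a' ≤ x})
        fun x hx => ?_).mono (fun _ a => a) (by nlinarith) subset_rfl
      obtain ⟨hxS, hxa⟩ := hx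
      obtain ⟨a1, a2, t, a3⟩ := h6 x hxS
      by_cases hdeep : a' + κ * d ≤ x
      · exact Or.inl (Or.inl ⟨hdeep, a2, t, a3⟩)
      have a4 : x - -t * d ∈ S0 := by rwa [show x - -t * d = x + t * d by ring]
      obtain ⟨a5, a6⟩ := c5 _ a3
      have a7 := (c4.mem a3).1
      have b1 : s1 - 1 < -t := lt_of_mul hd (by linarith)
      have b2 : -t < s1 + 1 + κ := lt_of_mul hd (by linarith)
      by_cases e : -t = s1
      · exact Or.inr ⟨hxS, e ▸ a4, hxa⟩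
      · exact Or.inl (Or.inr ⟨-t, Finset.mem_Icc.2 ⟨by omega, by omega⟩, hxS, a4⟩)

theorem TW.cutR (hk : 5 ≤ κ) {m : ℕ} {S : Set ℤ} {a b : ℤ} (h : TW U κ m a b S) (b' : ℤ) :
    Cov (TW U κ m a b') ((κ + 2) * (m + 1)) {x | x ∈ S ∧ x ≤ b'} := by
  obtain ⟨D, h⟩ := h
  have h1 := h.refl (V := fun i => U (0 - 1 - i)) (c := 0) fun i _ _ => by congr 1; ring
  have h2 := Tw.cutL hk m _ _ _ _ (0 - b') h1
  have h3 := h2.map (T' := TW U κ m a b') (fun y => 0 - y) fun X hX => by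
    obtain ⟨D', hX⟩ := hX
    have := hX.refl (V := U) (c := 0) fun i _ _ => rfl
    exact ⟨D', this.mono subset_rfl le_rfl (by omega) (by omega)⟩
  refine h3.sub fun x hx => ?_
  obtain ⟨a1, a2⟩ := hx
  refine ⟨?_, by show 0 - b' ≤ 0 - x; omega⟩
  show 0 - (0 - x) ∈ S
  rwa [show 0 - (0 - x) = x by ring]

theorem TW.cut (hk : 5 ≤ κ) {m Q : ℕ} (hQ : (κ + 2) * (m + 1) ≤ Q) {S : Set ℤ} {a b : ℤ}
    (h : TW U κ m a b S) (a' b' : ℤ) :
    Cov (TW U κ m a' b') (Q * Q) {x | x ∈ S ∧ a' ≤ x ∧ x ≤ b'} := by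
  obtain ⟨D, h⟩ := h
  have h1 := (Tw.cutL hk m _ _ _ _ a' h).bind (T' := TW U κ m a' b') (fun x y => x = y ∧ y ≤ b')
    fun X hX => (hX.cutR hk b').sub (by rintro y ⟨x, hx, rfl, hy⟩; exact ⟨hx, hy⟩)
  exact h1.mono (fun _ a => a) (Nat.mul_le_mul hQ hQ)
    fun x hx => ⟨x, ⟨hx.1, hx.2.1⟩, rfl, hx.2.2⟩

theorem TW.mirror (hk : 5 ≤ κ) {m Q : ℕ} (hQ : (κ + 2) * (m + 1) ≤ Q) {S : Set ℤ} {a b : ℤ}
    (h : TW U κ m a b S) (a0 b0 c : ℤ) :
    Cov (TW U κ m a0 b0) (Q * Q)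
      {y | ∃ x ∈ S, a0 ≤ x ∧ x ≤ y ∧ y ≤ b0 ∧ x + y = c ∧ Pal U x y} := by
  refine Cov.of_nonempty fun y1 hy1 => ?_
  obtain ⟨x1, -, p1, p2, p3, p4, p5⟩ := hy1
  obtain ⟨x0, ⟨q1, q2, q3⟩, hmin⟩ := Int.exists_least_of_bdd
    (P := fun z => a0 ≤ z ∧ c - z ≤ b0 ∧ Pal U z (c - z)) ⟨a0, fun z hz => hz.1⟩
    ⟨x1, p1, by omega, by rwa [show c - x1 = y1 by omega]⟩
  have h1 := (h.cut hk hQ x0 (c - x0)).map (T' := TW U κ m a0 b0) (fun y => c - y) fun X hX => by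
    obtain ⟨D', hX⟩ := hX
    have := hX.refl (V := U) (c := c) fun i a b => by
      rw [q3 i a b]; congr 1; ring
    exact ⟨D', this.mono subset_rfl le_rfl (by omega) (by omega)⟩
  refine h1.sub ?_
  rintro y ⟨x, r0, r1, r2, r3, r4, r5⟩
  have e : c - y = x := by omega
  have := hmin x ⟨r1, by omega, by rwa [show c - x = y by omega]⟩
  show c - y ∈ S ∧ x0 ≤ c - y ∧ c - y ≤ c - x0
  rw [e]
  exact ⟨r0, this, by omega⟩

theorem translates {d l0 r0 p q : ℤ} {n k : ℕ} {S0 : Set ℤ} (hd : 0 < d)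
    (hS : ∀ x ∈ S0, l0 ≤ x ∧ x ≤ r0) (hn : q - p + (r0 - l0) ≤ n * d)
    (h : ∀ s, Cov T k {x | p ≤ x ∧ x ≤ q ∧ x - s * d ∈ S0}) :
    Cov T ((n + 1) * k) {x | p ≤ x ∧ x ≤ q ∧ ∃ t, x + t * d ∈ S0} := by
  obtain ⟨s0, e1, e2⟩ := exists_shift hd (p - r0) 0
  have B := Cov.finset (Finset.Icc s0 (s0 + n)) _ fun s _ => h s
  have hc : (Finset.Icc s0 (s0 + n)).card = n + 1 := by
    simp only [Int.card_Icc]; omega
  rw [hc] at B
  refine B.sub ?_
  rintro x ⟨a1, a2, t, a3⟩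
  obtain ⟨a4, a5⟩ := hS _ a3
  have b1 : s0 - 1 < -t := lt_of_mul hd (by linarith)
  have b2 : -t < s0 + n + 1 := lt_of_mul hd (by linarith)
  refine ⟨-t, Finset.mem_Icc.2 ⟨by omega, by omega⟩, a1, a2, ?_⟩
  rwa [show x - -t * d = x + t * d by ring]

theorem orbit (hk : 5 ≤ κ) {m Q : ℕ} (hQ : (κ + 2) * (m + 1) ≤ Q) {δ l0 r0 : ℤ} {S1 : Set ℤ}
    (hV : GMin V δ) (h : Tw V κ m S1 δ l0 r0) (hlen : r0 - l0 ≤ 2 * δ) (a b : ℤ) :
    Cov (TW V κ (m + 1) a b) (1 + 2 * ((κ + 3) * (Q * Q)))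
      {x | a ≤ x ∧ x ≤ b ∧ ∃ t, x + t * δ ∈ S1} := by
  have hd := hV.1
  have A := orbit_deep (l := min a l0) (r := max (max b r0) (min a l0 + 2 * δ)) (l' := a) (r' := b)
    hk (hV.minPer (by omega)) h (by omega) (by omega) hlen (by omega) (by omega)
  have B : ∀ p, Cov (TW V κ (m + 1) a b) ((κ + 2 + 1) * (Q * Q))
      {x | max a p ≤ x ∧ x ≤ min b (p + κ * δ) ∧ ∃ t, x + t * δ ∈ S1} := by
    intro p
    refine translates hd (fun x hx => h.mem hx) ?_ fun s => ?_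
    · have := le_max_right a p
      have := min_le_right b (p + κ * δ)
      push_cast; linarith
    · have h1 := h.shift (V := V) (s := s * δ) fun i _ _ => (gper_int hV.2.1 i s).symm
      refine (TW.cut hk hQ ⟨δ, h1⟩ a b).mono (fun X hX => ?_) le_rfl fun x hx => ?_
      · obtain ⟨D', hX⟩ := hX
        exact ⟨D', hX.succ⟩
      · obtain ⟨a1, a2, a3⟩ := hx
        exact ⟨a3, by omega, by omega⟩
  refine ((A.union (B a) (S := _) fun x hx => hx).union (B (b - κ * δ)) fun x hx => ?_).mono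
    (fun _ a => a) (by nlinarith) subset_rfl
  obtain ⟨a1, a2, a3⟩ := hx
  by_cases e1 : a + κ * δ ≤ x
  · by_cases e2 : x + κ * δ ≤ b
    · exact Or.inl (Or.inl ⟨e1, e2, a3⟩)
    · exact Or.inr ⟨by omega, by omega, a3⟩
  · exact Or.inl (Or.inr ⟨by omega, by omega, a3⟩)

theorem reduce (hk : 1 ≤ κ) {m : ℕ} {δ D a b : ℤ} {X : Set ℤ} (hV : GMin V δ)
    (h : Tw V κ m X D a b) : ∃ S1 l0 r0, Tw V κ m S1 δ l0 r0 ∧ r0 - l0 ≤ 2 * δ ∧
      ∀ x ∈ X, ∃ t, x + t * δ ∈ S1 := by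
  have hδ := hV.1
  cases h with
  | pt z h1 h2 h3 =>
    exact ⟨X, z, z, .pt z le_rfl le_rfl h3, by omega, fun x hx => ⟨0, by simpa using hx⟩⟩
  | lev d l r h0 h1 h2 h3 h4 h5 h6 =>
    have hd := h1.1
    by_cases hl : d + δ ≤ r - l
    · have e1 := h1.fw hδ (hV.per l r) le_rfl le_rfl hl
      have e2 := hV.fw hd h1.2.1 (by omega)
      obtain rfl : d = δ := by omega
      obtain ⟨l0, r0, -, -, c3, c4, -⟩ := h0.tight h1 hk
      exact ⟨_, l0, r0, c4.succ, c3, fun x hx => (h6 x hx).2.2⟩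
    · exact ⟨X, l, r, .lev d l r h0 h1 h2 (by omega) le_rfl le_rfl h6, by omega,
        fun x hx => ⟨0, by simpa using hx⟩⟩

theorem sym_ext {δ l r x y : ℤ} (hp : Per U δ l r) (hd : 0 < δ) (h1 : l ≤ x) (h2 : y ≤ r)
    (h3 : x + δ ≤ y) (h : Pal U x y) (i : ℤ) : ext U δ l (x + y - 1 - i) = ext U δ l i := by
  obtain ⟨t, t1, t2⟩ := exists_shift hd x i
  rw [gper_int (fun i => ext_per i) i t, ext_eq hp hd _ (by omega) (show i + t * δ < r by omega),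
    h _ t1 (by omega), ← ext_eq hp hd _ (by omega) (show x + y - 1 - (i + t * δ) < r by omega),
    gper_int (fun i => ext_per i) (x + y - 1 - (i + t * δ)) t]
  congr 1; ring

theorem TW.inRun (hk : 5 ≤ κ) {m Q : ℕ} (hQ : (κ + 2) * (m + 1) ≤ Q) {S : Set ℤ} {a b δ l r : ℤ}
    (h : TW U κ m a b S) (hp : MinPer U δ l r) :
    Cov (TW U κ (m + 1) l r) (Q * Q * (1 + 2 * ((κ + 3) * (Q * Q))))
      {y | ∃ x ∈ S, l ≤ x ∧ y ≤ r ∧ x + δ ≤ y ∧ Pal U x y} := by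
  have hd := hp.1
  have hV := hp.gmin
  refine Cov.of_nonempty fun y1 hy1 => ?_
  obtain ⟨x1, -, p1, p2, p3, p4⟩ := hy1
  have hs := sym_ext hp.2.1 hd p1 p2 p3 p4
  have h1 := (h.cut hk hQ l r).bind (T' := TW U κ (m + 1) l r)
    (k := 1 + 2 * ((κ + 3) * (Q * Q)))
    (fun x y => l ≤ y ∧ y ≤ r ∧ ∃ t, y + t * δ = x1 + y1 - x) fun X hX => by
      obtain ⟨D', hX⟩ := hX
      have h2 := hX.refl (V := ext U δ l) (c := x1 + y1) fun i a b => by
        rw [hs, ext_eq hp.2.1 hd i a b]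
      obtain ⟨S1, l0, r0, c1, c2, c3⟩ := reduce (by omega) hV h2
      refine (orbit hk hQ hV c1 c2 l r).mono (fun Y hY => ?_) le_rfl ?_
      · obtain ⟨D'', hY⟩ := hY
        exact ⟨D'', hY.congr fun i a b => (ext_eq hp.2.1 hd i a b).symm⟩
      · rintro y ⟨x, hx, a1, a2, t, a3⟩
        obtain ⟨t', a4⟩ := c3 (x1 + y1 - x) (by
          show x1 + y1 - (x1 + y1 - x) ∈ X
          rwa [show x1 + y1 - (x1 + y1 - x) = x by ring])
        refine ⟨a1, a2, t + t', ?_⟩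
        rwa [show y + (t + t') * δ = x1 + y1 - x + t' * δ by rw [← a3]; ring]
  refine h1.sub ?_
  rintro y ⟨x, q0, q1, q2, q3, q4⟩
  have hs' := sym_ext hp.2.1 hd q1 q2 q3 q4
  obtain ⟨t, ht⟩ := hV.dvd (e := x1 + y1 - (x + y)) fun i => by
    rw [← hs' i, ← hs (x + y - 1 - i)]; congr 1; ring
  exact ⟨x, ⟨q0, q1, by omega⟩, by omega, q2, t, by omega⟩

theorem exceptional {δ l r a0 b0 x y x' y' : ℤ} (hd : 0 < δ) (hp : Per U δ l r)
    (hl : l = a0 ∨ U (l - 1) ≠ U (l - 1 + δ)) (hr : r = b0 ∨ U (r - δ) ≠ U r)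
    (h : Pal U x y) (h1 : a0 ≤ x) (h2 : y ≤ b0) (h3 : x ≤ x') (h4 : x' + y' = x + y)
    (h5 : l ≤ x') (h6 : y' ≤ r) (h7 : x' + δ ≤ y') : (l ≤ x ∧ y ≤ r) ∨ x + y = l + r := by
  have A : x < l → l + r ≤ x + y := by
    intro hx
    by_contra hc
    rcases hl with e | e
    · omega
    apply e
    rw [h (l - 1) (by omega) (by omega), h (l - 1 + δ) (by omega) (by omega),
      hp (x + y - 1 - (l - 1 + δ)) (by omega) (by omega)]
    congr 1; ring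
  have B : r < y → x + y ≤ l + r := by
    intro hy
    by_contra hc
    rcases hr with e | e
    · omega
    apply e
    rw [h r (by omega) (by omega), h (r - δ) (by omega) (by omega),
      hp (x + y - 1 - r) (by omega) (by omega)]
    congr 1; ring
  omega

end Pool.Agent.P.MP_daaf23_co.Tow
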