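import Pool.Agent.P.MP_daaf23_co.TwB

/-! Nested runs double the number of positions that are not centres of powers. -/

namespace Pool.Agent.P.MP_daaf23_co.Tow

open Classical

variable {α : Type*} {U V : ℤ → α} {κ k : ℕ}

/-- `x` is the centre of a `2k`-th power with period below `D`. -/
def Deep (V : ℤ → α) (k : ℕ) (D x : ℤ) : Prop :=
  ∃ d, 0 < d ∧ d < D ∧ Per V d (x - k * d) (x + k * d)

/-- The number of positions of `[q, q + n)` that are not deep. -/
noncomputable def cnt (V : ℤ → α) (k : ℕ) (D q n : ℤ) : ℕ :=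
  ((Finset.Ico q (q + n)).filter fun x => ¬ Deep V k D x).card

theorem Deep.shift {δ D x : ℤ} (h : ∀ i, V i = V (i + δ)) (t : ℤ) (hx : Deep V k D x) :
    Deep V k D (x + t * δ) := by
  obtain ⟨d, h1, h2, h3⟩ := hx
  refine ⟨d, h1, h2, ?_⟩
  have := h3.shift (V := V) (s := t * δ) h1.le fun i _ _ => (gper_int h i t).symm
  exact this.mono (by omega) (by omega)

theorem cnt_le {δ D p q n : ℤ} (hδ : 0 < δ) (h : ∀ i, V i = V (i + δ)) (hn : n ≤ δ) :
    cnt V k D p n ≤ cnt V k D q δ := by
  unfold cnt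
  refine Finset.card_le_card_of_injOn (fun x => q + (x - q) % δ) ?_ ?_
  · intro x hx
    simp only [Finset.coe_filter, Finset.mem_Ico, Set.mem_ofPred_eq] at hx ⊢
    have a := Int.emod_add_ediv_mul (x - q) δ
    have b := Int.emod_nonneg (x - q) hδ.ne'
    have c := Int.emod_lt_of_pos (x - q) hδ
    refine ⟨⟨by omega, by omega⟩, fun hd => hx.2 ?_⟩
    have := hd.shift h ((x - q) / δ)
    rwa [show q + (x - q) % δ + (x - q) / δ * δ = x by linarith] at this
  · intro x hx y hy hxy
    simp only [Finset.coe_filter, Finset.mem_Ico, Set.mem_ofPred_eq] at hx hy hxy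
    have a := Int.emod_add_ediv_mul (x - q) δ
    have b := Int.emod_add_ediv_mul (y - q) δ
    have c : x - y = ((x - q) / δ - (y - q) / δ) * δ := by linarith
    have d1 : ((x - q) / δ - (y - q) / δ) < 1 := lt_of_mul hδ (by linarith)
    have d2 : -1 < ((x - q) / δ - (y - q) / δ) := lt_of_mul hδ (by linarith)
    have d3 : ((x - q) / δ - (y - q) / δ) = 0 := by omega
    rw [d3] at c
    omega

theorem cnt_add {D p n : ℤ} (hn : 0 ≤ n) :
    cnt V k D p (2 * n) = cnt V k D p n + cnt V k D (p + n) n := by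
  unfold cnt
  rw [← Finset.card_union_of_disjoint
    (Finset.disjoint_filter_filter (Finset.Ico_disjoint_Ico_consecutive _ _ _)),
    ← Finset.filter_union, Finset.Ico_union_Ico_eq_Ico (by omega) (by omega)]
  congr 3; ring

theorem ext_left {d l l' r : ℤ} (h : Per U d l' r) (hd : 0 < d) (h1 : l' ≤ l) (h2 : l + d ≤ r) :
    ext U d l' = ext U d l := by
  funext i
  obtain ⟨t, t1, t2⟩ := exists_shift hd l i
  rw [gper_int (fun i => ext_per i) i t, gper_int (V := ext U d l) (fun i => ext_per i) i t,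
    ext_eq h hd _ (by omega) (by omega), ext_eq (h.mono h1 le_rfl) hd _ t1 (by omega)]

theorem ext_congr {d l : ℤ} (hd : 0 < d) (e : ∀ i, l ≤ i → i < l + d → V i = U i) :
    ext V d l = ext U d l := by
  funext i
  have b := Int.emod_nonneg (i - l) hd.ne'
  have c := Int.emod_lt_of_pos (i - l) hd
  exact e _ (by omega) (by omega)

theorem Deep.min {D x : ℤ} (hk : 1 ≤ k) (h : Deep V k D x) :
    ∃ d, d < D ∧ MinPer V d (x - k * d) (x + k * d) := by
  obtain ⟨d, h1, h2, h3⟩ := h
  obtain ⟨e, h4, h5⟩ := exists_minPer h1 h3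
  have a : (k : ℤ) * e ≤ k * d := mul_le_mul_of_nonneg_left h4 (by positivity)
  have b := kd_ge hk h5.1
  push_cast at b
  exact ⟨e, by omega, h5.sub (by omega) (by omega) (by omega)⟩

theorem double (hk : 5 ≤ k) (n : ℕ) : ∀ (V : ℤ → α) (δ δ' l r : ℤ), δ - δ' ≤ n → GMin V δ →
    MinPer V δ' l r → 10 * δ' ≤ r - l → δ' < δ →
    2 * cnt (ext V δ' l) k δ' 0 δ' ≤ cnt V k δ 0 δ := by
  induction n with
  | zero => intro V δ δ' l r h1 _ _ _ h5; omega
  | succ n ih =>
    intro V δ δ' l r hn hV hp hlen hlt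
    have hδ := hV.1
    have hδ' := hp.1
    obtain ⟨l', c1, c2, c3, c4⟩ := extL (a := l - 2 * δ) hp.2.1 (by omega)
    have hshort : r - l' < δ + δ' := by
      by_contra hc
      have := hV.fw hδ' c3 (by omega)
      omega
    have c5 : V (l' - 1) ≠ V (l' - 1 + δ') := by
      rcases c4 with e | e
      · omega
      · exact e
    have hp' := hp.sup c3 c1 le_rfl
    rw [← ext_left c3 hδ' c1 (by omega)]
    by_cases hex : ∃ x, l' + δ' ≤ x ∧ x < l' + δ' + 2 * δ' ∧ ¬ Deep (ext V δ' l') k δ' x ∧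
        Deep V k δ x
    · obtain ⟨x, x1, x2, x3, x4⟩ := hex
      obtain ⟨d, d1, d2⟩ := x4.min (by omega)
      have hd := d2.1
      have hkd := kd_ge hk hd
      push_cast at hkd
      rcases lt_trichotomy d δ' with e | e | e
      · exfalso
        by_cases hin : l' ≤ x - k * d ∧ x + k * d ≤ r
        · exact x3 ⟨d, hd, e, d2.2.1.congr hd.le fun i a b =>
            ext_eq c3 hδ' i (by omega) (by omega)⟩
        · have := hp'.fw hd (l' := max l' (x - k * d)) (r' := min r (x + k * d))
            (d2.2.1.mono (by omega) (by omega)) (by omega) (by omega) (by omega)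
          omega
      · exfalso
        subst e
        exact c5 (d2.2.1 _ (by omega) (by omega))
      · have i1 : x - k * d ≤ l' := by
          by_contra hc
          have := d2.fw hδ' (c3.mono (l' := x - k * d) (r' := x) (by omega) (by omega)) le_rfl
            (by omega) (by omega)
          omega
        have i2 : r ≤ x + k * d := by
          by_contra hc
          have := d2.fw hδ' (c3.mono (l' := x) (r' := x + k * d) (by omega) (by omega)) (by omega)
            le_rfl (by omega)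
          omega
        have ag : ∀ i, l' ≤ i → i < r → ext V d (x - k * d) i = V i := fun i a b =>
          ext_eq d2.2.1 hd i (by omega) (by omega)
        have j1 := ih _ d δ' l' r (by push_cast at hn; omega) d2.gmin (hp'.congr ag) (by omega) e
        have j2 := ih V δ d _ _ (by push_cast at hn; omega) hV d2 (by omega) d1
        rw [ext_congr hδ' fun i a b => ag i a (by omega)] at j1
        omega
    · have k1 : cnt (ext V δ' l') k δ' (l' + δ') (2 * δ') ≤ cnt V k δ (l' + δ') (2 * δ') := by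
        unfold cnt
        refine Finset.card_le_card fun x hx => ?_
        simp only [Finset.mem_filter, Finset.mem_Ico] at hx ⊢
        exact ⟨hx.1, fun hd => hex ⟨x, hx.1.1, hx.1.2, hx.2, hd⟩⟩
      have k2 : cnt V k δ (l' + δ') (2 * δ') ≤ cnt V k δ 0 δ := cnt_le hδ hV.2.1 (by omega)
      rw [cnt_add hδ'.le] at k1
      have k3 := cnt_le (V := ext V δ' l') (k := k) (D := δ') (p := 0) (q := l' + δ') hδ'
        (fun i => ext_per i) le_rfl
      have k4 := cnt_le (V := ext V δ' l') (k := k) (D := δ') (p := 0) (q := l' + δ' + δ') hδ'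
        (fun i => ext_per i) le_rfl
      omega

theorem double' (hk : 5 ≤ k) {δ δ' l r : ℤ} (hV : GMin V δ) (hp : MinPer V δ' l r)
    (hlen : 10 * δ' ≤ r - l) (hlt : δ' < δ) :
    2 * cnt (ext V δ' l) k δ' 0 δ' ≤ cnt V k δ 0 δ :=
  double hk (δ - δ').toNat V δ δ' l r (by omega) hV hp hlen hlt

theorem cnt_pos (hk : 5 ≤ k) (n : ℕ) : ∀ (V : ℤ → α) (δ : ℤ), δ ≤ n → GMin V δ →
    1 ≤ cnt V k δ 0 δ := by
  induction n with
  | zero => intro V δ h1 hV; have := hV.1; omega
  | succ n ih =>
    intro V δ hn hV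
    by_cases h0 : Deep V k δ 0
    · obtain ⟨d, d1, d2⟩ := h0.min (by omega)
      have hkd := kd_ge hk d2.1
      push_cast at hkd
      have j1 := double' hk hV d2 (by omega) d1
      have j2 := ih _ d (by push_cast at hn; omega) d2.gmin
      omega
    · refine Finset.card_pos.2 ⟨0, ?_⟩
      have := hV.1
      simp only [Finset.mem_filter, Finset.mem_Ico]
      exact ⟨⟨le_rfl, by omega⟩, h0⟩

theorem cnt_pos' (hk : 5 ≤ k) {δ : ℤ} (hV : GMin V δ) : 1 ≤ cnt V k δ 0 δ :=
  cnt_pos hk δ.toNat V δ (by omega) hV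

theorem depth (hk : 5 ≤ k) (m : ℕ) : ∀ (V : ℤ → α) (δ a b : ℤ) (S : Set ℤ), GMin V δ →
    Tw V κ m S δ a b → ∃ m', Tw V κ m' S δ a b ∧ 2 ^ m' ≤ cnt V k δ 0 δ := by
  induction m with
  | zero => intro V δ a b S hV h; exact ⟨0, h, cnt_pos' hk hV⟩
  | succ m ih =>
    intro V δ a b S hV h
    cases h with
    | pt z h1 h2 h3 => exact ⟨0, .pt z h1 h2 h3, cnt_pos' hk hV⟩
    | lev d l r h0 h1 h2 h3 h4 h5 h6 =>
      have ag := ext_eq h1.2.1 h1.1
      obtain ⟨m', j1, j2⟩ := ih _ d l r _ h1.gmin (h0.congr ag)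
      have j3 := double' hk hV h1 h2 h3
      refine ⟨m' + 1, .lev d l r (j1.congr fun i a b => (ag i a b).symm) h1 h2 h3 h4 h5 h6, ?_⟩
      rw [pow_succ]; omega

theorem periods (hk : 5 ≤ k) (β : ℤ) (n : ℕ) : ∀ (V : ℤ → α) (δ : ℤ) (Δ : Finset ℤ), Δ.card = n →
    GMin V δ → (∀ d ∈ Δ, d < δ ∧ MinPer V d β (β + 10 * d)) → 2 ^ n ≤ cnt V k δ 0 δ := by
  induction n with
  | zero => intro V δ Δ _ hV _; exact cnt_pos' hk hV
  | succ n ih =>
    intro V δ Δ hc hV h
    have hne : Δ.Nonempty := Finset.card_pos.1 (by omega)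
    have hm := Δ.max'_mem hne
    obtain ⟨h1, h2⟩ := h _ hm
    have j1 := ih _ _ (Δ.erase (Δ.max' hne)) (by rw [Finset.card_erase_of_mem hm]; omega) h2.gmin
      fun d hd => by
        obtain ⟨a1, a2⟩ := Finset.mem_erase.1 hd
        have a3 := Δ.le_max' d a2
        exact ⟨by omega, (h d a2).2.congr fun i a b => ext_eq h2.2.1 h2.1 i a (by omega)⟩
    have j2 := double' hk hV h2 (by omega) h1
    rw [pow_succ]; omega

end Pool.Agent.P.MP_daaf23_co.Tow
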