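import Pool.Agent.P.MP_daaf23_co.TwC

/-! Palindromes that start at a fixed position: few of them have no short period. -/

namespace Pool.Agent.P.MP_daaf23_co.Tow

open Classical

variable {α : Type*} {U V : ℤ → α} {κ k M Q : ℕ} {T : Set ℤ → Prop}

/-- The factor of length `L` at `β` has no period of at most a tenth of its length. -/
def NP (U : ℤ → α) (β L : ℤ) : Prop := ∀ δ, 0 < δ → 10 * δ ≤ L → ¬ Per U δ β (β + L)

theorem Per.glue {d l r l' r' : ℤ} (h : Per U d l r) (h' : Per U d l' r') (hl : l' + d ≤ r) :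
    Per U d l r' := fun i a b => by
  by_cases e : i + d < r
  · exact h i a e
  · exact h' i (by omega) b

theorem np_contra {β L d l : ℤ} (hP : Pal U β (β + L)) (hd : 0 < d) (h : Per U d l (β + L))
    (hl : β ≤ l) (hlen : 2 * (l - β) + d ≤ L) : Per U d β (β + L) := by
  have h1 := h.refl (V := U) (c := β + (β + L)) hd.le fun i a b => (hP i (by omega) b).symm
  exact (h1.mono (l' := β) (by omega) le_rfl).glue h (by omega)

theorem Cov.pos {n : ℕ} {S : Set ℤ} {x : ℤ} (h : Cov T n S) (hx : x ∈ S) : 1 ≤ n := by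
  obtain ⟨L, h1, -, h3⟩ := h
  obtain ⟨X, a, -⟩ := h3 x hx
  have := List.length_pos_of_mem a
  omega

theorem growth (hk : 5 ≤ k) (hQ : (k + 2) * (M + 1) ≤ Q) {β b0 L L' : ℤ} {n : ℕ}
    (hM : ∀ X a b, β ≤ a → b ≤ b0 → TW U k (M + 1) a b X → TW U k M a b X)
    (hL : 0 ≤ L) (h4 : 4 * L ≤ L') (hL' : 0 < L') (hb : β + L' ≤ b0) (hP : Pal U β (β + L'))
    (hN : NP U β L') (h : Cov (TW U k M β b0) n {x | β ≤ x ∧ x ≤ β + L'}) :
    ∃ n', Cov (TW U k M β b0) n' {x | β ≤ x ∧ x ≤ β + L} ∧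
      (2 * (Q * Q) + 1) * n' ≤ 2 * (Q * Q) * n := by
  obtain ⟨Ls, h1, h2, h3⟩ := h
  let p : Set ℤ → Bool := fun X => decide (∃ x ∈ X, x ≤ β + L)
  have hlen : (Ls.filter p).length + (Ls.filter fun X => !p X).length = Ls.length := by
    rw [← List.length_append, List.Perm.length_eq (List.filter_append_perm p Ls)]
  have m1 : ∀ X, X ∈ Ls.filter p ↔ X ∈ Ls ∧ ∃ x ∈ X, x ≤ β + L := by
    intro X; simp [p]
  have m2 : ∀ X, X ∈ Ls.filter (fun X => !p X) ↔ X ∈ Ls ∧ ¬ ∃ x ∈ X, x ≤ β + L := by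
    intro X; simp only [p, List.mem_filter, Bool.not_eq_true', decide_eq_false_iff_not]
  generalize Ls.filter p = L1 at *
  generalize Ls.filter (fun X => !p X) = L2 at *
  have A : Cov (TW U k M β b0) L1.length {x | β ≤ x ∧ x ≤ β + L} := by
    refine ⟨L1, le_rfl, fun X hX => h2 X ((m1 X).1 hX).1, fun x hx => ?_⟩
    obtain ⟨X, a1, a2⟩ := h3 x ⟨hx.1, by have := hx.2; omega⟩
    exact ⟨X, (m1 X).2 ⟨a1, x, a2, hx.2⟩, a2⟩
  have S2 : Cov (TW U k M β b0) L2.length {x | ∃ X ∈ L2, x ∈ X} :=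
    ⟨L2, le_rfl, fun X hX => h2 X ((m2 X).1 hX).1, fun x hx => hx⟩
  have in2 : ∀ x, β ≤ x → x ≤ β + L' → (∀ X ∈ L1, x ∉ X) → ∃ X ∈ L2, x ∈ X := by
    intro x a b c
    obtain ⟨X, a1, a2⟩ := h3 x ⟨a, b⟩
    exact ⟨X, (m2 X).2 ⟨a1, fun e => c X ((m1 X).2 ⟨a1, e⟩) a2⟩, a2⟩
  have B : Cov (TW U k M β (β + L')) (L2.length * (2 * (Q * Q)))
      {y | β + L' - L ≤ y ∧ y ≤ β + L'} := by
    by_cases hex : ∃ X ∈ L1, ∃ x ∈ X, β + L' - L ≤ x
    swap
    · refine (S2.bind (T' := TW U k M β (β + L')) (k := Q * Q)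
        (fun x y => x = y ∧ β ≤ y ∧ y ≤ β + L') fun X hX => (hX.cut hk hQ β (β + L')).sub ?_).mono
        (fun _ a => a) (Nat.mul_le_mul_left _ (by omega)) ?_
      · rintro y ⟨x, a, rfl, b⟩
        exact ⟨a, b⟩
      · rintro y ⟨a, b⟩
        exact ⟨y, in2 y (by omega) b fun X hX hy => hex ⟨X, hX, y, hy, a⟩, rfl, by omega, b⟩
    have run : ∀ X ∈ L1, ∀ x ∈ X, β + L' - L ≤ x → ∃ d l r, MinPer U d l r ∧ β ≤ l ∧
        l + k * d ≤ β + L ∧ x + k * d ≤ r := by
      intro X hX x hx hx'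
      obtain ⟨a1, x1, a2, a3⟩ := (m1 X).1 hX
      obtain ⟨D, a4⟩ := h2 X a1
      obtain ⟨d, l, r, c1, c2, -, c4⟩ := a4.two a2 hx (by omega)
      exact ⟨d, l, r, c1, c2, by have := (c4 x1 a2).1; omega, (c4 x hx).2⟩
    obtain ⟨X1, hX1, x2, hx2, hx2'⟩ := hex
    obtain ⟨d, l, r, c1, c2, c3, c4⟩ := run X1 hX1 x2 hx2 hx2'
    have hd := c1.1
    have hkd := kd_ge hk hd
    push_cast at hkd
    have nr : ¬ Per U d l (β + L') := fun e =>
      hN d hd (by omega) (np_contra hP hd e c2 (by omega))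
    have hr : r ≤ β + L' := by
      by_contra hc
      exact nr (c1.2.1.mono le_rfl (by omega))
    obtain ⟨r1, e1, e2, e3, e4⟩ := extR c1.2.1 hr
    have e5 : U (r1 - d) ≠ U r1 := by
      rcases e4 with e | e
      · exact absurd (e ▸ e3) nr
      · exact e
    have c1' := c1.sup e3 le_rfl e1
    have bd : ∀ X ∈ L1, ∀ x ∈ X, β + L' - L ≤ x → x + k * d ≤ r1 := by
      intro X hX x hx hx'
      obtain ⟨d', l', r', f1, f2, f3, f4⟩ := run X hX x hx hx'
      have hd' := f1.1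
      have hkd' := kd_ge hk hd'
      push_cast at hkd'
      have g1 := c1.fw hd' (f1.2.1.mono (l' := β + L) (r' := β + L' - L) (by omega) (by omega))
        (by omega) (by omega) (by omega)
      have g2 := f1.fw hd (c1.2.1.mono (l' := β + L) (r' := β + L' - L) (by omega) (by omega))
        (by omega) (by omega) (by omega)
      obtain rfl : d' = d := by omega
      by_contra hc
      apply e5
      rw [f1.2.1 (r1 - d') (by omega) (by omega)]; congr 1; ring
    refine (S2.bind (T' := TW U k M β (β + L')) (k := 2 * (Q * Q))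
      (fun x y => (x = y ∧ β ≤ y ∧ y ≤ β + L') ∨ (r1 - 3 * d ≤ x ∧ x ≤ r1 - 2 * d ∧
        l + k * d ≤ y ∧ y + k * d ≤ r1 ∧ ∃ t, y + t * d = x)) fun X hX => ?_).sub ?_
    · have i1 := hX.cut hk hQ β (β + L')
      have i2 := (hX.cut hk hQ (r1 - 3 * d) (r1 - 2 * d)).bind (T' := TW U k M β (β + L')) (k := 1)
        (fun x y => l + k * d ≤ y ∧ y + k * d ≤ r1 ∧ ∃ t, y + t * d = x) fun Y hY => by
          obtain ⟨D, hY⟩ := hY
          refine (orbit_deep hk c1' (hY.retop (D' := d) (by omega)) (by omega) (by omega)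
            (by omega) le_rfl le_rfl).mono (fun Z hZ => ?_) le_rfl ?_
          · exact (hM Z l r1 c2 (by omega) hZ).mono c2 e2
          · rintro y ⟨x, a1, a2, a3, t, a4⟩
            exact ⟨a2, a3, t, a4 ▸ a1⟩
      refine (i1.union i2 ?_).mono (fun _ a => a) (by omega) subset_rfl
      rintro y ⟨x, a1, ⟨rfl, a2⟩ | ⟨a2, a3, a4⟩⟩
      · exact Or.inl ⟨a1, a2⟩
      · exact Or.inr ⟨x, ⟨a1, a2, a3⟩, a4⟩
    · rintro y ⟨a, b⟩
      by_cases hy : y + k * d ≤ r1
      · obtain ⟨t, t1, t2⟩ := exists_shift hd (r1 - 3 * d) y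
        refine ⟨y + t * d, in2 _ (by omega) (by omega) fun X hX hx => ?_,
          Or.inr ⟨t1, by omega, by omega, hy, t, rfl⟩⟩
        have := bd X hX _ hx (by omega)
        omega
      · exact ⟨y, in2 y (by omega) b fun X hX hx => hy (bd X hX y hx a),
          Or.inl ⟨rfl, by omega, b⟩⟩
  have C : Cov (TW U k M β b0) (L2.length * (2 * (Q * Q))) {x | β ≤ x ∧ x ≤ β + L} := by
    refine (B.map (T' := TW U k M β b0) (fun y => β + (β + L') - y) fun X hX => ?_).sub ?_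
    · obtain ⟨D, hX⟩ := hX
      have := hX.refl (V := U) (c := β + (β + L')) fun i a b => (hP i a b).symm
      exact ⟨D, this.mono subset_rfl le_rfl (by omega) (by omega)⟩
    · rintro x ⟨a, b⟩
      show β + L' - L ≤ β + (β + L') - x ∧ β + (β + L') - x ≤ β + L'
      omega
  have hn : 2 * (Q * Q) * (L1.length + L2.length) ≤ 2 * (Q * Q) * n :=
    Nat.mul_le_mul_left _ (by omega)
  rcases le_total L1.length (L2.length * (2 * (Q * Q))) with e | e
  · exact ⟨_, A, by nlinarith⟩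
  · refine ⟨_, C, ?_⟩
    have := Nat.mul_le_mul_left (2 * (Q * Q)) e
    nlinarith

/-- The lengths of palindromes at `β` without a short period. -/
noncomputable def npal (U : ℤ → α) (β b0 : ℤ) : Finset ℤ :=
  (Finset.Icc 0 (b0 - β)).filter fun L => Pal U β (β + L) ∧ NP U β L

theorem mem_npal {β b0 L : ℤ} :
    L ∈ npal U β b0 ↔ (0 ≤ L ∧ L ≤ b0 - β) ∧ Pal U β (β + L) ∧ NP U β L := by
  simp [npal]

theorem npal_gap {β b0 L1 L2 : ℤ} (h1 : L1 ∈ npal U β b0) (h2 : L2 ∈ npal U β b0) (h : L1 < L2) :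
    L2 < 10 * (L2 - L1) := by
  obtain ⟨a1, a2, -⟩ := mem_npal.1 h1
  obtain ⟨b1, b2, b3⟩ := mem_npal.1 h2
  by_contra hc
  refine b3 (L2 - L1) (by omega) (by omega) fun i a b => ?_
  rw [a2 i a (by omega), b2 _ (by omega) (by omega)]
  congr 1; ring

theorem npal_few {β b0 L' : ℤ} (hL' : 0 < L') :
    ((npal U β b0).filter fun L => L ≤ L' ∧ L' < 4 * L).card ≤ 31 := by
  have hc : (Finset.Icc (10 : ℤ) 40).card = 31 := by simp
  rw [← hc]
  have key : ∀ x ∈ (npal U β b0).filter fun L => L ≤ L' ∧ L' < 4 * L,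
      ∀ y ∈ (npal U β b0).filter fun L => L ≤ L' ∧ L' < 4 * L, x < y →
      40 * x / L' < 40 * y / L' := by
    intro x hx y hy hxy
    obtain ⟨a1, a2⟩ := Finset.mem_filter.1 hx
    obtain ⟨b1, b2⟩ := Finset.mem_filter.1 hy
    have g := npal_gap a1 b1 hxy
    have := Int.ediv_le_ediv hL' (show 40 * x + 1 * L' ≤ 40 * y by omega)
    rw [Int.add_mul_ediv_right _ _ hL'.ne'] at this
    omega
  refine Finset.card_le_card_of_injOn (fun x => 40 * x / L') ?_ ?_
  · intro x hx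
    obtain ⟨a1, a2⟩ := Finset.mem_filter.1 (Finset.mem_coe.1 hx)
    refine Finset.mem_coe.2 (Finset.mem_Icc.2 ⟨?_, ?_⟩)
    · exact Int.le_ediv_of_mul_le hL' (by omega)
    · exact Int.ediv_le_of_le_mul hL' (by omega)
  · intro x hx y hy hxy
    rcases lt_trichotomy x y with e | e | e
    · exact absurd hxy (key x hx y hy e).ne
    · exact e
    · exact absurd hxy (key y hy x hx e).ne'

theorem npal_chain (hk : 5 ≤ k) (hQ : (k + 2) * (M + 1) ≤ Q) {β b0 : ℤ}
    (hM : ∀ X a b, β ≤ a → b ≤ b0 → TW U k (M + 1) a b X → TW U k M a b X) (j : ℕ) :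
    ∀ L' ∈ npal U β b0, ∀ n, Cov (TW U k M β b0) n {x | β ≤ x ∧ x ≤ β + L'} →
      31 * j + 1 ≤ ((npal U β b0).filter fun L => L ≤ L').card →
      (2 * (Q * Q) + 1) ^ j ≤ (2 * (Q * Q)) ^ j * n := by
  induction j with
  | zero =>
    intro L' hL' n h _
    have := (mem_npal.1 hL').1.1
    simpa using h.pos (x := β) ⟨le_rfl, by omega⟩
  | succ j ih =>
    intro L' hL' n h hc
    obtain ⟨a1, a2, a3⟩ := mem_npal.1 hL'
    have hpos : 0 < L' := by
      by_contra e
      have : ((npal U β b0).filter fun L => L ≤ L').card ≤ 1 :=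
        Finset.card_le_one.2 fun x hx y hy => by
          obtain ⟨b1, b2⟩ := Finset.mem_filter.1 hx
          obtain ⟨b3, b4⟩ := Finset.mem_filter.1 hy
          have := (mem_npal.1 b1).1.1
          have := (mem_npal.1 b3).1.1
          omega
      omega
    have hA : 31 * j + 1 ≤ ((npal U β b0).filter fun L => 4 * L ≤ L').card := by
      have h1 := npal_few (U := U) (β := β) (b0 := b0) hpos
      have h2 : ((npal U β b0).filter fun L => L ≤ L') ⊆
          ((npal U β b0).filter fun L => 4 * L ≤ L') ∪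
            ((npal U β b0).filter fun L => L ≤ L' ∧ L' < 4 * L) := by
        intro x hx
        simp only [Finset.mem_filter, Finset.mem_union] at hx ⊢
        by_cases e : 4 * x ≤ L'
        · exact Or.inl ⟨hx.1, e⟩
        · exact Or.inr ⟨hx.1, hx.2, by omega⟩
      have h3 := (Finset.card_le_card h2).trans (Finset.card_union_le _ _)
      omega
    have hne : ((npal U β b0).filter fun L => 4 * L ≤ L').Nonempty :=
      Finset.card_pos.1 (by omega)
    obtain ⟨b1, b2⟩ := Finset.mem_filter.1 (Finset.max'_mem _ hne)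
    obtain ⟨n', c1, c2⟩ := growth hk hQ hM (mem_npal.1 b1).1.1 b2 hpos (by omega) a2 a3 h
    have c3 := ih _ b1 n' c1 (hA.trans (Finset.card_le_card fun x hx =>
      Finset.mem_filter.2 ⟨(Finset.mem_filter.1 hx).1, Finset.le_max' _ x hx⟩))
    calc (2 * (Q * Q) + 1) ^ (j + 1) = (2 * (Q * Q) + 1) ^ j * (2 * (Q * Q) + 1) := pow_succ _ _
      _ ≤ (2 * (Q * Q)) ^ j * n' * (2 * (Q * Q) + 1) := Nat.mul_le_mul_right _ c3
      _ = (2 * (Q * Q)) ^ j * ((2 * (Q * Q) + 1) * n') := by ring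
      _ ≤ (2 * (Q * Q)) ^ j * (2 * (Q * Q) * n) := Nat.mul_le_mul_left _ c2
      _ = _ := by ring

theorem bern (t j : ℕ) : t ^ j * (t + j) ≤ (t + 1) ^ j * t := by
  induction j with
  | zero => simp
  | succ j ih =>
    calc t ^ (j + 1) * (t + (j + 1)) = t ^ j * (t * (t + j + 1)) := by ring
      _ ≤ t ^ j * ((t + j) * (t + 1)) := Nat.mul_le_mul_left _ (by nlinarith)
      _ = t ^ j * (t + j) * (t + 1) := by ring
      _ ≤ (t + 1) ^ j * t * (t + 1) := Nat.mul_le_mul_right _ ih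
      _ = _ := by ring

theorem npal_card (hk : 5 ≤ k) (hQ : (k + 2) * (M + 1) ≤ Q) {β b0 : ℤ} {n s : ℕ}
    (hM : ∀ X a b, β ≤ a → b ≤ b0 → TW U k (M + 1) a b X → TW U k M a b X)
    (h : Cov (TW U k M β b0) n {x | β ≤ x ∧ x ≤ b0}) (hs : n < 2 ^ s) :
    (npal U β b0).card ≤ 31 * (2 * (Q * Q) * s) := by
  by_contra hc
  have hne : (npal U β b0).Nonempty := Finset.card_pos.1 (by omega)
  have hm := Finset.max'_mem _ hne
  have h1 := npal_chain hk hQ hM (2 * (Q * Q) * s) _ hm n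
    (h.sub fun x hx => ⟨hx.1, by have := hx.2; have := (mem_npal.1 hm).1.2; omega⟩)
    (by rw [Finset.filter_true_of_mem fun x hx => Finset.le_max' _ x hx]; omega)
  have hQ0 : 0 < Q := lt_of_lt_of_le (by positivity) hQ
  generalize ht : 2 * (Q * Q) = t at h1
  have ht0 : 0 < t := by rw [← ht]; positivity
  have h2 : t ^ t * 2 ≤ (t + 1) ^ t := by
    have := bern t t
    exact Nat.le_of_mul_le_mul_right (by linarith) ht0
  have h3 := Nat.pow_le_pow_left h2 s
  rw [mul_pow, ← pow_mul, ← pow_mul] at h3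
  have h4 := Nat.le_of_mul_le_mul_left (h3.trans h1) (by positivity)
  omega

end Pool.Agent.P.MP_daaf23_co.Tow
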