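import Pool.Agent.P.MP_daaf23_co.TwD

/-! The palindromic neighbours of a tower are covered by few towers. -/

namespace Pool.Agent.P.MP_daaf23_co.Tow

open Classical

variable {α : Type*} {U : ℤ → α} {κ K M Q G : ℕ} {N : ℤ}

/-- The global bounds: depth of towers, number of periods and of aperiodic palindromes at a point. -/
structure Ctx (U : ℤ → α) (N : ℤ) (K M Q G : ℕ) : Prop where
  hM : ∀ κ m X a b, 0 ≤ a → b ≤ N → TW U κ m a b X → TW U κ M a b X
  hD : ∀ β (Δ : Finset ℤ), 0 ≤ β → (∀ d ∈ Δ, β + 10 * d ≤ N ∧ MinPer U d β (β + 10 * d)) →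
    Δ.card ≤ M
  hG : ∀ β b0, 0 ≤ β → b0 ≤ N → (npal U β b0).card ≤ G
  hQ : (K + 2) * (M + 1) ≤ Q

theorem Ctx.q (C : Ctx U N K M Q G) (hK : κ ≤ K) : (κ + 2) * (M + 1) ≤ Q :=
  (Nat.mul_le_mul_right _ (by omega)).trans C.hQ

/-- The cost of palindromes inside a run. -/
def cI (K Q : ℕ) : ℕ := Q * Q * (1 + 2 * ((K + 3) * (Q * Q)))

/-- The cost of palindromes across an anchor. -/
def cC (K M Q G : ℕ) : ℕ := G * (Q * Q) + M * (cI K Q + Q * Q)

theorem Ctx.inRun (C : Ctx U N K M Q G) (hk : 5 ≤ κ) (hK : κ ≤ K) {S : Set ℤ}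
    {a b a0 b0 δ l r : ℤ} (h : TW U κ M a b S) (hp : MinPer U δ l r) (h0 : 0 ≤ a0) (hN : b0 ≤ N)
    (hl : a0 ≤ l) (hr : r ≤ b0) : Cov (TW U κ M a0 b0) (cI K Q)
      {y | ∃ x ∈ S, l ≤ x ∧ y ≤ r ∧ x + δ ≤ y ∧ Pal U x y} :=
  (h.inRun hk (C.q hK) hp).mono
    (fun X hX => (C.hM _ _ X l r (by omega) (by omega) hX).mono hl hr)
    (by unfold cI; gcongr) subset_rfl

theorem Ctx.core (C : Ctx U N K M Q G) (hk : 5 ≤ κ) (hK : κ ≤ K) {S : Set ℤ} {a b a0 b0 : ℤ}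
    (h : TW U κ M a b S) (h0 : 0 ≤ a0) (hN : b0 ≤ N) (β : ℤ) :
    Cov (TW U κ M a0 b0) (cC K M Q G)
      {y | ∃ x ∈ S, a0 ≤ x ∧ x ≤ β ∧ 2 * β ≤ x + y ∧ y ≤ b0 ∧ Pal U x y} := by
  refine Cov.of_nonempty fun y1 hy1 => ?_
  have hβ : a0 ≤ β := by
    obtain ⟨x1, -, p1, p2, -⟩ := hy1
    omega
  have A := (Cov.finset (npal U β b0) _ fun L _ =>
    h.mirror hk (C.q hK) a0 b0 (2 * β + L)).mono (fun _ a => a)
      (Nat.mul_le_mul_right _ (C.hG β b0 (by omega) hN)) subset_rfl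
  have B0 : ∀ δ ∈ (Finset.Icc 1 (b0 - β)).filter
      fun d => β + 10 * d ≤ b0 ∧ MinPer U d β (β + 10 * d),
      Cov (TW U κ M a0 b0) (cI K Q + Q * Q) {y | ∃ x ∈ S, a0 ≤ x ∧ x ≤ β ∧ y ≤ b0 ∧ Pal U x y ∧
        β + 10 * δ ≤ x + y - β ∧ Per U δ β (x + y - β)} := by
    intro δ hδ
    obtain ⟨-, a1, a2⟩ := Finset.mem_filter.1 hδ
    have hd := a2.1
    obtain ⟨r, r1, r2, r3, r4⟩ := extR a2.2.1 a1
    obtain ⟨l, l1, l2, l3, l4⟩ := extL r3 hβ
    have hp := a2.sup l3 l1 r1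
    refine (C.inRun hk hK h hp h0 hN l2 r2).union (h.mirror hk (C.q hK) a0 b0 (l + r)) ?_
    rintro y ⟨x, b1, b2, b3, b4, b5, b6, b7⟩
    have b8 : x + y - β ≤ r := by
      by_contra hc
      rcases r4 with e | e
      · omega
      · apply e
        rw [b7 (r - δ) (by omega) (by omega)]; congr 1; ring
    rcases exceptional (x' := β) (y' := x + y - β) hd l3 l4 r4 b5 b2 b4 b3 (by ring) l1 b8
      (by omega) with e | e
    · exact Or.inl ⟨x, b1, e.1, e.2, by omega, b5⟩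
    · exact Or.inr ⟨x, b1, b2, by omega, b4, e, b5⟩
  have B := (Cov.finset _ _ B0).mono (fun _ a => a)
    (Nat.mul_le_mul_right _ (C.hD β _ (by omega) fun d hd => by
      obtain ⟨-, a1, a2⟩ := Finset.mem_filter.1 hd
      exact ⟨by omega, a2⟩)) subset_rfl
  refine A.union B ?_
  rintro y ⟨x, b1, b2, b3, b4, b5, b6⟩
  by_cases hn : NP U β (x + y - 2 * β)
  · refine Or.inl ⟨x + y - 2 * β, mem_npal.2 ⟨⟨by omega, by omega⟩, b6.sub b3 (by ring), hn⟩,
      x, b1, b2, by omega, b5, by ring, b6⟩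
  · unfold NP at hn
    push Not at hn
    obtain ⟨δ, c1, c2, c3⟩ := hn
    obtain ⟨e, c4, c5⟩ := exists_minPer c1 c3
    have c6 := c5.1
    refine Or.inr ⟨e, Finset.mem_filter.2 ⟨Finset.mem_Icc.2 ⟨by omega, by omega⟩, by omega,
      c5.sub le_rfl (by omega) (by omega)⟩, x, b1, b2, b3, b5, b6, by omega,
      c5.2.1.mono le_rfl (by omega)⟩

theorem Pal.trans_run {d l r x y : ℤ} (hp : Per U d l r) (hd : 0 < d) (h : Pal U x y) (t : ℤ)
    (h1 : l ≤ x) (h2 : y ≤ r) (h3 : l ≤ x + t * d) (h4 : y + t * d ≤ r) :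
    Pal U (x + t * d) (y + t * d) := fun i a b => by
  rw [← hp.int hd (i := i - t * d) t (by ring) (by omega) (by omega) (by omega) (by omega),
    h _ (by omega) (by omega)]
  exact hp.int hd t (by ring) (by omega) (by omega) (by omega) (by omega)

theorem beyond {d x r y : ℤ} (hd : 0 < d) (hp : Per U d x r) (h : Pal U x y) (hr : r ≤ y)
    (hs : x + y - r + d ≤ r) : Per U d x y := by
  have h1 := hp.refl (V := U) (c := x + y) hd.le fun i a b => (h i a (by omega)).symm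
  exact hp.glue (h1.mono le_rfl (by omega)) hs

theorem TW.margin {κ' m : ℕ} {a b : ℤ} {X : Set ℤ} (h : TW U κ m a b X) (hk : κ' ≤ κ) :
    TW U κ' m a b X := by
  obtain ⟨D, h⟩ := h
  exact ⟨D, h.margin hk⟩

theorem Ctx.deg (C : Ctx U N K M Q G) (hk : 5 ≤ κ) (hK : κ + 2 ≤ K) (m : ℕ) :
    ∀ (S : Set ℤ) (D a0 b0 : ℤ), 0 ≤ a0 → b0 ≤ N → Tw U (κ + 2) m S D a0 b0 →
    Cov (TW U κ M a0 b0) ((m + 1) * (cI K Q + cC K M Q G))
      {y | ∃ x ∈ S, x ≤ y ∧ y ≤ b0 ∧ Pal U x y} := by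
  have hpt : ∀ (m : ℕ) (S : Set ℤ) (a0 b0 z : ℤ), 0 ≤ a0 → b0 ≤ N → a0 ≤ z → z ≤ b0 →
      (∀ x ∈ S, x = z) → Cov (TW U κ M a0 b0) ((m + 1) * (cI K Q + cC K M Q G))
      {y | ∃ x ∈ S, x ≤ y ∧ y ≤ b0 ∧ Pal U x y} := by
    intro m S a0 b0 z h0 hN h1 h2 h3
    refine (C.core hk (by omega) (S := S) ⟨0, .pt z h1 h2 h3⟩ h0 hN z).mono (fun _ a => a)
      (by nlinarith) ?_
    rintro y ⟨x, a1, a2, a3, a4⟩
    have := h3 x a1
    exact ⟨x, a1, by omega, by omega, by omega, a3, a4⟩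
  induction m with
  | zero =>
    intro S D a0 b0 h0 hN h
    cases h with
    | pt z h1 h2 h3 => exact hpt 0 S a0 b0 z h0 hN h1 h2 h3
  | succ m ih =>
    intro S D a0 b0 h0 hN h
    have hT : TW U κ M a0 b0 S := (C.hM _ _ S a0 b0 h0 hN ⟨D, h⟩).margin (by omega)
    cases h with
    | pt z h1 h2 h3 => exact hpt _ S a0 b0 z h0 hN h1 h2 h3
    | @lev _ _ S0 _ _ _ d l r g0 h1 h2 h3 h4 h5 h6 =>
      have hd := h1.1
      have hkd := kd_ge hk hd
      push_cast at hkd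
      have h7 : ∀ x ∈ S, l + κ * d + 2 * d ≤ x ∧ x + κ * d + 2 * d ≤ r ∧ ∃ t, x + t * d ∈ S0 := by
        intro x hx
        obtain ⟨a1, a2, a3⟩ := h6 x hx
        push_cast at a1 a2
        exact ⟨by linarith, by linarith, a3⟩
      obtain ⟨l0, r0, c1, c2, c3, c4, c5⟩ := g0.tight h1 (by omega)
      obtain ⟨s, s1, s2⟩ := exists_shift hd l l0
      have t0 := (c4.trans_run h1.2.1 hd s c1 c2 s1 (by omega)).mono subset_rfl le_rfl s1
        (show r0 + s * d ≤ l + 5 * d by omega)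
      have A := (ih _ d l (l + 5 * d) (by omega) (by omega) t0).bind (T' := TW U κ M a0 b0) (k := 1)
        (fun y0 y => l + κ * d ≤ y ∧ y + κ * d ≤ r ∧ ∃ t, y + t * d = y0) fun Y hY => by
          obtain ⟨D', hY⟩ := hY
          refine Cov.single (C.hM _ (M + 1) _ a0 b0 h0 hN ⟨d + 1, .lev d l r
            ((hY.retop (D' := d) (by omega)).mono subset_rfl le_rfl le_rfl (by omega)) h1 h2
            (by omega) h4 h5 fun y hy => ?_⟩) subset_rfl
          obtain ⟨x, a1, a2, a3, t, a4⟩ := hy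
          exact ⟨a2, a3, t, a4 ▸ a1⟩
      obtain ⟨r', r1, r2, r3, r4⟩ := extR h1.2.1 h5
      have B := C.inRun hk (by omega) hT (h1.sup r3 le_rfl r1) h0 hN h4 r2
      have E := C.core hk (by omega) hT h0 hN (r - κ * d)
      refine ((A.union B (S := _) fun x hx => hx).union E ?_).mono (fun _ a => a)
        (by nlinarith) subset_rfl
      rintro y ⟨x, a1, a2, a3, a4⟩
      obtain ⟨b1, b2, t, b3⟩ := h7 x a1
      by_cases e1 : y < x + 2 * d
      · obtain ⟨b4, b5⟩ := c5 _ b3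
        have b6 := (c4.mem b3).1
        have e : (t + s) * d = t * d + s * d := by ring
        refine Or.inl (Or.inl ⟨y + (t + s) * d, ⟨x + (t + s) * d, ?_, by omega, by omega,
          a4.trans_run h1.2.1 hd _ (by omega) (by omega) (by omega) (by omega)⟩, by omega, by omega,
          t + s, rfl⟩)
        show x + (t + s) * d - s * d ∈ S0
        rwa [show x + (t + s) * d - s * d = x + t * d by ring]
      by_cases e2 : y ≤ r'
      · exact Or.inl (Or.inr ⟨x, a1, by omega, e2, by omega, a4⟩)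
      refine Or.inr ⟨x, a1, by omega, by omega, ?_, a3, a4⟩
      by_contra hc
      have hy := beyond hd (h1.2.1.mono (show l ≤ x by omega) le_rfl) a4 (by omega) (by omega)
      rcases r4 with e | e
      · omega
      · apply e
        rw [hy (r' - d) (by omega) (by omega)]; congr 1; ring

/-- The positions reached from `0` by `j` palindromes inside `[0, N]`. -/
def Ball (U : ℤ → α) (N : ℤ) : ℕ → Set ℤ
  | 0 => {0}
  | j + 1 => {y | ∃ x ∈ Ball U N j, x ≤ y ∧ y ≤ N ∧ Pal U x y}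

theorem Ctx.ball (C : Ctx U N K M Q G) (hN : 0 ≤ N) (j : ℕ) : ∀ κ, 5 ≤ κ → κ + 2 * j ≤ K →
    Cov (TW U κ M 0 N) (((M + 1) * (cI K Q + cC K M Q G)) ^ j) (Ball U N j) := by
  induction j with
  | zero =>
    intro κ _ _
    exact Cov.single ⟨0, .pt 0 le_rfl hN fun x hx => hx⟩ subset_rfl
  | succ j ih =>
    intro κ hk hK
    rw [pow_succ]
    exact (ih (κ + 2) (by omega) (by omega)).bind (fun x y => x ≤ y ∧ y ≤ N ∧ Pal U x y)
      fun X hX => by
        obtain ⟨D, hX⟩ := hX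
        exact C.deg hk (by omega) M X D 0 N le_rfl le_rfl hX

end Pool.Agent.P.MP_daaf23_co.Tow
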