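import Pool.Agent.P.MP_daaf23_co.TwE

/-! The bootstrap: few positions of a word with short palindromic factorisations of all initial
factors are not centres of high powers. -/

namespace Pool.Agent.P.MP_daaf23_co.Tow

open Classical

variable {α : Type*} {U : ℤ → α}

theorem num1 {K M Q G Z : ℕ} (hQ : Q ≤ Z) (hK : K + 3 ≤ Z) (hM : M + 1 ≤ Z) (hZ : 14 ≤ Z)
    (hG : G = 31 * (2 * (Q * Q) * (2 * Q + M + 1))) :
    (M + 1) * (cI K Q + cC K M Q G) ≤ Z ^ 9 := by
  have h1 : cI K Q ≤ 3 * Z ^ 5 := by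
    unfold cI
    calc Q * Q * (1 + 2 * ((K + 3) * (Q * Q))) ≤ Z * Z * (Z ^ 3 + 2 * (Z * (Z * Z))) := by
          have : 1 ≤ Z ^ 3 := Nat.one_le_pow _ _ (by omega)
          gcongr
      _ = 3 * Z ^ 5 := by ring
  have h2 : G ≤ Z ^ 5 := by
    calc G ≤ 31 * (2 * (Z * Z) * (3 * Z)) := by
          rw [hG]
          have : 2 * Q + M + 1 ≤ 3 * Z := by omega
          gcongr
      _ = 186 * Z ^ 3 := by ring
      _ ≤ Z * Z * Z ^ 3 := Nat.mul_le_mul_right _ (by nlinarith)
      _ = Z ^ 5 := by ring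
  have p1 : ∀ i, 14 * Z ^ i ≤ Z ^ (i + 1) := fun i => by
    rw [pow_succ, mul_comm]; exact Nat.mul_le_mul_left _ hZ
  have h3 : Q * Q ≤ Z ^ 2 := by rw [sq]; gcongr
  have h4 : cC K M Q G ≤ Z ^ 7 + 4 * Z ^ 6 := by
    unfold cC
    have a1 : G * (Q * Q) ≤ Z ^ 5 * Z ^ 2 := Nat.mul_le_mul h2 h3
    have a2 : cI K Q + Q * Q ≤ 4 * Z ^ 5 := by
      have := p1 2; have := p1 3; have := p1 4
      norm_num at *; omega
    have a3 : M * (cI K Q + Q * Q) ≤ Z * (4 * Z ^ 5) := Nat.mul_le_mul (by omega) a2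
    calc _ ≤ Z ^ 5 * Z ^ 2 + Z * (4 * Z ^ 5) := Nat.add_le_add a1 a3
      _ = _ := by ring
  have h5 : cI K Q + cC K M Q G ≤ Z ^ 8 := by
    have := p1 5; have := p1 6; have := p1 7
    norm_num at *; omega
  calc _ ≤ Z * Z ^ 8 := Nat.mul_le_mul hM h5
    _ = _ := by ring

theorem num2 {A M P ν : ℕ} (hA : 2 * P + 7 ≤ A) (h1 : 2 ^ M ≤ ν)
    (h2 : ν ≤ ((A * (M + 2)) ^ 9) ^ P) : ν ≤ (8 * A) ^ (27 * P) := by
  have ht : M + 2 ≤ 361 * A ^ 2 := by
    by_contra hc
    have s1 := Nat.sqrt_le (M + 2)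
    have s2 := Nat.lt_succ_sqrt (M + 2)
    generalize Nat.sqrt (M + 2) = u at s1 s2
    simp only [Nat.succ_eq_add_one] at s2
    have a1 : 19 * A ≤ u := by
      by_contra e
      have : (u + 1) * (u + 1) ≤ (19 * A) * (19 * A) := Nat.mul_le_mul (by omega) (by omega)
      nlinarith
    have a2 : A * (M + 2) ≤ (2 ^ u) ^ 3 := by
      have b1 : u + 1 ≤ 2 ^ u := Nat.lt_two_pow_self
      calc A * (M + 2) ≤ (u + 1) * ((u + 1) * (u + 1)) := Nat.mul_le_mul (by omega) s2.le
        _ ≤ 2 ^ u * (2 ^ u * 2 ^ u) := by gcongr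
        _ = _ := by ring
    have a3 : 2 ^ M ≤ 2 ^ (u * 3 * 9 * P) := by
      rw [pow_mul, pow_mul, pow_mul]
      exact h1.trans (h2.trans (by gcongr))
    have a4 := (Nat.pow_le_pow_iff_right (by norm_num)).1 a3
    nlinarith
  calc ν ≤ ((A * (361 * A ^ 2)) ^ 9) ^ P := h2.trans (by gcongr)
    _ ≤ (((8 * A) ^ 3) ^ 9) ^ P := by
        gcongr
        nlinarith [Nat.zero_le (A ^ 3)]
    _ = _ := by rw [← pow_mul, ← pow_mul]; congr 1; ring

theorem cnt_cov {k n : ℕ} {N : ℤ} (hk : 1 ≤ k)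
    (h : Cov (fun X => ∃ m, TW U k m 0 N X) n {x | 0 ≤ x ∧ x ≤ N}) :
    cnt U k (N + 1) 0 (N + 1) ≤ n := by
  obtain ⟨L, h1, h2, h3⟩ := h
  choose! f hf using h3
  refine le_trans ?_ ((List.toFinset_card_le L).trans h1)
  unfold cnt
  refine Finset.card_le_card_of_injOn f ?_ ?_
  · intro x hx
    simp only [Finset.coe_filter, Finset.mem_Ico, Set.mem_ofPred_eq] at hx
    simpa using (hf x ⟨hx.1.1, by omega⟩).1
  · intro x hx y hy hxy
    simp only [Finset.coe_filter, Finset.mem_Ico, Set.mem_ofPred_eq] at hx hy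
    by_contra hne
    obtain ⟨a1, a2⟩ := hf x ⟨hx.1.1, by omega⟩
    obtain ⟨-, a3⟩ := hf y ⟨hy.1.1, by omega⟩
    obtain ⟨m, D, a4⟩ := h2 _ a1
    obtain ⟨d, l, r, c1, c2, c3, c4⟩ := a4.two a2 (hxy ▸ a3) hne
    obtain ⟨c5, c6⟩ := c4 x a2
    have := kd_ge hk c1.1
    push_cast at this
    exact hx.2 ⟨d, c1.1, by omega, c1.2.1.mono (by omega) (by omega)⟩

theorem main_cnt {k P : ℕ} {N : ℤ} (hk : 5 ≤ k) (hN : 0 ≤ N) (hU : GMin U (N + 1))
    (hB : ∀ x, 0 ≤ x → x ≤ N → x ∈ Ball U N P) :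
    cnt U k (N + 1) 0 (N + 1) ≤ (8 * (k + 2 * P + 2)) ^ (27 * P) := by
  have hex : ∃ n, Cov (fun X => ∃ m, TW U k m 0 N X) n {x | 0 ≤ x ∧ x ≤ N} := by
    refine ⟨_, (Cov.finset (Finset.Icc 0 N) (fun z => {z}) (k := 1) fun z hz => ?_).sub ?_⟩
    · obtain ⟨a, b⟩ := Finset.mem_Icc.1 hz
      exact Cov.single ⟨0, 0, .pt z a b fun x hx => hx⟩ subset_rfl
    · exact fun x hx => ⟨x, Finset.mem_Icc.2 hx, rfl⟩
  have h1 := Nat.find_spec hex
  have h2 := fun n => Nat.find_min' hex (m := n)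
  generalize Nat.find hex = ν at h1 h2
  have hE := cnt_cov (by omega) h1
  have hν : 1 ≤ ν := h1.pos (x := 0) ⟨le_rfl, hN⟩
  have hlog : ∀ m, 2 ^ m ≤ cnt U k (N + 1) 0 (N + 1) → m ≤ Nat.log 2 ν := fun m hm =>
    Nat.le_log_of_pow_le (by norm_num) (hm.trans hE)
  have l1 : 2 ^ Nat.log 2 ν ≤ ν := Nat.pow_log_le_self 2 (by omega)
  have l2 : ν < 2 ^ (Nat.log 2 ν + 1) := Nat.lt_pow_succ_log_self (by norm_num) ν
  generalize Nat.log 2 ν = M at hlog l1 l2
  have hM : ∀ κ m X a b, 0 ≤ a → b ≤ N → TW U κ m a b X → TW U κ M a b X := by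
    rintro κ m X a b ha hb ⟨D, h⟩
    obtain ⟨m', j1, j2⟩ := depth hk m U (N + 1) a b X hU (h.retop (by omega))
    exact ⟨_, j1.le (hlog m' j2)⟩
  obtain ⟨Q, hQ⟩ : ∃ Q, Q = (k + 2 * P + 2) * (M + 1) := ⟨_, rfl⟩
  have hQ' : (k + 2) * (M + 1) ≤ Q := hQ ▸ Nat.mul_le_mul_right _ (by omega)
  have C : Ctx U N (k + 2 * P) M Q (31 * (2 * (Q * Q) * (2 * Q + M + 1))) := by
    refine ⟨hM, fun β Δ hβ h => hlog _ (periods hk β _ U (N + 1) Δ rfl hU fun d hd => ?_),
      fun β b0 hβ hb => ?_, hQ.ge⟩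
    · obtain ⟨a1, a2⟩ := h d hd
      have := a2.1
      exact ⟨by omega, a2⟩
    · have c1 := (h1.bind (T' := TW U k M β b0) (k := Q * Q)
        (fun x y => x = y ∧ β ≤ y ∧ y ≤ b0) fun X hX => by
          obtain ⟨m, hX⟩ := hX
          refine ((hM k m X 0 N le_rfl le_rfl hX).cut hk hQ' β b0).sub ?_
          rintro y ⟨x, a, rfl, b⟩
          exact ⟨a, b⟩).sub (S' := {x | β ≤ x ∧ x ≤ b0})
        fun x hx => ⟨x, ⟨by have := hx.1; omega, by have := hx.2; omega⟩, rfl, hx⟩
      refine npal_card hk hQ' (fun X a b ha hb' hX => hM k _ X a b (by omega) (by omega) hX) c1 ?_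
      have b1 : Q < 2 ^ Q := Nat.lt_two_pow_self
      calc ν * (Q * Q) ≤ ν * (2 ^ Q * 2 ^ Q) := by gcongr
        _ < 2 ^ (M + 1) * (2 ^ Q * 2 ^ Q) := Nat.mul_lt_mul_of_pos_right l2 (by positivity)
        _ = _ := by ring
  have h3 := h2 _ ((C.ball hN P k hk le_rfl).mono (fun X hX => ⟨M, hX⟩) le_rfl
    fun x hx => hB x hx.1 hx.2)
  have h4 := num1 (K := k + 2 * P) (M := M) (Q := Q) (Z := (k + 2 * P + 2) * (M + 2))
    (hQ ▸ Nat.mul_le_mul_left _ (by omega)) (by nlinarith) (by nlinarith) (by nlinarith) rfl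
  exact hE.trans (num2 (by omega) l1 (h3.trans (Nat.pow_le_pow_left h4 P)))

theorem Ball.step {N x : ℤ} {j : ℕ} (hN : x ≤ N) (h : x ∈ Ball U N j) (i : ℕ) :
    x ∈ Ball U N (j + i) := by
  induction i with
  | zero => exact h
  | succ i ih => exact ⟨x, ih, le_rfl, hN, fun t a b => by omega⟩

variable {A : Type*}

/-- The first `N` letters of `w` and a marker, repeated periodically. -/
def per (w : ℕ → A) (N : ℕ) : ℤ → Option A :=
  fun i => if i % (N + 1) = N then none else some (w (i % (N + 1)).toNat)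

theorem per_eq (w : ℕ → A) (N : ℕ) {i : ℤ} (h1 : 0 ≤ i) (h2 : i < N) :
    per w N i = some (w i.toNat) := by
  unfold per
  rw [Int.emod_eq_of_lt h1 (by omega), if_neg (by omega)]

theorem per_per (w : ℕ → A) (N : ℕ) (i : ℤ) : per w N i = per w N (i + (N + 1)) := by
  unfold per
  rw [Int.add_emod_right]

theorem per_N (w : ℕ → A) (N : ℕ) : per w N N = none := by
  unfold per
  rw [Int.emod_eq_of_lt (by omega) (by omega), if_pos rfl]

theorem per_neg (w : ℕ → A) (N : ℕ) : per w N (-1) = none := by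
  rw [per_per, show (-1 : ℤ) + (N + 1) = N by ring, per_N]

theorem per_gmin (w : ℕ → A) (N : ℕ) : GMin (per w N) (N + 1) := by
  refine ⟨by omega, per_per w N, fun e h1 h2 h => ?_⟩
  have := h (-1)
  rw [per_neg, per_eq w N (by omega) (by omega)] at this
  exact absurd this (by simp)

theorem pal_of_list (w : ℕ → A) (N s n : ℕ) (hs : s + n ≤ N)
    (h : ((List.range' s n).map w).Palindrome) : Pal (per w N) s (s + n) := by
  intro i a b
  rw [per_eq w N (by omega) (by omega), per_eq w N (by omega) (by omega)]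
  have e := h.reverse_eq
  have hi : (i - s).toNat < n := by omega
  have := congrArg (fun l => l[(i - s).toNat]?) e
  simp only [List.getElem?_reverse (show (i - s).toNat < ((List.range' s n).map w).length by
    simpa using hi), List.length_map, List.length_range', List.getElem?_map] at this
  rw [List.getElem?_range' (by omega), List.getElem?_range' hi] at this
  simp only [Option.map_some] at this
  rw [show i.toNat = s + 1 * (i - s).toNat by omega, ← this]
  congr 2; omega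

theorem ball_of_list (w : ℕ → A) (N : ℕ) (L : List (List A)) : ∀ s n j : ℕ, s + n ≤ N →
    (∀ x ∈ L, x.Palindrome) → L.flatten = (List.range' s n).map w → (s : ℤ) ∈ Ball (per w N) N j →
    ((s + n : ℕ) : ℤ) ∈ Ball (per w N) N (j + L.length) := by
  induction L with
  | nil =>
    intro s n j _ _ h hs
    have : n = 0 := by simpa using congrArg List.length h.symm
    subst this
    simpa using hs
  | cons p L ih =>
    intro s n j hn hp h hs
    have hl : p.length ≤ n := by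
      have := congrArg List.length h
      simp at this; omega
    obtain ⟨n', rfl⟩ := Nat.exists_eq_add_of_le hl
    rw [List.flatten_cons, ← List.range'_append_1, List.map_append] at h
    obtain ⟨e1, e2⟩ := List.append_inj h (by simp)
    have h1 := pal_of_list w N s p.length (by omega) (e1 ▸ hp p (by simp))
    have h2 := ih (s + p.length) n' (j + 1) (by omega) (fun x hx => hp x (by simp [hx])) e2
      ⟨s, hs, by push_cast; omega, by push_cast; omega, by push_cast; exact h1⟩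
    rw [show s + (p.length + n') = s + p.length + n' by ring,
      show j + (p :: L).length = j + 1 + L.length by simp; ring]
    exact h2

theorem final (w : ℕ → A) (N P k : ℕ)
    (h : ∀ n ≤ N, ∃ L : List (List A), L.length ≤ P ∧ (∀ x ∈ L, List.Palindrome x) ∧
      L.flatten = (List.range n).map w) :
    Set.ncard {x : ℕ | x ≤ N ∧ ¬ ∃ d, 0 < d ∧ k * d ≤ x ∧ x + k * d ≤ N ∧
      ∀ i, x ≤ i + k * d → i + d < x + k * d → w i = w (i + d)} ≤
      (56 * (k + P + 1)) ^ (27 * P) := by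
  have h1 := main_cnt (U := per w N) (k := k + 5) (P := P) (N := N) (by omega) (by omega)
    (per_gmin w N) fun x a b => by
      obtain ⟨n, rfl⟩ := Int.eq_ofNat_of_zero_le a
      obtain ⟨L, c1, c2, c3⟩ := h n (by omega)
      have := ball_of_list w N L 0 n 0 (by omega) c2 (by rwa [← List.range_eq_range']) rfl
      obtain ⟨i, rfl⟩ := Nat.exists_eq_add_of_le c1
      simpa using Ball.step (by omega) this i
  refine le_trans ?_ (h1.trans (Nat.pow_le_pow_left (by omega) _))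
  unfold cnt
  rw [← Set.ncard_coe_finset]
  refine Set.ncard_le_ncard_of_injOn (fun x : ℕ => (x : ℤ)) ?_ (fun x _ y _ e => by
    simpa using e) (Finset.finite_toSet _)
  rintro x ⟨a1, a2⟩
  simp only [Finset.coe_filter, Finset.mem_Ico, Set.mem_ofPred_eq]
  refine ⟨⟨by omega, by omega⟩, ?_⟩
  rintro ⟨d, d1, d2, d3⟩
  obtain ⟨e, rfl⟩ := Int.eq_ofNat_of_zero_le d1.le
  have hkd : ((k + 5 : ℕ) : ℤ) * e = ((k * e : ℕ) : ℤ) + 5 * e := by push_cast; ring
  rw [hkd] at d3
  have b1 : k * e + 5 * e ≤ x := by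
    by_contra hc
    have := d3 (-1) (by omega) (by omega)
    rw [per_neg, per_eq w N (by omega) (by omega)] at this
    exact absurd this (by simp)
  have b2 : x + k * e + 5 * e ≤ N := by
    by_contra hc
    have := d3 (N - e) (by omega) (by omega)
    rw [show (N : ℤ) - e + e = N by ring, per_N, per_eq w N (by omega) (by omega)] at this
    exact absurd this (by simp)
  refine a2 ⟨e, by omega, by omega, by omega, fun i c1 c2 => ?_⟩
  have := d3 i (by omega) (by omega)
  rw [per_eq w N (by omega) (by omega), per_eq w N (by omega) (by omega)] at this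
  rw [show (i : ℤ).toNat = i by omega, show ((i : ℤ) + e).toNat = i + e by omega] at this
  exact Option.some.inj this

end Pool.Agent.P.MP_daaf23_co.Tow
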