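import Pool.Agent.P.MP_daaf23_co.TwF

/-! A word that is not ultimately periodic has infinitely many positions that are not centres of
tenth powers. -/

namespace Pool.Agent.P.MP_daaf23_co.Tow

open Classical

variable {α : Type*} {U : ℤ → α}

theorem no_chain {x0 : ℤ} (hap : ∀ d l, 0 < d → ∃ r, ¬ Per U d l r)
    (hd : ∀ x, x0 ≤ x → ∃ d, 0 < d ∧ 0 ≤ x - 5 * d ∧ Per U d (x - 5 * d) (x + 5 * d)) (n : ℕ) :
    ∀ d l r : ℤ, 0 ≤ l → l < n → MinPer U d l r → 10 * d ≤ r - l → x0 + 3 * d ≤ r → False := by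
  induction n with
  | zero => intro d l r h1 h2; omega
  | succ n ih =>
    intro d l r h1 h2 hp hlen hx
    have hd0 := hp.1
    obtain ⟨b, hb⟩ := hap d l hd0
    have hrb : r ≤ b := by
      by_contra hc
      exact hb (hp.2.1.mono le_rfl (by omega))
    obtain ⟨r', r1, r2, r3, r4⟩ := extR hp.2.1 hrb
    have r5 : U (r' - d) ≠ U r' := by
      rcases r4 with e | e
      · exact absurd (e ▸ r3) hb
      · exact e
    have hp' := hp.sup r3 le_rfl r1
    have c1 := (cnt_pos' (k := 5) le_rfl hp'.gmin).trans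
      (cnt_le (q := r' - 3 * d) hd0 (fun i => ext_per i) le_rfl)
    obtain ⟨x, c2⟩ := Finset.card_pos.1 c1
    simp only [Finset.mem_filter, Finset.mem_Ico] at c2
    obtain ⟨⟨c2, c3⟩, c4⟩ := c2
    obtain ⟨e0, e1, e2, e3⟩ := hd x (by omega)
    obtain ⟨e, e4, e5⟩ := exists_minPer e1 e3
    have he := e5.1
    have e6 := e5.sub (l' := x - 5 * e) (r' := x + 5 * e) (by omega) (by omega) (by omega)
    rcases lt_trichotomy e d with f | f | f
    · by_cases hin : l ≤ x - 5 * e ∧ x + 5 * e ≤ r'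
      · exact c4 ⟨e, he, f, e6.2.1.congr he.le fun i a b =>
          ext_eq r3 hd0 i (by push_cast at a; omega) (by push_cast at b; omega)⟩
      · have := hp'.fw he (l' := max l (x - 5 * e)) (r' := min r' (x + 5 * e))
          (e6.2.1.mono (by omega) (by omega)) (by omega) (by omega) (by omega)
        omega
    · subst f
      apply r5
      rw [e6.2.1 (r' - e) (by omega) (by omega)]; congr 1; ring
    · have i1 : x - 5 * e < l := by
        by_contra hc
        have := e6.fw hd0 (r3.mono (l' := x - 5 * e) (r' := x) (by omega) (by omega)) le_rfl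
          (by omega) (by omega)
        omega
      exact ih e _ _ (by omega) (by push_cast at h2; omega) e6 (by omega) (by omega)

theorem infinite_noncentre {A : Type*} (w : ℕ → A) (k : ℕ) (hk : 5 ≤ k)
    (hw : ¬ ∃ p s, 0 < p ∧ ∀ i, s ≤ i → w i = w (i + p)) :
    Set.Infinite {x : ℕ | ¬ ∃ d, 0 < d ∧ k * d ≤ x ∧
      ∀ i, x ≤ i + k * d → i + d < x + k * d → w i = w (i + d)} := by
  intro hf
  obtain ⟨x1, hx1⟩ := hf.bddAbove
  have hd : ∀ x : ℤ, (x1 + 1 : ℕ) ≤ x → ∃ d, 0 < d ∧ 0 ≤ x - 5 * d ∧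
      Per (fun i : ℤ => w i.toNat) d (x - 5 * d) (x + 5 * d) := by
    intro x hx
    obtain ⟨y, rfl⟩ := Int.eq_ofNat_of_zero_le (a := x) (by omega)
    have : ∃ d, 0 < d ∧ k * d ≤ y ∧
        ∀ i, y ≤ i + k * d → i + d < y + k * d → w i = w (i + d) := by
      by_contra hc
      have := hx1 hc
      omega
    obtain ⟨d, d1, d2, d3⟩ := this
    have := Nat.mul_le_mul_right d hk
    refine ⟨d, by omega, by omega, fun i a b => ?_⟩
    show w i.toNat = w (i + d).toNat
    rw [d3 i.toNat (by omega) (by omega)]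
    congr 1; omega
  obtain ⟨d, d1, d2, d3⟩ := hd _ le_rfl
  obtain ⟨e, e4, e5⟩ := exists_minPer d1 d3
  refine no_chain (x0 := (x1 + 1 : ℕ)) (fun d l h => ?_) hd (x1 + 1) e _ _ d2 (by omega) e5
    (by omega) (by omega)
  by_contra hc
  push Not at hc
  refine hw ⟨d.toNat, l.toNat, by omega, fun i hi => ?_⟩
  have := hc (i + d + 1) i (by omega) (by omega)
  simp only at this
  rw [show (i : ℤ).toNat = i by omega, show ((i : ℤ) + d).toNat = i + d.toNat by omega] at this
  exact this

end Pool.Agent.P.MP_daaf23_co.Tow
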