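import Pool.Agent.P.MP_daaf23_co.Count

/-! From words to lines. -/

set_option autoImplicit false

namespace Pool.Agent.P.MP_daaf23_co

variable {A : Type}

/-- the first `N` letters of `w`, surrounded by new letters -/
def line (w : ℕ → A) (N : ℕ) : ℤ → A ⊕ ℤ :=
  fun i => if 0 ≤ i ∧ i < N then Sum.inl (w i.toNat) else Sum.inr i

theorem line_of_lt (w : ℕ → A) {N i : ℕ} (h : i < N) : line w N i = Sum.inl (w i) := by
  unfold line
  rw [if_pos ⟨by omega, by omega⟩]
  simp

theorem map_range_add (w : ℕ → A) (a m n : ℕ) : (List.range (m + n)).map (fun j => w (a + j)) =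
    (List.range m).map (fun j => w (a + j)) ++ (List.range n).map (fun j => w (a + m + j)) := by
  rw [List.range_add, List.map_append, List.map_map]
  simp only [Function.comp_def, Nat.add_assoc]

theorem power_of_period (w : ℕ → A) (d k : ℕ) : ∀ a, (∀ i, a ≤ i → i < a + k * d → w i = w (i + d)) →
    (List.range (k * d)).map (fun j => w (a + j)) =
      (List.replicate k ((List.range d).map (fun j => w (a + j)))).flatten := by
  induction k with
  | zero => intro a _; simp
  | succ k ih =>
    intro a h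
    have e : (k + 1) * d = d + k * d := by ring
    rw [e] at h
    rw [e, map_range_add, List.replicate_succ, List.flatten_cons,
      ih (a + d) fun i h1 h2 => h i (by omega) (by omega)]
    congr 3
    refine List.map_congr_left fun j hj => ?_
    have := List.mem_range.1 hj
    rw [h (a + j) (by omega) (by omega)]
    congr 1
    omega

theorem pf_line {w : ℕ → A} {k N : ℕ} (hk : 1 ≤ k)
    (h : ∀ (u : List A) (i n : ℕ), u ≠ [] → i + n ≤ N →
      (List.range n).map (fun j => w (i + j)) ≠ (List.replicate k u).flatten) :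
    PF k (line w N) := by
  intro d hd a
  have hkd : d ≤ k * d := le_mul_of_one_le_left hd.le (by exact_mod_cast hk)
  have out : ∀ i : ℤ, ¬ (0 ≤ i ∧ i < N) → ∀ i' : ℤ, i' ≠ i → line w N i' ≠ line w N i := by
    intro i hi i' hne e
    unfold line at e
    rw [if_neg hi] at e
    split_ifs at e with h'
    exact hne (Sum.inr.inj e)
  by_cases h1 : a < 0
  · exact ⟨a, le_rfl, by omega, (out a (by omega) _ (by omega)).symm⟩
  by_cases h2 : N ≤ a + k * d - 1 + d
  · exact ⟨a + k * d - 1, by omega, by omega, out _ (by omega) _ (by omega)⟩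
  by_contra hc
  push Not at hc
  obtain ⟨a, rfl⟩ := Int.eq_ofNat_of_zero_le (show 0 ≤ a by omega)
  obtain ⟨d, rfl⟩ := Int.eq_ofNat_of_zero_le hd.le
  have e : ((k * d : ℕ) : ℤ) = k * d := by push_cast; rfl
  rw [← e] at h2 hc hkd
  refine h _ a (k * d) ?_ (by omega) (power_of_period w d k a fun i i1 i2 => ?_)
  · intro e'
    have := congrArg List.length e'
    simp at this
    omega
  · have := hc i (by omega) (by omega)
    rw [show (i : ℤ) + d = ((i + d : ℕ) : ℤ) by push_cast; rfl, line_of_lt w (by omega),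
      line_of_lt w (by omega)] at this
    exact Sum.inl.inj this

theorem pal_line {w : ℕ → A} {N s m : ℕ} (hN : s + m ≤ N)
    (h : List.Palindrome ((List.range m).map (fun j => w (s + j)))) :
    Pal (line w N) s ((s + m : ℕ) : ℤ) := by
  intro i h1 h2
  obtain ⟨t, rfl⟩ : ∃ t : ℕ, i = ((s + t : ℕ) : ℤ) := ⟨(i - s).toNat, by omega⟩
  have ht : t < m := by omega
  rw [show (s : ℤ) + ((s + m : ℕ) : ℤ) - 1 - ((s + t : ℕ) : ℤ) = ((s + (m - 1 - t) : ℕ) : ℤ) by omega,
    line_of_lt w (by omega), line_of_lt w (by omega)]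
  have e : ((List.range m).map (fun j => w (s + j))).reverse[t]? =
      ((List.range m).map (fun j => w (s + j)))[t]? := by rw [h.reverse_eq]
  rw [List.getElem?_reverse (by simpa using ht)] at e
  simp only [List.length_map, List.length_range, List.getElem?_map] at e
  rw [List.getElem?_range ht, List.getElem?_range (by omega)] at e
  simpa using e.symm

theorem path_line {w : ℕ → A} {N : ℕ} (L : List (List A)) (hL : ∀ x ∈ L, List.Palindrome x) :
    ∀ s n : ℕ, s + n ≤ N → L.flatten = (List.range n).map (fun j => w (s + j)) →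
      Path (line w N) [] s ((s + n : ℕ) : ℤ) L.length := by
  induction L with
  | nil =>
    intro s n _ e
    have := congrArg List.length e
    simp at this
    subst this
    exact Path.nil _ _ _
  | cons x L ih =>
    intro s n hN e
    have h1 : x.length ≤ n := by
      have := congrArg List.length e
      simp at this
      omega
    obtain ⟨n', rfl⟩ := Nat.exists_eq_add_of_le h1
    rw [List.flatten_cons, map_range_add] at e
    obtain ⟨e1, e2⟩ := List.append_inj e (by simp)
    have h2 := ih (fun y hy => hL y (by simp [hy])) (s + x.length) n' (by omega) e2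
    rw [Nat.add_assoc] at h2
    exact h2.step (pal_line (by omega) (e1 ▸ hL x (by simp)))

theorem size_le {k : ℕ} (hk : 1 ≤ k) (P : ℕ) :
    5 * (k + 1) * 32 ^ ((8 + Nat.clog 2 (k + 1)) * (P + 1)) ≤ (512 * k) ^ (6 * (P + 1)) := by
  have h1 : 2 ^ (Nat.clog 2 (k + 1) - 1) < k + 1 := Nat.pow_pred_clog_lt_self (by norm_num) (by omega)
  have h2 : 0 < Nat.clog 2 (k + 1) := Nat.clog_pos (by norm_num) (by omega)
  generalize Nat.clog 2 (k + 1) = c at *
  obtain ⟨c, rfl⟩ : ∃ c', c = c' + 1 := ⟨c - 1, by omega⟩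
  have h3 : 2 ^ c ≤ k := by simpa [Nat.lt_succ_iff] using h1
  have h4 : 5 * (k + 1) ≤ (16 * k) ^ (P + 1) :=
    le_trans (by omega) (Nat.le_self_pow (by omega) (16 * k))
  have h5 : 32 ^ (8 + (c + 1)) ≤ 2 ^ 45 * k ^ 5 := by
    have := Nat.pow_le_pow_left h3 5
    rw [show 32 ^ (8 + (c + 1)) = 2 ^ 45 * (2 ^ c) ^ 5 by
      rw [show (32 : ℕ) = 2 ^ 5 by norm_num, ← pow_mul, ← pow_mul, ← pow_add]
      congr 1
      ring]
    exact Nat.mul_le_mul_left _ this
  rw [pow_mul, pow_mul]
  refine le_trans (Nat.mul_le_mul h4 (Nat.pow_le_pow_left h5 _)) ?_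
  rw [← mul_pow]
  refine Nat.pow_le_pow_left ?_ _
  rw [mul_pow, show 16 * k * (2 ^ 45 * k ^ 5) = 2 ^ 49 * k ^ 6 by ring]
  exact Nat.mul_le_mul_right _ (by norm_num)

theorem main (w : ℕ → A) (k P : ℕ) (hk : 1 ≤ k)
    (h : ∀ (u : List A) (i n : ℕ), u ≠ [] → i + n ≤ (512 * k) ^ (6 * (P + 1)) →
      (List.range n).map (fun j => w (i + j)) ≠ (List.replicate k u).flatten) :
    ∃ n : ℕ, n ≤ (512 * k) ^ (6 * (P + 1)) ∧ ∀ L : List (List A),
      (∀ x ∈ L, List.Palindrome x) → L.flatten = (List.range n).map w → P < L.length := by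
  have h1 : k + 1 ≤ 2 ^ Nat.clog 2 (k + 1) := Nat.le_pow_clog (by norm_num) _
  obtain ⟨n, a1, a2⟩ := exists_far (gc := 21 + 2 * Nat.clog 2 (k + 1)) (by
      rw [pow_add, mul_comm 2 (Nat.clog 2 (k + 1)), pow_mul]
      exact Nat.mul_le_mul_left _ (Nat.pow_le_pow_left h1 2))
    (pf_line hk h) P ((8 + Nat.clog 2 (k + 1)) * (P + 1)) (by nlinarith)
  have a3 := a1.trans (size_le hk P)
  refine ⟨n, a3, fun L b1 b2 => ?_⟩
  by_contra hc
  have := path_line (w := w) (N := (512 * k) ^ (6 * (P + 1))) L b1 0 n (by omega)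
    (by simpa using b2)
  rw [Nat.zero_add] at this
  exact a2 (this.mono (by omega))

end Pool.Agent.P.MP_daaf23_co
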